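import Pool.Agent.Zk58.EK.CV2b

set_option autoImplicit false
set_option linter.unusedSectionVars false

/-!
Module CV2, conclusion.
-/

namespace Pool.Agent.Zk58.EK

open Finset MeasureTheory ProbabilityTheory Filter

open scoped BigOperators ENNReal Topology NNReal

variable {d : ℕ} {S : Type} [MeasurableSpace S] {μ : Measure S} [IsProbabilityMeasure μ] {ψ : S → ℝ}

theorem ind_bd (A : Set (Bond d → S)) (X : Bond d → S) :
    0 ≤ A.indicator (1 : (Bond d → S) → ℝ) X ∧ A.indicator (1 : (Bond d → S) → ℝ) X ≤ 1 := by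
  by_cases h : X ∈ A
  · rw [Set.indicator_of_mem h]
    simp
  · rw [Set.indicator_of_notMem h]
    simp

theorem frc_m {sg : ℕ → Bond d → Set (Bond d → S)} (h : IsSg ψ sg) (n : ℕ) (i : Fin d) :
    Measurable (frc sg n i) := by
  unfold frc
  refine Measurable.div_const ?_ _
  exact Finset.measurable_fun_sum _ fun y _ =>
    (measurable_one.indicator (h.1 n (y, i))).comp (th_meas _)

theorem frc_b (sg : ℕ → Bond d → Set (Bond d → S)) {n : ℕ} (hn : 0 < n) (i : Fin d)
    (X : Bond d → S) : 0 ≤ frc sg n i X ∧ frc sg n i X ≤ 1 := by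
  have hn' : (0 : ℝ) < (n : ℝ) ^ d := by positivity
  unfold frc
  constructor
  · exact div_nonneg (sum_nonneg fun y _ => (ind_bd _ _).1) hn'.le
  · rw [div_le_one hn']
    refine (sum_le_sum fun y _ => (ind_bd _ _).2).trans (le_of_eq ?_)
    rw [sum_const, card_cube, nsmul_eq_mul, mul_one]
    push_cast
    rfl

theorem int_bd {f : (Bond d → S) → ℝ} (hf : Measurable f) (hb : ∀ X, |f X| ≤ 1) :
    Integrable f (PX d μ) :=
  Integrable.of_bound hf.aestronglyMeasurable 1 (ae_of_all _ hb)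

theorem int_th {f : (Bond d → S) → ℝ} (hf : Measurable f) (x : Site d) :
    ∫ X, f (th x X) ∂(PX d μ) = ∫ X, f X ∂(PX d μ) := by
  have h2 := integral_map (μ := PX d μ) (th_meas (S := S) x).aemeasurable
    (f := f) (by rw [th_map]; exact hf.aestronglyMeasurable)
  rw [← h2, th_map]

theorem int_sum {f : (Bond d → S) → ℝ} (hf : Measurable f) (hb : ∀ X, |f X| ≤ 1) (N : ℕ) :
    ∫ X, ∑ x ∈ cube (0 : Site d) N, f (th x X) ∂(PX d μ) =
      (N : ℝ) ^ d * ∫ X, f X ∂(PX d μ) := by
  have hi : ∀ x ∈ cube (0 : Site d) N, Integrable (fun X => f (th x X)) (PX d μ) := fun x _ =>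
    int_bd (hf.comp (th_meas x)) fun X => hb _
  rw [integral_finsetSum _ hi]
  simp only [int_th hf]
  rw [sum_const, card_cube, nsmul_eq_mul]
  push_cast
  rfl

theorem DD_m {sg : ℕ → Bond d → Set (Bond d → S)} (h : IsSg ψ sg) (N n : ℕ) (i : Fin d) :
    Measurable (DD sg N n i) := by
  unfold DD
  exact Finset.measurable_fun_sum _ fun x _ =>
    ((measurable_one.indicator (h.1 N (x, i))).sub ((frc_m h n i).comp (th_meas x))).abs

theorem term_bd (sg : ℕ → Bond d → Set (Bond d → S)) (N : ℕ) {n : ℕ} (hn : 0 < n) (i : Fin d)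
    (x : Site d) (X : Bond d → S) :
    |(sg N (x, i)).indicator (1 : (Bond d → S) → ℝ) X - frc sg n i (th x X)| ≤ 1 := by
  have h1 := ind_bd (sg N (x, i)) X
  have h2 := frc_b sg hn i (th x X)
  rw [abs_le]
  constructor <;> linarith [h1.1, h1.2, h2.1, h2.2]

theorem DD_int {sg : ℕ → Bond d → Set (Bond d → S)} (h : IsSg ψ sg) (N : ℕ) {n : ℕ} (hn : 0 < n)
    (i : Fin d) : Integrable (DD sg N n i) (PX d μ) := by
  unfold DD
  refine integrable_finsetSum _ fun x _ => ?_
  refine int_bd ((measurable_one.indicator (h.1 N (x, i))).sub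
    ((frc_m h n i).comp (th_meas x))).abs fun X => ?_
  rw [abs_abs]
  exact term_bd sg N hn i x X

theorem ratio_N {d : ℕ} (m : ℕ) : Tendsto (fun N : ℕ => ((N : ℝ) ^ d - ((N - m : ℕ) : ℝ) ^ d) /
    (N : ℝ) ^ d) atTop (𝓝 0) := by
  have h1 : Tendsto (fun N : ℕ => ((N - m : ℕ) : ℝ) / (N : ℝ)) atTop (𝓝 1) := by
    have h2 : Tendsto (fun N : ℕ => 1 - (m : ℝ) / (N : ℝ)) atTop (𝓝 (1 - 0)) :=
      tendsto_const_nhds.sub (tendsto_const_nhds.div_atTop tendsto_natCast_atTop_atTop)
    rw [sub_zero] at h2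
    refine h2.congr' ?_
    filter_upwards [eventually_ge_atTop (m + 1)] with N hN
    have : (0 : ℝ) < N := by
      have : 0 < N := by omega
      exact_mod_cast this
    rw [Nat.cast_sub (by omega), sub_div, div_self this.ne']
  have h3 := (h1.pow d).const_sub 1
  rw [one_pow, sub_self] at h3
  refine h3.congr' ?_
  filter_upwards [eventually_gt_atTop 0] with N hN
  have : (0 : ℝ) < (N : ℝ) ^ d := by positivity
  rw [div_pow, sub_div, div_self this.ne']

theorem t_CV2 : S_CV2 := by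
  intro d hd S _ μ _ ψ hψ hψ2 hat hM sg hsg ε hε
  classical
  set e1 := ε / 16 with he1
  have he0 : 0 < e1 := by rw [he1]; linarith
  obtain ⟨C, hC, n1, h1⟩ := bad_mixed hd hψ hψ2 hat hM he0
  have hClim : Tendsto (fun n : ℕ => C / (n : ℝ) ^ d) atTop (𝓝 0) :=
    tendsto_const_nhds.div_atTop ((tendsto_pow_atTop (by omega)).comp tendsto_natCast_atTop_atTop)
  obtain ⟨n2, h2⟩ := eventually_atTop.1 (((hClim.eventually (gt_mem_nhds he0)).and
    (Ex_lim d he0)).and (eventually_gt_atTop 0))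
  have key : ∀ n ≥ max n1 n2, ∀ i : Fin d, ∀ᶠ N : ℕ in atTop,
      ∫ X, DD sg N n i X ∂(PX d μ) ≤ 4 * e1 * (N : ℝ) ^ d := by
    intro n hn i
    obtain ⟨⟨hCn, hExn⟩, hn0⟩ := h2 n ((le_max_right _ _).trans hn)
    obtain ⟨Bad, hB1, hB2⟩ := h1 n ((le_max_left _ _).trans hn)
    have hr := ratio_N (d := d) (n + 2)
    filter_upwards [hr.eventually (gt_mem_nhds he0), eventually_ge_atTop (n + 2)] with N hN1 hN2
    have hN' : (0 : ℝ) < (N : ℝ) ^ d := by
      have : 0 < N := by omega
      positivity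
    rw [div_lt_iff₀ hN'] at hN1
    have hEx : ((Ex (0 : Site d) n).card : ℝ) ≤ e1 * (n : ℝ) ^ d := by
      have h3 := hExn 0
      have h4 : (1 : ℝ) ≤ d := by
        have : 1 ≤ d := by omega
        exact_mod_cast this
      have h5 : (0 : ℝ) ≤ ((Ex (0 : Site d) n).card : ℝ) := by positivity
      nlinarith
    set B := toMeasurable (PX d μ) Bad with hB
    have hBm : MeasurableSet B := measurableSet_toMeasurable _ _
    have hBr : (PX d μ).real B ≤ e1 := by
      have : (PX d μ).real B = (PX d μ).real Bad := by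
        unfold Measure.real
        rw [hB, measure_toMeasurable]
      rw [this]
      exact hB1.trans hCn.le
    have hdet : ∀ X, DD sg N n i X ≤ 2 * e1 * (N : ℝ) ^ d +
        ∑ z ∈ cube (0 : Site d) N, B.indicator (1 : (Bond d → S) → ℝ) (th z X) +
          ((N : ℝ) ^ d - ((N - n - 2 : ℕ) : ℝ) ^ d) := fun X =>
      det hsg hn0 hN2 i X he0.le hEx fun Y hY => hB2 Y fun h => hY (subset_toMeasurable _ _ h)
    have hindb : ∀ X, |B.indicator (1 : (Bond d → S) → ℝ) X| ≤ 1 := fun X => by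
      rw [abs_of_nonneg (ind_bd B X).1]
      exact (ind_bd B X).2
    have hindm : Measurable (B.indicator (1 : (Bond d → S) → ℝ)) := measurable_one.indicator hBm
    have hsumi : Integrable (fun X => ∑ z ∈ cube (0 : Site d) N,
        B.indicator (1 : (Bond d → S) → ℝ) (th z X)) (PX d μ) :=
      integrable_finsetSum _ fun z _ => int_bd (hindm.comp (th_meas z)) fun X => hindb _
    have h3 : ∫ X, DD sg N n i X ∂(PX d μ) ≤ ∫ X, (2 * e1 * (N : ℝ) ^ d +
        ∑ z ∈ cube (0 : Site d) N, B.indicator (1 : (Bond d → S) → ℝ) (th z X) +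
          ((N : ℝ) ^ d - ((N - n - 2 : ℕ) : ℝ) ^ d)) ∂(PX d μ) :=
      integral_mono (DD_int hsg N hn0 i)
        (((integrable_const _).add hsumi).add (integrable_const _)) hdet
    have h4 : ∫ X, (2 * e1 * (N : ℝ) ^ d +
        ∑ z ∈ cube (0 : Site d) N, B.indicator (1 : (Bond d → S) → ℝ) (th z X) +
          ((N : ℝ) ^ d - ((N - n - 2 : ℕ) : ℝ) ^ d)) ∂(PX d μ) =
        2 * e1 * (N : ℝ) ^ d + (N : ℝ) ^ d * (PX d μ).real B +
          ((N : ℝ) ^ d - ((N - n - 2 : ℕ) : ℝ) ^ d) := by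
      have hA : Integrable (fun X => 2 * e1 * (N : ℝ) ^ d + ∑ z ∈ cube (0 : Site d) N,
          B.indicator (1 : (Bond d → S) → ℝ) (th z X)) (PX d μ) :=
        (integrable_const _).add hsumi
      have hB1' : ∫ X, ∑ z ∈ cube (0 : Site d) N, B.indicator (1 : (Bond d → S) → ℝ) (th z X)
          ∂(PX d μ) = (N : ℝ) ^ d * (PX d μ).real B := by
        rw [int_sum hindm hindb, integral_indicator_one hBm]
      rw [integral_add hA (integrable_const _),
        integral_add (integrable_const _) hsumi, hB1']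
      simp
    have h5 : (N - n - 2 : ℕ) = N - (n + 2) := by omega
    rw [h4, h5] at h3
    nlinarith [mul_le_mul_of_nonneg_left hBr hN'.le]
  refine ⟨max n1 n2, fun n hn n' hn' i => ?_⟩
  have hn0 : 0 < n := (h2 n ((le_max_right _ _).trans hn)).2
  have hn0' : 0 < n' := (h2 n' ((le_max_right _ _).trans hn')).2
  obtain ⟨N, ⟨hN1, hN2⟩, hN0⟩ := (((key n hn i).and (key n' hn' i)).and
    (eventually_gt_atTop 0)).exists
  have hN' : (0 : ℝ) < (N : ℝ) ^ d := by positivity
  have hf1 : ∀ X, |frc sg n i X - frc sg n' i X| ≤ 1 := by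
    intro X
    have a1 := frc_b sg hn0 i X
    have a2 := frc_b sg hn0' i X
    rw [abs_le]
    constructor <;> linarith [a1.1, a1.2, a2.1, a2.2]
  constructor
  · have h3 := int_sum (μ := μ) (f := fun X => |frc sg n i X - frc sg n' i X|)
      ((frc_m hsg n i).sub (frc_m hsg n' i)).abs (fun X => by rw [abs_abs]; exact hf1 X) N
    have h4 : ∫ X, ∑ x ∈ cube (0 : Site d) N, |frc sg n i (th x X) - frc sg n' i (th x X)|
        ∂(PX d μ) ≤ ∫ X, (DD sg N n i X + DD sg N n' i X) ∂(PX d μ) := by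
      refine integral_mono (integrable_finsetSum _ fun x _ => int_bd
        (((frc_m hsg n i).sub (frc_m hsg n' i)).abs.comp (th_meas x))
          fun X => by simp only [abs_abs]; exact hf1 _)
        ((DD_int hsg N hn0 i).add (DD_int hsg N hn0' i)) fun X => ?_
      unfold DD
      rw [← sum_add_distrib]
      refine sum_le_sum fun x _ => ?_
      have := abs_sub_le (frc sg n i (th x X))
        ((sg N (x, i)).indicator (1 : (Bond d → S) → ℝ) X) (frc sg n' i (th x X))
      rw [abs_sub_comm (frc sg n i (th x X)) ((sg N (x, i)).indicator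
        (1 : (Bond d → S) → ℝ) X)] at this
      exact this
    rw [h3, integral_add (DD_int hsg N hn0 i) (DD_int hsg N hn0' i)] at h4
    have h5 : (N : ℝ) ^ d * ∫ X, |frc sg n i X - frc sg n' i X| ∂(PX d μ) ≤
        (N : ℝ) ^ d * ε := by
      rw [he1] at hN1 hN2
      nlinarith
    exact le_of_mul_le_mul_left h5 hN'
  · have hq1 : ∀ X, |frc sg n i X * (1 - frc sg n i X)| ≤ 1 := by
      intro X
      have a1 := frc_b sg hn0 i X
      rw [abs_of_nonneg (mul_nonneg a1.1 (by linarith [a1.2]))]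
      nlinarith [a1.1, a1.2]
    have hqm : Measurable fun X => frc sg n i X * (1 - frc sg n i X) :=
      (frc_m hsg n i).mul ((frc_m hsg n i).const_sub 1)
    have h3 := int_sum (μ := μ) (f := fun X => frc sg n i X * (1 - frc sg n i X)) hqm hq1 N
    have h4 : ∫ X, ∑ x ∈ cube (0 : Site d) N, frc sg n i (th x X) * (1 - frc sg n i (th x X))
        ∂(PX d μ) ≤ ∫ X, DD sg N n i X ∂(PX d μ) := by
      refine integral_mono (integrable_finsetSum _ fun x _ => int_bd
        (hqm.comp (th_meas x)) fun X => hq1 _) (DD_int hsg N hn0 i) fun X => ?_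
      unfold DD
      refine sum_le_sum fun x _ => ?_
      have a1 := frc_b sg hn0 i (th x X)
      by_cases hx : X ∈ sg N (x, i)
      · rw [Set.indicator_of_mem hx, Pi.one_apply, abs_of_nonneg (by linarith [a1.2])]
        nlinarith [a1.1, a1.2]
      · rw [Set.indicator_of_notMem hx, zero_sub, abs_neg, abs_of_nonneg a1.1]
        nlinarith [a1.1, a1.2]
    rw [h3] at h4
    have h5 : (N : ℝ) ^ d * ∫ X, frc sg n i X * (1 - frc sg n i X) ∂(PX d μ) ≤
        (N : ℝ) ^ d * ε := by
      rw [he1] at hN1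
      nlinarith
    exact le_of_mul_le_mul_left h5 hN'

end Pool.Agent.Zk58.EK
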