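import Pool.Agent.Zk58.EK.Sel5

set_option autoImplicit false
set_option linter.unusedSectionVars false

/-!
Two dimensions: all ground states have the same averages of the bond variables over the sites with
a given environment (conclusion).
-/

namespace Pool.Agent.Zk58.EK

open Finset MeasureTheory ProbabilityTheory Filter

open scoped BigOperators ENNReal Topology NNReal symmDiff

variable {d k : ℕ} {S : Type} [MeasurableSpace S]

theorem sum_near {A B : Finset (Site d)} (h : A ⊆ B) {f : Site d → ℝ} (hf : ∀ x, |f x| ≤ 1) :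
    |∑ x ∈ B, f x - ∑ x ∈ A, f x| ≤ (B.card : ℝ) - A.card := by
  classical
  have h1 : ∑ x ∈ B, f x - ∑ x ∈ A, f x = ∑ x ∈ B \ A, f x := by
    rw [← sum_sdiff h]
    ring
  have h2 : ((B \ A).card : ℝ) = (B.card : ℝ) - A.card := by
    have := card_sdiff_add_card_eq_card h
    have h3 : ((B \ A).card : ℝ) + A.card = B.card := by exact_mod_cast this
    linarith
  rw [h1, ← h2]
  refine (abs_sum_le_sum_abs _ _).trans ((sum_le_sum fun x _ => hf x).trans ?_)
  rw [sum_const, nsmul_eq_mul, mul_one]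

theorem En_Fu0 (z : Site d) (i : Fin d) (U : Set (Bond d → S)) (X : Bond d → S) (n : ℕ)
    (σ : Cfg d 1) : En (Fu z i U) X (cube 0 n) σ =
      ∑ y ∈ cube z n, U.indicator (1 : (Bond d → S) → ℝ) (th y X) *
        (σ 0 y * σ 0 (tip ((y, i) : Bond d))) := by
  unfold En
  refine sum_bij' (fun x _ => z + x) (fun y _ => y - z) ?_ ?_ ?_ ?_ ?_
  · intro x hx
    rw [mem_cube] at hx ⊢
    intro j
    have := hx j
    simp only [Pi.zero_apply, zero_add, Pi.add_apply] at this ⊢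
    constructor <;> linarith [this.1, this.2]
  · intro x hx
    rw [mem_cube] at hx ⊢
    intro j
    have := hx j
    simp only [Pi.zero_apply, zero_add, Pi.sub_apply]
    constructor <;> linarith [this.1, this.2]
  · intro x _
    simp
  · intro x _
    simp
  · intro x _
    unfold Fu
    rw [th_th]
    unfold sh
    have e2 : tip ((z, i) : Bond d) + x = tip ((z + x, i) : Bond d) := by
      unfold tip
      simp only
      abel
    rw [e2]

theorem abs_term (i : Fin d) (U : Set (Bond d → S)) (X : Bond d → S) {ρ : Site d → ℝ}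
    (hρ : ∀ x, ρ x = 1 ∨ ρ x = -1) (y : Site d) :
    |U.indicator (1 : (Bond d → S) → ℝ) (th y X) * (ρ y * ρ (tip ((y, i) : Bond d)))| ≤ 1 := by
  rw [abs_mul, abs_one (hρ _) (hρ _), mul_one]
  by_cases h : th y X ∈ U
  · rw [Set.indicator_of_mem h, Pi.one_apply]
    norm_num
  · rw [Set.indicator_of_notMem h, abs_zero]
    exact zero_le_one

/-- The shift of the cube changes the sum by a boundary term. -/
theorem su_En (i : Fin 2) (U : Set (Bond 2 → S)) (X : Bond 2 → S) {n N : ℕ} (hn : N ≤ n)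
    {ρ : Site 2 → ℝ} (hρ : ∀ x, ρ x = 1 ∨ ρ x = -1) :
    |su i U n X ρ - En (Fu (fun _ => (N : ℤ)) i U) X (cube 0 n) (fun _ => ρ)| ≤ 4 * N * n := by
  rw [En_Fu0]
  unfold su
  set z : Site 2 := fun _ => (N : ℤ) with hz
  set f : Site 2 → ℝ := fun y => U.indicator (1 : (Bond 2 → S) → ℝ) (th y X) *
    (ρ y * ρ (tip ((y, i) : Bond 2))) with hf
  have hf1 : ∀ x, |f x| ≤ 1 := fun x => abs_term i U X hρ x
  have s1 : cube z (n - N) ⊆ cube (0 : Site 2) n := by
    intro x hx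
    rw [mem_cube] at hx ⊢
    intro j
    have := hx j
    simp only [hz, Pi.zero_apply, zero_add] at this ⊢
    rw [Nat.cast_sub hn] at this
    constructor <;> linarith [this.1, this.2]
  have s2 : cube z (n - N) ⊆ cube z n := by
    intro x hx
    rw [mem_cube] at hx ⊢
    intro j
    have := hx j
    rw [Nat.cast_sub hn] at this
    constructor <;> linarith [this.1, this.2]
  have h1 := sum_near s1 hf1
  have h2 := sum_near s2 hf1
  rw [card_cube, card_cube] at h1 h2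
  push_cast at h1 h2
  rw [Nat.cast_sub hn] at h1 h2
  have h3 : |∑ x ∈ cube (0 : Site 2) n, f x - ∑ x ∈ cube z n, f x| ≤
      |∑ x ∈ cube (0 : Site 2) n, f x - ∑ x ∈ cube z (n - N), f x| +
        |∑ x ∈ cube z n, f x - ∑ x ∈ cube z (n - N), f x| := by
    have := abs_sub_le (∑ x ∈ cube (0 : Site 2) n, f x) (∑ x ∈ cube z (n - N), f x)
      (∑ x ∈ cube z n, f x)
    rwa [abs_sub_comm (∑ x ∈ cube z (n - N), f x)] at this
  have h4 : (0 : ℝ) ≤ N := by positivity
  have h5 : (N : ℝ) ≤ n := by exact_mod_cast hn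
  refine h3.trans ?_
  nlinarith

theorem su_diff (i : Fin 2) (U U' : Set (Bond 2 → S)) (X : Bond 2 → S) (n : ℕ)
    {ρ : Site 2 → ℝ} (hρ : ∀ x, ρ x = 1 ∨ ρ x = -1) :
    |su i U n X ρ - su i U' n X ρ| ≤
      ∑ x ∈ cube (0 : Site 2) n, (U ∆ U').indicator (1 : (Bond 2 → S) → ℝ) (th x X) := by
  classical
  unfold su
  rw [← sum_sub_distrib]
  refine (abs_sum_le_sum_abs _ _).trans (sum_le_sum fun x _ => ?_)
  rw [← sub_mul, abs_mul, abs_one (hρ _) (hρ _), mul_one]
  by_cases h1 : th x X ∈ U <;> by_cases h2 : th x X ∈ U'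
  · have h3 : th x X ∉ U ∆ U' := by simp [Set.mem_symmDiff, h1, h2]
    rw [Set.indicator_of_mem h1, Set.indicator_of_mem h2, Set.indicator_of_notMem h3]
    simp
  · have h3 : th x X ∈ U ∆ U' := by simp [Set.mem_symmDiff, h1, h2]
    rw [Set.indicator_of_mem h1, Set.indicator_of_notMem h2, Set.indicator_of_mem h3]
    simp
  · have h3 : th x X ∈ U ∆ U' := by simp [Set.mem_symmDiff, h1, h2]
    rw [Set.indicator_of_notMem h1, Set.indicator_of_mem h2, Set.indicator_of_mem h3]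
    simp
  · have h3 : th x X ∉ U ∆ U' := by simp [Set.mem_symmDiff, h1, h2]
    rw [Set.indicator_of_notMem h1, Set.indicator_of_notMem h2, Set.indicator_of_notMem h3]
    simp

/-- All ground states have the same averages over the sites with a given environment. -/
theorem env_unique {v : ℝ≥0} (hv : v ≠ 0) {ν : Measure S} [IsProbabilityMeasure ν] {χ : S → ℝ}
    (hχ : Measurable χ) (hχ2 : MemLp χ 2 ν) {U : Set (Bond 2 → ℝ × S)} (hU : MeasurableSet U)
    (i : Fin 2) {ε : ℝ} (hε : 0 < ε) :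
    Tendsto (fun n : ℕ => (PX 2 (gm v ν)) {X | ∃ ρ τ : Site 2 → ℝ,
      CubeGS (fun e => pw χ (X e)) 0 n ρ ∧ CubeGS (fun e => pw χ (X e)) 0 n τ ∧
        ε * (n : ℝ) ^ 2 < |su i U n X ρ - su i U n X τ|}) atTop (𝓝 0) := by
  classical
  obtain ⟨E, U', hU', hE, hUU⟩ := Zk39.EKm.exists_local (gm v ν) hU
    (show 0 < ε / 16 by linarith)
  obtain ⟨N, hN⟩ := exists_box E
  have hψ := pw_meas hχ
  have hψ2 : MemLp (pw χ) 2 (gm v ν) := pw_mem hχ2
  have hG := Fu_good (μ := gm v ν) hU' hE i hN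
  obtain ⟨-, h0⟩ := cvx (gg (gm v ν) (pw χ) (2 * N + 2) (Fu (fun _ => (N : ℤ)) i U'))
    (gg_convex hψ hψ2 hG)
  obtain ⟨l, r, hle, hR, hL, hD, hr1, hl1, hlr⟩ := h0 0
  have hlr2 : l = r := Fu_diff hv hχ hχ2 hU' hE i hN hle hr1 hl1 hlr
  obtain ⟨t0, ht0, ht⟩ := hlr (ε / 8 / 2) (by linarith)
  obtain ⟨δ, hδ, C, hC, n0, hB⟩ := near_tail (l := l) (r := r) hψ hψ2 hG
    (show 0 < ε / 8 by linarith) ht0
    (fun t h1 h2 => by simpa using (ht t h1 h2).1) (fun t h1 h2 => by simpa using (ht t h1 h2).2)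
  choose! Bad hB1 hB2 using fun n hn => hB n hn (0 : Site 2)
  have hlln := Zk39.EKm.t_LLN 2 (ℝ × S) (gm v ν) (U ∆ U') (by norm_num) (hU.symmDiff hU') (ε / 16)
    (by linarith)
  have hBad : Tendsto (fun n : ℕ => ENNReal.ofReal (C / (n : ℝ) ^ 2)) atTop (𝓝 0) := by
    have h1 : Tendsto (fun n : ℕ => C / (n : ℝ) ^ 2) atTop (𝓝 0) :=
      tendsto_const_nhds.div_atTop ((tendsto_pow_atTop (by norm_num)).comp
        tendsto_natCast_atTop_atTop)
    simpa using ENNReal.tendsto_ofReal h1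
  have hsum := hlln.add hBad
  rw [add_zero] at hsum
  refine tendsto_of_tendsto_of_tendsto_of_le_of_le' tendsto_const_nhds hsum
    (Eventually.of_forall fun _ => zero_le) ?_
  filter_upwards [eventually_ge_atTop n0, eventually_ge_atTop (N + 1),
    eventually_ge_atTop ⌈32 * N / ε⌉₊] with n hn hnN hnb
  have hn1 : (0 : ℝ) < n := by
    have : 0 < n := by omega
    exact_mod_cast this
  have hnb' : 32 * N / ε ≤ n := (Nat.le_ceil _).trans (by exact_mod_cast hnb)
  have hBm : (PX 2 (gm v ν)) (Bad n) ≤ ENNReal.ofReal (C / (n : ℝ) ^ 2) := by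
    rw [← ENNReal.ofReal_toReal (measure_ne_top _ (Bad n))]
    exact ENNReal.ofReal_le_ofReal (hB1 n hn)
  refine (measure_mono ?_).trans ((measure_union_le _ _).trans (add_le_add le_rfl hBm))
  intro X hX
  by_contra hcon
  simp only [Set.mem_union, Set.mem_ofPred_eq, not_or, not_le] at hcon
  obtain ⟨ρ, τ, hρ, hτ, hd⟩ := hX
  obtain ⟨hW, hXB⟩ := hcon
  obtain ⟨q1, q2⟩ := hB2 n hn X hXB
  have hρB : BoxGS (k := 1) (fun e => pw χ (X e)) 0 n (fun _ => ρ) :=
    ⟨fun _ => hρ.1, fun _ A hA => hρ.2 A hA⟩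
  have hτB : BoxGS (k := 1) (fun e => pw χ (X e)) 0 n (fun _ => τ) :=
    ⟨fun _ => hτ.1, fun _ A hA => hτ.2 A hA⟩
  have b1 := q1 _ hρB.1 (q2 _ hρB)
  have b2 := q1 _ hτB.1 (q2 _ hτB)
  have c1 := abs_le.1 (su_En i U' X (show N ≤ n by omega) hρ.1)
  have c2 := abs_le.1 (su_En i U' X (show N ≤ n by omega) hτ.1)
  have a1 := abs_le.1 (su_diff i U U' X n hρ.1)
  have a2 := abs_le.1 (su_diff i U U' X n hτ.1)
  have hn2 : (0 : ℝ) ≤ (n : ℝ) ^ 2 := by positivity
  have hUU2 := mul_le_mul_of_nonneg_right hUU hn2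
  have hNn : 4 * (N : ℝ) * n ≤ ε / 8 * (n : ℝ) ^ 2 := by
    rw [div_le_iff₀ hε] at hnb'
    nlinarith
  rw [hlr2] at b1 b2
  apply absurd hd
  rw [not_lt, abs_le]
  constructor <;> nlinarith [b1.1, b1.2, b2.1, b2.2, c1.1, c1.2, c2.1, c2.2, a1.1, a1.2, a2.1, a2.2]

end Pool.Agent.Zk58.EK
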