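import Pool.Agent.Zk58.EK.Sel6

set_option autoImplicit false
set_option linter.unusedSectionVars false

/-!
Modules for the converse: macroscopic uniqueness implies a covariant choice.
-/

namespace Pool.Agent.Zk58.EK

open Finset MeasureTheory ProbabilityTheory Filter

open scoped BigOperators ENNReal Topology NNReal

/-- `sg n e` is the event that the bond `e` is plus in a chosen free ground state of `[0, n)^d`. -/
def IsSg {d : ℕ} {S : Type} [MeasurableSpace S] (ψ : S → ℝ)
    (sg : ℕ → Bond d → Set (Bond d → S)) : Prop :=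
  (∀ n e, MeasurableSet (sg n e)) ∧ ∀ (X : Bond d → S) (n : ℕ), ∃ ρ : Site d → ℝ,
    NearGS (fun e => ψ (X e)) 0 0 n ρ ∧
      ∀ e ∈ bonds (cube (0 : Site d) n), ρ e.1 * ρ (tip e) = 1 ↔ X ∈ sg n e

/-- Module CV1: a measurable choice exists. Proof: (1) a measurable argmax: for measurable
`f : ι → Ω → ℝ` and a nonempty finset `P` there is `a : Ω → ι` with values in `P`, with
`f b ω ≤ f (a ω) ω` for `b ∈ P`, and with measurable `{ω | a ω = b}` (induction on `P`);
(2) `ι = Finset (Site d)`, `P = (cube 0 n).powerset`, `f A X = W (ψ ∘ X) (cube 0 n) (sp A)`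
(Geo.lean); (3) `sg n e` is the union over `A ∈ P` with `sp A e.1 * sp A (tip e) = 1` of
`{X | a X = A}`. -/
def S_CV1 : Prop := ∀ (d : ℕ) (S : Type) [MeasurableSpace S] (ψ : S → ℝ), Measurable ψ →
  ∃ sg : ℕ → Bond d → Set (Bond d → S), IsSg ψ sg

/-- The fraction of the cubes `[0, n)^d - y`, `y ∈ [0, n)^d`, in which the bond `(0, i)` is plus. -/
noncomputable def frc {d : ℕ} {S : Type} (sg : ℕ → Bond d → Set (Bond d → S)) (n : ℕ) (i : Fin d)
    (X : Bond d → S) : ℝ :=
  (∑ y ∈ cube (0 : Site d) n, (sg n (y, i)).indicator (1 : (Bond d → S) → ℝ) (th (-y) X)) /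
    (n : ℝ) ^ d

/-- Module CV2 (helper58). -/
def S_CV2 : Prop := ∀ (d : ℕ), 2 ≤ d → ∀ (S : Type) [MeasurableSpace S] (μ : Measure S)
  [IsProbabilityMeasure μ] (ψ : S → ℝ), Measurable ψ → MemLp ψ 2 μ →
    (∀ t : ℝ, μ {s | ψ s = t} = 0) → MacroUnique μ ψ d →
    ∀ sg : ℕ → Bond d → Set (Bond d → S), IsSg ψ sg → ∀ ε : ℝ, 0 < ε → ∃ n0 : ℕ,
      ∀ n ≥ n0, ∀ n' ≥ n0, ∀ i : Fin d,
        ∫ X, |frc sg n i X - frc sg n' i X| ∂(PX d μ) ≤ ε ∧
          ∫ X, frc sg n i X * (1 - frc sg n i X) ∂(PX d μ) ≤ ε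

/-- Module CV3: the covariant choice. Proof: choose a subsequence `n_k` with
`∑ E |frc n_{k+1} - frc n_k| < ∞` and `∑ E frc n_k (1 - frc n_k) < ∞`: for almost all `X` and all
`x`, `i` the numbers `frc n_k i (th x X)` converge to `0` or `1`. `U i` is the set of the `X` for
which `limsup frc n_k i X > 1 / 2`. For such an `X` and every finite window: for large `k` there is
`y` with the window in the interior of `[0, n_k)^d - y` such that the free ground state of this
cube (`IsSg` at `th (-y) X`) has on all bonds `e` of the window the sign given by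
`th e.1 X ∈ U e.2` (the fractions of the wrong `y` tend to `0`, also after the shift by
`x = e.1`). So there are configurations `σ m` with `AGS ψ R F m` (even `0 ≤ bs`) and with the right
signs in `Bx d m`; `S_CPT` (Cpt.lean) and `tie` (Tie.lean) give the ground state. -/
def S_CV3 : Prop := ∀ (d : ℕ), 2 ≤ d → ∀ (S : Type) [MeasurableSpace S] (μ : Measure S)
  [IsProbabilityMeasure μ] (ψ : S → ℝ), Measurable ψ → (∀ t : ℝ, μ {s | ψ s = t} = 0) →
    ∀ sg : ℕ → Bond d → Set (Bond d → S), IsSg ψ sg →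
    (∀ ε : ℝ, 0 < ε → ∃ n0 : ℕ, ∀ n ≥ n0, ∀ n' ≥ n0, ∀ i : Fin d,
        ∫ X, |frc sg n i X - frc sg n' i X| ∂(PX d μ) ≤ ε ∧
          ∫ X, frc sg n i X * (1 - frc sg n i X) ∂(PX d μ) ≤ ε) →
    CovariantChoice μ ψ d

end Pool.Agent.Zk58.EK
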