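import Pool.Agent.Zk58.EK.Pert

set_option autoImplicit false
set_option linter.unusedSectionVars false

/-!
Pairs of ground states: equivalence of macroscopic uniqueness, asymptotic essential uniqueness,
stability of the ground states in cubes, and differentiability.
-/

namespace Pool.Agent.Zk58.EK

open Finset MeasureTheory ProbabilityTheory Filter

open scoped BigOperators ENNReal Topology

variable {d k : ℕ} {S : Type}

theorem exists_free (J : Bond d → ℝ) (c : Site d) (n : ℕ) : ∃ ρ, NearGS J 0 c n ρ := by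
  obtain ⟨A, -, hA⟩ := exists_G J (cube c n)
  refine ⟨sp A, sp_val A, fun τ hτ => ?_⟩
  have := le_G (J := J) (B := cube c n) hτ
  rw [hA] at this
  rw [zero_mul, add_zero]
  exact this

theorem near_W {J : Bond d → ℝ} {δ : ℝ} {c : Site d} {n : ℕ} {ρ τ : Site d → ℝ}
    (hρ : NearGS J δ c n ρ) (hτ : ∀ x, τ x = 1 ∨ τ x = -1) :
    W J (cube c n) τ ≤ W J (cube c n) ρ + δ * (n : ℝ) ^ d := hρ.2 τ hτ

theorem bonds_sub (c : Site d) (n : ℕ) :
    bonds (cube c n) ⊆ cube c n ×ˢ (Finset.univ : Finset (Fin d)) := by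
  intro e he
  rw [mem_bonds] at he
  exact mem_product.2 ⟨he.1, mem_univ _⟩

theorem w_W (J : Bond d → ℝ) (c : Site d) (n : ℕ) {ρ : Site d → ℝ}
    (hρ : ∀ x, ρ x = 1 ∨ ρ x = -1) :
    |w J (cube c n) ρ - W J (cube c n) ρ| ≤
      ∑ e ∈ Ex c n ×ˢ (Finset.univ : Finset (Fin d)), |J e| := by
  classical
  have h1 : w J (cube c n) ρ - W J (cube c n) ρ =
      ∑ e ∈ (cube c n ×ˢ (Finset.univ : Finset (Fin d))) \ bonds (cube c n),
        J e * (ρ e.1 * ρ (tip e)) := by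
    unfold w W
    rw [← sum_sdiff (bonds_sub c n)]
    ring
  rw [h1]
  refine (abs_sum_le_sum_abs _ _).trans ?_
  calc ∑ e ∈ (cube c n ×ˢ (Finset.univ : Finset (Fin d))) \ bonds (cube c n),
        |J e * (ρ e.1 * ρ (tip e))|
      = ∑ e ∈ (cube c n ×ˢ (Finset.univ : Finset (Fin d))) \ bonds (cube c n), |J e| := by
        refine sum_congr rfl fun e _ => ?_
        rw [abs_mul, abs_one (hρ _) (hρ _), mul_one]
    _ ≤ _ := by
        refine sum_le_sum_of_subset_of_nonneg ?_ fun e _ _ => abs_nonneg _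
        intro e he
        have h1 := Finset.mem_sdiff.1 he
        have h2 := mem_product.1 h1.1
        rw [mem_product]
        exact ⟨Ex_out h2.1 fun h => h1.2 (mem_bonds.2 ⟨h2.1, h⟩), h2.2⟩

theorem W_diff {J J' : Bond d → ℝ} {c : Site d} {n : ℕ} {ρ : Site d → ℝ}
    (hρ : ∀ x, ρ x = 1 ∨ ρ x = -1) :
    |W J (cube c n) ρ - W J' (cube c n) ρ| ≤ ∑ e ∈ bonds (cube c n), |J' e - J e| := by
  unfold W
  rw [← sum_sub_distrib]
  refine (abs_sum_le_sum_abs _ _).trans (sum_le_sum fun e _ => ?_)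
  rw [← sub_mul, abs_mul, abs_one (hρ _) (hρ _), mul_one, abs_sub_comm]

theorem sum_sup {J J' : Bond d → ℝ} (c : Site d) (n : ℕ) {δ : ℝ} (hδ : 0 ≤ δ)
    (h : ∀ e, |J' e - J e| ≤ δ) :
    ∑ e ∈ bonds (cube c n), |J' e - J e| ≤ δ * (d * (n : ℝ) ^ d) := by
  calc ∑ e ∈ bonds (cube c n), |J' e - J e| ≤ ∑ e ∈ bonds (cube c n), δ :=
        sum_le_sum fun e _ => h e
    _ = ((bonds (cube c n)).card : ℝ) * δ := by rw [sum_const, nsmul_eq_mul]
    _ ≤ δ * (d * (n : ℝ) ^ d) := by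
        rw [mul_comm]
        refine mul_le_mul_of_nonneg_left ?_ hδ
        exact_mod_cast card_bonds_le c n

/-- Ground states of perturbed couplings are nearly optimal. -/
theorem near_pert {J J' : Bond d → ℝ} {c : Site d} {n : ℕ} {ρ : Site d → ℝ}
    (hρ : NearGS J' 0 c n ρ) {δ : ℝ}
    (h : 2 * ∑ e ∈ bonds (cube c n), |J' e - J e| ≤ δ * (n : ℝ) ^ d) :
    NearGS J δ c n ρ := by
  refine ⟨hρ.1, fun τ hτ => ?_⟩
  change W J (cube c n) τ ≤ W J (cube c n) ρ + δ * (n : ℝ) ^ d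
  have h3 := abs_le.1 (W_diff (J := J) (J' := J') (c := c) (n := n) hρ.1)
  have h4 := abs_le.1 (W_diff (J := J) (J' := J') (c := c) (n := n) hτ)
  have h5 := near_W hρ hτ
  rw [zero_mul, add_zero] at h5
  linarith [h3.1, h3.2, h4.1, h4.2]

theorem dif_comm (c : Site d) (n : ℕ) (ρ τ : Site d → ℝ) : dif c n ρ τ = dif c n τ ρ := by
  classical
  unfold dif
  congr 1
  ext e
  rw [mem_filter, mem_filter]
  exact and_congr_right fun _ => ne_comm

theorem dif_triangle (c : Site d) (n : ℕ) (ρ σ τ : Site d → ℝ) :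
    dif c n ρ τ ≤ dif c n ρ σ + dif c n σ τ := by
  classical
  unfold dif
  refine le_trans (card_le_card ?_) (card_union_le _ _)
  intro e he
  rw [mem_union, mem_filter, mem_filter]
  rw [mem_filter] at he
  by_cases h : ρ e.1 * ρ (tip e) = σ e.1 * σ (tip e)
  · right
    refine ⟨he.1, ?_⟩
    rw [← h]
    exact he.2
  · left
    exact ⟨he.1, h⟩

/-- A ground state is close to the free ground states of suitable perturbed couplings. -/
theorem close_to_gs {J : Bond d → ℝ} {c : Site d} {n : ℕ} {τ σ : Site d → ℝ}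
    (hτ : CubeGS J c n τ) {δ : ℝ} (hδ : 0 < δ)
    (hσ : NearGS (fun e => J e + δ * (τ e.1 * τ (tip e))) 0 c n σ) :
    2 * δ * (dif c n τ σ : ℝ) ≤
      6 * (∑ e ∈ Ex c n ×ˢ (Finset.univ : Finset (Fin d)), |J e|) +
        2 * δ * (d * ((Ex c n).card : ℝ)) := by
  classical
  have hval : ∀ ρ : Site d → ℝ, W (fun e => J e + δ * (τ e.1 * τ (tip e))) (cube c n) ρ =
      W J (cube c n) ρ + δ * ∑ e ∈ bonds (cube c n), (τ e.1 * τ (tip e)) *
        (ρ e.1 * ρ (tip e)) := by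
    intro ρ
    unfold W
    rw [mul_sum, ← sum_add_distrib]
    refine sum_congr rfl fun e _ => ?_
    ring
  have h1 : W (fun e => J e + δ * (τ e.1 * τ (tip e))) (cube c n) τ ≤
      W (fun e => J e + δ * (τ e.1 * τ (tip e))) (cube c n) σ := by
    have := near_W hσ hτ.1
    rwa [zero_mul, add_zero] at this
  rw [hval, hval] at h1
  -- the number of the different inner bonds
  let m : ℕ := ({e ∈ bonds (cube c n) | τ e.1 * τ (tip e) ≠ σ e.1 * σ (tip e)} :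
    Finset (Bond d)).card
  have h2 : ∑ e ∈ bonds (cube c n), (τ e.1 * τ (tip e)) * (σ e.1 * σ (tip e)) =
      ((bonds (cube c n)).card : ℝ) - 2 * (m : ℝ) := by
    rw [sum_congr rfl fun e _ => prod_cases (hτ.1 e.1) (hτ.1 (tip e)) (hσ.1 e.1)
      (hσ.1 (tip e)), sum_sub_distrib, ← mul_sum, sum_boole, sum_const, nsmul_eq_mul, mul_one]
  have h3 : ∑ e ∈ bonds (cube c n), (τ e.1 * τ (tip e)) * (τ e.1 * τ (tip e)) =
      ((bonds (cube c n)).card : ℝ) := by
    have : ∀ e ∈ bonds (cube c n), (τ e.1 * τ (tip e)) * (τ e.1 * τ (tip e)) = 1 := by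
      intro e _
      rcases hτ.1 e.1 with h | h <;> rcases hτ.1 (tip e) with h' | h' <;> rw [h, h'] <;> norm_num
    rw [sum_congr rfl this, sum_const, nsmul_eq_mul, mul_one]
  rw [h2, h3] at h1
  have h4 := w_near J c n hτ.1 hσ.1 hτ.2
  have h5 := abs_le.1 (w_W J c n hτ.1)
  have h6 := abs_le.1 (w_W J c n hσ.1)
  have h7 : 2 * δ * (m : ℝ) ≤
      6 * (∑ e ∈ Ex c n ×ˢ (Finset.univ : Finset (Fin d)), |J e|) := by
    linarith [h5.1, h5.2, h6.1, h6.2]
  have h8 : (dif c n τ σ : ℝ) ≤ m + d * ((Ex c n).card : ℝ) := by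
    have h9 : dif c n τ σ ≤ m + (Ex c n ×ˢ (Finset.univ : Finset (Fin d))).card := by
      unfold dif
      refine le_trans (card_le_card ?_) (card_union_le _ _)
      intro e he
      rw [mem_filter, mem_product] at he
      rw [mem_union, mem_filter, mem_product]
      by_cases ht : tip e ∈ cube c n
      · left
        exact ⟨mem_bonds.2 ⟨he.1.1, ht⟩, he.2⟩
      · right
        exact ⟨Ex_out he.1.1 ht, mem_univ _⟩
    rw [card_product, card_univ, Fintype.card_fin] at h9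
    have h10 : (dif c n τ σ : ℝ) ≤ (m : ℝ) + ((Ex c n).card : ℝ) * d := by exact_mod_cast h9
    linarith
  have h11 := mul_le_mul_of_nonneg_left h8 (show (0 : ℝ) ≤ 2 * δ by positivity)
  linarith

variable [MeasurableSpace S] {μ : Measure S} [IsProbabilityMeasure μ] {ψ : S → ℝ}

theorem Ex_lim (d : ℕ) {ε : ℝ} (hε : 0 < ε) :
    ∀ᶠ n : ℕ in atTop, ∀ c : Site d, (d : ℝ) * ((Ex c n).card : ℝ) ≤ ε * (n : ℝ) ^ d := by
  have h1 := (ratio_lim d).const_mul (d : ℝ)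
  rw [mul_zero] at h1
  filter_upwards [h1.eventually (gt_mem_nhds hε), eventually_gt_atTop 0] with n hn hn0 c
  have hn' : (0 : ℝ) < (n : ℝ) ^ d := by positivity
  have h2 := mul_le_mul_of_nonneg_left (Ex_card c (n := n)) (show (0 : ℝ) ≤ d by positivity)
  rw [← mul_div_assoc, div_lt_iff₀ hn'] at hn
  linarith

theorem as_Tn (hd : 2 ≤ d) (hψ : Measurable ψ) (hψ2 : MemLp ψ 2 μ) {δ : ℝ} (hδ : 0 < δ)
    (c : ℕ → Site d) : ∀ᵐ X ∂(PX d μ), ∀ᶠ n : ℕ in atTop, Tn ψ X (c n) n < δ * (n : ℝ) ^ d := by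
  obtain ⟨C, hC, n0, h⟩ := Tn_tail (d := d) hψ hψ2 hδ
  have h2 := bc hd (P := PX d μ) (Bad := fun n =>
    {X | δ * (n : ℝ) ^ d ≤ Tn ψ X (c n) n}) (fun n hn => h n hn (c n))
  filter_upwards [h2] with X hX
  filter_upwards [hX] with n hn
  exact not_le.1 hn

theorem macro_iff_diff (hd : 2 ≤ d) (hψ : Measurable ψ) (hψ2 : MemLp ψ 2 μ)
    (hat : ∀ t : ℝ, μ {s | ψ s = t} = 0) : MacroUnique μ ψ d ↔ OverlapDiff μ ψ d := by
  have hG : Good μ 2 (Fov d S) := Fov_good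
  obtain ⟨-, h0⟩ := cvx (gg μ ψ 2 (Fov d S)) (gg_convex hψ hψ2 hG)
  obtain ⟨l, r, hle, hR, hL, hD, hr1, hl1, hlr⟩ := h0 0
  have hlim : ∀ t : ℝ, ∀ᵐ X ∂(PX d μ), Tendsto (fun n : ℕ =>
      maxE ψ (Fov d S) t X 0 n / (n : ℝ) ^ d) atTop (𝓝 (gg μ ψ 2 (Fov d S) t)) := by
    intro t
    filter_upwards [as_lim (μ := μ) hd (FT_good hψ hψ2 hG t) (fun _ => 0)] with X hX
    refine hX.congr fun n => ?_
    rw [maxE_eq fun t => (FT_good hψ hψ2 hG t).loc]
  have hOD : OverlapDiff μ ψ d ↔ DifferentiableAt ℝ (gg μ ψ 2 (Fov d S)) 0 := by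
    constructor
    · rintro ⟨g, h1, h2⟩
      have : g = gg μ ψ 2 (Fov d S) := by
        funext t
        obtain ⟨X, hX1, hX2⟩ := ((h1 t).and (hlim t)).exists
        exact tendsto_nhds_unique hX1 hX2
      rwa [← this]
    · intro h
      exact ⟨_, hlim, h⟩
  rw [hOD, hD, diff_iff hd hψ hψ2 hat hG hr1 hl1 hlr]
  have hpair : ∀ (X : Bond d → S) (ρ τ : Site d → ℝ),
      IsGroundState (fun e => ψ (X e)) ρ → IsGroundState (fun e => ψ (X e)) τ → ∀ a : Fin 2,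
        IsGroundState (fun e => ψ (X e)) ((![ρ, τ] : Cfg d 2) a) := by
    intro X ρ τ h1 h2 a
    fin_cases a
    · exact h1
    · exact h2
  constructor
  · intro h
    filter_upwards [h] with X hX σ τ hσ hτ
    have h1 := (hX (τ 0) (τ 1) (hτ 0) (hτ 1)).const_mul 2
    have h2 := (hX (σ 0) (σ 1) (hσ 0) (hσ 1)).const_mul 2
    have h3 := h1.sub h2
    simp only [mul_zero, sub_zero] at h3
    refine h3.congr fun n => ?_
    rw [En_Fov X 0 n (GSs_WGS hσ).1, En_Fov X 0 n (GSs_WGS hτ).1]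
    ring
  · intro h
    filter_upwards [h] with X hX ρ τ hρ hτ
    have h1 := hX ![ρ, ρ] ![ρ, τ] (hpair X ρ ρ hρ hρ) (hpair X ρ τ hρ hτ)
    have h2 := h1.const_mul (1 / 2)
    rw [mul_zero] at h2
    refine h2.congr fun n => ?_
    rw [En_Fov X 0 n (GSs_WGS (hpair X ρ ρ hρ hρ)).1,
      En_Fov X 0 n (GSs_WGS (hpair X ρ τ hρ hτ)).1]
    simp only [Matrix.cons_val_zero, Matrix.cons_val_one, dif_self]
    push_cast
    ring

theorem diff_ess (hd : 2 ≤ d) (hψ : Measurable ψ) (hψ2 : MemLp ψ 2 μ)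
    (hat : ∀ t : ℝ, μ {s | ψ s = t} = 0) (hM : MacroUnique μ ψ d) : EssUnique μ ψ d := by
  intro ε hε
  have hG : Good μ 2 (Fov d S) := Fov_good
  obtain ⟨-, h0⟩ := cvx (gg μ ψ 2 (Fov d S)) (gg_convex hψ hψ2 hG)
  obtain ⟨l, r, hle, hR, hL, hD, hr1, hl1, hlr⟩ := h0 0
  have hlr0 : l = r := by
    rw [diff_iff hd hψ hψ2 hat hG hr1 hl1 hlr]
    filter_upwards [hM] with X hX σ τ hσ hτ
    have h1 := (hX (τ 0) (τ 1) (hτ 0) (hτ 1)).const_mul 2
    have h2 := (hX (σ 0) (σ 1) (hσ 0) (hσ 1)).const_mul 2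
    have h3 := h1.sub h2
    simp only [mul_zero, sub_zero] at h3
    refine h3.congr fun n => ?_
    rw [En_Fov X 0 n (GSs_WGS hσ).1, En_Fov X 0 n (GSs_WGS hτ).1]
    ring
  -- `d ≤ r`
  have hr : (d : ℝ) ≤ r := by
    refine le_of_forall_pos_le_add fun η hη => ?_
    obtain ⟨δ, hδ, h⟩ := as_near hd hψ hψ2 hG hlr hη
    obtain ⟨X, hX⟩ := (h fun _ => 0).exists
    obtain ⟨n, hn, hn0⟩ := (hX.and (eventually_gt_atTop 0)).exists
    obtain ⟨A, hA⟩ := exists_Mx (k := 1) 2 (F0 ψ) X 0 n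
    have h1 : NearOpt ψ (δ / 2) X 0 n fun _ : Fin 1 => (spk A : Cfg d 1) 0 := by
      have h2 : (fun _ : Fin 1 => (spk A : Cfg d 1) 0) = (spk A : Cfg d 1) := by
        funext a
        rw [Subsingleton.elim a 0]
      rw [h2]
      refine ⟨conf_sp A, fun τ hτ => ?_⟩
      rw [← hA]
      have h3 := En_le_Mx (F0_local ψ) X 0 n hτ
      have h4 : 0 ≤ δ / 2 * (n : ℝ) ^ d := by positivity
      linarith
    have h2 := ((hn _).2 (near_pair h1 h1)).2
    rw [En_Fov X 0 n (near_pair h1 h1).1] at h2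
    simp only [Matrix.cons_val_zero, Matrix.cons_val_one, dif_self] at h2
    have h4 : (0 : ℝ) < (n : ℝ) ^ d := by positivity
    push_cast at h2
    rw [mul_zero, sub_zero] at h2
    exact le_of_mul_le_mul_right h2 h4
  obtain ⟨δ, hδ, h⟩ := as_near hd hψ hψ2 hG hlr hε
  refine ⟨δ / 4, by positivity, fun c => ?_⟩
  filter_upwards [h c, as_Tn hd hψ hψ2 (show 0 < δ / 8 by positivity) c] with X hX hT
  filter_upwards [hX, hT, eventually_gt_atTop 0] with n hn hTn hn0 ρ τ hρ hτ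
  have key : ∀ σ : Site d → ℝ, NearGS (fun e => ψ (X e)) (δ / 4) (c n) n σ →
      NearOpt ψ (δ / 2) X (c n) n fun _ : Fin 1 => σ := by
    intro σ hσ
    refine ⟨fun _ => hσ.1, fun τ' hτ' => ?_⟩
    rw [En_F0, En_F0]
    simp only [Finset.univ_unique, sum_singleton, Fin.default_eq_zero]
    have h1 := abs_le.1 (w_W (fun e => ψ (X e)) (c n) n hσ.1)
    have h2 := abs_le.1 (w_W (fun e => ψ (X e)) (c n) n (hτ' 0))
    have h3 := near_W hσ (hτ' 0)
    unfold Tn at hTn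
    linarith [h1.1, h1.2, h2.1, h2.2]
  have hρ' := key ρ hρ
  have hτ' := key τ hτ
  have h1 := ((hn ![ρ, τ]).2 (near_pair hρ' hτ')).1
  rw [En_Fov X (c n) n (near_pair hρ' hτ').1, hlr0] at h1
  simp only [Matrix.cons_val_zero, Matrix.cons_val_one] at h1
  have h4 : (0 : ℝ) < (n : ℝ) ^ d := by positivity
  nlinarith

theorem ess_stable (hE : EssUnique μ ψ d) : StableMean μ ψ d := by
  intro ε hε
  obtain ⟨δ, hδ, h⟩ := hE ε hε
  refine ⟨δ / 2, by positivity, fun c => ?_⟩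
  filter_upwards [h c] with X hX
  filter_upwards [hX] with n hn J' hJ' ρ τ hρ hτ
  refine hn ρ τ ?_ (near_pert hτ (by linarith))
  refine near_pert hρ ?_
  simp only [sub_self, abs_zero, sum_const_zero, mul_zero]
  positivity

theorem mean_sup (hd : 2 ≤ d) (hE : StableMean μ ψ d) : StableSup μ ψ d := by
  intro ε hε
  obtain ⟨δ, hδ, h⟩ := hE ε hε
  have hd0 : (0 : ℝ) < d := by
    have : 0 < d := by omega
    exact_mod_cast this
  refine ⟨δ / d, by positivity, ?_⟩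
  filter_upwards [h fun _ => 0] with X hX
  filter_upwards [hX] with n hn J' hJ' ρ τ hρ hτ
  refine hn J' ?_ ρ τ hρ hτ
  refine (sum_sup (J := fun e => ψ (X e)) 0 n (by positivity) hJ').trans (le_of_eq ?_)
  field_simp

theorem stable_macro (hd : 2 ≤ d) (hψ : Measurable ψ) (hψ2 : MemLp ψ 2 μ)
    (hS : StableSup μ ψ d) : MacroUnique μ ψ d := by
  -- every ground state is close to the free ground states
  have key : ∀ ε : ℝ, 0 < ε → ∀ᵐ X ∂(PX d μ), ∀ᶠ n : ℕ in atTop, ∀ ρ τ : Site d → ℝ,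
      IsGroundState (fun e => ψ (X e)) ρ → IsGroundState (fun e => ψ (X e)) τ →
        (dif 0 n ρ τ : ℝ) ≤ 4 * ε * (n : ℝ) ^ d := by
    intro ε hε
    obtain ⟨δ, hδ, h⟩ := hS ε hε
    filter_upwards [h, as_Tn hd hψ hψ2 (show 0 < δ * ε / 6 by positivity) fun _ => 0] with
      X hX hT
    filter_upwards [hX, hT, Ex_lim d (show 0 < ε / 2 by linarith)] with n hn hTn hEx ρ τ hρ hτ
    unfold Tn at hTn
    obtain ⟨σ, hσ⟩ := exists_free (fun e => ψ (X e)) (0 : Site d) n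
    have h1 : ∀ τ : Site d → ℝ, IsGroundState (fun e => ψ (X e)) τ →
        (dif 0 n τ σ : ℝ) ≤ 2 * ε * (n : ℝ) ^ d := by
      intro τ hτ
      obtain ⟨σ', hσ'⟩ := exists_free (fun e => ψ (X e) + δ * (τ e.1 * τ (tip e))) (0 : Site d) n
      have hcube : CubeGS (fun e => ψ (X e)) 0 n τ := by
        refine ⟨hτ.1, fun A _ => ?_⟩
        have h2 := GSs_WGS (k := 1) (J := fun e => ψ (X e)) (σ := fun _ => τ) fun _ => hτ
        exact h2.2 0 A
      have h2 := close_to_gs hcube hδ hσ'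
      have h3 := hn (fun e => ψ (X e) + δ * (τ e.1 * τ (tip e))) (fun e => by
        rw [add_sub_cancel_left, abs_mul, abs_one (hτ.1 _) (hτ.1 _), mul_one, abs_of_pos hδ])
        σ σ' hσ hσ'
      have h4 : (dif 0 n τ σ' : ℝ) ≤ ε * (n : ℝ) ^ d := by
        have h5 := mul_le_mul_of_nonneg_left (hEx 0) (show (0 : ℝ) ≤ 2 * δ by positivity)
        have h6 : 2 * δ * (dif 0 n τ σ' : ℝ) ≤ 2 * δ * (ε * (n : ℝ) ^ d) := by linarith
        exact le_of_mul_le_mul_left h6 (by positivity)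
      have h7 : (dif 0 n τ σ : ℝ) ≤ dif 0 n τ σ' + dif 0 n σ' σ := by
        exact_mod_cast dif_triangle 0 n τ σ' σ
      rw [dif_comm 0 n σ' σ] at h7
      linarith
    have h2 := h1 ρ hρ
    have h3 := h1 τ hτ
    have h4 : (dif 0 n ρ τ : ℝ) ≤ dif 0 n ρ σ + dif 0 n σ τ := by
      exact_mod_cast dif_triangle 0 n ρ σ τ
    rw [dif_comm 0 n σ τ] at h4
    linarith
  have h1 : ∀ j : ℕ, ∀ᵐ X ∂(PX d μ), ∀ᶠ n : ℕ in atTop, ∀ ρ τ : Site d → ℝ,
      IsGroundState (fun e => ψ (X e)) ρ → IsGroundState (fun e => ψ (X e)) τ →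
        (dif 0 n ρ τ : ℝ) ≤ 4 * (1 / ((j : ℝ) + 1)) * (n : ℝ) ^ d := fun j =>
    key _ (by positivity)
  rw [← ae_all_iff] at h1
  filter_upwards [h1] with X hX ρ τ hρ hτ
  rw [Metric.tendsto_nhds]
  intro ε hε
  obtain ⟨j, hj⟩ := exists_nat_one_div_lt (show 0 < ε / 4 by linarith)
  filter_upwards [hX j, eventually_gt_atTop 0] with n hn hn0
  have hn' : (0 : ℝ) < (n : ℝ) ^ d := by positivity
  rw [Real.dist_eq, sub_zero, abs_of_nonneg (by positivity), div_lt_iff₀ hn']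
  have h2 := hn ρ τ hρ hτ
  have h3 : 4 * (1 / ((j : ℝ) + 1)) * (n : ℝ) ^ d < ε * (n : ℝ) ^ d :=
    mul_lt_mul_of_pos_right (by linarith) hn'
  linarith

theorem ess_boundary (hd : 2 ≤ d) (hψ : Measurable ψ) (hψ2 : MemLp ψ 2 μ)
    (hE : EssUnique μ ψ d) : BoundaryUnique μ ψ d := by
  intro c
  have key : ∀ j : ℕ, ∀ᵐ X ∂(PX d μ), ∀ᶠ n : ℕ in atTop, ∀ ρ τ : Site d → ℝ,
      CubeGS (fun e => ψ (X e)) (c n) n ρ → CubeGS (fun e => ψ (X e)) (c n) n τ →
        (dif (c n) n ρ τ : ℝ) ≤ 1 / ((j : ℝ) + 1) * (n : ℝ) ^ d := by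
    intro j
    obtain ⟨δ, hδ, h⟩ := hE (1 / ((j : ℝ) + 1)) (by positivity)
    filter_upwards [h c, as_Tn hd hψ hψ2 (show 0 < δ / 6 by positivity) c] with X hX hT
    filter_upwards [hX, hT] with n hn hTn ρ τ hρ hτ
    unfold Tn at hTn
    have h1 : ∀ σ : Site d → ℝ, CubeGS (fun e => ψ (X e)) (c n) n σ →
        NearGS (fun e => ψ (X e)) δ (c n) n σ := by
      intro σ hσ
      refine ⟨hσ.1, fun τ' hτ' => ?_⟩
      change W (fun e => ψ (X e)) (cube (c n) n) τ' ≤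
        W (fun e => ψ (X e)) (cube (c n) n) σ + δ * (n : ℝ) ^ d
      have h2 := w_near (fun e => ψ (X e)) (c n) n hσ.1 hτ' hσ.2
      have h3 := abs_le.1 (w_W (fun e => ψ (X e)) (c n) n hσ.1)
      have h4 := abs_le.1 (w_W (fun e => ψ (X e)) (c n) n hτ')
      linarith [h3.1, h3.2, h4.1, h4.2]
    exact hn ρ τ (h1 ρ hρ) (h1 τ hτ)
  rw [← ae_all_iff] at key
  filter_upwards [key] with X hX ε hε
  obtain ⟨j, hj⟩ := exists_nat_one_div_lt hε
  filter_upwards [hX j] with n hn ρ τ hρ hτ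
  have h2 := hn ρ τ hρ hτ
  have h3 : (0 : ℝ) ≤ (n : ℝ) ^ d := by positivity
  nlinarith

theorem boundary_macro (hB : BoundaryUnique μ ψ d) : MacroUnique μ ψ d := by
  filter_upwards [hB fun _ => 0] with X hX ρ τ hρ hτ
  have hcube : ∀ τ : Site d → ℝ, IsGroundState (fun e => ψ (X e)) τ → ∀ n : ℕ,
      CubeGS (fun e => ψ (X e)) 0 n τ := by
    intro τ hτ n
    refine ⟨hτ.1, fun A _ => ?_⟩
    have h2 := GSs_WGS (k := 1) (J := fun e => ψ (X e)) (σ := fun _ => τ) fun _ => hτ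
    exact h2.2 0 A
  rw [Metric.tendsto_nhds]
  intro ε hε
  filter_upwards [hX (ε / 2) (by linarith), eventually_gt_atTop 0] with n hn hn0
  have hn' : (0 : ℝ) < (n : ℝ) ^ d := by positivity
  rw [Real.dist_eq, sub_zero, abs_of_nonneg (by positivity), div_lt_iff₀ hn']
  have h2 := hn ρ τ (hcube ρ hρ n) (hcube τ hτ n)
  have h3 : ε / 2 * (n : ℝ) ^ d < ε * (n : ℝ) ^ d :=
    mul_lt_mul_of_pos_right (by linarith) hn'
  linarith

theorem unique_macro (h : ∀ᵐ X ∂(PX d μ), ∀ ρ τ : Site d → ℝ,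
    IsGroundState (fun e => ψ (X e)) ρ → IsGroundState (fun e => ψ (X e)) τ →
      τ = ρ ∨ τ = -ρ) : MacroUnique μ ψ d := by
  filter_upwards [h] with X hX ρ τ hρ hτ
  have : ∀ n : ℕ, dif (0 : Site d) n ρ τ = 0 := by
    intro n
    rcases hX ρ τ hρ hτ with rfl | rfl
    · exact dif_self _ _ _
    · exact dif_neg _ _ _
  simp only [this]
  simp

end Pool.Agent.Zk58.EK
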