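import Pool.Agent.Zk58.EK.Blk

set_option autoImplicit false

/-!
Compactness: limits of approximate ground states.
-/

namespace Pool.Agent.Zk58.EK

open Finset Filter

open scoped BigOperators Topology

theorem cpt : S_CPT := by
  intro d k S ψ R F X σ hσ hA
  classical
  let U : Ultrafilter ℕ := Filter.hyperfilter ℕ
  have hU : (U : Filter ℕ) ≤ atTop := Nat.hyperfilter_le_atTop
  have hdich : ∀ a x, (∀ᶠ m in (U : Filter ℕ), σ m a x = 1) ∨
      (∀ᶠ m in (U : Filter ℕ), σ m a x = -1) := fun a x =>
    Ultrafilter.eventually_or.1 (Eventually.of_forall fun m => hσ m a x)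
  let τ : Cfg d k := fun a x => if ∀ᶠ m in (U : Filter ℕ), σ m a x = 1 then 1 else -1
  have hτ : ∀ a x, ∀ᶠ m in (U : Filter ℕ), σ m a x = τ a x := by
    intro a x
    by_cases h : ∀ᶠ m in (U : Filter ℕ), σ m a x = 1
    · simp only [τ, h, if_true]
    · simp only [τ, h, if_false]
      exact (hdich a x).resolve_left h
  have hB : ∀ B : Finset (Site d), ∀ᶠ m in (U : Filter ℕ), ∀ a, ∀ x ∈ B, σ m a x = τ a x := by
    intro B
    rw [eventually_all]
    intro a
    rw [Filter.eventually_all_finset]
    intro x _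
    exact hτ a x
  refine ⟨τ, ⟨?_, ?_⟩, ?_⟩
  · intro a x
    by_cases h : ∀ᶠ m in (U : Filter ℕ), σ m a x = 1
    · left
      simp only [τ, h, if_true]
    · right
      simp only [τ, h, if_false]
  · intro a A
    have h1 : Tendsto (fun m : ℕ => -(1 / ((m : ℝ) + 1)) * QA R F X A) (U : Filter ℕ) (𝓝 0) := by
      have h2 : Tendsto (fun m : ℕ => -(1 / ((m : ℝ) + 1)) * QA R F X A) atTop
          (𝓝 (-0 * QA R F X A)) :=
        (tendsto_one_div_add_atTop_nhds_zero_nat.neg).mul_const _
      simp only [neg_zero, zero_mul] at h2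
      exact h2.mono_left hU
    refine le_of_tendsto h1 ?_
    -- a box which contains `A`
    obtain ⟨m0, hm0⟩ : ∃ m0 : ℕ, A ⊆ Bx d m0 := by
      refine ⟨∑ x ∈ A, ∑ i, (x i).natAbs, fun x hx => ?_⟩
      rw [mem_Bx]
      intro i
      have h3 : (x i).natAbs ≤ ∑ x ∈ A, ∑ i, (x i).natAbs :=
        (single_le_sum (f := fun i => (x i).natAbs) (fun _ _ => Nat.zero_le _)
          (mem_univ i)).trans
          (single_le_sum (f := fun x : Site d => ∑ i, (x i).natAbs) (fun _ _ => Nat.zero_le _) hx)
      omega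
    have h4 : ∀ᶠ m in (U : Filter ℕ), m0 ≤ m := hU (eventually_ge_atTop m0)
    filter_upwards [h4, hB (A ∪ (bdry A).image (fun e => e.1) ∪ (bdry A).image tip)] with m hm hag
    have hAm : A ⊆ Bx d m := by
      intro x hx
      have h5 := mem_Bx.1 (hm0 hx)
      rw [mem_Bx]
      intro i
      have := h5 i
      have h6 : (m0 : ℤ) ≤ m := by exact_mod_cast hm
      constructor <;> linarith [this.1, this.2]
    refine (hA m a A hAm).trans (le_of_eq ?_)
    unfold bs
    refine sum_congr rfl fun e he => ?_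
    rw [hag a e.1 (by
      rw [mem_union, mem_union]
      exact Or.inl (Or.inr (mem_image_of_mem _ he))),
      hag a (tip e) (by
      rw [mem_union]
      exact Or.inr (mem_image_of_mem _ he))]
  · intro B
    have h1 : ∃ᶠ m in (U : Filter ℕ), ∀ a, ∀ x ∈ B, σ m a x = τ a x := (hB B).frequently
    exact h1.filter_mono hU

end Pool.Agent.Zk58.EK
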