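import Pool.Agent.Zk58.EK.Tail
import Pool.Agent.Zk58.EK.Cpt

set_option autoImplicit false
set_option linter.unusedSectionVars false

/-!
The extreme averages are attained by ground states.
-/

namespace Pool.Agent.Zk58.EK

open Finset MeasureTheory ProbabilityTheory Filter

open scoped BigOperators ENNReal Topology

variable {d k : ℕ} {S : Type}

theorem lim_WGS {ψ : S → ℝ} {R : ℕ} {F : (Bond d → S) → Cfg d k → ℝ} (hF : IsLocal R F)
    (X : Bond d → S) (N : ℕ) {v : ℝ} (h : ∀ m, v ≤ Zm ψ R F m N X) :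
    ∃ τ : Cfg d k, WGS (fun e => ψ (X e)) τ ∧ v ≤ En F X (cube 0 N) τ := by
  choose σ h1 h2 h3 using fun m => Zm_att (ψ := ψ) hF m N X
  obtain ⟨τ, hτ, hag⟩ := cpt d k S ψ R F X σ h1 h2
  obtain ⟨m, hm⟩ := (hag (cube 0 (N + R))).exists
  refine ⟨τ, hτ, ?_⟩
  have : En F X (cube 0 N) τ = En F X (cube 0 N) (σ m) :=
    En_congr hF (fun _ _ => rfl) fun a x hx => (hm a x hx).symm
  rw [this]
  exact (h m).trans (h3 m)

theorem bs_shift (J : Bond d → ℝ) (τ : Site d → ℝ) (c : Site d) (A : Finset (Site d)) :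
    bs J (fun y => τ (y - c)) A =
      bs (fun e => J (e.1 + c, e.2)) τ (A.map (Equiv.subRight c).toEmbedding) := by
  unfold bs
  refine sum_bij' (fun e _ => (e.1 - c, e.2)) (fun e _ => (e.1 + c, e.2)) ?_ ?_ ?_ ?_ ?_
  · intro e he
    rw [mem_bdry] at he ⊢
    simp only [mem_map_equiv, Equiv.subRight_symm_apply, sub_add_cancel]
    have : tip (e.1 - c, e.2) + c = tip e := by
      rw [← tip_shift]
      simp
    rw [this]
    exact he
  · intro e he
    rw [mem_bdry] at he ⊢
    simp only [mem_map_equiv, Equiv.subRight_symm_apply] at he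
    rw [tip_shift]
    exact he
  · intro e _
    simp
  · intro e _
    simp
  · intro e _
    have : tip (e.1 - c, e.2) = tip e - c := by
      have h := tip_shift (e.1 - c, e.2) c
      simp only [sub_add_cancel] at h
      rw [show (e.1, e.2) = e from rfl] at h
      rw [h, add_sub_cancel_right]
    simp only [sub_add_cancel, this]

theorem WGS_shift {ψ : S → ℝ} (X : Bond d → S) (c : Site d) {σ : Cfg d k}
    (h : WGS (fun e => ψ (th c X e)) σ) : WGS (fun e => ψ (X e)) (sh (-c) σ) := by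
  refine ⟨conf_sh h.1 _, fun a A => ?_⟩
  have h1 := bs_shift (fun e => ψ (X e)) (σ a) c A
  have h2 : sh (-c) σ a = fun y => σ a (y - c) := by
    funext y
    unfold sh
    rw [sub_eq_add_neg]
  rw [h2, h1]
  exact h.2 a _

variable [MeasurableSpace S] {μ : Measure S} [IsProbabilityMeasure μ]
  {ψ : S → ℝ} {R : ℕ} {F : (Bond d → S) → Cfg d k → ℝ}

theorem zm_ge (hψ : Measurable ψ) (hψ2 : MemLp ψ 2 μ) (hF : Good μ R F) {r : ℝ}
    (hr1 : ∀ t : ℝ, 0 < t → r * t ≤ gg μ ψ R F t - gg μ ψ R F 0) (m : ℕ) {N : ℕ} (hN : 0 < N) :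
    r ≤ zm μ ψ R F m N / (N : ℝ) ^ d := by
  have ht : (0 : ℝ) < 1 / ((m : ℝ) + 1) := by positivity
  have h1 := hr1 _ ht
  have h2 := gg_le hψ hψ2 hF (m := m) hN ht.le le_rfl
  have h3 : 1 / ((m : ℝ) + 1) * r ≤ 1 / ((m : ℝ) + 1) * (zm μ ψ R F m N / (N : ℝ) ^ d) := by
    linarith
  exact le_of_mul_le_mul_left h3 ht

/-- The comparison function. -/
noncomputable def Wf (R : ℕ) (F : (Bond d → S) → Cfg d k → ℝ) (r : ℝ) (N : ℕ)
    (X : Bond d → S) : ℝ :=
  2 * ((∑ x ∈ cube (0 : Site d) N, Ab R F (th x X) ^ 2) / (N : ℝ) ^ d) + 2 * r ^ 2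

theorem Wf_int (hF : Good μ R F) (r : ℝ) (N : ℕ) : Integrable (Wf R F r N) (PX d μ) := by
  unfold Wf
  exact (((integrable_finsetSum _ fun x _ => (Abx_mem hF x).integrable_sq).div_const _).const_mul
    _).add (integrable_const _)

theorem Wf_mean (hF : Good μ R F) (r : ℝ) {N : ℕ} (hN : 0 < N) :
    ∫ X, Wf R F r N X ∂(PX d μ) = 2 * vm μ R F + 2 * r ^ 2 := by
  have hsq : ∀ z : Site d, ∫ X, Ab R F (th z X) ^ 2 ∂(PX d μ) = vm μ R F := by
    intro z
    unfold vm
    have h2 := integral_map (μ := PX d μ) (th_meas (S := S) z).aemeasurable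
      (f := fun Y => Ab R F Y ^ 2)
      (by rw [th_map]; exact ((Ab_meas hF).pow_const 2).aestronglyMeasurable)
    rw [← h2, th_map]
  unfold Wf
  rw [integral_add (((integrable_finsetSum _ fun x _ => (Abx_mem hF x).integrable_sq).div_const
    _).const_mul _) (integrable_const _), integral_const_mul, integral_div,
    integral_finsetSum _ fun x _ => (Abx_mem hF x).integrable_sq,
    sum_congr rfl fun x _ => hsq x, sum_const, card_cube, nsmul_eq_mul, integral_const]
  simp only [probReal_univ, one_smul]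
  have hN' : (0 : ℝ) < (N : ℝ) ^ d := by positivity
  push_cast
  field_simp

theorem Wf_ge (r : ℝ) {N : ℕ} (hN : 0 < N) (X : Bond d → S) :
    ((∑ x ∈ cube (0 : Site d) N, Ab R F (th x X)) / (N : ℝ) ^ d + |r|) ^ 2 ≤ Wf R F r N X := by
  have hN' : (0 : ℝ) < (N : ℝ) ^ d := by positivity
  set s := ∑ x ∈ cube (0 : Site d) N, Ab R F (th x X) with hs
  have h1 : s ^ 2 ≤ (N : ℝ) ^ d * ∑ x ∈ cube (0 : Site d) N, Ab R F (th x X) ^ 2 := by
    have := sq_sum_le_card_mul_sum_sq (s := cube (0 : Site d) N) (f := fun x => Ab R F (th x X))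
    rw [card_cube] at this
    exact_mod_cast this
  have h2 : (s / (N : ℝ) ^ d) ^ 2 ≤
      (∑ x ∈ cube (0 : Site d) N, Ab R F (th x X) ^ 2) / (N : ℝ) ^ d := by
    rw [div_pow, div_le_div_iff₀ (by positivity) hN']
    nlinarith
  have h3 : |r| ^ 2 = r ^ 2 := sq_abs r
  unfold Wf
  nlinarith [sq_nonneg (s / (N : ℝ) ^ d - |r|)]

/-- The main estimate on the lower deviations of the maximum over approximate ground states. -/
theorem low (hψ : Measurable ψ) (hψ2 : MemLp ψ 2 μ) (hF : Good μ R F) {r : ℝ}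
    (hr1 : ∀ t : ℝ, 0 < t → r * t ≤ gg μ ψ R F t - gg μ ψ R F 0) (m : ℕ) {N : ℕ} (hN : 0 < N)
    {ε δ L : ℝ} (hε : 0 < ε) (hδ : 0 < δ) (hL : 0 < L) :
    ε * (PX d μ).real {X | Zm ψ R F m N X < (r - ε) * (N : ℝ) ^ d} ≤
      δ + (2 * vm μ R F + 2 * r ^ 2) / L +
        L * (PX d μ).real {X | (r + δ) * (N : ℝ) ^ d < Zm ψ R F m N X} := by
  classical
  have hN' : (0 : ℝ) < (N : ℝ) ^ d := by positivity
  have hZ := Zm_meas (ψ := ψ) hψ hF m N
  have mA : MeasurableSet {X | Zm ψ R F m N X < (r - ε) * (N : ℝ) ^ d} :=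
    measurableSet_lt hZ measurable_const
  have mB : MeasurableSet {X | (r + δ) * (N : ℝ) ^ d < Zm ψ R F m N X} :=
    measurableSet_lt measurable_const hZ
  set A := {X | Zm ψ R F m N X < (r - ε) * (N : ℝ) ^ d} with hA
  set B := {X | (r + δ) * (N : ℝ) ^ d < Zm ψ R F m N X} with hB
  have iZ : Integrable (Zm ψ R F m N) (PX d μ) := (Zm_mem hψ hF m N).integrable (by norm_num)
  have iA : Integrable (A.indicator fun _ => ε) (PX d μ) :=
    (integrable_const ε).indicator mA
  have iB : Integrable (B.indicator fun _ => L) (PX d μ) :=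
    (integrable_const L).indicator mB
  have key : ∀ X, A.indicator (fun _ => ε) X + Zm ψ R F m N X / (N : ℝ) ^ d - r ≤
      δ + Wf R F r N X / L + B.indicator (fun _ => L) X := by
    intro X
    have hW := Wf_ge (R := R) (F := F) r hN X
    have hW0 : 0 ≤ Wf R F r N X := (sq_nonneg _).trans hW
    have hWL : 0 ≤ Wf R F r N X / L := by positivity
    have hB0 : 0 ≤ B.indicator (fun _ => L) X := Set.indicator_nonneg (fun _ _ => hL.le) _
    by_cases h1 : X ∈ A
    · rw [Set.indicator_of_mem h1]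
      have h2 : Zm ψ R F m N X / (N : ℝ) ^ d < r - ε := by
        rw [div_lt_iff₀ hN']
        exact h1
      linarith
    · rw [Set.indicator_of_notMem h1]
      by_cases h2 : X ∈ B
      · rw [Set.indicator_of_mem h2]
        set b := (∑ x ∈ cube (0 : Site d) N, Ab R F (th x X)) / (N : ℝ) ^ d + |r| with hb
        have h3 : Zm ψ R F m N X / (N : ℝ) ^ d - r ≤ b := by
          have h4 := (le_abs_self _).trans (abs_Zm_le (ψ := ψ) hF.loc m N X)
          have h5 := div_le_div_of_nonneg_right h4 hN'.le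
          have h6 := neg_abs_le r
          linarith
        have h4 : b ≤ Wf R F r N X / L + L := by
          have h5 : b ^ 2 / L ≤ Wf R F r N X / L := div_le_div_of_nonneg_right hW hL.le
          have h6 : b ≤ b ^ 2 / L + L := by
            rw [← sub_nonneg]
            have : b ^ 2 / L + L - b = ((b - L / 2) ^ 2 + 3 / 4 * L ^ 2) / L := by
              field_simp
              ring
            rw [this]
            positivity
          linarith
        linarith
      · rw [Set.indicator_of_notMem h2]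
        have h3 : Zm ψ R F m N X / (N : ℝ) ^ d ≤ r + δ := by
          rw [div_le_iff₀ hN']
          exact not_lt.1 h2
        linarith
  have h1 := integral_mono (((iA.add (iZ.div_const _)).sub (integrable_const r)))
    (((integrable_const δ).add ((Wf_int hF r N).div_const L)).add iB) key
  have e1 : ∫ X, (A.indicator (fun _ => ε) X + Zm ψ R F m N X / (N : ℝ) ^ d - r) ∂(PX d μ) =
      ε * (PX d μ).real A + zm μ ψ R F m N / (N : ℝ) ^ d - r := by
    have iAZ : Integrable (fun X => A.indicator (fun _ => ε) X + Zm ψ R F m N X / (N : ℝ) ^ d)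
      (PX d μ) := iA.add (iZ.div_const _)
    rw [integral_sub iAZ (integrable_const r), integral_add iA
      (iZ.div_const _), integral_indicator mA, setIntegral_const, integral_div, integral_const]
    simp only [probReal_univ, smul_eq_mul, one_mul]
    unfold zm
    ring
  have e2 : ∫ X, (δ + Wf R F r N X / L + B.indicator (fun _ => L) X) ∂(PX d μ) =
      δ + (2 * vm μ R F + 2 * r ^ 2) / L + L * (PX d μ).real B := by
    have iW : Integrable (fun X => δ + Wf R F r N X / L) (PX d μ) :=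
      (integrable_const δ).add ((Wf_int hF r N).div_const L)
    rw [integral_add iW iB,
      integral_add (integrable_const δ) ((Wf_int hF r N).div_const L), integral_indicator mB,
      setIntegral_const, integral_div, integral_const, Wf_mean hF r hN]
    simp only [probReal_univ, smul_eq_mul, one_mul]
    ring
  have h2 : ε * (PX d μ).real A + zm μ ψ R F m N / (N : ℝ) ^ d - r ≤
      δ + (2 * vm μ R F + 2 * r ^ 2) / L + L * (PX d μ).real B := by
    rw [← e1, ← e2]
    exact h1
  have h3 := zm_ge hψ hψ2 hF hr1 m hN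
  linarith

/-- With probability tending to one there is a ground state with nearly the maximal average. -/
theorem att (hd : d ≠ 0) (hψ : Measurable ψ) (hψ2 : MemLp ψ 2 μ) (hF : Good μ R F) {r : ℝ}
    (hr1 : ∀ t : ℝ, 0 < t → r * t ≤ gg μ ψ R F t - gg μ ψ R F 0)
    (hup : ∀ η : ℝ, 0 < η → ∃ C : ℝ, 0 ≤ C ∧ ∃ n0 : ℕ, ∀ n ≥ n0, ∃ Bad : Set (Bond d → S),
      (PX d μ).real Bad ≤ C / (n : ℝ) ^ d ∧ ∀ X ∉ Bad, ∀ σ : Cfg d k,
        WGS (fun e => ψ (X e)) σ → En F X (cube 0 n) σ ≤ (r + η) * (n : ℝ) ^ d)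
    {ε η : ℝ} (hε : 0 < ε) (hη : 0 < η) :
    ∃ n0 : ℕ, ∀ n ≥ n0, ∀ c : Site d,
      (PX d μ) {X | ¬ ∃ σ : Cfg d k, WGS (fun e => ψ (X e)) σ ∧
        (r - ε) * (n : ℝ) ^ d ≤ En F X (cube c n) σ} ≤ ENNReal.ofReal η := by
  have hv := vm_nonneg (μ := μ) R F
  set M2 : ℝ := 2 * vm μ R F + 2 * r ^ 2 with hM2
  have hM20 : 0 ≤ M2 := by positivity
  set δ : ℝ := ε * η / 8 with hδ
  have hδ0 : 0 < δ := by positivity
  set L : ℝ := 8 * M2 / (ε * η) + 1 with hL
  have hL0 : 0 < L := by positivity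
  have hML : M2 / L ≤ ε * η / 8 := by
    rw [div_le_iff₀ hL0, hL]
    have : ε * η / 8 * (8 * M2 / (ε * η) + 1) = M2 + ε * η / 8 := by
      field_simp
    rw [this]
    have : 0 < ε * η := by positivity
    linarith
  set p : ℝ := ε * η / (8 * L) with hp
  have hp0 : 0 < p := by positivity
  obtain ⟨C, hC, n1, h1⟩ := hup δ hδ0
  have l1 : Tendsto (fun n : ℕ => C / (n : ℝ) ^ d) atTop (𝓝 0) :=
    Tendsto.div_atTop tendsto_const_nhds
      ((tendsto_pow_atTop hd).comp tendsto_natCast_atTop_atTop)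
  obtain ⟨n2, h2⟩ := eventually_atTop.1 ((l1.eventually (gt_mem_nhds hp0)).and
    (eventually_gt_atTop 0))
  refine ⟨max n1 n2, fun N hN c => ?_⟩
  obtain ⟨h3, hN0⟩ := h2 N (le_trans (le_max_right _ _) hN)
  obtain ⟨Bad, hBad, h4⟩ := h1 N (le_trans (le_max_left _ _) hN)
  have hN' : (0 : ℝ) < (N : ℝ) ^ d := by positivity
  -- the upper deviations
  let E : ℕ → Set (Bond d → S) := fun m => {X | (r + δ) * (N : ℝ) ^ d < Zm ψ R F m N X}
  have hEm : ∀ m, MeasurableSet (E m) := fun m =>
    measurableSet_lt measurable_const (Zm_meas hψ hF m N)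
  have hEanti : Antitone E := by
    intro m m' hmm X hX
    exact lt_of_lt_of_le hX (Zm_anti hF.loc N X hmm)
  have hEsub : (⋂ m, E m) ⊆ Bad := by
    intro X hX
    by_contra hcon
    rw [Set.mem_iInter] at hX
    -- a strict inequality survives: use the finitely many values
    choose σ q1 q2 q3 using fun m => Zm_att (ψ := ψ) hF.loc m N X
    obtain ⟨τ, hτ, hag⟩ := cpt d k S ψ R F X σ q1 q2
    obtain ⟨m, hm⟩ := (hag (cube 0 (N + R))).exists
    have q4 : En F X (cube 0 N) τ = En F X (cube 0 N) (σ m) :=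
      En_congr hF.loc (fun _ _ => rfl) fun a x hx => (hm a x hx).symm
    have q5 := h4 X hcon τ hτ
    rw [q4] at q5
    have q6 : (r + δ) * (N : ℝ) ^ d < Zm ψ R F m N X := hX m
    linarith [q3 m]
  have hElim : Tendsto (fun m => (PX d μ) (E m)) atTop (𝓝 ((PX d μ) (⋂ m, E m))) :=
    tendsto_measure_iInter_atTop (fun m => (hEm m).nullMeasurableSet) hEanti
      ⟨0, measure_ne_top _ _⟩
  have hlt : (PX d μ) (⋂ m, E m) < ENNReal.ofReal p := by
    refine lt_of_le_of_lt (measure_mono hEsub) ?_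
    have h5 : (PX d μ).real Bad < p := lt_of_le_of_lt hBad h3
    rw [ENNReal.lt_ofReal_iff_toReal_lt (measure_ne_top _ _)]
    exact h5
  obtain ⟨m0, hm0⟩ := eventually_atTop.1 (hElim.eventually (gt_mem_nhds hlt))
  -- the lower deviations
  let A : ℕ → Set (Bond d → S) := fun m => {X | Zm ψ R F m N X < (r - ε) * (N : ℝ) ^ d}
  have hAm : ∀ m, MeasurableSet (A m) := fun m =>
    measurableSet_lt (Zm_meas hψ hF m N) measurable_const
  have hAmono : Monotone A := by
    intro m m' hmm X hX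
    exact lt_of_le_of_lt (Zm_anti hF.loc N X hmm) hX
  have hA1 : ∀ m ≥ m0, (PX d μ) (A m) ≤ ENNReal.ofReal η := by
    intro m hm
    have h6 := low hψ hψ2 hF hr1 m hN0 hε hδ0 hL0
    have h7 : (PX d μ).real (E m) ≤ p := by
      have := hm0 m hm
      exact ENNReal.toReal_le_of_le_ofReal hp0.le this.le
    have h8 : L * (PX d μ).real (E m) ≤ ε * η / 8 := by
      have h9 := mul_le_mul_of_nonneg_left h7 hL0.le
      have h10 : L * p = ε * η / 8 := by
        rw [hp]
        field_simp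
      linarith
    have h11 : ε * (PX d μ).real (A m) ≤ ε * η := by
      have : 0 < ε * η := by positivity
      have h12 : ε * (PX d μ).real (A m) ≤ δ + M2 / L + L * (PX d μ).real (E m) := h6
      linarith
    have h13 : (PX d μ).real (A m) ≤ η := le_of_mul_le_mul_left h11 hε
    rw [← ENNReal.ofReal_toReal (measure_ne_top (PX d μ) (A m))]
    exact ENNReal.ofReal_le_ofReal h13
  have hA2 : (PX d μ) (⋃ m, A m) ≤ ENNReal.ofReal η := by
    rw [hAmono.measure_iUnion]
    refine iSup_le fun m => ?_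
    exact (measure_mono (hAmono (le_max_left m m0))).trans (hA1 _ (le_max_right m m0))
  -- the general cube
  have hsub : {X | ¬ ∃ σ : Cfg d k, WGS (fun e => ψ (X e)) σ ∧
      (r - ε) * (N : ℝ) ^ d ≤ En F X (cube c N) σ} ⊆ th c ⁻¹' (⋃ m, A m) := by
    intro X hX
    by_contra hcon
    apply hX
    rw [Set.mem_preimage, Set.mem_iUnion, not_exists] at hcon
    obtain ⟨τ, hτ, hτ2⟩ := lim_WGS (ψ := ψ) hF.loc (th c X) N (v := (r - ε) * (N : ℝ) ^ d)
      fun m => not_lt.1 (hcon m)
    refine ⟨sh (-c) τ, WGS_shift X c hτ, hτ2.trans (le_of_eq ?_)⟩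
    rw [En_shift F X c N, sh_sh, add_neg_cancel]
    congr 1
    funext a y
    simp [sh]
  refine (measure_mono hsub).trans ?_
  rw [(th_mp μ c).measure_preimage (MeasurableSet.iUnion hAm).nullMeasurableSet]
  exact hA2

end Pool.Agent.Zk58.EK
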