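import Pool.Agent.Zk58.EK.Shift

set_option autoImplicit false
set_option linter.unusedSectionVars false

/-!
Two dimensions: the energy has no kink in the directions of the bond observables.
-/

namespace Pool.Agent.Zk58.EK

open Finset MeasureTheory ProbabilityTheory Filter

open scoped BigOperators ENNReal Topology NNReal

variable {d : ℕ} {S : Type} [MeasurableSpace S]

/-- The coupling: the sum of a Gaussian variable and a function of `y`. -/
def pw (χ : S → ℝ) (x : ℝ × S) : ℝ := x.1 + χ x.2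

/-- Bond observables. -/
noncomputable def Fy (φ : Fin d → (Bond d → S) → ℝ) (X : Bond d → ℝ × S) (σ : Cfg d 1) : ℝ :=
  ∑ i, φ i (yy X) * (σ 0 0 * σ 0 (tip ((0, i) : Bond d)))

theorem pw_meas {χ : S → ℝ} (hχ : Measurable χ) : Measurable (pw χ) :=
  measurable_fst.add (hχ.comp measurable_snd)

theorem pw_mem {v : ℝ≥0} {ν : Measure S} [IsProbabilityMeasure ν] {χ : S → ℝ} (hχ : MemLp χ 2 ν) :
    MemLp (pw χ) 2 (gm v ν) := by
  unfold pw gm
  have h1 : MemLp (fun x : ℝ × S => x.1) 2 ((gaussianReal 0 v).prod ν) :=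
    (memLp_id_gaussianReal 2).comp_measurePreserving measurePreserving_fst
  have h2 : MemLp (fun x : ℝ × S => χ x.2) 2 ((gaussianReal 0 v).prod ν) :=
    hχ.comp_measurePreserving measurePreserving_snd
  exact h1.add h2

theorem pw_atom {v : ℝ≥0} (hv : v ≠ 0) {ν : Measure S} [IsProbabilityMeasure ν] {χ : S → ℝ}
    (hχ : Measurable χ) (t : ℝ) : (gm v ν) {x | pw χ x = t} = 0 := by
  have hm : MeasurableSet {x : ℝ × S | pw χ x = t} :=
    measurableSet_eq_fun (pw_meas hχ) measurable_const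
  unfold gm
  rw [Measure.prod_apply_symm hm]
  have : ∀ y : S, (gaussianReal 0 v) ((fun a => (a, y)) ⁻¹' {x : ℝ × S | pw χ x = t}) = 0 := by
    intro y
    have hsub : (fun a : ℝ => (a, y)) ⁻¹' {x : ℝ × S | pw χ x = t} ⊆ {t - χ y} := by
      intro a ha
      simp only [Set.mem_preimage, Set.mem_ofPred_eq, pw] at ha
      rw [Set.mem_singleton_iff]
      linarith
    refine measure_mono_null hsub ?_
    exact gaussianReal_absolutelyContinuous 0 hv Real.volume_singleton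
  simp only [this, lintegral_zero]

theorem Fy_good {v : ℝ≥0} {ν : Measure S} [IsProbabilityMeasure ν]
    {φ : Fin d → (Bond d → S) → ℝ} (hφ : ∀ i, Measurable (φ i)) {M : ℝ} (hM : ∀ i Y, |φ i Y| ≤ M)
    {R : ℕ} (hloc : ∀ i, ∀ Y Y' : Bond d → S, (∀ e ∈ bonds (cube 0 R), Y e = Y' e) → φ i Y = φ i Y') :
    Good (gm v ν) (R + 2) (Fy φ) where
  loc := by
    intro X X' σ σ' h1 h2
    unfold Fy
    refine sum_congr rfl fun i _ => ?_
    rw [h2 0 0 (cube_mono (by omega) zero_mem_two), h2 0 _ (cube_mono (by omega) (tip_mem_two i)),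
      hloc i (yy X) (yy X') fun e he => ?_]
    unfold yy
    rw [h1 e (bonds_mono (cube_mono (by omega)) he)]
  meas := by
    intro σ _
    unfold Fy
    exact Finset.measurable_fun_sum _ fun i _ => ((hφ i).comp yy_meas).mul_const _
  mem := by
    intro σ _
    unfold Fy
    refine memLp_finsetSum _ fun i _ => MemLp.mul_const ?_ _
    refine MemLp.of_bound ((hφ i).comp yy_meas).aestronglyMeasurable M (ae_of_all _ fun X => ?_)
    rw [Real.norm_eq_abs]
    exact hM i _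

/-- The amounts of the shifts. -/
def uu (φ : Fin d → (Bond d → S) → ℝ) (s : ℝ) (e : Bond d) (Y : Bond d → S) : ℝ :=
  s * φ e.2 (fun b => Y (b.1 + e.1, b.2))

theorem En_Fy (φ : Fin d → (Bond d → S) → ℝ) (X : Bond d → ℝ × S) (D : Finset (Site d))
    (σ : Cfg d 1) : En (Fy φ) X D σ =
      ∑ e ∈ D ×ˢ (Finset.univ : Finset (Fin d)),
        φ e.2 (fun b => yy X (b.1 + e.1, b.2)) * (σ 0 e.1 * σ 0 (tip e)) := by
  unfold En Fy th sh
  rw [sum_product]
  refine sum_congr rfl fun x _ => sum_congr rfl fun i _ => ?_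
  have h := tip_shift ((0 : Site d), i) x
  simp only [zero_add] at h ⊢
  rw [h]
  rfl

theorem En_F0_TT (χ : S → ℝ) (φ : Fin d → (Bond d → S) → ℝ) (s : ℝ) (X : Bond d → ℝ × S)
    (D : Finset (Site d)) (σ : Cfg d 1) :
    En (F0 (pw χ)) (TT (D ×ˢ (Finset.univ : Finset (Fin d))) (uu φ s) X) D σ =
      En (F0 (pw χ)) X D σ + s * En (Fy φ) X D σ := by
  rw [En_F0, En_F0, En_Fy]
  simp only [Finset.univ_unique, sum_singleton, Fin.default_eq_zero]
  unfold w
  rw [mul_sum, ← sum_add_distrib]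
  refine sum_congr rfl fun e he => ?_
  have e1 := TT_in (uu φ s) X he
  beta_reduce
  rw [e1]
  unfold pw uu
  ring

theorem En_Fy_TT (φ : Fin d → (Bond d → S) → ℝ) (L : Finset (Bond d))
    (u : Bond d → (Bond d → S) → ℝ) (X : Bond d → ℝ × S) (D : Finset (Site d)) (σ : Cfg d 1) :
    En (Fy φ) (TT L u X) D σ = En (Fy φ) X D σ := by
  rw [En_Fy, En_Fy, yy_TT]

/-- The comparison of the ground states of the couplings and of the shifted couplings. -/
theorem aw_det {χ : S → ℝ} {φ : Fin d → (Bond d → S) → ℝ} {s M : ℝ} (hs : 0 ≤ s)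
    (hM : ∀ i Y, |φ i Y| ≤ M) {X : Bond d → ℝ × S} {c : Site d} {n : ℕ} {σ τ : Cfg d 1}
    (hσ : GSs (fun e => pw χ (X e)) σ)
    (hτ : GSs (fun e => pw χ (TT (cube c n ×ˢ (Finset.univ : Finset (Fin d))) (uu φ s) X e)) τ) :
    s * (En (Fy φ) X (cube c n) σ - En (Fy φ) X (cube c n) τ) ≤
      8 * Tn (pw χ) X c n + 4 * ((Ex c n).card * d * (s * M)) := by
  set X' := TT (cube c n ×ˢ (Finset.univ : Finset (Fin d))) (uu φ s) X with hX'
  have h1 := En_near (pw χ) X c n (WGS_box (GSs_WGS hσ) c n) (τ := τ) (fun a => (hτ a).1)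
  have h2 := En_near (pw χ) X' c n (WGS_box (GSs_WGS hτ) c n) (τ := σ) (fun a => (hσ a).1)
  rw [hX', En_F0_TT, En_F0_TT, ← hX'] at h2
  have h3 : ∑ e ∈ Ex c n ×ˢ (Finset.univ : Finset (Fin d)), |pw χ (X' e)| ≤
      Tn (pw χ) X c n + (Ex c n).card * d * (s * M) := by
    unfold Tn
    have e1 : ((Ex c n).card : ℝ) * d * (s * M) =
        ∑ _e ∈ Ex c n ×ˢ (Finset.univ : Finset (Fin d)), s * M := by
      rw [sum_const, card_product, card_univ, Fintype.card_fin, nsmul_eq_mul]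
      push_cast
      ring
    rw [e1, ← sum_add_distrib]
    refine sum_le_sum fun e _ => ?_
    have h0 : 0 ≤ s * M := mul_nonneg hs ((abs_nonneg _).trans (hM e.2 (yy X)))
    by_cases he : e ∈ cube c n ×ˢ (Finset.univ : Finset (Fin d))
    · rw [hX', TT_in _ _ he]
      have h4 : pw χ ((X e).1 + uu φ s e (yy X), (X e).2) = pw χ (X e) + uu φ s e (yy X) := by
        unfold pw
        ring
      rw [h4]
      refine (abs_add_le _ _).trans ?_
      have h5 : |uu φ s e (yy X)| ≤ s * M := by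
        unfold uu
        rw [abs_mul, abs_of_nonneg hs]
        exact mul_le_mul_of_nonneg_left (hM _ _) hs
      linarith
    · rw [hX', TT_out _ _ he]
      linarith
  have h4 : ∑ e ∈ Ex c n ×ˢ (Finset.univ : Finset (Fin d)), |pw χ (X e)| = Tn (pw χ) X c n := rfl
  rw [h4] at h1
  push_cast at h1 h2
  linarith

/-- The probability of a large boundary sum, in two dimensions. -/
theorem Tn_markov {ψ : S → ℝ} {μ : Measure S} [IsProbabilityMeasure μ] (hψ : Measurable ψ)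
    (hψ2 : MemLp ψ 2 μ) (c : Site 2) {n : ℕ} (hn : 0 < n) {C : ℝ} (hC : 0 < C) :
    (PX 2 μ).real {X | C * n ≤ Tn ψ X c n} ≤ 8 * (∫ x, |ψ x| ∂μ) / C := by
  have hn' : (0 : ℝ) < n := by exact_mod_cast hn
  have hint : ∀ e : Bond 2, Integrable (fun X : Bond 2 → S => |ψ (X e)|) (PX 2 μ) := fun e =>
    ((ev_mem hψ2 e).integrable (by norm_num)).abs
  have hmean : ∀ e : Bond 2, ∫ X, |ψ (X e)| ∂(PX 2 μ) = ∫ x, |ψ x| ∂μ := by
    intro e
    have h1 : MeasurePreserving (Function.eval e) (PX 2 μ) μ :=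
      measurePreserving_eval_infinitePi (fun _ : Bond 2 => μ) e
    have h2 : Measurable fun x : S => |ψ x| := hψ.abs
    have h3 := integral_map (μ := PX 2 μ) h1.measurable.aemeasurable (f := fun x : S => |ψ x|)
      (by
        rw [h1.map_eq]
        exact h2.aestronglyMeasurable)
    rw [h1.map_eq] at h3
    exact h3.symm
  have hT : Integrable (fun X => Tn ψ X c n) (PX 2 μ) := by
    unfold Tn
    exact integrable_finsetSum _ fun e _ => hint e
  have hTm : ∫ X, Tn ψ X c n ∂(PX 2 μ) = ((Ex c n).card * 2 : ℝ) * ∫ x, |ψ x| ∂μ := by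
    unfold Tn
    rw [integral_finsetSum _ fun e _ => hint e]
    simp only [hmean]
    rw [sum_const, card_product, card_univ, Fintype.card_fin, nsmul_eq_mul]
    push_cast
    ring
  have hm0 : 0 ≤ ∫ x, |ψ x| ∂μ := integral_nonneg fun x => abs_nonneg _
  have hcard : ((Ex c n).card : ℝ) ≤ 4 * n := by
    have h1 := Ex_card c (n := n)
    have h2 : ((n - 1 : ℕ) : ℝ) = (n : ℝ) - 1 := by
      rw [Nat.cast_sub hn, Nat.cast_one]
    rw [h2] at h1
    nlinarith
  have h4 := mul_meas_ge_le_integral_of_nonneg (μ := PX 2 μ) (f := fun X => Tn ψ X c n)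
    (ae_of_all _ fun X => by
      unfold Tn
      exact sum_nonneg fun e _ => abs_nonneg _) hT (C * n)
  rw [hTm] at h4
  rw [le_div_iff₀ hC]
  have h5 : ((Ex c n).card * 2 : ℝ) * ∫ x, |ψ x| ∂μ ≤ (4 * n * 2) * ∫ x, |ψ x| ∂μ :=
    mul_le_mul_of_nonneg_right (by linarith) hm0
  have h6 : C * n * (PX 2 μ).real {X | C * n ≤ Tn ψ X c n} ≤ 8 * n * ∫ x, |ψ x| ∂μ := by
    linarith
  have h7 : (n : ℝ) * ((PX 2 μ).real {X | C * n ≤ Tn ψ X c n} * C) ≤
      n * (8 * ∫ x, |ψ x| ∂μ) := by linarith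
  exact le_of_mul_le_mul_left h7 hn'

/-- In two dimensions the energy has no kink in the directions of the bond observables. -/
theorem aw_main {v : ℝ≥0} (hv : v ≠ 0) {ν : Measure S} [IsProbabilityMeasure ν] {χ : S → ℝ}
    (hχ : Measurable χ) (hχ2 : MemLp χ 2 ν) {φ : Fin 2 → (Bond 2 → S) → ℝ}
    (hφ : ∀ i, Measurable (φ i)) {M : ℝ} (hM : ∀ i Y, |φ i Y| ≤ M)
    {R : ℕ} (hloc : ∀ i, ∀ Y Y' : Bond 2 → S, (∀ e ∈ bonds (cube 0 R), Y e = Y' e) → φ i Y = φ i Y')
    {l r : ℝ} (hle : l ≤ r)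
    (hr1 : ∀ t : ℝ, 0 < t → r * t ≤ gg (gm v ν) (pw χ) (R + 2) (Fy φ) (0 + t) -
      gg (gm v ν) (pw χ) (R + 2) (Fy φ) 0)
    (hl1 : ∀ t : ℝ, 0 < t → gg (gm v ν) (pw χ) (R + 2) (Fy φ) 0 -
      gg (gm v ν) (pw χ) (R + 2) (Fy φ) (0 - t) ≤ l * t)
    (hlr : ∀ ε : ℝ, 0 < ε → ∃ t0 : ℝ, 0 < t0 ∧ ∀ t : ℝ, 0 < t → t ≤ t0 →
      gg (gm v ν) (pw χ) (R + 2) (Fy φ) (0 + t) - gg (gm v ν) (pw χ) (R + 2) (Fy φ) 0 ≤
        (r + ε) * t ∧ (l - ε) * t ≤ gg (gm v ν) (pw χ) (R + 2) (Fy φ) 0 -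
          gg (gm v ν) (pw χ) (R + 2) (Fy φ) (0 - t)) : l = r := by
  classical
  by_contra hne
  have hlt : l < r := lt_of_le_of_ne hle hne
  set P := PX 2 (gm v ν) with hP
  have hψ := pw_meas hχ
  have hψ2 : MemLp (pw χ) 2 (gm v ν) := pw_mem hχ2
  have hG : Good (gm v ν) (R + 2) (Fy φ) := Fy_good hφ hM hloc
  have hM0 : 0 ≤ M := by
    obtain ⟨Y⟩ : Nonempty (Bond 2 → S) := by
      have : Nonempty S := by
        by_contra hcon
        rw [not_nonempty_iff] at hcon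
        have h1 : ν Set.univ = 1 := measure_univ
        rw [Set.univ_eq_empty_iff.2 hcon, measure_empty] at h1
        exact zero_ne_one h1
      infer_instance
    exact (abs_nonneg _).trans (hM 0 Y)
  set ε := (r - l) / 4 with hε
  have hε0 : 0 < ε := by rw [hε]; linarith
  have hatt := prob_att (c := fun _ => 0) le_rfl hψ hψ2 (pw_atom hv hχ) hG hr1 hl1 hlr hε0
  set m1 := ∫ x, |pw χ x| ∂(gm v ν) with hm1
  have hm10 : 0 ≤ m1 := integral_nonneg fun x => abs_nonneg _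
  set C := 32 * (m1 + 1) with hC
  have hC0 : 0 < C := by rw [hC]; linarith
  set a := 32 * C / (r - l) with ha
  have ha0 : 0 < a := div_pos (by linarith) (by linarith)
  have hv' : (0 : ℝ) < v := NNReal.coe_pos.2 (pos_iff_ne_zero.2 hv)
  set Q := Real.exp (2 * (a * M) ^ 2 / v) with hQ
  have hQ0 : 0 < Q := Real.exp_pos _
  set B : ℕ → Set (Bond 2 → ℝ × S) := fun n => {X | ¬ ∃ σ τ : Cfg 2 1,
    GSs (fun e => pw χ (X e)) σ ∧ GSs (fun e => pw χ (X e)) τ ∧
      (r - ε) * (n : ℝ) ^ 2 ≤ En (Fy φ) X (cube 0 n) σ ∧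
        En (Fy φ) X (cube 0 n) τ ≤ (l + ε) * (n : ℝ) ^ 2} with hB
  have hBlim : Tendsto (fun n => P (B n)) atTop (𝓝 0) := hatt
  set K : ℝ≥0∞ := ENNReal.ofReal (8 * Q) with hK
  have hK0 : K ≠ 0 := by rw [hK]; simp [hQ0]
  have hKt : K ≠ ⊤ := ENNReal.ofReal_ne_top
  -- the three events
  have hBlim2 : Tendsto (fun n => P (B n) + (K * P (B n) + ENNReal.ofReal (1 / 8))) atTop
      (𝓝 (0 + (K * 0 + ENNReal.ofReal (1 / 8)))) :=
    hBlim.add ((ENNReal.Tendsto.const_mul hBlim (Or.inr hKt)).add tendsto_const_nhds)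
  rw [mul_zero, zero_add, zero_add] at hBlim2
  have hev := hBlim2.eventually (gt_mem_nhds
    (show ENNReal.ofReal (1 / 8) < ENNReal.ofReal (1 / 4) from
      (ENNReal.ofReal_lt_ofReal_iff (by norm_num)).2 (by norm_num)))
  obtain ⟨n, hn, hnn⟩ := (hev.and (eventually_gt_atTop (max 1 ⌈16 * a * M / C⌉₊))).exists
  have hn0 : 0 < n := by
    have := (le_max_left 1 ⌈16 * a * M / C⌉₊).trans_lt hnn
    omega
  have hn' : (0 : ℝ) < n := by exact_mod_cast hn0
  have hnbig : 16 * a * M / C < n := by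
    have h1 := (le_max_right 1 ⌈16 * a * M / C⌉₊).trans_lt hnn
    exact (Nat.le_ceil _).trans_lt (by exact_mod_cast h1)
  set s := a / n with hs
  have hs0 : 0 < s := div_pos ha0 hn'
  set L := cube (0 : Site 2) n ×ˢ (Finset.univ : Finset (Fin 2)) with hL
  have hum : ∀ e : Bond 2, Measurable (uu φ s e) := by
    intro e
    unfold uu
    refine Measurable.const_mul ((hφ e.2).comp ?_) s
    exact measurable_pi_lambda _ fun b => measurable_pi_apply _
  have hub : ∀ (e : Bond 2) Y, (uu φ s e Y) ^ 2 ≤ (s * M) ^ 2 := by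
    intro e Y
    rw [sq_le_sq]
    unfold uu
    rw [abs_mul, abs_of_pos hs0, abs_of_nonneg (mul_nonneg hs0.le hM0)]
    exact mul_le_mul_of_nonneg_left (hM _ _) hs0.le
  have hcon := contig hv ν L hum hub (B n) hK0 hKt
  have hLc : (L.card : ℝ) = 2 * (n : ℝ) ^ 2 := by
    rw [hL, card_product, card_cube, card_univ, Fintype.card_fin]
    push_cast
    ring
  have hexp : (s * M) ^ 2 * (L.card : ℝ) / v = 2 * (a * M) ^ 2 / v := by
    rw [hLc, hs]
    field_simp
  rw [hexp, ← hQ] at hcon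
  have hKi : K⁻¹ * ENNReal.ofReal Q = ENNReal.ofReal (1 / 8) := by
    rw [hK, ← ENNReal.ofReal_inv_of_pos (by positivity), ← ENNReal.ofReal_mul (by positivity)]
    congr 1
    field_simp
  rw [hKi] at hcon
  have hT : P {X | C * n ≤ Tn (pw χ) X 0 n} ≤ ENNReal.ofReal (1 / 4) := by
    have h1 := Tn_markov (ψ := pw χ) (μ := gm v ν) hψ hψ2 0 hn0 hC0
    have h2 : 8 * m1 / C ≤ 1 / 4 := by
      rw [div_le_iff₀ hC0, hC]
      linarith
    rw [← ENNReal.ofReal_toReal (measure_ne_top P _)]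
    exact ENNReal.ofReal_le_ofReal (h1.trans h2)
  have htot : P (B n ∪ TT L (uu φ s) ⁻¹' (B n) ∪ {X | C * n ≤ Tn (pw χ) X 0 n}) < 1 := by
    refine ((measure_union_le _ _).trans (add_le_add (measure_union_le _ _) hT)).trans_lt ?_
    have h1 : P (B n) + P (TT L (uu φ s) ⁻¹' (B n)) < ENNReal.ofReal (1 / 4) :=
      (add_le_add le_rfl hcon).trans_lt hn
    calc P (B n) + P (TT L (uu φ s) ⁻¹' (B n)) + ENNReal.ofReal (1 / 4)
        ≤ ENNReal.ofReal (1 / 4) + ENNReal.ofReal (1 / 4) := add_le_add h1.le le_rfl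
      _ = ENNReal.ofReal (1 / 2) := by
        rw [← ENNReal.ofReal_add (by norm_num) (by norm_num)]
        norm_num
      _ < 1 := by
        rw [← ENNReal.ofReal_one]
        exact (ENNReal.ofReal_lt_ofReal_iff one_pos).2 (by norm_num)
  obtain ⟨X, hX⟩ : ∃ X, X ∉ B n ∪ TT L (uu φ s) ⁻¹' (B n) ∪ {X | C * n ≤ Tn (pw χ) X 0 n} := by
    by_contra hcon2
    simp only [not_exists, not_not] at hcon2
    rw [Set.eq_univ_of_forall hcon2, measure_univ] at htot
    exact lt_irrefl _ htot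
  simp only [Set.mem_union, Set.mem_preimage, hB, Set.mem_ofPred_eq, not_or, not_not, not_le] at hX
  obtain ⟨⟨⟨σ, -, hσ, -, hσ2, -⟩, ⟨-, τ, -, hτ, -, hτ2⟩⟩, hTX⟩ := hX
  rw [En_Fy_TT] at hτ2
  have hdet := aw_det hs0.le hM hσ hτ
  have hcard : ((Ex (0 : Site 2) n).card : ℝ) ≤ 4 * n := by
    have h1 := Ex_card (0 : Site 2) (n := n)
    have h2 : ((n - 1 : ℕ) : ℝ) = (n : ℝ) - 1 := by
      rw [Nat.cast_sub hn0, Nat.cast_one]
    rw [h2] at h1
    nlinarith
  -- the contradiction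
  have hrl : 0 < r - l := by linarith
  have h1 : s * ((r - l) / 2 * (n : ℝ) ^ 2) ≤
      s * (En (Fy φ) X (cube 0 n) σ - En (Fy φ) X (cube 0 n) τ) := by
    refine mul_le_mul_of_nonneg_left ?_ hs0.le
    rw [hε] at hσ2 hτ2
    nlinarith
  have h2 : s * ((r - l) / 2 * (n : ℝ) ^ 2) = 16 * C * n := by
    rw [hs, ha]
    field_simp
    ring
  have h3 : ((Ex (0 : Site 2) n).card : ℝ) * (2 : ℕ) * (s * M) ≤ 8 * a * M := by
    have h5 : 0 ≤ s * M := mul_nonneg hs0.le hM0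
    have h4 : ((Ex (0 : Site 2) n).card : ℝ) * (2 : ℕ) * (s * M) ≤ (4 * n) * 2 * (s * M) := by
      push_cast
      exact mul_le_mul_of_nonneg_right (by linarith) h5
    refine h4.trans (le_of_eq ?_)
    rw [hs]
    field_simp
    ring
  rw [div_lt_iff₀ hC0] at hnbig
  rw [h2] at h1
  have h6 : 0 < C * n := mul_pos hC0 hn'
  linarith

end Pool.Agent.Zk58.EK
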