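import Mathlib

set_option autoImplicit false

/-!
Edwards-Anderson model: the definitions used in the statement of
`Pool.Agent.Results.MP_37ff18_mp.EnergyKinks.result`.

The environment `X` consists of independent random variables `X e` with values in a space `S`, one for
every bond `e` of `ℤ^d`. The couplings are `J e = ψ (X e)`.
-/

namespace Pool.Agent.Zk58.EK

open MeasureTheory Filter Topology

/-! ### The lattice -/

/-- The sites of `ℤ^d`. -/
abbrev Site (d : ℕ) : Type := Fin d → ℤ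

/-- The bond `(v, i)` joins the sites `v` and `v + e_i`. -/
abbrev Bond (d : ℕ) : Type := (Fin d → ℤ) × Fin d

/-- The second end of a bond. -/
def tip {d : ℕ} (e : Bond d) : Site d := e.1 + (Pi.single e.2 (1 : ℤ) : Fin d → ℤ)

/-- The cube with the corner `c` and side `n`; it has `n ^ d` sites. -/
noncomputable def cube {d : ℕ} (c : Site d) (n : ℕ) : Finset (Site d) :=
  Fintype.piFinset fun i => Finset.Ico (c i) (c i + n)

/-- The bonds with both ends in `B`. -/
def bonds {d : ℕ} (B : Finset (Site d)) : Finset (Bond d) :=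
  {e ∈ B ×ˢ Finset.univ | tip e ∈ B}

/-- The bonds with at least one end in `A`. -/
noncomputable def near {d : ℕ} (A : Finset (Site d)) : Finset (Bond d) := by
  classical
  exact (A ×ˢ Finset.univ) ∪
    (A ×ˢ Finset.univ).image fun e => (e.1 - (Pi.single e.2 (1 : ℤ) : Fin d → ℤ), e.2)

/-- The bonds with exactly one end in `A`. -/
noncomputable def bdry {d : ℕ} (A : Finset (Site d)) : Finset (Bond d) := by
  classical
  exact {e ∈ near A | ¬ (e.1 ∈ A ↔ tip e ∈ A)}

/-! ### One configuration of spins -/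

/-- The sum of `J_xy τ_x τ_y` over the boundary of `A`: the change of the spins of `A` costs twice
this energy. -/
noncomputable def bs {d : ℕ} (J : Bond d → ℝ) (τ : Site d → ℝ) (A : Finset (Site d)) : ℝ :=
  ∑ e ∈ bdry A, J e * (τ e.1 * τ (tip e))

/-- Ground states of the couplings `J` on `ℤ^d`: the change of the spins of any nonempty finite set
costs energy. -/
def IsGroundState {d : ℕ} (J : Bond d → ℝ) (τ : Site d → ℝ) : Prop :=
  (∀ x, τ x = 1 ∨ τ x = -1) ∧ ∀ A : Finset (Site d), A.Nonempty → 0 < bs J τ A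

/-- Ground states in a cube, for some spins around the cube: no change of the spins in
the cube gains energy. -/
def CubeGS {d : ℕ} (J : Bond d → ℝ) (c : Site d) (n : ℕ) (ρ : Site d → ℝ) : Prop :=
  (∀ x, ρ x = 1 ∨ ρ x = -1) ∧ ∀ A ⊆ cube c n, 0 ≤ bs J ρ A

/-- Nearly optimal configurations of a cube with free boundary conditions: the energy
`-∑ J_xy ρ_x ρ_y` of the bonds in the cube is minimal up to `δ n ^ d`. For `δ = 0` these are the
ground states of the cube with free boundary conditions. -/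
def NearGS {d : ℕ} (J : Bond d → ℝ) (δ : ℝ) (c : Site d) (n : ℕ) (ρ : Site d → ℝ) : Prop :=
  (∀ x, ρ x = 1 ∨ ρ x = -1) ∧ ∀ τ : Site d → ℝ, (∀ x, τ x = 1 ∨ τ x = -1) →
    ∑ e ∈ bonds (cube c n), J e * (τ e.1 * τ (tip e)) ≤
      ∑ e ∈ bonds (cube c n), J e * (ρ e.1 * ρ (tip e)) + δ * (n : ℝ) ^ d

/-- The number of the bonds `(x, y)` which start in a cube and for which
`ρ_x ρ_y ≠ τ_x τ_y`. -/
noncomputable def dif {d : ℕ} (c : Site d) (n : ℕ) (ρ τ : Site d → ℝ) : ℕ := by
  classical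
  exact ({e ∈ cube c n ×ˢ (Finset.univ : Finset (Fin d)) |
    ρ e.1 * ρ (tip e) ≠ τ e.1 * τ (tip e)} : Finset (Bond d)).card

/-! ### Replicas and local observables -/

/-- `k` configurations of spins. -/
abbrev Cfg (d k : ℕ) : Type := Fin k → (Fin d → ℤ) → ℝ

/-- The spins are `±1`. -/
def IsConf {d k : ℕ} (σ : Cfg d k) : Prop := ∀ a x, σ a x = 1 ∨ σ a x = -1

/-- The environment seen from the site `x`. -/
def th {d : ℕ} {S : Type} (x : Site d) (X : Bond d → S) : Bond d → S := fun e => X (e.1 + x, e.2)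

/-- The spins seen from the site `x`. -/
def sh {d k : ℕ} (x : Site d) (σ : Cfg d k) : Cfg d k := fun a y => σ a (y + x)

/-- The law of the environment: independent, of law `μ`. -/
noncomputable def PX (d : ℕ) {S : Type} [MeasurableSpace S] (μ : Measure S) :
    Measure (Bond d → S) := Measure.infinitePi fun _ : Bond d => μ

/-- `F` depends only on the bonds and on the spins of the cube `[0, R)^d`. -/
def IsLocal {d k : ℕ} {S : Type} (R : ℕ) (F : (Bond d → S) → Cfg d k → ℝ) : Prop :=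
  ∀ X X' : Bond d → S, ∀ σ σ' : Cfg d k, (∀ e ∈ bonds (cube 0 R), X e = X' e) →
    (∀ a, ∀ x ∈ cube (0 : Site d) R, σ a x = σ' a x) → F X σ = F X' σ'

/-- Local observables with finite second moments. -/
structure Good {d k : ℕ} {S : Type} [MeasurableSpace S] (μ : Measure S) (R : ℕ)
    (F : (Bond d → S) → Cfg d k → ℝ) : Prop where
  loc : IsLocal R F
  meas : ∀ σ, IsConf σ → Measurable fun X => F X σ
  mem : ∀ σ, IsConf σ → MemLp (fun X => F X σ) 2 (PX d μ)

/-- The sum of the translates of `F` over `D`. -/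
noncomputable def En {d k : ℕ} {S : Type} (F : (Bond d → S) → Cfg d k → ℝ) (X : Bond d → S)
    (D : Finset (Site d)) (σ : Cfg d k) : ℝ := ∑ x ∈ D, F (th x X) (sh x σ)

/-- Minus the energy of `k` replicas, at the bonds which start in `0`. -/
noncomputable def F0 {d k : ℕ} {S : Type} (ψ : S → ℝ) (X : Bond d → S) (σ : Cfg d k) : ℝ :=
  ∑ a, ∑ i, ψ (X (0, i)) * (σ a 0 * σ a (tip ((0, i) : Bond d)))

/-- The maximum of minus the energy of `k` replicas plus `t` times the sum of `F`, in a cube. -/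
noncomputable def maxE {d k : ℕ} {S : Type} (ψ : S → ℝ) (F : (Bond d → S) → Cfg d k → ℝ) (t : ℝ)
    (X : Bond d → S) (c : Site d) (n : ℕ) : ℝ :=
  sSup {E | ∃ σ : Cfg d k, IsConf σ ∧ E = En (F0 ψ) X (cube c n) σ + t * En F X (cube c n) σ}

/-- Configurations for which the maximum `maxE` is attained up to `δ n ^ d`. -/
def NearOptAt {d k : ℕ} {S : Type} (ψ : S → ℝ) (F : (Bond d → S) → Cfg d k → ℝ) (t δ : ℝ)
    (X : Bond d → S) (c : Site d) (n : ℕ) (σ : Cfg d k) : Prop :=
  IsConf σ ∧ ∀ τ : Cfg d k, IsConf τ →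
    En (F0 ψ) X (cube c n) τ + t * En F X (cube c n) τ ≤
      En (F0 ψ) X (cube c n) σ + t * En F X (cube c n) σ + δ * (n : ℝ) ^ d

/-- The bond overlap of two replicas, at the bonds which start in `0`. -/
noncomputable def Fov (d : ℕ) (S : Type) (_ : Bond d → S) (σ : Cfg d 2) : ℝ :=
  ∑ i, (σ 0 0 * σ 0 (tip ((0, i) : Bond d))) * (σ 1 0 * σ 1 (tip ((0, i) : Bond d)))

/-! ### Macroscopic uniqueness -/

/-- Almost surely any two ground states differ on `o(n ^ d)` bonds: there is no incongruent pair. -/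
def MacroUnique {S : Type} [MeasurableSpace S] (μ : Measure S) (ψ : S → ℝ) (d : ℕ) : Prop :=
  ∀ᵐ X ∂(PX d μ), ∀ ρ τ : Site d → ℝ, IsGroundState (fun e => ψ (X e)) ρ →
    IsGroundState (fun e => ψ (X e)) τ →
      Tendsto (fun n : ℕ => (dif 0 n ρ τ : ℝ) / (n : ℝ) ^ d) atTop (𝓝 0)

/-- In large cubes any two ground states, for arbitrary spins around the cube, differ on at most
`ε n ^ d` bonds. -/
def BoundaryUnique {S : Type} [MeasurableSpace S] (μ : Measure S) (ψ : S → ℝ) (d : ℕ) : Prop :=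
  ∀ c : ℕ → Site d, ∀ᵐ X ∂(PX d μ), ∀ ε : ℝ, 0 < ε → ∀ᶠ n : ℕ in atTop,
    ∀ ρ τ : Site d → ℝ, CubeGS (fun e => ψ (X e)) (c n) n ρ →
      CubeGS (fun e => ψ (X e)) (c n) n τ → (dif (c n) n ρ τ : ℝ) ≤ ε * (n : ℝ) ^ d

/-- Asymptotic essential uniqueness: in large cubes any two configurations whose energy is minimal
up to `δ n ^ d` differ on at most `ε n ^ d` bonds. -/
def EssUnique {S : Type} [MeasurableSpace S] (μ : Measure S) (ψ : S → ℝ) (d : ℕ) : Prop :=
  ∀ ε : ℝ, 0 < ε → ∃ δ : ℝ, 0 < δ ∧ ∀ c : ℕ → Site d, ∀ᵐ X ∂(PX d μ), ∀ᶠ n : ℕ in atTop,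
    ∀ ρ τ : Site d → ℝ, NearGS (fun e => ψ (X e)) δ (c n) n ρ →
      NearGS (fun e => ψ (X e)) δ (c n) n τ → (dif (c n) n ρ τ : ℝ) ≤ ε * (n : ℝ) ^ d

/-- The free ground states of large cubes are stable under small changes of the couplings, also
under changes which depend on the couplings. The changes are small on the average. -/
def StableMean {S : Type} [MeasurableSpace S] (μ : Measure S) (ψ : S → ℝ) (d : ℕ) : Prop :=
  ∀ ε : ℝ, 0 < ε → ∃ δ : ℝ, 0 < δ ∧ ∀ c : ℕ → Site d, ∀ᵐ X ∂(PX d μ), ∀ᶠ n : ℕ in atTop,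
    ∀ J' : Bond d → ℝ, ∑ e ∈ bonds (cube (c n) n), |J' e - ψ (X e)| ≤ δ * (n : ℝ) ^ d →
      ∀ ρ τ : Site d → ℝ, NearGS (fun e => ψ (X e)) 0 (c n) n ρ → NearGS J' 0 (c n) n τ →
        (dif (c n) n ρ τ : ℝ) ≤ ε * (n : ℝ) ^ d

/-- The free ground states of the cubes `[0, n)^d` are stable under changes of the couplings by at
most `δ`. -/
def StableSup {S : Type} [MeasurableSpace S] (μ : Measure S) (ψ : S → ℝ) (d : ℕ) : Prop :=
  ∀ ε : ℝ, 0 < ε → ∃ δ : ℝ, 0 < δ ∧ ∀ᵐ X ∂(PX d μ), ∀ᶠ n : ℕ in atTop,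
    ∀ J' : Bond d → ℝ, (∀ e, |J' e - ψ (X e)| ≤ δ) →
      ∀ ρ τ : Site d → ℝ, NearGS (fun e => ψ (X e)) 0 0 n ρ → NearGS J' 0 0 n τ →
        (dif 0 n ρ τ : ℝ) ≤ ε * (n : ℝ) ^ d

/-- The energy per site of two replicas which are coupled by `t` times their bond overlap is a
differentiable function of `t` at `t = 0`. -/
def OverlapDiff {S : Type} [MeasurableSpace S] (μ : Measure S) (ψ : S → ℝ) (d : ℕ) : Prop :=
  ∃ g : ℝ → ℝ, (∀ t : ℝ, ∀ᵐ X ∂(PX d μ),
    Tendsto (fun n : ℕ => maxE ψ (Fov d S) t X 0 n / (n : ℝ) ^ d) atTop (𝓝 (g t))) ∧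
      DifferentiableAt ℝ g 0

end Pool.Agent.Zk58.EK
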