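import Pool.Agent.Zk58.EK.Flip

set_option autoImplicit false
set_option linter.unusedSectionVars false

/-!
The maximum of block sums over approximate ground states; the derivative of the energy.
-/

namespace Pool.Agent.Zk58.EK

open Finset MeasureTheory ProbabilityTheory Filter

open scoped BigOperators ENNReal Topology

variable {d k : ℕ} {S : Type}

/-- The perturbed energy density. -/
noncomputable def FT (ψ : S → ℝ) (F : (Bond d → S) → Cfg d k → ℝ) (t : ℝ) (X : Bond d → S)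
    (σ : Cfg d k) : ℝ := F0 ψ X σ + t * F X σ

theorem En_FT (ψ : S → ℝ) (F : (Bond d → S) → Cfg d k → ℝ) (t : ℝ) (X : Bond d → S)
    (D : Finset (Site d)) (σ : Cfg d k) :
    En (FT ψ F t) X D σ = En (F0 ψ) X D σ + t * En F X D σ := by
  unfold En FT
  rw [sum_add_distrib, mul_sum]

theorem cube_mono {c : Site d} {R R' : ℕ} (h : R ≤ R') : cube c R ⊆ cube c R' := by
  intro x hx
  rw [mem_cube] at hx ⊢
  intro i
  have := hx i
  have h2 : (R : ℤ) ≤ R' := by exact_mod_cast h
  exact ⟨this.1, by linarith [this.2]⟩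

theorem isLocal_mono {R R' : ℕ} {F : (Bond d → S) → Cfg d k → ℝ} (hF : IsLocal R F)
    (h : R ≤ R') : IsLocal R' F :=
  fun X X' σ σ' h1 h2 => hF X X' σ σ' (fun e he => h1 e (bonds_mono (cube_mono h) he))
    (fun a x hx => h2 a x (cube_mono h hx))

theorem zero_mem_two : (0 : Site d) ∈ cube (0 : Site d) 2 := by
  rw [mem_cube]
  intro i
  simp

theorem tip_mem_two (i : Fin d) : tip ((0, i) : Bond d) ∈ cube (0 : Site d) 2 := by
  rw [mem_cube]
  intro j
  rw [tip_apply]
  simp only [Pi.zero_apply, zero_add]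
  split_ifs <;> norm_num

theorem F0_local (ψ : S → ℝ) : IsLocal (k := k) 2 (F0 (d := d) ψ) := by
  intro X X' σ σ' h1 h2
  unfold F0
  refine sum_congr rfl fun a _ => sum_congr rfl fun i _ => ?_
  rw [h1 (0, i) (mem_bonds.2 ⟨zero_mem_two, tip_mem_two i⟩), h2 a 0 zero_mem_two,
    h2 a _ (tip_mem_two i)]

theorem AGS_congr {ψ : S → ℝ} {R : ℕ} {F : (Bond d → S) → Cfg d k → ℝ} {m : ℕ}
    {X : Bond d → S} {σ τ : Cfg d k} (h : ∀ a, ∀ x ∈ Bx d (m + 1), σ a x = τ a x)
    (hσ : AGS ψ R F m X σ) : AGS ψ R F m X τ := by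
  intro a A hA
  refine (hσ a A hA).trans (le_of_eq ?_)
  unfold bs
  refine sum_congr rfl fun e he => ?_
  have h1 := bdry_Bx hA he
  have h2 : tip e ∈ Bx d (m + 1) := by
    rw [mem_bdry] at he
    have : e.1 ∈ A ∨ tip e ∈ A := by tauto
    rcases this with h | h
    · have h1 := mem_Bx.1 (hA h)
      rw [mem_Bx]
      intro i
      have := h1 i
      rw [tip_apply]
      push_cast
      split_ifs <;> constructor <;> linarith [this.1, this.2]
    · have h1 := mem_Bx.1 (hA h)
      rw [mem_Bx]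
      intro i
      have := h1 i
      push_cast
      constructor <;> linarith [this.1, this.2]
  rw [h a _ h1, h a _ h2]

/-- The maximum of the block sum over the approximate ground states. -/
noncomputable def Zm (ψ : S → ℝ) (R : ℕ) (F : (Bond d → S) → Cfg d k → ℝ) (m N : ℕ)
    (X : Bond d → S) : ℝ := by
  classical
  exact ((Finset.univ : Finset (Fin k)) ×ˢ Bx d (m + N + R + 1)).powerset.sup' ⟨∅, by simp⟩
    fun A => if AGS ψ R F m X (spk A) then En F X (cube 0 N) (spk A)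
      else -∑ x ∈ cube (0 : Site d) N, Ab R F (th x X)

section

variable {ψ : S → ℝ} {R : ℕ} {F : (Bond d → S) → Cfg d k → ℝ}

theorem Zm_ge (hF : IsLocal R F) {m N : ℕ} {X : Bond d → S} {σ : Cfg d k} (hσ : IsConf σ)
    (h : AGS ψ R F m X σ) : En F X (cube 0 N) σ ≤ Zm ψ R F m N X := by
  classical
  obtain ⟨A, hA, hAσ⟩ := sp_minus hσ (Bx d (m + N + R + 1))
  have h1 : AGS ψ R F m X (spk A) := by
    refine AGS_congr (fun a x hx => hAσ a x ?_) h
    rw [mem_Bx] at hx ⊢
    intro i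
    have := hx i
    push_cast at this ⊢
    constructor <;> linarith [this.1, this.2]
  have h2 : En F X (cube 0 N) σ = En F X (cube 0 N) (spk A) := by
    refine En_congr hF (fun _ _ => rfl) fun a x hx => hAσ a x ?_
    rw [mem_Bx]
    rw [mem_cube] at hx
    intro i
    have := hx i
    simp only [Pi.zero_apply, zero_add] at this
    push_cast at this ⊢
    constructor <;> linarith [this.1, this.2]
  rw [h2]
  unfold Zm
  have h3 := le_sup' (f := fun A => if AGS ψ R F m X (spk A) then En F X (cube 0 N) (spk A)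
      else -∑ x ∈ cube (0 : Site d) N, Ab R F (th x X)) (mem_powerset.2 hA)
  rw [if_pos h1] at h3
  exact h3

theorem abs_Zm_le (hF : IsLocal R F) (m N : ℕ) (X : Bond d → S) :
    |Zm ψ R F m N X| ≤ ∑ x ∈ cube (0 : Site d) N, Ab R F (th x X) := by
  classical
  have h0 : 0 ≤ ∑ x ∈ cube (0 : Site d) N, Ab R F (th x X) :=
    sum_nonneg fun x _ => Ab_nonneg _ _ _
  obtain ⟨A, hA, h⟩ := exists_mem_eq_sup'
    (s := ((Finset.univ : Finset (Fin k)) ×ˢ Bx d (m + N + R + 1)).powerset) ⟨∅, by simp⟩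
    (fun A => if AGS ψ R F m X (spk A) then En F X (cube 0 N) (spk A)
      else -∑ x ∈ cube (0 : Site d) N, Ab R F (th x X))
  have h1 : Zm ψ R F m N X = if AGS ψ R F m X (spk A) then En F X (cube 0 N) (spk A)
      else -∑ x ∈ cube (0 : Site d) N, Ab R F (th x X) := h
  rw [h1]
  split_ifs
  · exact abs_En_le hF X _ (conf_sp A)
  · rw [abs_neg, abs_of_nonneg h0]

theorem Bx_cube (d m : ℕ) : Bx d m = cube (fun _ => -(m : ℤ)) (2 * m + 1) := rfl

theorem exists_AGS (ψ : S → ℝ) (hF : IsLocal R F) (m : ℕ) (X : Bond d → S) :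
    ∃ σ : Cfg d k, IsConf σ ∧ AGS ψ R F m X σ := by
  obtain ⟨A, hA⟩ := exists_Mx (k := k) 2 (F0 ψ) X (fun _ => -((m + 1 : ℕ) : ℤ)) (2 * (m + 1) + 1)
  refine ⟨spk A, conf_sp A, opt_AGS ψ hF X (D := Bx d (m + 1)) (t := 0) le_rfl (by positivity)
    (conf_sp A) (fun τ hτ => ?_) (Subset.refl _)⟩
  rw [zero_mul, zero_mul, add_zero, add_zero, Bx_cube, ← hA]
  exact En_le_Mx (F0_local ψ) X _ _ hτ

theorem Zm_att (hF : IsLocal R F) (m N : ℕ) (X : Bond d → S) :
    ∃ σ : Cfg d k, IsConf σ ∧ AGS ψ R F m X σ ∧ Zm ψ R F m N X ≤ En F X (cube 0 N) σ := by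
  classical
  obtain ⟨A, hA, h⟩ := exists_mem_eq_sup'
    (s := ((Finset.univ : Finset (Fin k)) ×ˢ Bx d (m + N + R + 1)).powerset) ⟨∅, by simp⟩
    (fun A => if AGS ψ R F m X (spk A) then En F X (cube 0 N) (spk A)
      else -∑ x ∈ cube (0 : Site d) N, Ab R F (th x X))
  have h1 : Zm ψ R F m N X = if AGS ψ R F m X (spk A) then En F X (cube 0 N) (spk A)
      else -∑ x ∈ cube (0 : Site d) N, Ab R F (th x X) := h
  by_cases hA2 : AGS ψ R F m X (spk A)
  · rw [if_pos hA2] at h1
    exact ⟨spk A, conf_sp A, hA2, h1.le⟩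
  · rw [if_neg hA2] at h1
    obtain ⟨σ, hσ, hσ2⟩ := exists_AGS ψ hF m X
    refine ⟨σ, hσ, hσ2, ?_⟩
    rw [h1]
    exact (abs_le.1 (abs_En_le hF X _ hσ)).1

theorem AGS_mono {m m' : ℕ} (h : m ≤ m') {X : Bond d → S} {σ : Cfg d k}
    (hσ : AGS ψ R F m' X σ) : AGS ψ R F m X σ := by
  intro a A hA
  have hA' : A ⊆ Bx d m' := by
    intro x hx
    have h1 := mem_Bx.1 (hA hx)
    rw [mem_Bx]
    intro i
    have := h1 i
    have h2 : (m : ℤ) ≤ m' := by exact_mod_cast h
    constructor <;> linarith [this.1, this.2]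
  refine le_trans ?_ (hσ a A hA')
  have hQ : 0 ≤ QA R F X A := sum_nonneg fun y _ => Ab_nonneg _ _ _
  refine mul_le_mul_of_nonneg_right (neg_le_neg ?_) hQ
  have h2 : (m : ℝ) ≤ m' := by exact_mod_cast h
  exact one_div_le_one_div_of_le (by positivity) (by linarith)

theorem Zm_anti (hF : IsLocal R F) (N : ℕ) (X : Bond d → S) :
    Antitone fun m => Zm ψ R F m N X := by
  intro m m' h
  obtain ⟨σ, h1, h2, h3⟩ := Zm_att (ψ := ψ) hF m' N X
  exact h3.trans (Zm_ge hF h1 (AGS_mono h h2))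

theorem tile {K N : ℕ} : (cube (0 : Site d) K).biUnion
    (fun b => cube (corner 0 N b) N) = cube (0 : Site d) (K * N) := by
  classical
  refine eq_of_subset_of_card_le ?_ ?_
  · intro x hx
    rw [mem_biUnion] at hx
    obtain ⟨b, hb, hx⟩ := hx
    exact block_sub le_rfl hb hx
  · rw [card_biUnion fun b _ b' _ hne => block_dis hne, sum_congr rfl fun b _ => card_cube _ N,
      sum_const, card_cube, card_cube, smul_eq_mul, mul_pow]

/-- The inner blocks. -/
noncomputable def inn (d K m : ℕ) : Finset (Site d) :=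
  cube (fun _ => ((m + 1 : ℕ) : ℤ)) (K - 2 * (m + 1))

theorem inn_sub {K m : ℕ} : inn d K m ⊆ cube (0 : Site d) K := by
  intro x hx
  unfold inn at hx
  rw [mem_cube] at hx ⊢
  intro i
  have := hx i
  simp only [Pi.zero_apply, zero_add]
  omega

/-- The derivative of the maximum is controlled by the blocks. -/
theorem blk (hF : IsLocal R F) (X : Bond d → S) {m N K : ℕ} (hN : 0 < N) {t : ℝ} (ht0 : 0 ≤ t)
    (ht : t ≤ 1 / ((m : ℝ) + 1)) :
    Mx (R + 2) (FT ψ F t) X 0 (K * N) - Mx (R + 2) (FT ψ F 0) X 0 (K * N) ≤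
      t * (∑ b ∈ inn d K m, Zm ψ R F m N (th (corner 0 N b) X) +
        ∑ b ∈ cube (0 : Site d) K \ inn d K m,
          ∑ x ∈ cube (corner 0 N b) N, Ab R F (th x X)) := by
  classical
  have hloc : ∀ t : ℝ, IsLocal (R + 2) (FT ψ F t) := by
    intro t X X' σ σ' h1 h2
    unfold FT
    rw [isLocal_mono (F0_local ψ) (show 2 ≤ R + 2 by omega) X X' σ σ' h1 h2,
      isLocal_mono hF (show R ≤ R + 2 by omega) X X' σ σ' h1 h2]
  obtain ⟨A, hA⟩ := exists_Mx (R + 2) (FT ψ F t) X 0 (K * N)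
  set σ : Cfg d k := spk A with hσdef
  have hσ : IsConf σ := conf_sp A
  have hmax : ∀ τ : Cfg d k, IsConf τ →
      En (F0 ψ) X (cube 0 (K * N)) τ + t * En F X (cube 0 (K * N)) τ ≤
      En (F0 ψ) X (cube 0 (K * N)) σ + t * En F X (cube 0 (K * N)) σ := by
    intro τ hτ
    rw [← En_FT, ← En_FT, ← hA]
    exact En_le_Mx (hloc t) X _ _ hτ
  have h0 : En (F0 ψ) X (cube 0 (K * N)) σ ≤ Mx (R + 2) (FT ψ F 0) X 0 (K * N) := by
    have := En_le_Mx (hloc 0) X 0 (K * N) hσ
    rwa [En_FT, zero_mul, add_zero] at this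
  have h1 : Mx (R + 2) (FT ψ F t) X 0 (K * N) - Mx (R + 2) (FT ψ F 0) X 0 (K * N) ≤
      t * En F X (cube 0 (K * N)) σ := by
    rw [hA, En_FT]
    linarith
  refine h1.trans (mul_le_mul_of_nonneg_left ?_ ht0)
  -- decomposition into blocks
  have h2 : En F X (cube 0 (K * N)) σ =
      ∑ b ∈ cube (0 : Site d) K, En F X (cube (corner 0 N b) N) σ := by
    rw [← tile]
    unfold En
    exact sum_biUnion fun b _ b' _ hne => block_dis hne
  rw [h2, ← sum_sdiff (inn_sub (d := d) (K := K) (m := m)), add_comm]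
  refine add_le_add (sum_le_sum fun b hb => ?_) (sum_le_sum fun b _ => ?_)
  · rw [En_shift]
    refine Zm_ge hF (conf_sh hσ _) ?_
    refine opt_AGS ψ hF (th (corner 0 N b) X) (D := cube (-corner 0 N b) (K * N)) ht0 ht
      (conf_sh hσ _) ?_ ?_
    · intro τ hτ
      have e1 : ∀ (G : (Bond d → S) → Cfg d k → ℝ) (ρ : Cfg d k),
          En G (th (corner 0 N b) X) (cube (-corner 0 N b) (K * N)) ρ =
            En G X (cube 0 (K * N)) (sh (-corner 0 N b) ρ) := by
        intro G ρ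
        rw [En_shift G (th (corner 0 N b) X) (-corner 0 N b), th_th, neg_add_cancel]
        unfold th
        simp
      have e2 : sh (-corner 0 N b) (sh (corner 0 N b) σ) = σ := by
        rw [sh_sh, neg_add_cancel]
        unfold sh
        simp
      rw [e1, e1, e1, e1, e2]
      exact hmax _ (conf_sh hτ _)
    · intro x hx
      rw [mem_Bx] at hx
      unfold inn at hb
      rw [mem_cube] at hb ⊢
      intro i
      have h3 := hx i
      have h4 := hb i
      simp only [corner, Pi.neg_apply, Pi.zero_apply, zero_add]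
      have hN' : (1 : ℤ) ≤ N := by exact_mod_cast hN
      have h5 : ((m : ℤ) + 1) ≤ b i := by exact_mod_cast h4.1
      have h6 : b i + (m + 1) + 1 ≤ K := by
        have := h4.2
        omega
      push_cast at h3 ⊢
      constructor
      · nlinarith [h3.1]
      · nlinarith [h3.2]
  · exact (le_abs_self _).trans (abs_En_le hF X _ hσ)

end

end Pool.Agent.Zk58.EK
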