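import Pool.Agent.Zk58.EK.Cv

set_option autoImplicit false
set_option linter.unusedSectionVars false

/-!
Module CV2.
-/

namespace Pool.Agent.Zk58.EK

open Finset MeasureTheory ProbabilityTheory Filter

open scoped BigOperators ENNReal Topology NNReal

variable {d : ℕ} {S : Type}

theorem W_flp (J : Bond d → ℝ) (B A : Finset (Site d)) (ρ : Site d → ℝ)
    (h : bdry A ⊆ bonds B) : W J B (flp A ρ) = W J B ρ - 2 * bs J ρ A := by
  classical
  unfold W bs
  have h1 : ∑ e ∈ bdry A, J e * (ρ e.1 * ρ (tip e)) =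
      ∑ e ∈ bonds B, if e ∈ bdry A then J e * (ρ e.1 * ρ (tip e)) else 0 := by
    rw [← sum_filter]
    congr 1
    ext e
    simp only [mem_filter]
    exact ⟨fun he => ⟨h he, he⟩, fun he => he.2⟩
  rw [h1, mul_sum, ← sum_sub_distrib]
  refine sum_congr rfl fun e _ => ?_
  by_cases hx : e.1 ∈ A <;> by_cases hy : tip e ∈ A
  · have : ¬ e ∈ bdry A := by rw [mem_bdry]; tauto
    rw [if_neg this, flp_in hx, flp_in hy]
    ring
  · have : e ∈ bdry A := by rw [mem_bdry]; tauto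
    rw [if_pos this, flp_in hx, flp_out hy]
    ring
  · have : e ∈ bdry A := by rw [mem_bdry]; tauto
    rw [if_pos this, flp_out hx, flp_in hy]
    ring
  · have : ¬ e ∈ bdry A := by rw [mem_bdry]; tauto
    rw [if_neg this, flp_out hx, flp_out hy]
    ring

/-- The bonds of the boundary of an interior set. -/
theorem bdry_int {N : ℕ} {A : Finset (Site d)} (hA : ∀ x ∈ A, ∀ j, 1 ≤ x j ∧ x j + 1 < N) :
    bdry A ⊆ bonds (cube (0 : Site d) N) := by
  intro e he
  rw [mem_bdry] at he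
  rw [mem_bonds, mem_cube, mem_cube]
  by_cases hx : e.1 ∈ A
  · refine ⟨fun j => ?_, fun j => ?_⟩
    · have := hA _ hx j
      simp only [Pi.zero_apply, zero_add]
      constructor <;> linarith [this.1, this.2]
    · have := hA _ hx j
      rw [tip_apply]
      simp only [Pi.zero_apply, zero_add]
      split_ifs <;> constructor <;> linarith [this.1, this.2]
  · have hy : tip e ∈ A := by tauto
    have h1 : ∀ j, e.1 j = tip e j - (if j = e.2 then 1 else 0) := by
      intro j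
      rw [tip_apply]
      ring
    refine ⟨fun j => ?_, fun j => ?_⟩
    · have := hA _ hy j
      rw [h1]
      simp only [Pi.zero_apply, zero_add]
      split_ifs <;> constructor <;> linarith [this.1, this.2]
    · have := hA _ hy j
      simp only [Pi.zero_apply, zero_add]
      constructor <;> linarith [this.1, this.2]

theorem free_int {J : Bond d → ℝ} {N : ℕ} {ρ : Site d → ℝ} (hρ : NearGS J 0 0 N ρ)
    {A : Finset (Site d)} (hA : ∀ x ∈ A, ∀ j, 1 ≤ x j ∧ x j + 1 < N) : 0 ≤ bs J ρ A := by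
  classical
  have h1 : ∀ x, flp A ρ x = 1 ∨ flp A ρ x = -1 := by
    intro x
    by_cases hx : x ∈ A
    · rw [flp_in hx]
      rcases hρ.1 x with h | h <;> rw [h] <;> norm_num
    · rw [flp_out hx]
      exact hρ.1 x
  have h2 := near_W hρ h1
  rw [W_flp J _ A ρ (bdry_int hA), zero_mul] at h2
  linarith

/-- The free ground state of a large cube, seen from `z`. -/
theorem free_cubeGS {ψ : S → ℝ} {X : Bond d → S} {N n : ℕ} {ρ : Site d → ℝ}
    (hρ : NearGS (fun e => ψ (X e)) 0 0 N ρ) {z : Site d} (hz : ∀ j, 1 ≤ z j ∧ z j + n < N) :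
    CubeGS (fun e => ψ (th z X e)) 0 n (fun y => ρ (y + z)) := by
  refine ⟨fun x => hρ.1 _, fun A hA => ?_⟩
  have h1 := bs_shift (fun e => ψ (X e)) (fun y => ρ (y + z)) z
    (A.map (Equiv.addRight z).toEmbedding)
  have h2 : (A.map (Equiv.addRight z).toEmbedding).map (Equiv.subRight z).toEmbedding = A := by
    rw [Finset.map_map]
    ext x
    simp
  rw [h2] at h1
  simp only [sub_add_cancel] at h1
  have h3 : (fun e : Bond d => ψ (X (e.1 + z, e.2))) = fun e => ψ (th z X e) := rfl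
  rw [h3] at h1
  rw [← h1]
  refine free_int hρ fun x hx j => ?_
  rw [mem_map_equiv] at hx
  have h4 := hA hx
  rw [mem_cube] at h4
  have h5 := h4 j
  simp only [Equiv.addRight_symm_apply, Pi.zero_apply, zero_add, Pi.add_apply, Pi.neg_apply,
    ← sub_eq_add_neg, Pi.sub_apply] at h5
  have := hz j
  constructor <;> linarith [this.1, this.2, h5.1, h5.2]

variable [MeasurableSpace S] {μ : Measure S} [IsProbabilityMeasure μ] {ψ : S → ℝ}

/-- The bad events. -/
theorem bad_mixed (hd : 2 ≤ d) (hψ : Measurable ψ) (hψ2 : MemLp ψ 2 μ)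
    (hat : ∀ t : ℝ, μ {s | ψ s = t} = 0) (hM : MacroUnique μ ψ d) {ε : ℝ} (hε : 0 < ε) :
    ∃ C : ℝ, 0 ≤ C ∧ ∃ n0 : ℕ, ∀ n ≥ n0, ∃ Bad : Set (Bond d → S),
      (PX d μ).real Bad ≤ C / (n : ℝ) ^ d ∧ ∀ X ∉ Bad, ∀ ρ τ : Site d → ℝ,
        CubeGS (fun e => ψ (X e)) 0 n ρ → NearGS (fun e => ψ (X e)) 0 0 n τ →
          (dif 0 n ρ τ : ℝ) ≤ ε * (n : ℝ) ^ d := by
  have hG : Good μ 2 (Fov d S) := Fov_good
  obtain ⟨-, h0⟩ := cvx (gg μ ψ 2 (Fov d S)) (gg_convex hψ hψ2 hG)
  obtain ⟨l, r, hle, hR, hL, hD, hr1, hl1, hlr⟩ := h0 0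
  have hlr0 : l = r := by
    rw [diff_iff hd hψ hψ2 hat hG hr1 hl1 hlr]
    filter_upwards [hM] with X hX σ τ hσ hτ
    have h1 := (hX (τ 0) (τ 1) (hτ 0) (hτ 1)).const_mul 2
    have h2 := (hX (σ 0) (σ 1) (hσ 0) (hσ 1)).const_mul 2
    have h3 := h1.sub h2
    simp only [mul_zero, sub_zero] at h3
    refine h3.congr fun n => ?_
    rw [En_Fov X 0 n (GSs_WGS hσ).1, En_Fov X 0 n (GSs_WGS hτ).1]
    ring
  have hr : (d : ℝ) ≤ r := by
    refine le_of_forall_pos_le_add fun η hη => ?_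
    obtain ⟨δ, hδ, h⟩ := as_near hd hψ hψ2 hG hlr hη
    obtain ⟨X, hX⟩ := (h fun _ => 0).exists
    obtain ⟨n, hn, hn0⟩ := (hX.and (eventually_gt_atTop 0)).exists
    obtain ⟨A, hA⟩ := exists_Mx (k := 1) 2 (F0 ψ) X 0 n
    have h1 : NearOpt ψ (δ / 2) X 0 n fun _ : Fin 1 => (spk A : Cfg d 1) 0 := by
      have h2 : (fun _ : Fin 1 => (spk A : Cfg d 1) 0) = (spk A : Cfg d 1) := by
        funext a
        rw [Subsingleton.elim a 0]
      rw [h2]
      refine ⟨conf_sp A, fun τ hτ => ?_⟩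
      rw [← hA]
      have h3 := En_le_Mx (F0_local ψ) X 0 n hτ
      have h4 : 0 ≤ δ / 2 * (n : ℝ) ^ d := by positivity
      linarith
    have h2 := ((hn _).2 (near_pair h1 h1)).2
    rw [En_Fov X 0 n (near_pair h1 h1).1] at h2
    simp only [Matrix.cons_val_zero, Matrix.cons_val_one, dif_self] at h2
    have h4 : (0 : ℝ) < (n : ℝ) ^ d := by positivity
    push_cast at h2
    rw [mul_zero, sub_zero] at h2
    exact le_of_mul_le_mul_right h2 h4
  obtain ⟨t0, ht0, ht⟩ := hlr (ε / 2) (by linarith)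
  obtain ⟨δ, hδ, C, hC, n0, hB⟩ := near_tail (l := l) (r := r) hψ hψ2 hG hε ht0
    (fun t h1 h2 => by simpa using (ht t h1 h2).1) (fun t h1 h2 => by simpa using (ht t h1 h2).2)
  obtain ⟨C2, hC2, n2, h2⟩ := Tn_tail (d := d) hψ hψ2 (show 0 < δ / 8 by positivity)
  refine ⟨C + C2, by positivity, max n0 n2 + 1, fun n hn => ?_⟩
  have hn0 : 0 < n := by omega
  obtain ⟨Bad, hB1, hB2⟩ := hB n (by omega) 0
  refine ⟨Bad ∪ {X | δ / 8 * (n : ℝ) ^ d ≤ Tn ψ X 0 n}, ?_, ?_⟩
  · refine (measureReal_union_le _ _).trans ?_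
    rw [add_div]
    exact add_le_add hB1 (h2 n (by omega) 0)
  · intro X hX ρ τ hρ hτ
    simp only [Set.mem_union, Set.mem_ofPred_eq, not_or, not_le] at hX
    obtain ⟨hX1, hTn⟩ := hX
    have kρ : NearOpt ψ (δ / 2) X 0 n fun _ : Fin 1 => ρ := by
      refine ⟨fun _ => hρ.1, fun τ' hτ' => ?_⟩
      have hb : BoxGS (k := 1) (fun e => ψ (X e)) 0 n (fun _ => ρ) :=
        ⟨fun _ => hρ.1, fun _ A hA => hρ.2 A hA⟩
      have h1 := En_near ψ X 0 n hb hτ'
      unfold Tn at hTn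
      push_cast at h1
      linarith
    have kτ : NearOpt ψ (δ / 2) X 0 n fun _ : Fin 1 => τ := by
      refine ⟨fun _ => hτ.1, fun τ' hτ' => ?_⟩
      rw [En_F0, En_F0]
      simp only [Finset.univ_unique, sum_singleton, Fin.default_eq_zero]
      have h1 := abs_le.1 (w_W (fun e => ψ (X e)) 0 n hτ.1)
      have h2 := abs_le.1 (w_W (fun e => ψ (X e)) 0 n (hτ' 0))
      have h3 := near_W hτ (hτ' 0)
      have h4 : 0 ≤ δ * (n : ℝ) ^ d := by positivity
      unfold Tn at hTn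
      linarith [h1.1, h1.2, h2.1, h2.2]
    have k2 := near_pair kρ kτ
    have h1 := ((hB2 X hX1).1 ![ρ, τ] k2.1 k2.2).1
    rw [En_Fov X 0 n k2.1, hlr0] at h1
    simp only [Matrix.cons_val_zero, Matrix.cons_val_one] at h1
    have h4 : (0 : ℝ) < (n : ℝ) ^ d := by positivity
    nlinarith

end Pool.Agent.Zk58.EK
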