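import Pool.Agent.Zk58.EK.CV2

set_option autoImplicit false
set_option linter.unusedSectionVars false

/-!
Module CV2, second part.
-/

namespace Pool.Agent.Zk58.EK

open Finset MeasureTheory ProbabilityTheory Filter

open scoped BigOperators ENNReal Topology NNReal

variable {d : ℕ} {S : Type} [MeasurableSpace S] {ψ : S → ℝ}

/-- The distance. -/
noncomputable def DD (sg : ℕ → Bond d → Set (Bond d → S)) (N n : ℕ) (i : Fin d) (X : Bond d → S) : ℝ :=
  ∑ x ∈ cube (0 : Site d) N,
    |(sg N (x, i)).indicator (1 : (Bond d → S) → ℝ) X - frc sg n i (th x X)|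

theorem ind_diff (A B : Set (Bond d → S)) (X Y : Bond d → S) :
    |A.indicator (1 : (Bond d → S) → ℝ) X - B.indicator (1 : (Bond d → S) → ℝ) Y| ≤ 1 := by
  by_cases h1 : X ∈ A <;> by_cases h2 : Y ∈ B
  · rw [Set.indicator_of_mem h1, Set.indicator_of_mem h2]; simp
  · rw [Set.indicator_of_mem h1, Set.indicator_of_notMem h2]; simp
  · rw [Set.indicator_of_notMem h1, Set.indicator_of_mem h2]; simp
  · rw [Set.indicator_of_notMem h1, Set.indicator_of_notMem h2]; simp

theorem one_z {sg : ℕ → Bond d → Set (Bond d → S)} (hsg : IsSg ψ sg) {N n : ℕ} (i : Fin d)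
    (X : Bond d → S) {ε : ℝ} (hEx : ((Ex (0 : Site d) n).card : ℝ) ≤ ε * (n : ℝ) ^ d)
    {z : Site d} (hz : ∀ j, 1 ≤ z j ∧ z j + n < N)
    (hb : ∀ ρ τ : Site d → ℝ, CubeGS (fun e => ψ (th z X e)) 0 n ρ →
      NearGS (fun e => ψ (th z X e)) 0 0 n τ → (dif 0 n ρ τ : ℝ) ≤ ε * (n : ℝ) ^ d) :
    ∑ y ∈ cube (0 : Site d) n, |(sg N (z + y, i)).indicator (1 : (Bond d → S) → ℝ) X -
      (sg n (y, i)).indicator (1 : (Bond d → S) → ℝ) (th z X)| ≤ 2 * (ε * (n : ℝ) ^ d) := by
  classical
  obtain ⟨ρ, hρ, hρ2⟩ := hsg.2 X N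
  obtain ⟨τ, hτ, hτ2⟩ := hsg.2 (th z X) n
  have h1 := hb _ τ (free_cubeGS hρ hz) hτ
  have key : ∀ y ∈ cube (0 : Site d) n,
      |(sg N (z + y, i)).indicator (1 : (Bond d → S) → ℝ) X -
      (sg n (y, i)).indicator (1 : (Bond d → S) → ℝ) (th z X)| ≤
      (if ρ (y + z) * ρ (tip ((y, i) : Bond d) + z) ≠ τ y * τ (tip ((y, i) : Bond d)) then (1 : ℝ)
        else 0) + (if y ∈ Ex (0 : Site d) n then 1 else 0) := by
    intro y hy
    by_cases hyE : y ∈ Ex (0 : Site d) n
    · rw [if_pos hyE]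
      have := ind_diff (sg N (z + y, i)) (sg n (y, i)) X (th z X)
      split_ifs <;> linarith
    · rw [if_neg hyE, add_zero]
      have hty : tip ((y, i) : Bond d) ∈ cube (0 : Site d) n := by
        by_contra h
        exact hyE (Ex_out (e := (y, i)) hy h)
      have hbn : ((y, i) : Bond d) ∈ bonds (cube (0 : Site d) n) := mem_bonds.2 ⟨hy, hty⟩
      have htz : tip ((z + y, i) : Bond d) = tip ((y, i) : Bond d) + z := by
        unfold tip
        simp only
        abel
      have hbN : ((z + y, i) : Bond d) ∈ bonds (cube (0 : Site d) N) := by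
        rw [mem_bonds, htz]
        rw [mem_cube] at hy hty ⊢
        constructor
        · intro j
          have a1 := hy j
          have a2 := hz j
          simp only [Pi.zero_apply, zero_add, Pi.add_apply] at a1 ⊢
          constructor <;> linarith [a1.1, a1.2, a2.1, a2.2]
        · rw [mem_cube]
          intro j
          have a1 := hty j
          have a2 := hz j
          simp only [Pi.zero_apply, zero_add, Pi.add_apply] at a1 ⊢
          constructor <;> linarith [a1.1, a1.2, a2.1, a2.2]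
      have e1 := hρ2 _ hbN
      have e2 := hτ2 _ hbn
      rw [htz] at e1
      simp only at e1 e2
      rw [add_comm z y] at e1
      have hzy : (sg N (z + y, i)) = (sg N (y + z, i)) := by rw [add_comm z y]
      rw [hzy]
      by_cases hc : ρ (y + z) * ρ (tip ((y, i) : Bond d) + z) ≠ τ y * τ (tip ((y, i) : Bond d))
      · rw [if_pos hc]
        exact ind_diff _ _ _ _
      · rw [if_neg hc]
        rw [ne_eq, not_not] at hc
        rw [hc] at e1
        have e3 : X ∈ sg N (y + z, i) ↔ th z X ∈ sg n (y, i) := e1.symm.trans e2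
        by_cases h3 : X ∈ sg N (y + z, i)
        · rw [Set.indicator_of_mem h3, Set.indicator_of_mem (e3.1 h3)]
          simp
        · rw [Set.indicator_of_notMem h3, Set.indicator_of_notMem fun h => h3 (e3.2 h)]
          simp
  refine (sum_le_sum key).trans ?_
  rw [sum_add_distrib]
  have s1 : ∑ y ∈ cube (0 : Site d) n, (if ρ (y + z) * ρ (tip ((y, i) : Bond d) + z) ≠
      τ y * τ (tip ((y, i) : Bond d)) then (1 : ℝ) else 0) ≤
      (dif 0 n (fun y => ρ (y + z)) τ : ℝ) := by
    unfold dif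
    rw [← sum_boole, sum_product]
    refine sum_le_sum fun y _ => ?_
    exact single_le_sum (f := fun i : Fin d => if ρ (y + z) * ρ (tip ((y, i) : Bond d) + z) ≠
      τ y * τ (tip ((y, i) : Bond d)) then (1 : ℝ) else 0)
      (fun j _ => by positivity) (mem_univ i)
  have s2 : ∑ y ∈ cube (0 : Site d) n, (if y ∈ Ex (0 : Site d) n then (1 : ℝ) else 0) ≤
      ((Ex (0 : Site d) n).card : ℝ) := by
    rw [sum_boole]
    exact_mod_cast card_le_card fun y hy => (mem_filter.1 hy).2
  linarith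

theorem det {sg : ℕ → Bond d → Set (Bond d → S)} (hsg : IsSg ψ sg) {N n : ℕ} (hn : 0 < n)
    (hN : n + 2 ≤ N) (i : Fin d) (X : Bond d → S) {ε : ℝ} (hε : 0 ≤ ε)
    (hEx : ((Ex (0 : Site d) n).card : ℝ) ≤ ε * (n : ℝ) ^ d) {B : Set (Bond d → S)}
    (hB : ∀ Y ∉ B, ∀ ρ τ : Site d → ℝ, CubeGS (fun e => ψ (Y e)) 0 n ρ →
      NearGS (fun e => ψ (Y e)) 0 0 n τ → (dif 0 n ρ τ : ℝ) ≤ ε * (n : ℝ) ^ d) :
    DD sg N n i X ≤ 2 * ε * (N : ℝ) ^ d +
      ∑ z ∈ cube (0 : Site d) N, B.indicator (1 : (Bond d → S) → ℝ) (th z X) +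
        ((N : ℝ) ^ d - ((N - n - 2 : ℕ) : ℝ) ^ d) := by
  classical
  have hn' : (0 : ℝ) < (n : ℝ) ^ d := by positivity
  let g : Site d × Site d → ℝ := fun p => |(sg N (p.1, i)).indicator (1 : (Bond d → S) → ℝ) X -
    (sg n (p.2, i)).indicator (1 : (Bond d → S) → ℝ) (th (-p.2 + p.1) X)|
  have hg0 : ∀ p, 0 ≤ g p := fun p => abs_nonneg _
  have hg1 : ∀ p, g p ≤ 1 := fun p => ind_diff _ _ _ _
  have h1 : (n : ℝ) ^ d * DD sg N n i X ≤
      ∑ p ∈ cube (0 : Site d) N ×ˢ cube (0 : Site d) n, g p := by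
    unfold DD
    rw [mul_sum, sum_product]
    refine sum_le_sum fun x _ => ?_
    have e1 : (sg N (x, i)).indicator (1 : (Bond d → S) → ℝ) X - frc sg n i (th x X) =
        (∑ y ∈ cube (0 : Site d) n, ((sg N (x, i)).indicator (1 : (Bond d → S) → ℝ) X -
          (sg n (y, i)).indicator (1 : (Bond d → S) → ℝ) (th (-y + x) X))) / (n : ℝ) ^ d := by
      unfold frc
      rw [sum_sub_distrib, sum_const, card_cube, nsmul_eq_mul, sub_div]
      congr 1
      · push_cast
        field_simp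
      · congr 1
        refine sum_congr rfl fun y _ => ?_
        rw [th_th]
    rw [e1, abs_div, abs_of_pos hn', mul_div_cancel₀ _ hn'.ne']
    exact abs_sum_le_sum_abs _ _
  set Z := cube (fun _ => (1 : ℤ) : Site d) (N - n - 2) with hZ
  have hZm : ∀ z ∈ Z, ∀ j, 1 ≤ z j ∧ z j + n < N := by
    intro z hz j
    rw [hZ, mem_cube] at hz
    have := hz j
    constructor
    · exact this.1
    · have h2 := this.2
      push_cast at h2
      omega
  let q : Site d × Site d → Site d × Site d := fun p => (p.1 + p.2, p.2)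
  have hq : Function.Injective q := by
    intro p p' h
    have a1 := congrArg Prod.fst h
    have a2 := congrArg Prod.snd h
    simp only [q] at a1 a2
    rw [a2] at a1
    exact Prod.ext (add_right_cancel a1) a2
  set Q := (Z ×ˢ cube (0 : Site d) n).image q with hQ
  have hQs : Q ⊆ cube (0 : Site d) N ×ˢ cube (0 : Site d) n := by
    intro p hp
    rw [hQ, mem_image] at hp
    obtain ⟨⟨z, y⟩, hzy, rfl⟩ := hp
    rw [mem_product] at hzy ⊢
    refine ⟨?_, hzy.2⟩
    have a1 := hZm z hzy.1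
    have a2 := mem_cube.1 hzy.2
    rw [mem_cube]
    intro j
    have b1 := a1 j
    have b2 := a2 j
    simp only [q, Pi.zero_apply, zero_add, Pi.add_apply] at b2 ⊢
    constructor <;> linarith [b1.1, b1.2, b2.1, b2.2]
  have hcQ : (Q.card : ℝ) = ((N - n - 2 : ℕ) : ℝ) ^ d * (n : ℝ) ^ d := by
    rw [hQ, card_image_of_injective _ hq, card_product, hZ, card_cube, card_cube]
    push_cast
    ring
  have hcP : ((cube (0 : Site d) N ×ˢ cube (0 : Site d) n).card : ℝ) =
      (N : ℝ) ^ d * (n : ℝ) ^ d := by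
    rw [card_product, card_cube, card_cube]
    push_cast
    ring
  have h2 : ∑ p ∈ cube (0 : Site d) N ×ˢ cube (0 : Site d) n, g p ≤
      ((N : ℝ) ^ d * (n : ℝ) ^ d - ((N - n - 2 : ℕ) : ℝ) ^ d * (n : ℝ) ^ d) + ∑ p ∈ Q, g p := by
    rw [← sum_sdiff hQs]
    refine add_le_add ?_ le_rfl
    refine (sum_le_sum fun p _ => hg1 p).trans ?_
    rw [sum_const, nsmul_eq_mul, mul_one]
    have := card_sdiff_add_card_eq_card hQs
    have h3 : (((cube (0 : Site d) N ×ˢ cube (0 : Site d) n) \ Q).card : ℝ) + Q.card =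
      (cube (0 : Site d) N ×ˢ cube (0 : Site d) n).card := by exact_mod_cast this
    linarith
  have h3 : ∑ p ∈ Q, g p ≤ ∑ z ∈ Z, (2 * (ε * (n : ℝ) ^ d) +
      (n : ℝ) ^ d * B.indicator (1 : (Bond d → S) → ℝ) (th z X)) := by
    rw [hQ, sum_image hq.injOn, sum_product]
    refine sum_le_sum fun z hz => ?_
    have e2 : ∀ y, g (q (z, y)) = |(sg N (z + y, i)).indicator (1 : (Bond d → S) → ℝ) X -
        (sg n (y, i)).indicator (1 : (Bond d → S) → ℝ) (th z X)| := by
      intro y
      simp only [g, q]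
      have : -y + (z + y) = z := by abel
      rw [this]
    simp only [e2]
    by_cases hzB : th z X ∈ B
    · rw [Set.indicator_of_mem hzB, Pi.one_apply, mul_one]
      have h4 : ∑ y ∈ cube (0 : Site d) n,
          |(sg N (z + y, i)).indicator (1 : (Bond d → S) → ℝ) X -
          (sg n (y, i)).indicator (1 : (Bond d → S) → ℝ) (th z X)| ≤ (n : ℝ) ^ d := by
        refine (sum_le_sum fun y _ => ind_diff _ _ _ _).trans (le_of_eq ?_)
        rw [sum_const, card_cube, nsmul_eq_mul, mul_one]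
        push_cast
        rfl
      have h5 : 0 ≤ ε * (n : ℝ) ^ d := mul_nonneg hε hn'.le
      linarith
    · rw [Set.indicator_of_notMem hzB, mul_zero, add_zero]
      exact one_z hsg i X hEx (hZm z hz) (hB _ hzB)
  have h4 : ∑ z ∈ Z, (2 * (ε * (n : ℝ) ^ d) +
      (n : ℝ) ^ d * B.indicator (1 : (Bond d → S) → ℝ) (th z X)) ≤
      (N : ℝ) ^ d * (2 * (ε * (n : ℝ) ^ d)) + (n : ℝ) ^ d *
        ∑ z ∈ cube (0 : Site d) N, B.indicator (1 : (Bond d → S) → ℝ) (th z X) := by
    have hZs : Z ⊆ cube (0 : Site d) N := by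
      intro z hz
      rw [mem_cube]
      intro j
      have := hZm z hz j
      simp only [Pi.zero_apply, zero_add]
      constructor <;> linarith [this.1, this.2]
    have hpos : ∀ z, 0 ≤ B.indicator (1 : (Bond d → S) → ℝ) (th z X) := fun z =>
      Set.indicator_nonneg (fun _ _ => zero_le_one) _
    rw [mul_sum]
    calc _ ≤ ∑ z ∈ cube (0 : Site d) N, (2 * (ε * (n : ℝ) ^ d) +
          (n : ℝ) ^ d * B.indicator (1 : (Bond d → S) → ℝ) (th z X)) := by
          refine sum_le_sum_of_subset_of_nonneg hZs fun z _ _ => ?_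
          have := hpos z
          positivity
      _ = _ := by
          rw [sum_add_distrib, sum_const, card_cube, nsmul_eq_mul]
          push_cast
          ring
  have h5 : (n : ℝ) ^ d * DD sg N n i X ≤ (n : ℝ) ^ d * (2 * ε * (N : ℝ) ^ d +
      ∑ z ∈ cube (0 : Site d) N, B.indicator (1 : (Bond d → S) → ℝ) (th z X) +
        ((N : ℝ) ^ d - ((N - n - 2 : ℕ) : ℝ) ^ d)) := by
    nlinarith
  exact le_of_mul_le_mul_left h5 hn'

end Pool.Agent.Zk58.EK
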