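import Pool.Agent.Zk58.EK.Def

set_option autoImplicit false

/-!
Convex functions of one variable.
-/

namespace Pool.Agent.Zk58.EK

open Filter Set

open scoped Topology

theorem cvx : S_CVX := by
  intro g hg
  have hint : ∀ x : ℝ, x ∈ interior (Set.univ : Set ℝ) := fun x => by simp
  have hR : ∀ x, HasDerivWithinAt g (derivWithin g (Ioi x) x) (Ioi x) x := fun x =>
    hg.hasDerivWithinAt_rightDeriv_of_mem_interior (hint x)
  have hL : ∀ x, HasDerivWithinAt g (derivWithin g (Iio x) x) (Iio x) x := fun x =>
    hg.hasDerivWithinAt_leftDeriv_of_mem_interior (hint x)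
  have hdiff : ∀ x, DifferentiableAt ℝ g x ↔
      derivWithin g (Iio x) x = derivWithin g (Ioi x) x := by
    intro x
    constructor
    · intro h
      have h1 := h.hasDerivAt.hasDerivWithinAt (s := Ioi x)
      have h2 := h.hasDerivAt.hasDerivWithinAt (s := Iio x)
      rw [h1.derivWithin (uniqueDiffWithinAt_Ioi x), h2.derivWithin (uniqueDiffWithinAt_Iio x)]
    · intro h
      have h1 := hasDerivWithinAt_Ioi_iff_Ici.1 (hR x)
      have h2 := hasDerivWithinAt_Iio_iff_Iic.1 (hL x)
      rw [h] at h2
      have h3 := h2.union h1
      rw [Iic_union_Ici, hasDerivWithinAt_univ] at h3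
      exact h3.differentiableAt
  have hsr : ∀ x t : ℝ, 0 < t → derivWithin g (Ioi x) x * t ≤ g (x + t) - g x := by
    intro x t ht
    have h1 := hg.rightDeriv_le_slope_of_mem_interior (hint x) (Set.mem_univ (x + t))
      (by linarith)
    rw [slope_def_field, add_sub_cancel_left, le_div_iff₀ ht] at h1
    exact h1
  have hsl : ∀ x t : ℝ, 0 < t → g x - g (x - t) ≤ derivWithin g (Iio x) x * t := by
    intro x t ht
    have h1 := hg.slope_le_leftDeriv_of_mem_interior (Set.mem_univ (x - t)) (hint x)
      (by linarith)
    rw [slope_def_field, show x - (x - t) = t by ring, div_le_iff₀ ht] at h1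
    exact h1
  refine ⟨?_, fun x => ⟨derivWithin g (Iio x) x, derivWithin g (Ioi x) x,
    hg.leftDeriv_le_rightDeriv_of_mem_interior (hint x), hR x, hL x, hdiff x, hsr x, hsl x, ?_⟩⟩
  · have hmono : Monotone fun x => derivWithin g (Ioi x) x := by
      have := hg.monotoneOn_rightDeriv
      rw [interior_univ] at this
      exact monotoneOn_univ.1 this
    refine hmono.countable_not_continuousAt.mono fun x hx => ?_
    intro hcont
    apply hx
    rw [hdiff x]
    apply le_antisymm (hg.leftDeriv_le_rightDeriv_of_mem_interior (hint x))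
    have h1 : Tendsto (fun y => derivWithin g (Ioi y) y) (𝓝[<] x)
        (𝓝 (derivWithin g (Ioi x) x)) := hcont.tendsto.mono_left nhdsWithin_le_nhds
    refine le_of_tendsto h1 ?_
    filter_upwards [self_mem_nhdsWithin] with y hy
    have hy' : y < x := hy
    have h2 := hsr y (x - y) (by linarith)
    have h3 := hsl x (x - y) (by linarith)
    rw [add_sub_cancel] at h2
    rw [sub_sub_cancel] at h3
    have h4 : 0 < x - y := by linarith
    exact le_of_mul_le_mul_right (h2.trans h3) h4
  · intro ε hε
    have h1 := (hasDerivWithinAt_iff_tendsto_slope' self_notMem_Ioi).1 (hR x)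
    have h2 := (hasDerivWithinAt_iff_tendsto_slope' self_notMem_Iio).1 (hL x)
    have h3 := h1.eventually (gt_mem_nhds (show derivWithin g (Ioi x) x <
      derivWithin g (Ioi x) x + ε by linarith))
    have h4 := h2.eventually (lt_mem_nhds (show derivWithin g (Iio x) x - ε <
      derivWithin g (Iio x) x by linarith))
    rw [eventually_nhdsWithin_iff, Metric.eventually_nhds_iff] at h3 h4
    obtain ⟨a, ha, h3⟩ := h3
    obtain ⟨b, hb, h4⟩ := h4
    refine ⟨min a b / 2, by positivity, fun t ht ht2 => ?_⟩
    have hta : t < a := by
      have := min_le_left a b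
      linarith
    have htb : t < b := by
      have := min_le_right a b
      linarith
    constructor
    · have h5 := h3 (y := x + t) (by rw [Real.dist_eq]; simpa [abs_of_pos ht] using hta)
        (by simpa using ht)
      rw [slope_def_field, add_sub_cancel_left, div_lt_iff₀ ht] at h5
      exact h5.le
    · have h5 := h4 (y := x - t) (by rw [Real.dist_eq]; simpa [abs_of_pos ht] using htb)
        (by simpa using ht)
      rw [slope_comm, slope_def_field, show x - (x - t) = t by ring, lt_div_iff₀ ht] at h5
      exact h5.le

end Pool.Agent.Zk58.EK
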