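import Pool.Agent.Zk58.EK.Lim

set_option autoImplicit false
set_option linter.unusedSectionVars false

/-!
Ground states, approximate ground states: definitions.
-/

namespace Pool.Agent.Zk58.EK

open Finset MeasureTheory ProbabilityTheory Filter

open scoped BigOperators ENNReal Topology

variable {d k : ℕ} {S : Type}

theorem mem_near {A : Finset (Site d)} {e : Bond d} : e ∈ near A ↔ e.1 ∈ A ∨ tip e ∈ A := by
  classical
  unfold near tip
  rw [mem_union, mem_product, mem_image]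
  constructor
  · rintro (h | ⟨e', h, rfl⟩)
    · exact Or.inl h.1
    · right
      rw [mem_product] at h
      simpa using h.1
  · rintro (h | h)
    · exact Or.inl ⟨h, mem_univ _⟩
    · right
      refine ⟨(e.1 + (Pi.single e.2 (1 : ℤ) : Fin d → ℤ), e.2), ?_, ?_⟩
      · rw [mem_product]
        exact ⟨h, mem_univ _⟩
      · simp

theorem mem_bdry {A : Finset (Site d)} {e : Bond d} :
    e ∈ bdry A ↔ ¬ (e.1 ∈ A ↔ tip e ∈ A) := by
  classical
  unfold bdry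
  rw [mem_filter, mem_near]
  tauto

/-- Configurations such that no finite change gains energy. -/
def WGS (J : Bond d → ℝ) (σ : Cfg d k) : Prop :=
  IsConf σ ∧ ∀ a, ∀ A : Finset (Site d), 0 ≤ bs J (σ a) A

/-- The box of the sites with `|x_i| ≤ m`. -/
noncomputable def Bx (d m : ℕ) : Finset (Site d) := cube (fun _ => -(m : ℤ)) (2 * m + 1)

/-- The sites `y` for which `cube y R` may meet `A`. -/
noncomputable def nb (R : ℕ) (A : Finset (Site d)) : Finset (Site d) := by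
  classical
  exact A.biUnion fun z => cube (fun i => z i - R) (R + 1)

/-- The slack. -/
noncomputable def QA (R : ℕ) (F : (Bond d → S) → Cfg d k → ℝ) (X : Bond d → S)
    (A : Finset (Site d)) : ℝ := ∑ y ∈ nb R A, Ab R F (th y X)

/-- Approximate ground states in the box `Bx d m`, with a slack `1 / (m + 1)`. -/
def AGS (ψ : S → ℝ) (R : ℕ) (F : (Bond d → S) → Cfg d k → ℝ) (m : ℕ) (X : Bond d → S)
    (σ : Cfg d k) : Prop :=
  ∀ a, ∀ A ⊆ Bx d m, -(1 / ((m : ℝ) + 1)) * QA R F X A ≤ bs (fun e => ψ (X e)) (σ a) A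

/-- Module CPT: compactness. -/
def S_CPT : Prop := ∀ (d k : ℕ) (S : Type) (ψ : S → ℝ) (R : ℕ)
  (F : (Bond d → S) → Cfg d k → ℝ) (X : Bond d → S) (σ : ℕ → Cfg d k),
  (∀ m, IsConf (σ m)) → (∀ m, AGS ψ R F m X (σ m)) →
    ∃ τ : Cfg d k, WGS (fun e => ψ (X e)) τ ∧
      ∀ B : Finset (Site d), ∃ᶠ m in atTop, ∀ a, ∀ x ∈ B, σ m a x = τ a x

/-- Module TIE: no ties. -/
def S_TIE : Prop := ∀ (d : ℕ) (S : Type) [MeasurableSpace S] (μ : Measure S)
  [IsProbabilityMeasure μ] (ψ : S → ℝ), Measurable ψ → (∀ t : ℝ, μ {s | ψ s = t} = 0) →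
    ∀ᵐ X ∂(PX d μ), ∀ τ : Site d → ℝ, (∀ x, τ x = 1 ∨ τ x = -1) →
      (∀ A : Finset (Site d), 0 ≤ bs (fun e => ψ (X e)) τ A) →
      0 < d → IsGroundState (fun e => ψ (X e)) τ

/-- Module CVX: convex functions of one variable. -/
def S_CVX : Prop := ∀ g : ℝ → ℝ, ConvexOn ℝ Set.univ g →
  {x : ℝ | ¬ DifferentiableAt ℝ g x}.Countable ∧
  ∀ x : ℝ, ∃ l r : ℝ, l ≤ r ∧
    HasDerivWithinAt g r (Set.Ioi x) x ∧ HasDerivWithinAt g l (Set.Iio x) x ∧
    (DifferentiableAt ℝ g x ↔ l = r) ∧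
    (∀ t : ℝ, 0 < t → r * t ≤ g (x + t) - g x) ∧
    (∀ t : ℝ, 0 < t → g x - g (x - t) ≤ l * t) ∧
    (∀ ε : ℝ, 0 < ε → ∃ t0 : ℝ, 0 < t0 ∧ ∀ t : ℝ, 0 < t → t ≤ t0 →
      g (x + t) - g x ≤ (r + ε) * t ∧ (l - ε) * t ≤ g x - g (x - t))

end Pool.Agent.Zk58.EK
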