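import Pool.Agent.Zk58.EK.Blk

set_option autoImplicit false
set_option linter.unusedSectionVars false

/-!
The energy per site as a function of the perturbation: convexity, right derivative.
-/

namespace Pool.Agent.Zk58.EK

open Finset MeasureTheory ProbabilityTheory Filter

open scoped BigOperators ENNReal Topology

variable {d k : ℕ} {S : Type} [MeasurableSpace S] {μ : Measure S} [IsProbabilityMeasure μ]
  {ψ : S → ℝ} {R : ℕ} {F : (Bond d → S) → Cfg d k → ℝ}

theorem ev_mem (hψ2 : MemLp ψ 2 μ) (e : Bond d) :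
    MemLp (fun X : Bond d → S => ψ (X e)) 2 (PX d μ) :=
  hψ2.comp_measurePreserving (measurePreserving_eval_infinitePi (fun _ : Bond d => μ) e)

theorem F0_good (hψ : Measurable ψ) (hψ2 : MemLp ψ 2 μ) :
    Good (d := d) (k := k) μ 2 (F0 ψ) where
  loc := F0_local ψ
  meas := by
    intro σ _
    unfold F0
    exact Finset.measurable_fun_sum _ fun a _ => Finset.measurable_fun_sum _ fun i _ =>
      (hψ.comp (measurable_pi_apply _)).mul_const _
  mem := by
    intro σ _
    unfold F0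
    exact memLp_finsetSum _ fun a _ => memLp_finsetSum _ fun i _ =>
      (ev_mem hψ2 _).mul_const _

theorem FT_good (hψ : Measurable ψ) (hψ2 : MemLp ψ 2 μ) (hF : Good μ R F) (t : ℝ) :
    Good μ (R + 2) (FT ψ F t) where
  loc := by
    intro X X' σ σ' h1 h2
    unfold FT
    rw [isLocal_mono (F0_local ψ) (show 2 ≤ R + 2 by omega) X X' σ σ' h1 h2,
      isLocal_mono hF.loc (show R ≤ R + 2 by omega) X X' σ σ' h1 h2]
  meas := by
    intro σ hσ
    exact ((F0_good hψ hψ2).meas σ hσ).add ((hF.meas σ hσ).const_mul t)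
  mem := by
    intro σ hσ
    exact ((F0_good hψ hψ2).mem σ hσ).add ((hF.mem σ hσ).const_mul t)

/-- The maximum per site as a function of the perturbation. -/
noncomputable def gg (μ : Measure S) (ψ : S → ℝ) (R : ℕ) (F : (Bond d → S) → Cfg d k → ℝ)
    (t : ℝ) : ℝ := gl μ (R + 2) (FT ψ F t)

theorem gg_lim (hψ : Measurable ψ) (hψ2 : MemLp ψ 2 μ) (hF : Good μ R F) (t : ℝ) :
    Tendsto (fun n : ℕ => am μ (R + 2) (FT ψ F t) n / (n : ℝ) ^ d) atTop
      (𝓝 (gg μ ψ R F t)) := gl_lim (FT_good hψ hψ2 hF t)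

theorem Mx_convex (hF : IsLocal R F) (X : Bond d → S) (c : Site d) (n : ℕ) {a b s t : ℝ}
    (ha : 0 ≤ a) (hb : 0 ≤ b) (hab : a + b = 1) :
    Mx (R + 2) (FT ψ F (a * s + b * t)) X c n ≤
      a * Mx (R + 2) (FT ψ F s) X c n + b * Mx (R + 2) (FT ψ F t) X c n := by
  have hloc : ∀ t : ℝ, IsLocal (R + 2) (FT ψ F t) := by
    intro t X X' σ σ' h1 h2
    unfold FT
    rw [isLocal_mono (F0_local ψ) (show 2 ≤ R + 2 by omega) X X' σ σ' h1 h2,
      isLocal_mono hF (show R ≤ R + 2 by omega) X X' σ σ' h1 h2]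
  obtain ⟨A, hA⟩ := exists_Mx (R + 2) (FT ψ F (a * s + b * t)) X c n
  have h1 := mul_le_mul_of_nonneg_left (En_le_Mx (hloc s) X c n (conf_sp A)) ha
  have h2 := mul_le_mul_of_nonneg_left (En_le_Mx (hloc t) X c n (conf_sp A)) hb
  rw [hA]
  rw [En_FT] at h1 h2 ⊢
  have h3 : En (F0 ψ) X (cube c n) (spk A) + (a * s + b * t) * En F X (cube c n) (spk A) =
      a * (En (F0 ψ) X (cube c n) (spk A) + s * En F X (cube c n) (spk A)) +
      b * (En (F0 ψ) X (cube c n) (spk A) + t * En F X (cube c n) (spk A)) := by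
    have : b = 1 - a := by linarith
    subst this
    ring
  rw [h3]
  linarith

theorem gg_convex (hψ : Measurable ψ) (hψ2 : MemLp ψ 2 μ) (hF : Good μ R F) :
    ConvexOn ℝ Set.univ (gg μ ψ R F) := by
  refine ⟨convex_univ, fun s _ t _ a b ha hb hab => ?_⟩
  simp only [smul_eq_mul]
  refine le_of_tendsto_of_tendsto (gg_lim hψ hψ2 hF (a * s + b * t))
    (((gg_lim hψ hψ2 hF s).const_mul a).add ((gg_lim hψ hψ2 hF t).const_mul b))
    (Eventually.of_forall fun n => ?_)
  have h1 : am μ (R + 2) (FT ψ F (a * s + b * t)) n ≤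
      a * am μ (R + 2) (FT ψ F s) n + b * am μ (R + 2) (FT ψ F t) n := by
    unfold am
    rw [← integral_const_mul, ← integral_const_mul, ← integral_add
      (((Mx_mem (FT_good hψ hψ2 hF s) 0 n).integrable (by norm_num)).const_mul a)
      (((Mx_mem (FT_good hψ hψ2 hF t) 0 n).integrable (by norm_num)).const_mul b)]
    refine integral_mono ((Mx_mem (FT_good hψ hψ2 hF _) 0 n).integrable (by norm_num))
      ((((Mx_mem (FT_good hψ hψ2 hF s) 0 n).integrable (by norm_num)).const_mul a).add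
      (((Mx_mem (FT_good hψ hψ2 hF t) 0 n).integrable (by norm_num)).const_mul b)) fun X => ?_
    exact Mx_convex hF.loc X 0 n ha hb hab
  have h2 := div_le_div_of_nonneg_right h1 (show (0 : ℝ) ≤ (n : ℝ) ^ d by positivity)
  refine h2.trans (le_of_eq ?_)
  simp only
  rw [add_div, mul_div_assoc, mul_div_assoc]

theorem QA_meas (hF : Good μ R F) (A : Finset (Site d)) :
    Measurable fun X => QA R F X A := by
  unfold QA
  exact Finset.measurable_fun_sum _ fun y _ => (Ab_meas hF).comp (th_meas y)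

theorem bs_meas (hψ : Measurable ψ) (τ : Site d → ℝ) (A : Finset (Site d)) :
    Measurable fun X : Bond d → S => bs (fun e => ψ (X e)) τ A := by
  unfold bs
  exact Finset.measurable_fun_sum _ fun e _ => (hψ.comp (measurable_pi_apply _)).mul_const _

theorem AGS_meas (hψ : Measurable ψ) (hF : Good μ R F) (m : ℕ) (σ : Cfg d k) :
    MeasurableSet {X | AGS ψ R F m X σ} := by
  unfold AGS
  have : {X : Bond d → S | ∀ a, ∀ A ⊆ Bx d m,
      -(1 / ((m : ℝ) + 1)) * QA R F X A ≤ bs (fun e => ψ (X e)) (σ a) A} =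
      ⋂ a : Fin k, ⋂ A : Finset (Site d), ⋂ _ : A ⊆ Bx d m,
        {X | -(1 / ((m : ℝ) + 1)) * QA R F X A ≤ bs (fun e => ψ (X e)) (σ a) A} := by
    ext X
    simp only [Set.mem_iInter, Set.mem_ofPred_eq]
  rw [this]
  exact MeasurableSet.iInter fun a => MeasurableSet.iInter fun A => MeasurableSet.iInter fun _ =>
    measurableSet_le ((QA_meas hF A).const_mul _) (bs_meas hψ _ A)

theorem Zm_meas (hψ : Measurable ψ) (hF : Good μ R F) (m N : ℕ) :
    Measurable (Zm ψ R F m N) := by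
  classical
  have : Zm ψ R F m N =
      ((Finset.univ : Finset (Fin k)) ×ˢ Bx d (m + N + R + 1)).powerset.sup' ⟨∅, by simp⟩
      (fun A X => if AGS ψ R F m X (spk A) then En F X (cube 0 N) (spk A)
      else -∑ x ∈ cube (0 : Site d) N, Ab R F (th x X)) := by
    funext X
    exact (Finset.sup'_apply (⟨∅, by simp⟩ :
      ((Finset.univ : Finset (Fin k)) ×ˢ Bx d (m + N + R + 1)).powerset.Nonempty)
      (fun A X => if AGS ψ R F m X (spk A) then En F X (cube 0 N) (spk A)
      else -∑ x ∈ cube (0 : Site d) N, Ab R F (th x X)) X).symm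
  rw [this]
  refine Finset.measurable_sup' _ fun A _ => ?_
  refine Measurable.ite (AGS_meas hψ hF m (spk A)) ?_ ?_
  · unfold En
    exact Finset.measurable_fun_sum _ fun x _ =>
      (hF.meas _ (conf_sh (conf_sp A) x)).comp (th_meas x)
  · exact (Finset.measurable_fun_sum _ fun x _ => (Ab_meas hF).comp (th_meas x)).neg

theorem Zm_mem (hψ : Measurable ψ) (hF : Good μ R F) (m N : ℕ) :
    MemLp (Zm ψ R F m N) 2 (PX d μ) := by
  have h1 : MemLp (fun X => ∑ x ∈ cube (0 : Site d) N, Ab R F (th x X)) 2 (PX d μ) :=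
    memLp_finsetSum _ fun x _ => Abx_mem hF x
  refine h1.mono (Zm_meas hψ hF m N).aestronglyMeasurable (Eventually.of_forall fun X => ?_)
  rw [Real.norm_eq_abs, Real.norm_of_nonneg (sum_nonneg fun x _ => Ab_nonneg _ _ _)]
  exact abs_Zm_le hF.loc m N X

/-- The mean of the maximum over approximate ground states. -/
noncomputable def zm (μ : Measure S) (ψ : S → ℝ) (R : ℕ) (F : (Bond d → S) → Cfg d k → ℝ)
    (m N : ℕ) : ℝ := ∫ X, Zm ψ R F m N X ∂(PX d μ)

theorem Zm_mean (hψ : Measurable ψ) (hF : Good μ R F) (m N : ℕ) (x : Site d) :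
    ∫ X, Zm ψ R F m N (th x X) ∂(PX d μ) = zm μ ψ R F m N := by
  unfold zm
  have h2 := integral_map (μ := PX d μ) (th_meas (S := S) x).aemeasurable
    (f := fun Y => Zm ψ R F m N Y) (by rw [th_map]; exact (Zm_meas hψ hF m N).aestronglyMeasurable)
  rw [← h2, th_map]

theorem inn_card (d K m : ℕ) : (inn d K m).card = (K - 2 * (m + 1)) ^ d := by
  unfold inn
  exact card_cube _ _

theorem am_blk (hψ : Measurable ψ) (hψ2 : MemLp ψ 2 μ) (hF : Good μ R F) {m N K : ℕ}
    (hN : 0 < N) {t : ℝ} (ht0 : 0 ≤ t) (ht : t ≤ 1 / ((m : ℝ) + 1)) :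
    am μ (R + 2) (FT ψ F t) (K * N) - am μ (R + 2) (FT ψ F 0) (K * N) ≤
      t * (((K - 2 * (m + 1) : ℕ) : ℝ) ^ d * zm μ ψ R F m N +
        ((K : ℝ) ^ d - ((K - 2 * (m + 1) : ℕ) : ℝ) ^ d) * ((N : ℝ) ^ d * bm μ R F)) := by
  classical
  have i1 : Integrable (fun X => Mx (R + 2) (FT ψ F t) X 0 (K * N)) (PX d μ) :=
    (Mx_mem (FT_good hψ hψ2 hF t) 0 _).integrable (by norm_num)
  have i2 : Integrable (fun X => Mx (R + 2) (FT ψ F 0) X 0 (K * N)) (PX d μ) :=
    (Mx_mem (FT_good hψ hψ2 hF 0) 0 _).integrable (by norm_num)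
  have i3 : ∀ b : Site d, Integrable (fun X => Zm ψ R F m N (th (corner 0 N b) X)) (PX d μ) :=
    fun b => ((Zm_mem hψ hF m N).comp_measurePreserving (th_mp μ _)).integrable (by norm_num)
  have i4 : ∀ b : Site d, Integrable (fun X => ∑ x ∈ cube (corner 0 N b) N, Ab R F (th x X))
      (PX d μ) := fun b =>
    integrable_finsetSum _ fun x _ => (Abx_mem hF x).integrable (by norm_num)
  have h1 : ∫ X, (Mx (R + 2) (FT ψ F t) X 0 (K * N) - Mx (R + 2) (FT ψ F 0) X 0 (K * N))
      ∂(PX d μ) ≤ ∫ X, t * (∑ b ∈ inn d K m, Zm ψ R F m N (th (corner 0 N b) X) +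
        ∑ b ∈ cube (0 : Site d) K \ inn d K m,
          ∑ x ∈ cube (corner 0 N b) N, Ab R F (th x X)) ∂(PX d μ) := by
    refine integral_mono (i1.sub i2) (((integrable_finsetSum _ fun b _ => i3 b).add
      (integrable_finsetSum _ fun b _ => i4 b)).const_mul t) fun X => ?_
    exact blk hF.loc X hN ht0 ht
  rw [integral_sub i1 i2, integral_const_mul, integral_add (integrable_finsetSum _ fun b _ => i3 b)
    (integrable_finsetSum _ fun b _ => i4 b), integral_finsetSum _ fun b _ => i3 b,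
    integral_finsetSum _ fun b _ => i4 b, sum_congr rfl fun b _ => Zm_mean hψ hF m N _,
    sum_congr rfl fun b _ => sum_mean hF _, sum_const, inn_card] at h1
  unfold am
  refine h1.trans (mul_le_mul_of_nonneg_left (le_of_eq ?_) ht0)
  have h2 : ((cube (0 : Site d) K \ inn d K m).card : ℝ) =
      (K : ℝ) ^ d - ((K - 2 * (m + 1) : ℕ) : ℝ) ^ d := by
    have h3 := card_sdiff_add_card_eq_card (inn_sub (d := d) (K := K) (m := m))
    rw [inn_card, card_cube] at h3
    have h4 : ((cube (0 : Site d) K \ inn d K m).card : ℝ) +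
        ((K - 2 * (m + 1) : ℕ) : ℝ) ^ d = (K : ℝ) ^ d := by exact_mod_cast h3
    linarith
  rw [nsmul_eq_mul, sum_congr rfl fun b _ => by rw [card_cube], sum_const, nsmul_eq_mul, h2]
  push_cast
  ring

/-- The increments of the energy are controlled by the approximate ground states. -/
theorem gg_le (hψ : Measurable ψ) (hψ2 : MemLp ψ 2 μ) (hF : Good μ R F) {m N : ℕ}
    (hN : 0 < N) {t : ℝ} (ht0 : 0 ≤ t) (ht : t ≤ 1 / ((m : ℝ) + 1)) :
    gg μ ψ R F t - gg μ ψ R F 0 ≤ t * (zm μ ψ R F m N / (N : ℝ) ^ d) := by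
  have hN' : (0 : ℝ) < (N : ℝ) ^ d := by positivity
  have hsub : Tendsto (fun K : ℕ => K * N) atTop atTop :=
    Filter.tendsto_id.atTop_mul_const' hN
  have l1 := ((gg_lim hψ hψ2 hF t).comp hsub).sub ((gg_lim hψ hψ2 hF 0).comp hsub)
  have hr : Tendsto (fun K : ℕ => (((K - 2 * (m + 1) : ℕ) : ℝ) / K) ^ d) atTop (𝓝 1) := by
    have h1 : Tendsto (fun K : ℕ => 1 - (2 * ((m : ℝ) + 1)) / K) atTop (𝓝 1) := by
      have h2 : Tendsto (fun K : ℕ => (2 * ((m : ℝ) + 1)) / (K : ℝ)) atTop (𝓝 0) :=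
        Tendsto.div_atTop tendsto_const_nhds tendsto_natCast_atTop_atTop
      simpa using tendsto_const_nhds (x := (1 : ℝ)) |>.sub h2
    have h3 := h1.pow d
    rw [one_pow] at h3
    refine h3.congr' ?_
    filter_upwards [eventually_ge_atTop (2 * (m + 1)), eventually_gt_atTop 0] with K hK hK0
    rw [Nat.cast_sub hK]
    have : (0 : ℝ) < K := by exact_mod_cast hK0
    congr 1
    push_cast
    field_simp
  have l2 : Tendsto (fun K : ℕ => t * ((((K - 2 * (m + 1) : ℕ) : ℝ) / K) ^ d *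
      (zm μ ψ R F m N / (N : ℝ) ^ d) +
        (1 - (((K - 2 * (m + 1) : ℕ) : ℝ) / K) ^ d) * bm μ R F)) atTop
      (𝓝 (t * (1 * (zm μ ψ R F m N / (N : ℝ) ^ d) + (1 - 1) * bm μ R F))) :=
    ((hr.mul_const _).add ((hr.const_sub 1).mul_const _)).const_mul t
  have l3 := le_of_tendsto_of_tendsto l1 l2 ?_
  · simpa using l3
  · filter_upwards [eventually_gt_atTop 0] with K hK
    have hK' : (0 : ℝ) < (K : ℝ) ^ d := by positivity
    have h1 := am_blk hψ hψ2 hF (K := K) hN ht0 ht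
    simp only [Function.comp]
    rw [← sub_div]
    have e1 : ((K * N : ℕ) : ℝ) ^ d = (K : ℝ) ^ d * (N : ℝ) ^ d := by
      push_cast
      rw [mul_pow]
    rw [e1, div_le_iff₀ (mul_pos hK' hN')]
    refine h1.trans (le_of_eq ?_)
    rw [div_pow]
    field_simp

end Pool.Agent.Zk58.EK
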