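import Pool.Agent.Zk58.EK.Multi2

set_option autoImplicit false
set_option linter.unusedSectionVars false

/-!
Ground states with the extreme densities; pointwise differences.
-/

namespace Pool.Agent.Zk58.EK

open Finset MeasureTheory ProbabilityTheory Filter

open scoped BigOperators ENNReal Topology

variable {d k : ℕ} {S : Type} [MeasurableSpace S] {μ : Measure S} [IsProbabilityMeasure μ]
  {ψ : S → ℝ} {R : ℕ} {F : (Bond d → S) → Cfg d k → ℝ}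

theorem Av_neg (N : ℕ) (X : Bond d → S) (σ : Cfg d k) :
    Av (fun X σ => -F X σ) N X σ = -Av F N X σ := by
  unfold Av
  rw [En_neg, neg_div]

/-- Almost surely there are ground states with the extreme densities. -/
theorem seq_att (hd : 2 ≤ d) (hψ : Measurable ψ) (hψ2 : MemLp ψ 2 μ)
    (hat : ∀ t : ℝ, μ {s | ψ s = t} = 0) (hF : Good μ R F) {l r : ℝ}
    (hr1 : ∀ t : ℝ, 0 < t → r * t ≤ gg μ ψ R F (0 + t) - gg μ ψ R F 0)
    (hl1 : ∀ t : ℝ, 0 < t → gg μ ψ R F 0 - gg μ ψ R F (0 - t) ≤ l * t)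
    (hlr : ∀ ε : ℝ, 0 < ε → ∃ t0 : ℝ, 0 < t0 ∧ ∀ t : ℝ, 0 < t → t ≤ t0 →
      gg μ ψ R F (0 + t) - gg μ ψ R F 0 ≤ (r + ε) * t ∧
        (l - ε) * t ≤ gg μ ψ R F 0 - gg μ ψ R F (0 - t)) :
    ∃ N : ℕ → ℕ, StrictMono N ∧ ∀ᵐ X ∂(PX d μ),
      (∃ σ : Cfg d k, (∀ a, IsGroundState (fun e => ψ (X e)) (σ a)) ∧
        Tendsto (fun j => En F X (cube 0 (N j)) σ / (N j : ℝ) ^ d) atTop (𝓝 r)) ∧
      ∃ τ : Cfg d k, (∀ a, IsGroundState (fun e => ψ (X e)) (τ a)) ∧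
        Tendsto (fun j => En F X (cube 0 (N j)) τ / (N j : ℝ) ^ d) atTop (𝓝 l) := by
  have hd0 : d ≠ 0 := by omega
  have hup : ∀ η : ℝ, 0 < η → ∃ C : ℝ, 0 ≤ C ∧ ∃ n0 : ℕ, ∀ n ≥ n0, ∃ Bad : Set (Bond d → S),
      (PX d μ).real Bad ≤ C / (n : ℝ) ^ d ∧ ∀ X ∉ Bad, ∀ σ : Cfg d k,
        WGS (fun e => ψ (X e)) σ → (l - η) * (n : ℝ) ^ d ≤ En F X (cube 0 n) σ ∧
          En F X (cube 0 n) σ ≤ (r + η) * (n : ℝ) ^ d := by
    intro η hη
    obtain ⟨t0, ht0, h⟩ := hlr (η / 2) (by linarith)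
    obtain ⟨δ, hδ, C, hC, n0, h1⟩ := near_tail (l := l) (r := r) hψ hψ2 hF hη ht0
      (fun t h1 h2 => by simpa using (h t h1 h2).1) (fun t h1 h2 => by simpa using (h t h1 h2).2)
    refine ⟨C, hC, n0, fun n hn => ?_⟩
    obtain ⟨Bad, h2, h3⟩ := h1 n hn 0
    exact ⟨Bad, h2, fun X hX σ hσ =>
      (h3 X hX).1 σ hσ.1 ((h3 X hX).2 σ (WGS_box hσ 0 n))⟩
  obtain ⟨N, hNmono, hN⟩ : ∃ N : ℕ → ℕ, StrictMono N ∧ ∀ j, 0 < N j ∧
      ∃ Bad : Set (Bond d → S), (PX d μ).real Bad ≤ (1 / 4 : ℝ) ^ j ∧ ∀ X ∉ Bad,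
        ∀ σ : Cfg d k, WGS (fun e => ψ (X e)) σ →
          (l - (1 / 2 : ℝ) ^ j) * (N j : ℝ) ^ d ≤ En F X (cube 0 (N j)) σ ∧
          En F X (cube 0 (N j)) σ ≤ (r + (1 / 2 : ℝ) ^ j) * (N j : ℝ) ^ d := by
    refine extraction_forall_of_eventually' (P := fun j n => 0 < n ∧
      ∃ Bad : Set (Bond d → S), (PX d μ).real Bad ≤ (1 / 4 : ℝ) ^ j ∧ ∀ X ∉ Bad,
        ∀ σ : Cfg d k, WGS (fun e => ψ (X e)) σ →
          (l - (1 / 2 : ℝ) ^ j) * (n : ℝ) ^ d ≤ En F X (cube 0 n) σ ∧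
          En F X (cube 0 n) σ ≤ (r + (1 / 2 : ℝ) ^ j) * (n : ℝ) ^ d) fun j => ?_
    obtain ⟨C, hC, n0, h⟩ := hup ((1 / 2 : ℝ) ^ j) (by positivity)
    have l1 : Tendsto (fun n : ℕ => C / (n : ℝ) ^ d) atTop (𝓝 0) :=
      Tendsto.div_atTop tendsto_const_nhds
        ((tendsto_pow_atTop hd0).comp tendsto_natCast_atTop_atTop)
    obtain ⟨n1, hn1⟩ := eventually_atTop.1 ((l1.eventually
      (gt_mem_nhds (show (0 : ℝ) < (1 / 4 : ℝ) ^ j by positivity))).and (eventually_gt_atTop 0))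
    refine ⟨max n0 n1, fun n hn => ⟨(hn1 n (le_trans (le_max_right _ _) hn)).2, ?_⟩⟩
    obtain ⟨Bad, h2, h3⟩ := h n (le_trans (le_max_left _ _) hn)
    exact ⟨Bad, h2.trans (hn1 n (le_trans (le_max_right _ _) hn)).1.le, h3⟩
  refine ⟨N, hNmono, ?_⟩
  have hfast1 : Fast μ ψ F r N := fun j => by
    obtain ⟨h1, Bad, h2, h3⟩ := hN j
    exact ⟨h1, Bad, h2, fun X hX σ hσ => (h3 X hX σ hσ).2⟩
  have hfast2 : Fast μ ψ (fun X σ => -F X σ) (-l) N := fun j => by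
    obtain ⟨h1, Bad, h2, h3⟩ := hN j
    refine ⟨h1, Bad, h2, fun X hX σ hσ => ?_⟩
    have := (h3 X hX σ hσ).1
    rw [En_neg]
    linarith
  have a1 := all_scales hψ hψ2 hF (fun t ht => by simpa using hr1 t ht) hfast1
  have a2 := all_scales hψ hψ2 (good_neg hF) (r := -l) (fun t ht => by
      rw [gg_neg, gg_neg]
      have := hl1 t ht
      simp only [neg_zero, zero_sub] at this ⊢
      linarith) hfast2
  have a3 := as_box_bounds hd hψ hψ2 hF hlr (fun _ => 0)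
  have a4 := tie d S μ ψ hψ hat
  filter_upwards [a1, a2, a3, a4] with X b1 b2 b3 b4
  have hNat : Tendsto N atTop atTop := hNmono.tendsto_atTop
  constructor
  · obtain ⟨σ, hσ, K, hK⟩ := b1
    refine ⟨σ, fun a => b4 (σ a) (hσ.1 a) (hσ.2 a) (by omega), ?_⟩
    have h1 := dfc_lim hK
    rw [Metric.tendsto_nhds]
    intro ε hε
    have h2 := h1.eventually (gt_mem_nhds hε)
    have h3 := hNat.eventually (b3 (ε / 2) (by linarith))
    filter_upwards [h2, h3] with j h2 h3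
    have hN' : (0 : ℝ) < (N j : ℝ) ^ d := by
      have := (hN j).1
      positivity
    have h4 := (h3 σ (WGS_box hσ _ _)).2
    have h5 : Av F (N j) X σ = En F X (cube 0 (N j)) σ / (N j : ℝ) ^ d := rfl
    rw [← h5, Real.dist_eq, abs_lt]
    constructor
    · have := (le_max_left (r - Av F (N j) X σ) 0).trans_lt h2
      linarith
    · have h6 : Av F (N j) X σ ≤ r + ε / 2 := by
        rw [h5, div_le_iff₀ hN']
        exact h4
      linarith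
  · obtain ⟨σ, hσ, K, hK⟩ := b2
    refine ⟨σ, fun a => b4 (σ a) (hσ.1 a) (hσ.2 a) (by omega), ?_⟩
    have h1 := dfc_lim hK
    rw [Metric.tendsto_nhds]
    intro ε hε
    have h2 := h1.eventually (gt_mem_nhds hε)
    have h3 := hNat.eventually (b3 (ε / 2) (by linarith))
    filter_upwards [h2, h3] with j h2 h3
    have hN' : (0 : ℝ) < (N j : ℝ) ^ d := by
      have := (hN j).1
      positivity
    have h4 := (h3 σ (WGS_box hσ _ _)).1
    have h5 : Av F (N j) X σ = En F X (cube 0 (N j)) σ / (N j : ℝ) ^ d := rfl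
    rw [← h5, Real.dist_eq, abs_lt]
    rw [Av_neg] at h2
    constructor
    · have h6 : l - ε / 2 ≤ Av F (N j) X σ := by
        rw [h5, le_div_iff₀ hN']
        exact h4
      linarith
    · have := (le_max_left (-l - -Av F (N j) X σ) 0).trans_lt h2
      linarith

/-- Differentiability and pointwise differences. -/
theorem diff_iff (hd : 2 ≤ d) (hψ : Measurable ψ) (hψ2 : MemLp ψ 2 μ)
    (hat : ∀ t : ℝ, μ {s | ψ s = t} = 0) (hF : Good μ R F) {l r : ℝ}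
    (hr1 : ∀ t : ℝ, 0 < t → r * t ≤ gg μ ψ R F (0 + t) - gg μ ψ R F 0)
    (hl1 : ∀ t : ℝ, 0 < t → gg μ ψ R F 0 - gg μ ψ R F (0 - t) ≤ l * t)
    (hlr : ∀ ε : ℝ, 0 < ε → ∃ t0 : ℝ, 0 < t0 ∧ ∀ t : ℝ, 0 < t → t ≤ t0 →
      gg μ ψ R F (0 + t) - gg μ ψ R F 0 ≤ (r + ε) * t ∧
        (l - ε) * t ≤ gg μ ψ R F 0 - gg μ ψ R F (0 - t)) :
    l = r ↔ ∀ᵐ X ∂(PX d μ), ∀ σ τ : Cfg d k, (∀ a, IsGroundState (fun e => ψ (X e)) (σ a)) →
      (∀ a, IsGroundState (fun e => ψ (X e)) (τ a)) →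
        Tendsto (fun n : ℕ => (En F X (cube 0 n) σ - En F X (cube 0 n) τ) / (n : ℝ) ^ d) atTop
          (𝓝 0) := by
  constructor
  · intro h
    filter_upwards [as_box_bounds hd hψ hψ2 hF hlr (fun _ => 0)] with X hX σ τ hσ hτ
    rw [Metric.tendsto_nhds]
    intro ε hε
    filter_upwards [hX (ε / 3) (by linarith), eventually_gt_atTop 0] with n hn hn0
    have hn' : (0 : ℝ) < (n : ℝ) ^ d := by positivity
    obtain ⟨h1, h2⟩ := hn σ (WGS_box (GSs_WGS hσ) _ _)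
    obtain ⟨h3, h4⟩ := hn τ (WGS_box (GSs_WGS hτ) _ _)
    have hp := mul_pos hε hn'
    rw [h] at h1 h3
    rw [Real.dist_eq, sub_zero, abs_div, abs_of_pos hn', div_lt_iff₀ hn', abs_lt]
    constructor <;> linarith
  · intro h
    obtain ⟨N, hN, h1⟩ := seq_att hd hψ hψ2 hat hF hr1 hl1 hlr
    obtain ⟨X, ⟨⟨σ, hσ, hσ2⟩, τ, hτ, hτ2⟩, h2⟩ := (h1.and h).exists
    have h3 := (h2 σ τ hσ hτ).comp hN.tendsto_atTop
    have h4 := hσ2.sub hτ2
    have h5 : Tendsto (fun j => En F X (cube 0 (N j)) σ / (N j : ℝ) ^ d -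
        En F X (cube 0 (N j)) τ / (N j : ℝ) ^ d) atTop (𝓝 0) := by
      refine h3.congr fun j => ?_
      simp only [Function.comp]
      rw [sub_div]
    have := tendsto_nhds_unique h4 h5
    linarith

end Pool.Agent.Zk58.EK
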