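import Pool.Agent.Zk58.EK.Def

set_option autoImplicit false
set_option linter.unusedSectionVars false

/-!
Flips of finite sets of spins; maximisers are approximate ground states.
-/

namespace Pool.Agent.Zk58.EK

open Finset

open scoped BigOperators

variable {d k : ℕ} {S : Type}

/-- Minus the energy of one replica. -/
noncomputable def w (J : Bond d → ℝ) (D : Finset (Site d)) (ρ : Site d → ℝ) : ℝ :=
  ∑ e ∈ D ×ˢ (Finset.univ : Finset (Fin d)), J e * (ρ e.1 * ρ (tip e))

/-- The flip. -/
noncomputable def flp (A : Finset (Site d)) (ρ : Site d → ℝ) (x : Site d) : ℝ := by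
  classical
  exact if x ∈ A then -ρ x else ρ x

theorem flp_in {A : Finset (Site d)} {ρ : Site d → ℝ} {x : Site d} (h : x ∈ A) :
    flp A ρ x = -ρ x := by
  unfold flp
  rw [if_pos h]

theorem flp_out {A : Finset (Site d)} {ρ : Site d → ℝ} {x : Site d} (h : x ∉ A) :
    flp A ρ x = ρ x := by
  unfold flp
  rw [if_neg h]

theorem w_flp (J : Bond d → ℝ) (D A : Finset (Site d)) (ρ : Site d → ℝ) :
    w J D (flp A ρ) = w J D ρ - 2 * ∑ e ∈ bdry A with e.1 ∈ D, J e * (ρ e.1 * ρ (tip e)) := by
  classical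
  have h1 : ∑ e ∈ bdry A with e.1 ∈ D, J e * (ρ e.1 * ρ (tip e)) =
      ∑ e ∈ D ×ˢ (Finset.univ : Finset (Fin d)), if e ∈ bdry A then J e * (ρ e.1 * ρ (tip e))
        else 0 := by
    rw [← sum_filter]
    refine sum_congr ?_ fun _ _ => rfl
    ext e
    simp only [mem_filter, mem_product, mem_univ, and_true]
    tauto
  rw [h1]
  unfold w
  rw [mul_sum, ← sum_sub_distrib]
  refine sum_congr rfl fun e _ => ?_
  by_cases hx : e.1 ∈ A <;> by_cases hy : tip e ∈ A
  · have : ¬ e ∈ bdry A := by rw [mem_bdry]; tauto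
    rw [if_neg this, flp_in hx, flp_in hy]
    ring
  · have : e ∈ bdry A := by rw [mem_bdry]; tauto
    rw [if_pos this, flp_in hx, flp_out hy]
    ring
  · have : e ∈ bdry A := by rw [mem_bdry]; tauto
    rw [if_pos this, flp_out hx, flp_in hy]
    ring
  · have : ¬ e ∈ bdry A := by rw [mem_bdry]; tauto
    rw [if_neg this, flp_out hx, flp_out hy]
    ring

theorem En_F0 (ψ : S → ℝ) (X : Bond d → S) (D : Finset (Site d)) (σ : Cfg d k) :
    En (F0 ψ) X D σ = ∑ a, w (fun e => ψ (X e)) D (σ a) := by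
  unfold En F0 w th sh
  rw [sum_comm]
  refine sum_congr rfl fun a _ => ?_
  rw [sum_product]
  refine sum_congr rfl fun x _ => sum_congr rfl fun i _ => ?_
  have h := tip_shift ((0 : Site d), i) x
  simp only [zero_add] at h ⊢
  rw [h]

/-- The exceptional sites. -/
noncomputable def Ex (c : Site d) (n : ℕ) : Finset (Site d) := by
  classical
  exact cube (fun i => c i - 1) (n + 1) \ cube c (n - 1)

theorem Ex_out {c : Site d} {n : ℕ} {e : Bond d} (h1 : e.1 ∈ cube c n) (h2 : tip e ∉ cube c n) :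
    e.1 ∈ Ex c n := by
  classical
  unfold Ex
  rw [mem_sdiff]
  constructor
  · rw [mem_cube] at h1 ⊢
    intro i
    have := h1 i
    push_cast
    constructor <;> linarith [this.1, this.2]
  · intro h3
    apply h2
    rw [mem_cube] at h1 h3 ⊢
    intro i
    have h4 := h1 i
    have h5 := h3 i
    rw [tip_apply]
    by_cases hi : i = e.2
    · rw [if_pos hi]
      constructor
      · linarith [h4.1]
      · have h6 := h5.2
        omega
    · rw [if_neg hi]
      constructor <;> linarith [h4.1, h4.2]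

theorem Ex_in {c : Site d} {n : ℕ} {e : Bond d} (h1 : e.1 ∉ cube c n) (h2 : tip e ∈ cube c n) :
    e.1 ∈ Ex c n := by
  classical
  unfold Ex
  rw [mem_sdiff]
  constructor
  · rw [mem_cube] at h2 ⊢
    intro i
    have := h2 i
    rw [tip_apply] at this
    push_cast
    by_cases hi : i = e.2
    · rw [if_pos hi] at this
      constructor <;> linarith [this.1, this.2]
    · rw [if_neg hi] at this
      constructor <;> linarith [this.1, this.2]
  · intro h3
    apply h1
    rw [mem_cube] at h3 ⊢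
    intro i
    have h4 := h3 i
    constructor
    · exact h4.1
    · have := h4.2
      omega

theorem abs_one {a b : ℝ} (ha : a = 1 ∨ a = -1) (hb : b = 1 ∨ b = -1) : |a * b| = 1 := by
  rcases ha with h | h <;> rcases hb with h' | h' <;> rw [h, h'] <;> norm_num

/-- A configuration which cannot be improved in a cube is nearly optimal there. -/
theorem w_near (J : Bond d → ℝ) (c : Site d) (n : ℕ) {ρ τ : Site d → ℝ}
    (hρ : ∀ x, ρ x = 1 ∨ ρ x = -1) (hτ : ∀ x, τ x = 1 ∨ τ x = -1)
    (h : ∀ A ⊆ cube c n, 0 ≤ bs J ρ A) :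
    w J (cube c n) τ ≤ w J (cube c n) ρ +
      4 * ∑ e ∈ Ex c n ×ˢ (Finset.univ : Finset (Fin d)), |J e| := by
  classical
  set D := cube c n with hD
  set A : Finset (Site d) := {x ∈ D | τ x ≠ ρ x} with hA
  have hfl : ∀ x ∈ D, τ x = flp A ρ x := by
    intro x hx
    by_cases hx' : τ x = ρ x
    · rw [flp_out, hx']
      rw [hA, mem_filter]
      tauto
    · rw [flp_in (by rw [hA, mem_filter]; exact ⟨hx, hx'⟩)]
      rcases hρ x with h1 | h1 <;> rcases hτ x with h2 | h2
      · exact absurd (h2.trans h1.symm) hx'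
      · rw [h1, h2]
      · rw [h1, h2]; norm_num
      · exact absurd (h2.trans h1.symm) hx'
  have hflv : ∀ x, flp A ρ x = 1 ∨ flp A ρ x = -1 := by
    intro x
    by_cases hx : x ∈ A
    · rw [flp_in hx]
      rcases hρ x with h1 | h1 <;> rw [h1]
      · right; rfl
      · left; norm_num
    · rw [flp_out hx]
      exact hρ x
  have s1 : w J D τ ≤ w J D (flp A ρ) +
      2 * ∑ e ∈ Ex c n ×ˢ (Finset.univ : Finset (Fin d)), |J e| := by
    unfold w
    have h1 : ∀ e ∈ D ×ˢ (Finset.univ : Finset (Fin d)), J e * (τ e.1 * τ (tip e)) ≤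
        J e * (flp A ρ e.1 * flp A ρ (tip e)) +
          (if e ∈ Ex c n ×ˢ (Finset.univ : Finset (Fin d)) then 2 * |J e| else 0) := by
      intro e he
      rw [mem_product] at he
      by_cases ht : tip e ∈ D
      · rw [hfl _ he.1, hfl _ ht]
        split_ifs
        · linarith [abs_nonneg (J e)]
        · linarith
      · rw [if_pos (mem_product.2 ⟨Ex_out he.1 ht, mem_univ _⟩)]
        have h3 : |J e * (τ e.1 * τ (tip e))| = |J e| := by
          rw [abs_mul, abs_one (hτ _) (hτ _), mul_one]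
        have h4 : |J e * (flp A ρ e.1 * flp A ρ (tip e))| = |J e| := by
          rw [abs_mul, abs_one (hflv _) (hflv _), mul_one]
        have h5 := le_abs_self (J e * (τ e.1 * τ (tip e)))
        have h6 := neg_abs_le (J e * (flp A ρ e.1 * flp A ρ (tip e)))
        linarith
    refine (sum_le_sum h1).trans ?_
    rw [sum_add_distrib, ← sum_filter, mul_sum]
    refine add_le_add_right (sum_le_sum_of_subset_of_nonneg ?_ fun e _ _ => by positivity) _
    intro e he
    exact (mem_filter.1 he).2
  have s2 : w J D (flp A ρ) ≤ w J D ρ +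
      2 * ∑ e ∈ Ex c n ×ˢ (Finset.univ : Finset (Fin d)), |J e| := by
    rw [w_flp]
    have h1 := h A (filter_subset _ _)
    have h2 : bs J ρ A = ∑ e ∈ bdry A with e.1 ∈ D, J e * (ρ e.1 * ρ (tip e)) +
        ∑ e ∈ bdry A with ¬ e.1 ∈ D, J e * (ρ e.1 * ρ (tip e)) := by
      unfold bs
      rw [sum_filter_add_sum_filter_not]
    have h3 : ∑ e ∈ bdry A with ¬ e.1 ∈ D, J e * (ρ e.1 * ρ (tip e)) ≤
        ∑ e ∈ Ex c n ×ˢ (Finset.univ : Finset (Fin d)), |J e| := by
      calc ∑ e ∈ bdry A with ¬ e.1 ∈ D, J e * (ρ e.1 * ρ (tip e))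
          ≤ ∑ e ∈ bdry A with ¬ e.1 ∈ D, |J e| := by
            refine sum_le_sum fun e _ => ?_
            have h4 : |J e * (ρ e.1 * ρ (tip e))| = |J e| := by
              rw [abs_mul, abs_one (hρ _) (hρ _), mul_one]
            rw [← h4]
            exact le_abs_self _
        _ ≤ _ := by
            refine sum_le_sum_of_subset_of_nonneg ?_ fun e _ _ => abs_nonneg _
            intro e he
            rw [mem_filter, mem_bdry] at he
            have h5 : e.1 ∉ A := fun h6 => he.2 (mem_filter.1 h6).1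
            have h6 : tip e ∈ A := by
              by_contra h7
              exact he.1 ⟨fun h8 => absurd h8 h5, fun h8 => absurd h8 h7⟩
            exact mem_product.2 ⟨Ex_in he.2 (mem_filter.1 h6).1, mem_univ _⟩
    linarith
  linarith

/-- Ground states in a cube, with arbitrary spins around the cube. -/
def BoxGS (J : Bond d → ℝ) (c : Site d) (n : ℕ) (σ : Cfg d k) : Prop :=
  IsConf σ ∧ ∀ a, ∀ A ⊆ cube c n, 0 ≤ bs J (σ a) A

/-- Ground states in cubes are nearly optimal. -/
theorem En_near (ψ : S → ℝ) (X : Bond d → S) (c : Site d) (n : ℕ) {σ τ : Cfg d k}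
    (hσ : BoxGS (fun e => ψ (X e)) c n σ) (hτ : IsConf τ) :
    En (F0 ψ) X (cube c n) τ ≤ En (F0 ψ) X (cube c n) σ +
      k * (4 * ∑ e ∈ Ex c n ×ˢ (Finset.univ : Finset (Fin d)), |ψ (X e)|) := by
  rw [En_F0, En_F0]
  calc ∑ a, w (fun e => ψ (X e)) (cube c n) (τ a)
      ≤ ∑ a, (w (fun e => ψ (X e)) (cube c n) (σ a) +
        4 * ∑ e ∈ Ex c n ×ˢ (Finset.univ : Finset (Fin d)), |ψ (X e)|) :=
        sum_le_sum fun a _ => w_near _ c n (hσ.1 a) (hτ a) fun A hA => hσ.2 a A hA
    _ = _ := by
        rw [sum_add_distrib, sum_const, card_univ, Fintype.card_fin, nsmul_eq_mul]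

theorem mem_Bx {m : ℕ} {x : Site d} : x ∈ Bx d m ↔ ∀ i, -(m : ℤ) ≤ x i ∧ x i ≤ m := by
  unfold Bx
  rw [mem_cube]
  refine forall_congr' fun i => ?_
  push_cast
  constructor
  · rintro ⟨h1, h2⟩
    exact ⟨h1, by linarith⟩
  · rintro ⟨h1, h2⟩
    exact ⟨h1, by linarith⟩

theorem bdry_Bx {m : ℕ} {A : Finset (Site d)} (hA : A ⊆ Bx d m) {e : Bond d} (he : e ∈ bdry A) :
    e.1 ∈ Bx d (m + 1) := by
  rw [mem_bdry] at he
  have : e.1 ∈ A ∨ tip e ∈ A := by tauto
  rcases this with h | h
  · have h1 := mem_Bx.1 (hA h)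
    rw [mem_Bx]
    intro i
    have := h1 i
    push_cast
    constructor <;> linarith [this.1, this.2]
  · have h1 := mem_Bx.1 (hA h)
    rw [mem_Bx]
    intro i
    have := h1 i
    rw [tip_apply] at this
    push_cast
    split_ifs at this <;> constructor <;> linarith [this.1, this.2]

theorem mem_nb {R : ℕ} {A : Finset (Site d)} {y z : Site d} (hz : z ∈ A) (h : z ∈ cube y R) :
    y ∈ nb R A := by
  classical
  unfold nb
  rw [mem_biUnion]
  refine ⟨z, hz, ?_⟩
  rw [mem_cube] at h ⊢
  intro i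
  have := h i
  push_cast
  constructor <;> linarith [this.1, this.2]

/-- The change of the energy by a local change of the spins. -/
theorem En_local {R : ℕ} {F : (Bond d → S) → Cfg d k → ℝ} (hF : IsLocal R F) (X : Bond d → S)
    (D A : Finset (Site d)) {σ τ : Cfg d k} (hσ : IsConf σ) (hτ : IsConf τ)
    (h : ∀ a, ∀ x ∉ A, σ a x = τ a x) : En F X D σ - En F X D τ ≤ 2 * QA R F X A := by
  classical
  unfold En QA
  rw [← sum_sub_distrib, mul_sum]
  calc ∑ x ∈ D, (F (th x X) (sh x σ) - F (th x X) (sh x τ))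
      ≤ ∑ x ∈ D, (if x ∈ nb R A then 2 * Ab R F (th x X) else 0) := by
        refine sum_le_sum fun x _ => ?_
        split_ifs with hx
        · have h1 := abs_le.1 (abs_F_le hF (th x X) (conf_sh hσ x))
          have h2 := abs_le.1 (abs_F_le hF (th x X) (conf_sh hτ x))
          linarith [h1.2, h2.1]
        · have : F (th x X) (sh x σ) = F (th x X) (sh x τ) :=
            loc_shift hF (fun _ _ => rfl) fun a y hy => h a y fun hyA => hx (mem_nb hyA hy)
          rw [this, sub_self]
    _ ≤ _ := by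
        rw [← sum_filter]
        refine sum_le_sum_of_subset_of_nonneg ?_ fun x _ _ => ?_
        · intro x hx
          exact (mem_filter.1 hx).2
        · have := Ab_nonneg R F (th x X)
          positivity

/-- Maximisers are approximate ground states. -/
theorem opt_AGS (ψ : S → ℝ) {R : ℕ} {F : (Bond d → S) → Cfg d k → ℝ} (hF : IsLocal R F)
    (X : Bond d → S) {D : Finset (Site d)} {m : ℕ} {t : ℝ} (ht0 : 0 ≤ t)
    (ht : t ≤ 1 / ((m : ℝ) + 1)) {σ : Cfg d k} (hσ : IsConf σ)
    (hmax : ∀ τ : Cfg d k, IsConf τ → En (F0 ψ) X D τ + t * En F X D τ ≤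
      En (F0 ψ) X D σ + t * En F X D σ) (hD : Bx d (m + 1) ⊆ D) : AGS ψ R F m X σ := by
  classical
  intro a A hA
  let τ : Cfg d k := fun b => if b = a then flp A (σ b) else σ b
  have hτ : IsConf τ := by
    intro b x
    by_cases hb : b = a
    · simp only [τ, hb, if_true]
      by_cases hx : x ∈ A
      · rw [flp_in hx]
        rcases hσ a x with h1 | h1 <;> rw [h1]
        · right; rfl
        · left; norm_num
      · rw [flp_out hx]
        exact hσ a x
    · simp only [τ, hb, if_false]
      exact hσ b x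
  have h1 := hmax τ hτ
  have h2 : En F X D σ - En F X D τ ≤ 2 * QA R F X A := by
    refine En_local hF X D A hσ hτ fun b x hx => ?_
    by_cases hb : b = a
    · simp only [τ, hb, if_true]
      rw [flp_out hx]
    · simp only [τ, hb, if_false]
  have h3 : En (F0 ψ) X D τ = En (F0 ψ) X D σ - 2 * bs (fun e => ψ (X e)) (σ a) A := by
    rw [En_F0, En_F0, ← sum_erase_add _ _ (mem_univ a), ← sum_erase_add _ _ (mem_univ a)]
    have h4 : ∑ b ∈ (Finset.univ : Finset (Fin k)).erase a, w (fun e => ψ (X e)) D (τ b) =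
        ∑ b ∈ (Finset.univ : Finset (Fin k)).erase a, w (fun e => ψ (X e)) D (σ b) := by
      refine sum_congr rfl fun b hb => ?_
      have : b ≠ a := (mem_erase.1 hb).1
      simp only [τ, this, if_false]
    have h5 : w (fun e => ψ (X e)) D (τ a) = w (fun e => ψ (X e)) D (σ a) -
        2 * bs (fun e => ψ (X e)) (σ a) A := by
      simp only [τ, if_true]
      rw [w_flp]
      congr 2
      unfold bs
      refine sum_congr ?_ fun _ _ => rfl
      ext e
      rw [mem_filter]
      exact ⟨fun h => h.1, fun h => ⟨h, hD (bdry_Bx hA h)⟩⟩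
    rw [h4, h5]
    ring
  have hQ : 0 ≤ QA R F X A := sum_nonneg fun y _ => Ab_nonneg _ _ _
  rw [h3] at h1
  have h6 : t * (En F X D σ - En F X D τ) ≤ t * (2 * QA R F X A) :=
    mul_le_mul_of_nonneg_left h2 ht0
  have h7 : t * QA R F X A ≤ 1 / ((m : ℝ) + 1) * QA R F X A :=
    mul_le_mul_of_nonneg_right ht hQ
  linarith

end Pool.Agent.Zk58.EK
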