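import Pool.Agent.Zk58.EK.Pairs

set_option autoImplicit false
set_option linter.unusedSectionVars false

/-!
Nearly optimal configurations at a general parameter; the consequences of uniqueness.
-/

namespace Pool.Agent.Zk58.EK

open Finset MeasureTheory ProbabilityTheory Filter

open scoped BigOperators ENNReal Topology

variable {d k : ℕ} {S : Type}

variable [MeasurableSpace S] {μ : Measure S} [IsProbabilityMeasure μ]
  {ψ : S → ℝ} {R : ℕ} {F : (Bond d → S) → Cfg d k → ℝ}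

theorem as_near_at (hd : 2 ≤ d) (hψ : Measurable ψ) (hψ2 : MemLp ψ 2 μ) (hF : Good μ R F)
    {t l r : ℝ}
    (hlr : ∀ ε : ℝ, 0 < ε → ∃ t0 : ℝ, 0 < t0 ∧ ∀ s : ℝ, 0 < s → s ≤ t0 →
      gg μ ψ R F (t + s) - gg μ ψ R F t ≤ (r + ε) * s ∧
        (l - ε) * s ≤ gg μ ψ R F t - gg μ ψ R F (t - s)) {η : ℝ} (hη : 0 < η) :
    ∃ δ : ℝ, 0 < δ ∧ ∀ c : ℕ → Site d, ∀ᵐ X ∂(PX d μ), ∀ᶠ n : ℕ in atTop, ∀ σ : Cfg d k,
      NearOptAt ψ F t δ X (c n) n σ → (l - η) * (n : ℝ) ^ d ≤ En F X (cube (c n) n) σ ∧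
        En F X (cube (c n) n) σ ≤ (r + η) * (n : ℝ) ^ d := by
  obtain ⟨t0, ht0, h⟩ := hlr (η / 2) (by linarith)
  set ε : ℝ := η * t0 / 8 with hε
  have hε0 : 0 < ε := by positivity
  refine ⟨ε, hε0, fun c => ?_⟩
  have b1 := as_lim (μ := μ) hd (FT_good hψ hψ2 hF (t + t0)) c
  have b2 := as_lim (μ := μ) hd (FT_good hψ hψ2 hF (t - t0)) c
  have b3 := as_lim (μ := μ) hd (FT_good hψ hψ2 hF t) c
  filter_upwards [b1, b2, b3] with X c1 c2 c3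
  rw [Metric.tendsto_nhds] at c1 c2 c3
  filter_upwards [c1 ε hε0, c2 ε hε0, c3 ε hε0, eventually_gt_atTop 0] with n x1 x2 x3 hn0 σ hσ
  rw [Real.dist_eq] at x1 x2 x3
  change |Mx (R + 2) (FT ψ F (t + t0)) X (c n) n / (n : ℝ) ^ d - gg μ ψ R F (t + t0)| < _ at x1
  change |Mx (R + 2) (FT ψ F (t - t0)) X (c n) n / (n : ℝ) ^ d - gg μ ψ R F (t - t0)| < _ at x2
  change |Mx (R + 2) (FT ψ F t) X (c n) n / (n : ℝ) ^ d - gg μ ψ R F t| < _ at x3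
  have hn' : (0 : ℝ) < (n : ℝ) ^ d := by positivity
  obtain ⟨e1, e2⟩ := h t0 ht0 le_rfl
  have a1 := En_le_Mx (FT_good hψ hψ2 hF (t + t0)).loc X (c n) n hσ.1
  have a2 := En_le_Mx (FT_good hψ hψ2 hF (t - t0)).loc X (c n) n hσ.1
  rw [En_FT] at a1 a2
  have a3 : Mx (R + 2) (FT ψ F t) X (c n) n ≤ En (F0 ψ) X (cube (c n) n) σ +
      t * En F X (cube (c n) n) σ + ε * (n : ℝ) ^ d := by
    obtain ⟨A, hA⟩ := exists_Mx (R + 2) (FT ψ F t) X (c n) n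
    rw [hA, En_FT]
    exact hσ.2 _ (conf_sp A)
  rw [abs_lt] at x1 x2 x3
  obtain ⟨x11, x12⟩ := x1
  obtain ⟨x21, x22⟩ := x2
  obtain ⟨x31, x32⟩ := x3
  rw [sub_lt_iff_lt_add, div_lt_iff₀ hn'] at x12 x22
  rw [lt_sub_iff_add_lt, lt_div_iff₀ hn'] at x31
  have f1 := mul_le_mul_of_nonneg_right e1 hn'.le
  have f2 := mul_le_mul_of_nonneg_right e2 hn'.le
  have hp := mul_pos (mul_pos hη ht0) hn'
  have g1 : t0 * En F X (cube (c n) n) σ ≤ t0 * ((r + η) * (n : ℝ) ^ d) := by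
    have : ε * (n : ℝ) ^ d = η * t0 / 8 * (n : ℝ) ^ d := by rw [hε]
    nlinarith
  have g2 : t0 * ((l - η) * (n : ℝ) ^ d) ≤ t0 * En F X (cube (c n) n) σ := by
    have : ε * (n : ℝ) ^ d = η * t0 / 8 * (n : ℝ) ^ d := by rw [hε]
    nlinarith
  exact ⟨le_of_mul_le_mul_left g2 ht0, le_of_mul_le_mul_left g1 ht0⟩

theorem as_box_bounds (hd : 2 ≤ d) (hψ : Measurable ψ) (hψ2 : MemLp ψ 2 μ) (hF : Good μ R F)
    {l r : ℝ}
    (hlr : ∀ ε : ℝ, 0 < ε → ∃ t0 : ℝ, 0 < t0 ∧ ∀ t : ℝ, 0 < t → t ≤ t0 →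
      gg μ ψ R F (0 + t) - gg μ ψ R F 0 ≤ (r + ε) * t ∧
        (l - ε) * t ≤ gg μ ψ R F 0 - gg μ ψ R F (0 - t)) (c : ℕ → Site d) :
    ∀ᵐ X ∂(PX d μ), ∀ ε : ℝ, 0 < ε → ∀ᶠ n : ℕ in atTop, ∀ σ : Cfg d k,
      BoxGS (fun e => ψ (X e)) (c n) n σ → (l - ε) * (n : ℝ) ^ d ≤ En F X (cube (c n) n) σ ∧
        En F X (cube (c n) n) σ ≤ (r + ε) * (n : ℝ) ^ d := by
  have h1 : ∀ j : ℕ, ∀ᵐ X ∂(PX d μ), ∀ᶠ n : ℕ in atTop, ∀ σ : Cfg d k,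
      BoxGS (fun e => ψ (X e)) (c n) n σ →
        (l - 1 / ((j : ℝ) + 1)) * (n : ℝ) ^ d ≤ En F X (cube (c n) n) σ ∧
        En F X (cube (c n) n) σ ≤ (r + 1 / ((j : ℝ) + 1)) * (n : ℝ) ^ d := by
    intro j
    obtain ⟨δ, hδ, h⟩ := as_near hd hψ hψ2 hF hlr (show (0 : ℝ) < 1 / ((j : ℝ) + 1) by positivity)
    filter_upwards [h c] with X hX
    filter_upwards [hX] with n hn σ hσ
    exact (hn σ).2 ((hn σ).1 hσ)
  rw [← ae_all_iff] at h1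
  filter_upwards [h1] with X hX ε hε
  obtain ⟨j, hj⟩ := exists_nat_one_div_lt hε
  filter_upwards [hX j] with n hn σ hσ
  have h2 := hn σ hσ
  have h3 : (0 : ℝ) ≤ (n : ℝ) ^ d := by positivity
  constructor <;> nlinarith [h2.1, h2.2]

/-- If the extreme slopes differ then there are many ground states. -/
theorem unique_diff (hd : 2 ≤ d) (hψ : Measurable ψ) (hψ2 : MemLp ψ 2 μ)
    (hat : ∀ t : ℝ, μ {s | ψ s = t} = 0) (hF : Good μ R F) {l r : ℝ} (hle : l ≤ r)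
    (hr1 : ∀ t : ℝ, 0 < t → r * t ≤ gg μ ψ R F (0 + t) - gg μ ψ R F 0)
    (hl1 : ∀ t : ℝ, 0 < t → gg μ ψ R F 0 - gg μ ψ R F (0 - t) ≤ l * t)
    (hlr : ∀ ε : ℝ, 0 < ε → ∃ t0 : ℝ, 0 < t0 ∧ ∀ t : ℝ, 0 < t → t ≤ t0 →
      gg μ ψ R F (0 + t) - gg μ ψ R F 0 ≤ (r + ε) * t ∧
        (l - ε) * t ≤ gg μ ψ R F 0 - gg μ ψ R F (0 - t))
    (hev : ∀ X σ σ', IsConf σ → (∀ a, σ' a = σ a ∨ σ' a = -σ a) → F X σ' = F X σ)
    (hun : ∀ᵐ X ∂(PX d μ), ∀ ρ τ : Site d → ℝ, IsGroundState (fun e => ψ (X e)) ρ →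
      IsGroundState (fun e => ψ (X e)) τ → τ = ρ ∨ τ = -ρ) : l = r := by
  by_contra hne
  have hlt : l < r := lt_of_le_of_ne hle hne
  have hη : (0 : ℝ) < (r - l) / 4 := by linarith
  have h1 := freq_of_tendsto (prob_att hd hψ hψ2 hat hF hr1 hl1 hlr (fun _ => 0) hη)
  obtain ⟨X, hX1, hX2⟩ := (h1.and hun).exists
  obtain ⟨n, hn1, hn3⟩ := (hX1.and_eventually (eventually_gt_atTop 0)).exists
  simp only [Set.mem_ofPred_eq, not_not] at hn1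
  obtain ⟨σ, τ, hσ, hτ, h2, h3⟩ := hn1
  have h4 : En F X (cube (0 : Site d) n) τ = En F X (cube 0 n) σ := by
    unfold En
    refine sum_congr rfl fun x _ => hev _ _ _ (conf_sh (GSs_WGS hσ).1 x) fun a => ?_
    rcases hX2 (σ a) (τ a) (hσ a) (hτ a) with h | h
    · left
      funext y
      unfold sh
      rw [h]
    · right
      funext y
      unfold sh
      rw [h]
      rfl
  rw [h4] at h3
  have h5 : (0 : ℝ) < (n : ℝ) ^ d := by positivity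
  nlinarith

end Pool.Agent.Zk58.EK
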