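import Pool.Agent.Zk58.EK.Base

set_option autoImplicit false

/-!
Edwards-Anderson energies in finite boxes: deterministic part.
-/

namespace Pool.Agent.Zk58.EK

open Finset

open scoped BigOperators

variable {d : ℕ}

/-- Minus the energy of `σ` in `B`. -/
noncomputable def W (J : Bond d → ℝ) (B : Finset (Site d)) (σ : Site d → ℝ) : ℝ :=
  ∑ e ∈ bonds B, J e * (σ e.1 * σ (tip e))

/-- The configuration which is `-1` on `A`. -/
noncomputable def sp (A : Finset (Site d)) (x : Site d) : ℝ := if x ∈ A then -1 else 1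

/-- Minus the ground state energy of `B`. -/
noncomputable def G (J : Bond d → ℝ) (B : Finset (Site d)) : ℝ :=
  B.powerset.sup' ⟨∅, by simp⟩ fun A => W J B (sp A)

theorem mem_bonds {B : Finset (Site d)} {e : Bond d} : e ∈ bonds B ↔ e.1 ∈ B ∧ tip e ∈ B := by
  unfold bonds
  simp

theorem sp_val (A : Finset (Site d)) (x : Site d) : sp A x = 1 ∨ sp A x = -1 := by
  unfold sp
  split_ifs
  · right; rfl
  · left; rfl

theorem W_congr {J : Bond d → ℝ} {B : Finset (Site d)} {σ τ : Site d → ℝ}
    (h : ∀ x ∈ B, σ x = τ x) : W J B σ = W J B τ := by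
  unfold W
  refine sum_congr rfl fun e he => ?_
  rw [mem_bonds] at he
  rw [h _ he.1, h _ he.2]

theorem le_G {J : Bond d → ℝ} {B : Finset (Site d)} {σ : Site d → ℝ}
    (h : ∀ x, σ x = 1 ∨ σ x = -1) : W J B σ ≤ G J B := by
  classical
  have h1 : W J B σ = W J B (sp {x ∈ B | σ x = -1}) := by
    refine W_congr fun x hx => ?_
    unfold sp
    rcases h x with h2 | h2
    · rw [if_neg, h2]
      rw [mem_filter, h2]
      norm_num
    · rw [if_pos, h2]
      rw [mem_filter]
      exact ⟨hx, h2⟩
  rw [h1]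
  unfold G
  refine le_sup' (f := fun A => W J B (sp A)) ?_
  rw [mem_powerset]
  exact filter_subset _ _

theorem exists_G (J : Bond d → ℝ) (B : Finset (Site d)) :
    ∃ A ⊆ B, G J B = W J B (sp A) := by
  obtain ⟨A, hA, h⟩ := exists_mem_eq_sup' (s := B.powerset) ⟨∅, by simp⟩
    (fun A => W J B (sp A))
  exact ⟨A, mem_powerset.1 hA, h⟩

theorem prod_abs {a b : ℝ} (ha : a = 1 ∨ a = -1) (hb : b = 1 ∨ b = -1) : |a * b| = 1 := by
  rcases ha with h | h <;> rcases hb with h' | h' <;> rw [h, h'] <;> norm_num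

theorem abs_W_le {J : Bond d → ℝ} {B : Finset (Site d)} {σ : Site d → ℝ}
    (h : ∀ x, σ x = 1 ∨ σ x = -1) : |W J B σ| ≤ ∑ e ∈ bonds B, |J e| := by
  unfold W
  refine (abs_sum_le_sum_abs _ _).trans (sum_le_sum fun e _ => ?_)
  rw [abs_mul, prod_abs (h _) (h _), mul_one]

theorem abs_G_le (J : Bond d → ℝ) (B : Finset (Site d)) : |G J B| ≤ ∑ e ∈ bonds B, |J e| := by
  obtain ⟨A, -, h⟩ := exists_G J B
  rw [h]
  exact abs_W_le (sp_val A)

theorem G_congr {J J' : Bond d → ℝ} {B : Finset (Site d)} (h : ∀ e ∈ bonds B, J e = J' e) :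
    G J B = G J' B := by
  unfold G
  refine sup'_congr _ rfl fun A _ => ?_
  unfold W
  exact sum_congr rfl fun e he => by rw [h e he]

/-- Division into disjoint parts. -/
theorem G_parts {ι : Type} [DecidableEq ι] (J : Bond d → ℝ) {B : Finset (Site d)} (I : Finset ι)
    (Bb : ι → Finset (Site d)) (hsub : ∀ b ∈ I, Bb b ⊆ B)
    (hdis : ∀ b ∈ I, ∀ b' ∈ I, b ≠ b' → Disjoint (Bb b) (Bb b')) :
    |G J B - ∑ b ∈ I, G J (Bb b)| ≤
      ∑ e ∈ bonds B \ I.biUnion (fun b => bonds (Bb b)), |J e| := by
  classical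
  have hbd : ∀ b ∈ I, ∀ b' ∈ I, b ≠ b' → Disjoint (bonds (Bb b)) (bonds (Bb b')) := by
    intro b hb b' hb' hne
    rw [disjoint_left]
    intro e he he'
    rw [mem_bonds] at he he'
    exact disjoint_left.1 (hdis b hb b' hb' hne) he.1 he'.1
  have hsubE : I.biUnion (fun b => bonds (Bb b)) ⊆ bonds B := by
    intro e he
    rw [mem_biUnion] at he
    obtain ⟨b, hb, he⟩ := he
    rw [mem_bonds] at he ⊢
    exact ⟨hsub b hb he.1, hsub b hb he.2⟩
  have hW : ∀ σ : Site d → ℝ, W J B σ = ∑ b ∈ I, W J (Bb b) σ +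
      ∑ e ∈ bonds B \ I.biUnion (fun b => bonds (Bb b)), J e * (σ e.1 * σ (tip e)) := by
    intro σ
    unfold W
    rw [← sum_biUnion (fun b hb b' hb' hne => hbd b hb b' hb' hne), add_comm,
      sum_sdiff hsubE]
  have hR : ∀ σ : Site d → ℝ, (∀ x, σ x = 1 ∨ σ x = -1) →
      |∑ e ∈ bonds B \ I.biUnion (fun b => bonds (Bb b)), J e * (σ e.1 * σ (tip e))| ≤
        ∑ e ∈ bonds B \ I.biUnion (fun b => bonds (Bb b)), |J e| := by
    intro σ h
    refine (abs_sum_le_sum_abs _ _).trans (sum_le_sum fun e _ => ?_)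
    rw [abs_mul, prod_abs (h _) (h _), mul_one]
  rw [abs_le]
  constructor
  · -- lower bound
    choose! A hA1 hA2 using fun b => exists_G J (Bb b)
    set A' : Finset (Site d) := I.biUnion A with hA'
    have h1 := le_G (J := J) (B := B) (sp_val A')
    rw [hW] at h1
    have h2 : ∑ b ∈ I, W J (Bb b) (sp A') = ∑ b ∈ I, G J (Bb b) := by
      refine sum_congr rfl fun b hb => ?_
      rw [hA2 b]
      refine W_congr fun x hx => ?_
      unfold sp
      congr 1
      rw [hA', mem_biUnion, eq_iff_iff]
      constructor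
      · rintro ⟨b', hb', hx'⟩
        by_cases hbb : b' = b
        · rw [← hbb]; exact hx'
        · exact absurd hx (disjoint_left.1 (hdis b' hb' b hb hbb) (hA1 b' hx'))
      · intro hx'
        exact ⟨b, hb, hx'⟩
    have h3 := abs_le.1 (hR _ (sp_val A'))
    linarith [h3.1]
  · obtain ⟨A, -, h⟩ := exists_G J B
    have h1 := hW (sp A)
    rw [← h] at h1
    have h2 : ∑ b ∈ I, W J (Bb b) (sp A) ≤ ∑ b ∈ I, G J (Bb b) :=
      sum_le_sum fun b _ => le_G (sp_val A)
    have h3 := abs_le.1 (hR _ (sp_val A))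
    linarith [h3.2]

theorem card_cube (c : Site d) (n : ℕ) : (cube c n).card = n ^ d := by
  unfold cube
  rw [Fintype.card_piFinset]
  simp

theorem mem_cube {c x : Site d} {n : ℕ} : x ∈ cube c n ↔ ∀ i, c i ≤ x i ∧ x i < c i + n := by
  unfold cube
  simp

theorem tip_apply (e : Bond d) (j : Fin d) : tip e j = e.1 j + if j = e.2 then 1 else 0 := by
  unfold tip
  rw [Pi.add_apply, Pi.single_apply]

theorem card_bonds_le (c : Site d) (n : ℕ) : (bonds (cube c n)).card ≤ d * n ^ d := by
  unfold bonds
  refine (card_filter_le _ _).trans ?_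
  rw [card_product, card_cube, card_univ, Fintype.card_fin, mul_comm]

/-- The last layer of a cube. -/
theorem card_layer (c : Site d) (n : ℕ) (i : Fin d) (t : ℤ) :
    ({x ∈ cube c n | x i = t} : Finset (Site d)).card ≤ n ^ (d - 1) := by
  classical
  have h : ({x ∈ cube c n | x i = t} : Finset (Site d)) ⊆ Fintype.piFinset fun j =>
      if j = i then {t} else Finset.Ico (c j) (c j + n) := by
    intro x hx
    rw [mem_filter, mem_cube] at hx
    rw [Fintype.mem_piFinset]
    intro j
    by_cases hj : j = i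
    · rw [if_pos hj, mem_singleton, hj]
      exact hx.2
    · rw [if_neg hj, mem_Ico]
      exact hx.1 j
  refine (card_le_card h).trans ?_
  rw [Fintype.card_piFinset]
  have : ∀ j : Fin d, (if j = i then {t} else Finset.Ico (c j) (c j + n) : Finset ℤ).card =
      if j = i then 1 else n := by
    intro j
    by_cases hj : j = i
    · rw [if_pos hj, if_pos hj, card_singleton]
    · rw [if_neg hj, if_neg hj, Int.card_Ico]
      simp
  rw [prod_congr rfl fun j _ => this j, Finset.prod_ite, prod_const_one, one_mul, prod_const]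
  apply le_of_eq
  congr 1
  have h2 : ({j ∈ (Finset.univ : Finset (Fin d)) | ¬ j = i}) = Finset.univ.erase i := by
    ext j
    simp
  rw [h2, card_erase_of_mem (mem_univ i), card_univ, Fintype.card_fin]

theorem card_bonds_ge (c : Site d) (n : ℕ) :
    d * n ^ d ≤ (bonds (cube c n)).card + d * n ^ (d - 1) := by
  classical
  have h1 : (cube c n ×ˢ (Finset.univ : Finset (Fin d))) ⊆ bonds (cube c n) ∪
      (Finset.univ : Finset (Fin d)).biUnion fun i =>
        ({x ∈ cube c n | x i = c i + n - 1} : Finset (Site d)).image fun x => (x, i) := by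
    rintro ⟨x, i⟩ hx
    rw [mem_product] at hx
    rw [mem_union]
    by_cases h : tip (x, i) ∈ cube c n
    · left
      rw [mem_bonds]
      exact ⟨hx.1, h⟩
    · right
      rw [mem_biUnion]
      refine ⟨i, mem_univ _, ?_⟩
      rw [mem_image]
      refine ⟨x, ?_, rfl⟩
      rw [mem_filter]
      refine ⟨hx.1, ?_⟩
      have h2 := mem_cube.1 hx.1
      by_contra hne
      apply h
      rw [mem_cube]
      intro j
      rw [tip_apply]
      have h3 := h2 j
      simp only at h3 ⊢
      by_cases hj : j = i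
      · subst hj
        rw [if_pos rfl]
        constructor
        · linarith [h3.1]
        · have : x j ≠ c j + n - 1 := hne
          omega
      · rw [if_neg hj]
        constructor <;> linarith [h3.1, h3.2]
  have h2 := card_le_card h1
  rw [card_product, card_cube, card_univ, Fintype.card_fin, mul_comm] at h2
  refine h2.trans ((card_union_le _ _).trans ?_)
  refine Nat.add_le_add_left (card_biUnion_le.trans ?_) _
  calc ∑ i : Fin d, (({x ∈ cube c n | x i = c i + n - 1} : Finset (Site d)).image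
        fun x => (x, i)).card ≤ ∑ i : Fin d, n ^ (d - 1) :=
        sum_le_sum fun i _ => card_image_le.trans (card_layer c n i _)
    _ = d * n ^ (d - 1) := by simp

/-- The corner of a block. -/
def corner (c : Site d) (M : ℕ) (b : Site d) : Site d := fun i => c i + M * b i

theorem block_sub {c : Site d} {M k n : ℕ} (h : k * M ≤ n) {b : Site d}
    (hb : b ∈ cube (0 : Site d) k) : cube (corner c M b) M ⊆ cube c n := by
  intro x hx
  rw [mem_cube] at hx hb ⊢
  intro i
  have h1 := hx i
  have h2 := hb i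
  simp only [corner, Pi.zero_apply, zero_add] at h1 h2
  have h3 : (0 : ℤ) ≤ (M : ℤ) * b i := mul_nonneg (by positivity) h2.1
  have h4 : (M : ℤ) * b i + M ≤ k * M := by
    have : b i + 1 ≤ k := by omega
    nlinarith
  have h5 : (k : ℤ) * M ≤ n := by exact_mod_cast h
  constructor
  · linarith [h1.1]
  · linarith [h1.2]

theorem block_dis {c : Site d} {M : ℕ} {b b' : Site d} (hne : b ≠ b') :
    Disjoint (cube (corner c M b) M) (cube (corner c M b') M) := by
  rw [disjoint_left]
  intro x hx hx'
  apply hne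
  ext i
  rw [mem_cube] at hx hx'
  have h1 := hx i
  have h2 := hx' i
  simp only [corner] at h1 h2
  by_contra hcon
  rcases lt_or_gt_of_ne hcon with h | h
  · have : (M : ℤ) * b i + M ≤ M * b' i := by nlinarith
    linarith [h1.2, h2.1]
  · have : (M : ℤ) * b' i + M ≤ M * b i := by nlinarith
    linarith [h2.2, h1.1]

/-- The bonds of a cube which are not in the blocks. -/
noncomputable def rest (c : Site d) (n M k : ℕ) : Finset (Bond d) := by
  classical
  exact bonds (cube c n) \ (cube (0 : Site d) k).biUnion fun b => bonds (cube (corner c M b) M)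

theorem rest_card {c : Site d} {n M k : ℕ} (h : k * M ≤ n) :
    ((rest c n M k).card : ℝ) ≤ d * ((n : ℝ) ^ d - (k : ℝ) ^ d * ((M : ℝ) ^ d - (M : ℝ) ^ (d - 1))) := by
  classical
  have hsub : (cube (0 : Site d) k).biUnion (fun b => bonds (cube (corner c M b) M)) ⊆
      bonds (cube c n) := by
    intro e he
    rw [mem_biUnion] at he
    obtain ⟨b, hb, he⟩ := he
    rw [mem_bonds] at he ⊢
    exact ⟨block_sub h hb he.1, block_sub h hb he.2⟩
  have h1 : (rest c n M k).card + ((cube (0 : Site d) k).biUnion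
      (fun b => bonds (cube (corner c M b) M))).card = (bonds (cube c n)).card := by
    unfold rest
    rw [card_sdiff_add_card_eq_card hsub]
  have h2 : ((cube (0 : Site d) k).biUnion (fun b => bonds (cube (corner c M b) M))).card =
      ∑ b ∈ cube (0 : Site d) k, (bonds (cube (corner c M b) M)).card := by
    refine card_biUnion fun b _ b' _ hne => ?_
    show Disjoint (bonds (cube (corner c M b) M)) (bonds (cube (corner c M b') M))
    rw [disjoint_left]
    intro e he he'
    rw [mem_bonds] at he he'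
    exact disjoint_left.1 (block_dis hne) he.1 he'.1
  have h3 : ∀ b : Site d, (d : ℝ) * (M : ℝ) ^ d - d * (M : ℝ) ^ (d - 1) ≤
      ((bonds (cube (corner c M b) M)).card : ℝ) := by
    intro b
    have := card_bonds_ge (corner c M b) M
    have h4 : (d : ℝ) * (M : ℝ) ^ d ≤
        ((bonds (cube (corner c M b) M)).card : ℝ) + d * (M : ℝ) ^ (d - 1) := by exact_mod_cast this
    linarith
  have h4 : (k : ℝ) ^ d * ((d : ℝ) * (M : ℝ) ^ d - d * (M : ℝ) ^ (d - 1)) ≤
      (((cube (0 : Site d) k).biUnion (fun b => bonds (cube (corner c M b) M))).card : ℝ) := by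
    rw [h2]
    push_cast
    calc (k : ℝ) ^ d * ((d : ℝ) * (M : ℝ) ^ d - d * (M : ℝ) ^ (d - 1)) =
        ∑ b ∈ cube (0 : Site d) k, ((d : ℝ) * (M : ℝ) ^ d - d * (M : ℝ) ^ (d - 1)) := by
          rw [sum_const, card_cube, nsmul_eq_mul]
          push_cast
          ring
      _ ≤ _ := sum_le_sum fun b _ => h3 b
  have h5 : ((bonds (cube c n)).card : ℝ) ≤ d * (n : ℝ) ^ d := by exact_mod_cast card_bonds_le c n
  have h6 : ((rest c n M k).card : ℝ) + (((cube (0 : Site d) k).biUnion
      (fun b => bonds (cube (corner c M b) M))).card : ℝ) = ((bonds (cube c n)).card : ℝ) := by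
    exact_mod_cast h1
  nlinarith

theorem G_blocks (J : Bond d → ℝ) {c : Site d} {n M k : ℕ} (h : k * M ≤ n) :
    |G J (cube c n) - ∑ b ∈ cube (0 : Site d) k, G J (cube (corner c M b) M)| ≤
      ∑ e ∈ rest c n M k, |J e| := by
  classical
  have := G_parts J (B := cube c n) (cube (0 : Site d) k) (fun b => cube (corner c M b) M)
    (fun b hb => block_sub h hb) (fun b _ b' _ hne => block_dis hne)
  unfold rest
  convert this

end Pool.Agent.Zk58.EK
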