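import Pool.Agent.Zk58.EK.Prob

set_option autoImplicit false
set_option linter.unusedSectionVars false

/-!
Local functions of couplings and spins: the limit of the maximum per site.
-/

namespace Pool.Agent.Zk58.EK

open Finset MeasureTheory ProbabilityTheory Filter

open scoped BigOperators ENNReal Topology

variable {d k : ℕ} {S : Type} [MeasurableSpace S]

/-- The deficit of the inner blocks. -/
theorem deficit (d : ℕ) {n m R : ℕ} (hn : 0 < n) (hL : 0 < m + R) :
    (n : ℝ) ^ d - ((n / (m + R) : ℕ) : ℝ) ^ d * (m : ℝ) ^ d ≤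
      (n : ℝ) ^ d * (d * ((R : ℝ) / (m + R) + ((m : ℝ) + R) / n)) := by
  set k : ℕ := n / (m + R) with hk
  have hn' : (0 : ℝ) < n := by exact_mod_cast hn
  have hL' : (0 : ℝ) < (m : ℝ) + R := by exact_mod_cast hL
  have h1 : (n : ℝ) ≤ ((k : ℝ) + 1) * (m + R) := by
    have : n < (k + 1) * (m + R) := by
      calc n = (m + R) * (n / (m + R)) + n % (m + R) := (Nat.div_add_mod _ _).symm
        _ < (m + R) * (n / (m + R)) + (m + R) := Nat.add_lt_add_left (Nat.mod_lt n hL) _
        _ = (k + 1) * (m + R) := by rw [hk]; ring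
    exact_mod_cast this.le
  have hx : 1 - ((R : ℝ) / (m + R) + ((m : ℝ) + R) / n) ≤ (k : ℝ) * m / n := by
    rw [le_div_iff₀ hn']
    have h2 : (1 - ((R : ℝ) / (m + R) + ((m : ℝ) + R) / n)) * n =
        n * (m / (m + R)) - (m + R) := by
      field_simp
      ring
    rw [h2]
    have h3 : (n : ℝ) * (m / (m + R)) ≤ ((k : ℝ) + 1) * (m + R) * (m / (m + R)) :=
      mul_le_mul_of_nonneg_right h1 (by positivity)
    have h4 : ((k : ℝ) + 1) * (m + R) * (m / (m + R)) = (k + 1) * m := by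
      field_simp
    have h5 : (0 : ℝ) ≤ R := by positivity
    linarith
  have hx0 : 0 ≤ (k : ℝ) * m / n := by positivity
  have h6 := one_add_mul_le_pow (a := (k : ℝ) * m / n - 1) (by linarith) d
  rw [add_sub_cancel] at h6
  have h7 : (n : ℝ) ^ d * ((k : ℝ) * m / n) ^ d = (k : ℝ) ^ d * (m : ℝ) ^ d := by
    rw [div_pow, mul_pow]
    field_simp
  rw [← h7]
  have h8 : (d : ℝ) * (1 - ((k : ℝ) * m / n)) ≤
      d * ((R : ℝ) / (m + R) + ((m : ℝ) + R) / n) :=
    mul_le_mul_of_nonneg_left (by linarith) (by positivity)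
  have h9 : (0 : ℝ) < (n : ℝ) ^ d := by positivity
  nlinarith

section

variable {μ : Measure S} [IsProbabilityMeasure μ] {R : ℕ} {F : (Bond d → S) → Cfg d k → ℝ}

theorem am_blocks (hF : Good μ R F) {n m K : ℕ} (h : K * (m + R) ≤ n) :
    |am μ R F n - (K : ℝ) ^ d * am μ R F m| ≤
      ((n : ℝ) ^ d - (K : ℝ) ^ d * (m : ℝ) ^ d) * bm μ R F := by
  have i1 : Integrable (fun X => Mx R F X 0 n) (PX d μ) := (Mx_mem hF 0 n).integrable (by norm_num)
  have i2 : Integrable (fun X => ∑ b ∈ cube (0 : Site d) K, Mx R F X (corner 0 (m + R) b) m)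
      (PX d μ) := integrable_finsetSum _ fun b _ => (Mx_mem hF _ _).integrable (by norm_num)
  have i3 : Integrable (fun X => ∑ x ∈ rst (0 : Site d) n m R K, Ab R F (th x X)) (PX d μ) :=
    integrable_finsetSum _ fun x _ => (Abx_mem hF x).integrable (by norm_num)
  rw [← blocks_mean hF 0 m K]
  unfold am
  rw [← integral_sub i1 i2, ← rst_card (c := (0 : Site d)) h, ← sum_mean hF]
  refine (abs_integral_le_integral_abs).trans ?_
  exact integral_mono (i1.sub i2).abs i3 fun X => Mx_blocks hF.loc X h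

theorem abs_am_le (hF : Good μ R F) (m : ℕ) : |am μ R F m| ≤ (m : ℝ) ^ d * bm μ R F := by
  have h := am_blocks hF (n := m) (m := 0) (K := 0) (by simp)
  by_cases hd : d = 0
  · subst hd
    -- in dimension `0`
    have h2 := abs_integral_le_integral_abs (μ := PX 0 μ) (f := fun X => Mx R F X 0 m)
    unfold am
    refine h2.trans ?_
    have h3 := sum_mean hF (cube (0 : Site 0) m)
    rw [card_cube] at h3
    push_cast at h3
    rw [← h3]
    exact integral_mono ((Mx_mem hF 0 m).integrable (by norm_num)).abs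
      (integrable_finsetSum _ fun x _ => (Abx_mem hF x).integrable (by norm_num))
      fun X => abs_Mx_le hF.loc X 0 m
  · simpa [zero_pow hd] using h

/-- Comparison of the values per site. -/
theorem u_close (hF : Good μ R F) {n m : ℕ} (hn : 0 < n) (hm : 0 < m) :
    |am μ R F n / (n : ℝ) ^ d - am μ R F m / (m : ℝ) ^ d| ≤
      2 * bm μ R F * (d * ((R : ℝ) / (m + R) + ((m : ℝ) + R) / n)) := by
  have h1 := am_blocks hF (n := n) (m := m) (K := n / (m + R)) (Nat.div_mul_le_self _ _)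
  have h2 := deficit d (R := R) hn (show 0 < m + R by omega)
  have h3 := abs_am_le hF m
  set K : ℕ := n / (m + R) with hK
  have hn' : (0 : ℝ) < (n : ℝ) ^ d := by positivity
  have hm' : (0 : ℝ) < (m : ℝ) ^ d := by positivity
  have hb := bm_nonneg (μ := μ) R F
  set D := (n : ℝ) ^ d - (K : ℝ) ^ d * (m : ℝ) ^ d with hD
  have hK0 : (0 : ℝ) ≤ (K : ℝ) ^ d := by positivity
  have hD0 : 0 ≤ D := by
    rw [hD, ← rst_card (c := (0 : Site d)) (Nat.div_mul_le_self n (m + R))]
    positivity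
  have e1 : am μ R F n / (n : ℝ) ^ d - am μ R F m / (m : ℝ) ^ d =
      ((am μ R F n - (K : ℝ) ^ d * am μ R F m) - D * (am μ R F m / (m : ℝ) ^ d)) /
        (n : ℝ) ^ d := by
    rw [hD]
    field_simp
    ring
  rw [e1, abs_div, abs_of_pos hn', div_le_iff₀ hn']
  have h4 : |am μ R F m / (m : ℝ) ^ d| ≤ bm μ R F := by
    rw [abs_div, abs_of_pos hm', div_le_iff₀ hm']
    linarith
  have h5 : |D * (am μ R F m / (m : ℝ) ^ d)| ≤ D * bm μ R F := by
    rw [abs_mul, abs_of_nonneg hD0]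
    exact mul_le_mul_of_nonneg_left h4 hD0
  refine (abs_sub _ _).trans ((add_le_add h1 h5).trans ?_)
  have h6 := mul_le_mul_of_nonneg_right h2 hb
  linarith

theorem exists_lim (hF : Good μ R F) :
    ∃ g, Tendsto (fun n : ℕ => am μ R F n / (n : ℝ) ^ d) atTop (𝓝 g) := by
  apply cauchySeq_tendsto_of_complete
  rw [Metric.cauchySeq_iff]
  intro ε hε
  have hb := bm_nonneg (μ := μ) R F
  have t1 : Tendsto (fun m : ℕ => 2 * bm μ R F * (d * ((R : ℝ) / ((m : ℝ) + R)))) atTop (𝓝 0) := by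
    have h1 : Tendsto (fun m : ℕ => (R : ℝ) / ((m : ℝ) + R)) atTop (𝓝 0) :=
      Tendsto.div_atTop tendsto_const_nhds
        (tendsto_atTop_add_const_right _ _ tendsto_natCast_atTop_atTop)
    simpa using (h1.const_mul (d : ℝ)).const_mul (2 * bm μ R F)
  obtain ⟨m, hm, hm1⟩ := ((t1.eventually (gt_mem_nhds (show 0 < ε / 4 by linarith))).and
    (eventually_gt_atTop 0)).exists
  have t2 : Tendsto (fun n : ℕ => 2 * bm μ R F * (d * (((m : ℝ) + R) / n))) atTop (𝓝 0) := by
    have h1 : Tendsto (fun n : ℕ => ((m : ℝ) + R) / (n : ℝ)) atTop (𝓝 0) :=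
      Tendsto.div_atTop tendsto_const_nhds tendsto_natCast_atTop_atTop
    simpa using (h1.const_mul (d : ℝ)).const_mul (2 * bm μ R F)
  obtain ⟨N, hN⟩ := eventually_atTop.1 ((t2.eventually
    (gt_mem_nhds (show 0 < ε / 4 by linarith))).and (eventually_gt_atTop 0))
  have key : ∀ n ≥ N, |am μ R F n / (n : ℝ) ^ d - am μ R F m / (m : ℝ) ^ d| < ε / 2 := by
    intro n hn
    have h1 := u_close hF (hN n hn).2 hm1
    have h2 := (hN n hn).1
    refine h1.trans_lt ?_
    rw [mul_add, mul_add]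
    linarith
  refine ⟨N, fun n hn n' hn' => ?_⟩
  rw [Real.dist_eq]
  have h1 := key n hn
  have h2 := key n' hn'
  rw [abs_lt] at h1 h2 ⊢
  constructor <;> linarith [h1.1, h1.2, h2.1, h2.2]

/-- The maximum per site in the limit. -/
noncomputable def gl (μ : Measure S) (R : ℕ) (F : (Bond d → S) → Cfg d k → ℝ) : ℝ :=
  limUnder atTop fun n : ℕ => am μ R F n / (n : ℝ) ^ d

theorem gl_lim (hF : Good μ R F) :
    Tendsto (fun n : ℕ => am μ R F n / (n : ℝ) ^ d) atTop (𝓝 (gl μ R F)) :=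
  tendsto_nhds_limUnder (exists_lim hF)

theorem meas_real_le {Ω : Type} [MeasurableSpace Ω] {P : Measure Ω} [IsProbabilityMeasure P]
    {X : Ω → ℝ} (hX : MemLp X 2 P) {c v : ℝ} (hc : 0 < c) (hv : variance X P ≤ v) :
    P.real {ω | c ≤ |X ω - ∫ a, X a ∂P|} ≤ v / c ^ 2 := by
  have h1 := meas_ge_le_variance_div_sq hX hc
  have h2 : 0 ≤ v := (variance_nonneg X P).trans hv
  refine ENNReal.toReal_le_of_le_ofReal (by positivity) (h1.trans (ENNReal.ofReal_le_ofReal ?_))
  exact div_le_div_of_nonneg_right hv (by positivity)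

/-- The tail of the maximum over a cube. -/
theorem tail (hF : Good μ R F) {ε : ℝ} (hε : 0 < ε) :
    ∃ C : ℝ, 0 ≤ C ∧ ∃ n0 : ℕ, ∀ n ≥ n0, ∀ c : Site d,
      (PX d μ).real {X | ε * (n : ℝ) ^ d ≤ |Mx R F X c n - (n : ℝ) ^ d * gl μ R F|} ≤
        C / (n : ℝ) ^ d := by
  have hb := bm_nonneg (μ := μ) R F
  have hv := vm_nonneg (μ := μ) R F
  have t1 : Tendsto (fun m : ℕ => bm μ R F * (d * ((R : ℝ) / ((m : ℝ) + R)))) atTop (𝓝 0) := by
    have h1 : Tendsto (fun m : ℕ => (R : ℝ) / ((m : ℝ) + R)) atTop (𝓝 0) :=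
      Tendsto.div_atTop tendsto_const_nhds
        (tendsto_atTop_add_const_right _ _ tendsto_natCast_atTop_atTop)
    simpa using (h1.const_mul (d : ℝ)).const_mul (bm μ R F)
  have t0 : ∀ᶠ m : ℕ in atTop, |am μ R F m / (m : ℝ) ^ d - gl μ R F| < ε / 8 := by
    have := (Metric.tendsto_nhds.1 (gl_lim hF)) (ε / 8) (by linarith)
    simpa only [Real.dist_eq] using this
  obtain ⟨m, ⟨hm, hm1⟩, hm2⟩ := (((t1.eventually (gt_mem_nhds (show 0 < ε / 16 by linarith))).and
    (eventually_gt_atTop 0)).and t0).exists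
  have t2 : Tendsto (fun n : ℕ => bm μ R F * (d * (((m : ℝ) + R) / n))) atTop (𝓝 0) := by
    have h1 : Tendsto (fun n : ℕ => ((m : ℝ) + R) / (n : ℝ)) atTop (𝓝 0) :=
      Tendsto.div_atTop tendsto_const_nhds tendsto_natCast_atTop_atTop
    simpa using (h1.const_mul (d : ℝ)).const_mul (bm μ R F)
  obtain ⟨N, hN⟩ := eventually_atTop.1 ((t2.eventually
    (gt_mem_nhds (show 0 < ε / 16 by linarith))).and (eventually_gt_atTop 0))
  set V : ℝ := variance (fun X => Mx R F X 0 m) (PX d μ) with hV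
  have hV0 : 0 ≤ V := variance_nonneg _ _
  refine ⟨16 * ((2 * (R : ℝ)) ^ d * vm μ R F + V) / ε ^ 2, by positivity, N,
    fun n hn c => ?_⟩
  obtain ⟨hN1, hN2⟩ := hN n hn
  have hn' : (0 : ℝ) < (n : ℝ) ^ d := by positivity
  have hm' : (0 : ℝ) < (m : ℝ) ^ d := by positivity
  set K : ℕ := n / (m + R) with hK
  have hkn : K * (m + R) ≤ n := Nat.div_mul_le_self _ _
  set D : ℝ := (n : ℝ) ^ d - (K : ℝ) ^ d * (m : ℝ) ^ d with hD
  have hD0 : 0 ≤ D := by
    rw [hD, ← rst_card (c := (0 : Site d)) hkn]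
    positivity
  have hDb : D * bm μ R F ≤ ε / 8 * (n : ℝ) ^ d := by
    have h2 := mul_le_mul_of_nonneg_right (deficit d (R := R) hN2 (show 0 < m + R by omega)) hb
    refine h2.trans ?_
    have h3 : bm μ R F * (d * ((R : ℝ) / (m + R) + ((m : ℝ) + R) / n)) ≤ ε / 8 := by
      rw [mul_add, mul_add]
      linarith
    nlinarith
  have hcard : ((rst c n m R K).card : ℝ) = D := rst_card hkn
  -- the two sums
  let T : (Bond d → S) → ℝ := fun X => ∑ x ∈ rst c n m R K, Ab R F (th x X)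
  let Q : (Bond d → S) → ℝ := fun X =>
    ∑ b ∈ cube (0 : Site d) K, Mx R F X (corner c (m + R) b) m
  have hT : MemLp T 2 (PX d μ) := memLp_finsetSum _ fun x _ => Abx_mem hF x
  have hQ : MemLp Q 2 (PX d μ) := memLp_finsetSum _ fun b _ => Mx_mem hF _ _
  have hTm : ∫ X, T X ∂(PX d μ) = D * bm μ R F := by
    rw [← hcard]
    exact sum_mean hF _
  have hQm : ∫ X, Q X ∂(PX d μ) = (K : ℝ) ^ d * am μ R F m := blocks_mean hF c m K
  have hTv : variance T (PX d μ) ≤ (n : ℝ) ^ d * ((2 * (R : ℝ)) ^ d * vm μ R F) := by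
    refine (sum_var hF _).trans (mul_le_mul_of_nonneg_right ?_ (by positivity))
    rw [hcard, hD]
    have : (0 : ℝ) ≤ (K : ℝ) ^ d * (m : ℝ) ^ d := by positivity
    linarith
  have hQv : variance Q (PX d μ) ≤ (n : ℝ) ^ d * V := by
    rw [show variance Q (PX d μ) = (K : ℝ) ^ d * V from blocks_var hF c m K]
    refine mul_le_mul_of_nonneg_right ?_ hV0
    refine pow_le_pow_left₀ (by positivity) ?_ d
    exact_mod_cast Nat.div_le_self _ _
  have hc : 0 < ε / 4 * (n : ℝ) ^ d := by positivity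
  have p1 := meas_real_le hT hc hTv
  have p2 := meas_real_le hQ hc hQv
  have hsub : {X | ε * (n : ℝ) ^ d ≤ |Mx R F X c n - (n : ℝ) ^ d * gl μ R F|} ⊆
      {X | ε / 4 * (n : ℝ) ^ d ≤ |T X - ∫ a, T a ∂(PX d μ)|} ∪
        {X | ε / 4 * (n : ℝ) ^ d ≤ |Q X - ∫ a, Q a ∂(PX d μ)|} := by
    intro X hX
    by_contra hcon
    simp only [Set.mem_union, Set.mem_ofPred_eq, not_or, not_le] at hcon hX
    obtain ⟨q1, q2⟩ := hcon
    rw [hTm] at q1
    rw [hQm] at q2
    have q3 : |Mx R F X c n - Q X| ≤ T X := Mx_blocks hF.loc X hkn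
    have q4 : |(K : ℝ) ^ d * am μ R F m - (n : ℝ) ^ d * gl μ R F| ≤ ε / 4 * (n : ℝ) ^ d := by
      have e1 : (K : ℝ) ^ d * am μ R F m - (n : ℝ) ^ d * gl μ R F =
          (n : ℝ) ^ d * (am μ R F m / (m : ℝ) ^ d - gl μ R F) -
            D * (am μ R F m / (m : ℝ) ^ d) := by
        rw [hD]
        field_simp
        ring
      rw [e1]
      have h4 : |am μ R F m / (m : ℝ) ^ d| ≤ bm μ R F := by
        rw [abs_div, abs_of_pos hm', div_le_iff₀ hm', mul_comm]
        exact abs_am_le hF m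
      have h5 : |D * (am μ R F m / (m : ℝ) ^ d)| ≤ D * bm μ R F := by
        rw [abs_mul, abs_of_nonneg hD0]
        exact mul_le_mul_of_nonneg_left h4 hD0
      have h6 : |(n : ℝ) ^ d * (am μ R F m / (m : ℝ) ^ d - gl μ R F)| ≤
          (n : ℝ) ^ d * (ε / 8) := by
        rw [abs_mul, abs_of_pos hn']
        exact mul_le_mul_of_nonneg_left hm2.le hn'.le
      refine (abs_sub _ _).trans ((add_le_add h6 (h5.trans hDb)).trans ?_)
      linarith
    rw [abs_lt] at q1 q2
    rw [abs_le] at q3 q4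
    have : |Mx R F X c n - (n : ℝ) ^ d * gl μ R F| < ε * (n : ℝ) ^ d := by
      have hp : 0 < ε * (n : ℝ) ^ d := mul_pos hε hn'
      obtain ⟨q11, q12⟩ := q1
      obtain ⟨q21, q22⟩ := q2
      obtain ⟨q31, q32⟩ := q3
      obtain ⟨q41, q42⟩ := q4
      rw [abs_lt]
      constructor
      · linarith
      · linarith
    exact absurd hX (not_le.2 this)
  refine (measureReal_mono hsub).trans ((measureReal_union_le _ _).trans
    ((add_le_add p1 p2).trans (le_of_eq ?_)))
  field_simp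
  ring

end

end Pool.Agent.Zk58.EK
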