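import Pool.Agent.Zk58.EK.Geo

set_option autoImplicit false

/-!
Local functions of couplings and spins: deterministic part.
-/

namespace Pool.Agent.Zk58.EK

open Finset

open scoped BigOperators

variable {d k : ℕ} {S : Type}

/-- The configurations with the minus spins `A`. -/
noncomputable def spk (A : Finset (Fin k × Site d)) : Cfg d k :=
  fun a x => if (a, x) ∈ A then -1 else 1

/-- The maximum of the sum over a cube. -/
noncomputable def Mx (R : ℕ) (F : (Bond d → S) → Cfg d k → ℝ) (X : Bond d → S)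
    (c : Site d) (n : ℕ) : ℝ :=
  ((Finset.univ : Finset (Fin k)) ×ˢ cube c (n + R)).powerset.sup' ⟨∅, by simp⟩ fun A =>
    En F X (cube c n) (spk A)

/-- The maximum of `|F|` over the spins. -/
noncomputable def Ab (R : ℕ) (F : (Bond d → S) → Cfg d k → ℝ) (X : Bond d → S) : ℝ :=
  ((Finset.univ : Finset (Fin k)) ×ˢ cube (0 : Site d) R).powerset.sup' ⟨∅, by simp⟩ fun A =>
    |F X (spk A)|

theorem conf_sp (A : Finset (Fin k × Site d)) : IsConf (spk A) := by
  intro a x
  unfold spk
  split_ifs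
  · right; rfl
  · left; rfl

theorem conf_sh {σ : Cfg d k} (h : IsConf σ) (x : Site d) : IsConf (sh x σ) :=
  fun a y => h a (y + x)

theorem cube_shift {x y : Site d} {R : ℕ} (h : y ∈ cube (0 : Site d) R) : y + x ∈ cube x R := by
  rw [mem_cube] at h ⊢
  intro i
  have := h i
  simp only [Pi.zero_apply, zero_add, Pi.add_apply] at this ⊢
  constructor
  · linarith [this.1]
  · linarith [this.2]

theorem tip_shift (e : Bond d) (x : Site d) : tip (e.1 + x, e.2) = tip e + x := by
  unfold tip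
  simp only
  abel

theorem bonds_shift {x : Site d} {e : Bond d} {R : ℕ} (h : e ∈ bonds (cube (0 : Site d) R)) :
    (e.1 + x, e.2) ∈ bonds (cube x R) := by
  rw [mem_bonds] at h ⊢
  refine ⟨cube_shift h.1, ?_⟩
  rw [tip_shift]
  exact cube_shift h.2

theorem loc_shift {R : ℕ} {F : (Bond d → S) → Cfg d k → ℝ} (hF : IsLocal R F) {x : Site d}
    {X X' : Bond d → S} {σ σ' : Cfg d k} (h1 : ∀ e ∈ bonds (cube x R), X e = X' e)
    (h2 : ∀ a, ∀ y ∈ cube x R, σ a y = σ' a y) : F (th x X) (sh x σ) = F (th x X') (sh x σ') :=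
  hF _ _ _ _ (fun _ he => h1 _ (bonds_shift he)) (fun a _ hy => h2 a _ (cube_shift hy))

/-- The configuration `sp` of the minus spins. -/
theorem sp_minus {σ : Cfg d k} (h : IsConf σ) (B : Finset (Site d)) :
    ∃ A ⊆ (Finset.univ : Finset (Fin k)) ×ˢ B, ∀ a, ∀ x ∈ B, σ a x = spk A a x := by
  classical
  refine ⟨{p ∈ (Finset.univ : Finset (Fin k)) ×ˢ B | σ p.1 p.2 = -1}, filter_subset _ _,
    fun a x hx => ?_⟩
  unfold spk
  rcases h a x with h2 | h2
  · rw [if_neg, h2]
    rw [mem_filter, h2]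
    norm_num
  · rw [if_pos, h2]
    rw [mem_filter, mem_product]
    exact ⟨⟨mem_univ _, hx⟩, h2⟩

theorem abs_F_le {R : ℕ} {F : (Bond d → S) → Cfg d k → ℝ} (hF : IsLocal R F)
    (X : Bond d → S) {σ : Cfg d k} (h : IsConf σ) : |F X σ| ≤ Ab R F X := by
  obtain ⟨A, hA, hAσ⟩ := sp_minus h (cube (0 : Site d) R)
  rw [hF X X σ (spk A) (fun _ _ => rfl) hAσ]
  unfold Ab
  exact le_sup' (f := fun A => |F X (spk A)|) (mem_powerset.2 hA)

theorem Ab_nonneg (R : ℕ) (F : (Bond d → S) → Cfg d k → ℝ) (X : Bond d → S) :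
    0 ≤ Ab R F X := by
  unfold Ab
  exact (abs_nonneg (F X (spk ∅))).trans
    (le_sup' (f := fun A => |F X (spk A)|) (mem_powerset.2 (empty_subset _)))

theorem cube_sub {x c : Site d} {n R : ℕ} (h : x ∈ cube c n) : cube x R ⊆ cube c (n + R) := by
  intro y hy
  rw [mem_cube] at h hy ⊢
  intro i
  have h1 := h i
  have h2 := hy i
  push_cast
  constructor
  · linarith [h1.1, h2.1]
  · linarith [h1.2, h2.2]

theorem bonds_mono {B B' : Finset (Site d)} (h : B ⊆ B') : bonds B ⊆ bonds B' := by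
  intro e he
  rw [mem_bonds] at he ⊢
  exact ⟨h he.1, h he.2⟩

theorem En_congr {R : ℕ} {F : (Bond d → S) → Cfg d k → ℝ} (hF : IsLocal R F) {c : Site d}
    {n : ℕ} {X X' : Bond d → S} {σ σ' : Cfg d k}
    (h1 : ∀ e ∈ bonds (cube c (n + R)), X e = X' e)
    (h2 : ∀ a, ∀ y ∈ cube c (n + R), σ a y = σ' a y) :
    En F X (cube c n) σ = En F X' (cube c n) σ' := by
  unfold En
  refine sum_congr rfl fun x hx => ?_
  exact loc_shift hF (fun e he => h1 e (bonds_mono (cube_sub hx) he))
    (fun a y hy => h2 a y (cube_sub hx hy))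

theorem En_le_Mx {R : ℕ} {F : (Bond d → S) → Cfg d k → ℝ} (hF : IsLocal R F)
    (X : Bond d → S) (c : Site d) (n : ℕ) {σ : Cfg d k} (h : IsConf σ) :
    En F X (cube c n) σ ≤ Mx R F X c n := by
  obtain ⟨A, hA, hAσ⟩ := sp_minus h (cube c (n + R))
  rw [En_congr hF (fun _ _ => rfl) hAσ]
  unfold Mx
  exact le_sup' (f := fun A => En F X (cube c n) (spk A)) (mem_powerset.2 hA)

theorem exists_Mx (R : ℕ) (F : (Bond d → S) → Cfg d k → ℝ) (X : Bond d → S) (c : Site d)
    (n : ℕ) : ∃ A : Finset (Fin k × Site d), Mx R F X c n = En F X (cube c n) (spk A) := by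
  obtain ⟨A, hA, h⟩ := exists_mem_eq_sup'
    (s := ((Finset.univ : Finset (Fin k)) ×ˢ cube c (n + R)).powerset) ⟨∅, by simp⟩
    (fun A => En F X (cube c n) (spk A))
  exact ⟨A, h⟩

theorem Mx_congr {R : ℕ} {F : (Bond d → S) → Cfg d k → ℝ} (hF : IsLocal R F) {c : Site d}
    {n : ℕ} {X X' : Bond d → S} (h1 : ∀ e ∈ bonds (cube c (n + R)), X e = X' e) :
    Mx R F X c n = Mx R F X' c n := by
  unfold Mx
  exact sup'_congr _ rfl fun A _ => En_congr hF h1 (fun _ _ _ => rfl)

theorem abs_En_le {R : ℕ} {F : (Bond d → S) → Cfg d k → ℝ} (hF : IsLocal R F)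
    (X : Bond d → S) (D : Finset (Site d)) {σ : Cfg d k} (h : IsConf σ) :
    |En F X D σ| ≤ ∑ x ∈ D, Ab R F (th x X) := by
  unfold En
  exact (abs_sum_le_sum_abs _ _).trans (sum_le_sum fun x _ => abs_F_le hF _ (conf_sh h x))

theorem abs_Mx_le {R : ℕ} {F : (Bond d → S) → Cfg d k → ℝ} (hF : IsLocal R F)
    (X : Bond d → S) (c : Site d) (n : ℕ) :
    |Mx R F X c n| ≤ ∑ x ∈ cube c n, Ab R F (th x X) := by
  obtain ⟨A, h⟩ := exists_Mx R F X c n
  rw [h]
  exact abs_En_le hF X _ (conf_sp A)

theorem th_th (x y : Site d) (X : Bond d → S) : th x (th y X) = th (x + y) X := by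
  funext e
  unfold th
  simp only [add_assoc]

theorem sh_sh (x y : Site d) (σ : Cfg d k) : sh x (sh y σ) = sh (x + y) σ := by
  funext a e
  unfold sh
  simp only [add_assoc]

theorem En_shift (F : (Bond d → S) → Cfg d k → ℝ) (X : Bond d → S) (c : Site d) (n : ℕ)
    (σ : Cfg d k) : En F X (cube c n) σ = En F (th c X) (cube 0 n) (sh c σ) := by
  unfold En
  refine sum_bij' (fun x _ => x - c) (fun x _ => x + c) ?_ ?_ ?_ ?_ ?_
  · intro x hx
    rw [mem_cube] at hx ⊢
    intro i
    have := hx i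
    simp only [Pi.zero_apply, Pi.sub_apply, zero_add]
    constructor <;> linarith [this.1, this.2]
  · intro x hx
    exact cube_shift hx
  · intro x _
    simp
  · intro x _
    simp
  · intro x _
    rw [th_th, sh_sh, sub_add_cancel]

theorem Mx_shift {R : ℕ} {F : (Bond d → S) → Cfg d k → ℝ} (hF : IsLocal R F)
    (X : Bond d → S) (c : Site d) (n : ℕ) : Mx R F X c n = Mx R F (th c X) 0 n := by
  apply le_antisymm
  · obtain ⟨A, h⟩ := exists_Mx R F X c n
    rw [h, En_shift]
    exact En_le_Mx hF _ _ _ (conf_sh (conf_sp A) c)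
  · obtain ⟨A, h⟩ := exists_Mx R F (th c X) 0 n
    have h1 : En F (th c X) (cube 0 n) (spk A) = En F X (cube c n) (sh (-c) (spk A)) := by
      rw [En_shift F X c n, sh_sh]
      congr 1
      funext a y
      simp [sh]
    rw [h, h1]
    exact En_le_Mx hF _ _ _ (conf_sh (conf_sp A) _)

/-- The sites of a cube which are not in the inner blocks. -/
noncomputable def rst (c : Site d) (n m R K : ℕ) : Finset (Site d) := by
  classical
  exact cube c n \ (cube (0 : Site d) K).biUnion fun b => cube (corner c (m + R) b) m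

theorem inner_sub {c : Site d} {m R : ℕ} : cube c m ⊆ cube c (m + R) := by
  intro x hx
  rw [mem_cube] at hx ⊢
  intro i
  have := hx i
  push_cast
  constructor
  · linarith [this.1]
  · have h2 : (0 : ℤ) ≤ R := by positivity
    linarith [this.2]

theorem inner_sub' {c : Site d} {n m R K : ℕ} (h : K * (m + R) ≤ n) {b : Site d}
    (hb : b ∈ cube (0 : Site d) K) : cube (corner c (m + R) b) m ⊆ cube c n :=
  inner_sub.trans (block_sub h hb)

theorem inner_dis {c : Site d} {m R : ℕ} {b b' : Site d} (hne : b ≠ b') :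
    Disjoint (cube (corner c (m + R) b) m) (cube (corner c (m + R) b') m) := by
  rw [disjoint_left]
  intro x hx hx'
  exact disjoint_left.1 (block_dis hne) (inner_sub hx) (inner_sub hx')

theorem rst_card {c : Site d} {n m R K : ℕ} (h : K * (m + R) ≤ n) :
    ((rst c n m R K).card : ℝ) = (n : ℝ) ^ d - (K : ℝ) ^ d * (m : ℝ) ^ d := by
  classical
  have hsub : (cube (0 : Site d) K).biUnion (fun b => cube (corner c (m + R) b) m) ⊆ cube c n := by
    intro x hx
    rw [mem_biUnion] at hx
    obtain ⟨b, hb, hx⟩ := hx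
    exact inner_sub' h hb hx
  have h1 : (rst c n m R K).card + ((cube (0 : Site d) K).biUnion
      (fun b => cube (corner c (m + R) b) m)).card = (cube c n).card := by
    unfold rst
    rw [card_sdiff_add_card_eq_card hsub]
  have h2 : ((cube (0 : Site d) K).biUnion (fun b => cube (corner c (m + R) b) m)).card =
      K ^ d * m ^ d := by
    rw [card_biUnion fun b _ b' _ hne => inner_dis hne,
      sum_congr rfl fun b _ => card_cube _ m, sum_const, card_cube, smul_eq_mul]
  rw [h2, card_cube] at h1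
  have h3 : ((rst c n m R K).card : ℝ) + (K : ℝ) ^ d * (m : ℝ) ^ d = (n : ℝ) ^ d := by
    exact_mod_cast h1
  linarith

theorem Mx_blocks {R : ℕ} {F : (Bond d → S) → Cfg d k → ℝ} (hF : IsLocal R F)
    (X : Bond d → S) {c : Site d} {n m K : ℕ} (h : K * (m + R) ≤ n) :
    |Mx R F X c n - ∑ b ∈ cube (0 : Site d) K, Mx R F X (corner c (m + R) b) m| ≤
      ∑ x ∈ rst c n m R K, Ab R F (th x X) := by
  classical
  have hsub : (cube (0 : Site d) K).biUnion (fun b => cube (corner c (m + R) b) m) ⊆ cube c n := by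
    intro x hx
    rw [mem_biUnion] at hx
    obtain ⟨b, hb, hx⟩ := hx
    exact inner_sub' h hb hx
  have hE : ∀ σ : Cfg d k, En F X (cube c n) σ =
      ∑ b ∈ cube (0 : Site d) K, En F X (cube (corner c (m + R) b) m) σ +
        En F X (rst c n m R K) σ := by
    intro σ
    unfold En rst
    rw [← sum_biUnion (fun b hb b' hb' hne => inner_dis hne), add_comm, sum_sdiff hsub]
  rw [abs_le]
  constructor
  · choose A hA using fun b => exists_Mx R F X (corner c (m + R) b) m
    -- glue the maximisers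
    let A' : Finset (Fin k × Site d) := (cube (0 : Site d) K).biUnion fun b =>
      A b ∩ ((Finset.univ : Finset (Fin k)) ×ˢ cube (corner c (m + R) b) (m + R))
    have h1 := En_le_Mx hF X c n (conf_sp A')
    rw [hE] at h1
    have h2 : ∑ b ∈ cube (0 : Site d) K, En F X (cube (corner c (m + R) b) m) (spk A') =
        ∑ b ∈ cube (0 : Site d) K, Mx R F X (corner c (m + R) b) m := by
      refine sum_congr rfl fun b hb => ?_
      rw [hA b]
      refine En_congr hF (fun _ _ => rfl) fun a x hx => ?_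
      unfold spk
      congr 1
      rw [eq_iff_iff, mem_biUnion]
      constructor
      · rintro ⟨b', hb', hx'⟩
        rw [mem_inter, mem_product] at hx'
        by_cases hbb : b' = b
        · rw [← hbb]; exact hx'.1
        · exact absurd hx (disjoint_left.1 (block_dis hbb) hx'.2.2)
      · intro hx'
        exact ⟨b, hb, mem_inter.2 ⟨hx', mem_product.2 ⟨mem_univ _, hx⟩⟩⟩
    have h3 := abs_le.1 (abs_En_le hF X (rst c n m R K) (conf_sp A'))
    linarith [h3.1]
  · obtain ⟨A, hA⟩ := exists_Mx R F X c n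
    have h1 := hE (spk A)
    rw [← hA] at h1
    have h2 : ∑ b ∈ cube (0 : Site d) K, En F X (cube (corner c (m + R) b) m) (spk A) ≤
        ∑ b ∈ cube (0 : Site d) K, Mx R F X (corner c (m + R) b) m :=
      sum_le_sum fun b _ => En_le_Mx hF X _ _ (conf_sp A)
    have h3 := abs_le.1 (abs_En_le hF X (rst c n m R K) (conf_sp A))
    linarith [h3.2]

end Pool.Agent.Zk58.EK
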