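import Pool.Agent.Zk58.EK.Def

set_option autoImplicit false

/-!
No ties: for atomless couplings the weak ground states are ground states.
-/

namespace Pool.Agent.Zk58.EK

open Finset MeasureTheory ProbabilityTheory Filter

open scoped BigOperators ENNReal Topology

theorem bdry_nonempty {d : ℕ} (hd : 0 < d) {A : Finset (Site d)} (hA : A.Nonempty) :
    (bdry A).Nonempty := by
  let i0 : Fin d := ⟨0, hd⟩
  obtain ⟨x, hx, hmax⟩ := exists_max_image A (fun x => x i0) hA
  refine ⟨(x, i0), ?_⟩
  rw [mem_bdry]
  intro h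
  have h1 := hmax _ (h.1 hx)
  rw [tip_apply, if_pos rfl] at h1
  simp only at h1
  linarith

theorem null_one {d : ℕ} {S : Type} [MeasurableSpace S] {μ : Measure S} [IsProbabilityMeasure μ]
    {ψ : S → ℝ} (hψ : Measurable ψ) (hat : ∀ t : ℝ, μ {s | ψ s = t} = 0)
    {E : Finset (Bond d)} (hE : E.Nonempty) (s : Bond d → ℝ) (hs : ∀ e, s e = 1 ∨ s e = -1) :
    (PX d μ) {X | ∑ e ∈ E, ψ (X e) * s e = 0} = 0 := by
  classical
  obtain ⟨e0, he0⟩ := hE
  let f : (Bond d → S) → ℝ := fun X => ψ (X e0) * s e0
  let g : (Bond d → S) → ℝ := fun X => ∑ e ∈ E.erase e0, ψ (X e) * s e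
  have hf : Measurable f := (hψ.comp (measurable_pi_apply _)).mul_const _
  have hg : Measurable g := Finset.measurable_fun_sum _ fun e _ =>
    (hψ.comp (measurable_pi_apply _)).mul_const _
  have hind : IndepFun f g (PX d μ) := by
    refine indep_of_disj (E := {e0}) (E' := E.erase e0) ?_ hf hg ?_ ?_
    · rw [disjoint_singleton_left]
      exact notMem_erase _ _
    · intro X X' h
      simp only [f]
      rw [h e0 (mem_singleton_self _)]
    · intro X X' h
      simp only [g]
      exact sum_congr rfl fun e he => by rw [h e he]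
  have hmap := (indepFun_iff_map_prod_eq_prod_map_map hf.aemeasurable hg.aemeasurable).1 hind
  have hset : {X | ∑ e ∈ E, ψ (X e) * s e = 0} =
      (fun X => (f X, g X)) ⁻¹' {p : ℝ × ℝ | p.1 + p.2 = 0} := by
    ext X
    simp only [Set.mem_ofPred_eq, Set.mem_preimage, f, g]
    rw [add_sum_erase E (fun e => ψ (X e) * s e) he0]
  have hm : MeasurableSet {p : ℝ × ℝ | p.1 + p.2 = 0} :=
    measurableSet_eq_fun (measurable_fst.add measurable_snd) measurable_const
  rw [hset, ← Measure.map_apply (hf.prodMk hg) hm, hmap, Measure.prod_apply_symm hm]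
  have hz : ∀ y : ℝ, (Measure.map f (PX d μ)) ((fun x => (x, y)) ⁻¹' {p : ℝ × ℝ | p.1 + p.2 = 0})
      = 0 := by
    intro y
    have hm1 : MeasurableSet ((fun x : ℝ => (x, y)) ⁻¹' {p : ℝ × ℝ | p.1 + p.2 = 0}) :=
      (measurable_id.prodMk measurable_const) hm
    rw [Measure.map_apply hf hm1]
    have hsub : f ⁻¹' ((fun x : ℝ => (x, y)) ⁻¹' {p : ℝ × ℝ | p.1 + p.2 = 0}) ⊆
        (fun X : Bond d → S => X e0) ⁻¹' {t | ψ t = -y * s e0} := by
      intro X hX
      simp only [Set.mem_preimage, Set.mem_ofPred_eq, f] at hX ⊢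
      have h1 : s e0 * s e0 = 1 := by
        rcases hs e0 with h | h <;> rw [h] <;> norm_num
      have h2 : ψ (X e0) = ψ (X e0) * (s e0 * s e0) := by rw [h1, mul_one]
      rw [h2]
      have h3 : ψ (X e0) * s e0 = -y := by linarith
      rw [← mul_assoc, h3]
    refine measure_mono_null hsub ?_
    have hm2 : MeasurableSet {t | ψ t = -y * s e0} := measurableSet_eq_fun hψ measurable_const
    have h4 := (measurePreserving_eval_infinitePi (fun _ : Bond d => μ) e0).measure_preimage
      hm2.nullMeasurableSet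
    exact h4.trans (hat _)
  simp only [hz, lintegral_const, zero_mul]

theorem tie : S_TIE := by
  classical
  intro d S _ μ _ ψ hψ hat
  by_cases hd : 0 < d
  · have key : ∀ᵐ X ∂(PX d μ), ∀ A : Finset (Site d), ∀ B : Finset (Bond d), A.Nonempty →
        ∑ e ∈ bdry A, ψ (X e) * (if e ∈ B then -1 else 1) ≠ 0 := by
      rw [ae_all_iff]
      intro A
      rw [ae_all_iff]
      intro B
      by_cases hA : A.Nonempty
      · have h := null_one (μ := μ) hψ hat (bdry_nonempty hd hA)
          (fun e => if e ∈ B then -1 else 1) (fun e => by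
            split_ifs
            · right; rfl
            · left; rfl)
        have h2 : ∀ᵐ X ∂(PX d μ), ∑ e ∈ bdry A, ψ (X e) * (if e ∈ B then -1 else 1) ≠ 0 := by
          rw [ae_iff]
          simpa only [ne_eq, not_not] using h
        filter_upwards [h2] with X hX _
        exact hX
      · exact Eventually.of_forall fun X h => absurd h hA
    filter_upwards [key] with X hX τ hτ hw _
    refine ⟨hτ, fun A hA => lt_of_le_of_ne (hw A) ?_⟩
    have h1 := hX A {e ∈ bdry A | τ e.1 * τ (tip e) = -1} hA
    intro h2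
    apply h1
    rw [h2]
    unfold bs
    refine sum_congr rfl fun e he => ?_
    congr 1
    rcases hτ e.1 with h | h <;> rcases hτ (tip e) with h' | h' <;>
      simp [h, h', he] <;> norm_num
  · exact Eventually.of_forall fun X τ _ _ h => absurd h hd

end Pool.Agent.Zk58.EK
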