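import Pool.Agent.Zk58.EK.Att
import Pool.Agent.Zk58.EK.Cvx
import Pool.Agent.Zk58.EK.Tie

set_option autoImplicit false
set_option linter.unusedSectionVars false

/-!
The range of the averages over ground states and the one-sided derivatives of the energy.
-/

namespace Pool.Agent.Zk58.EK

open Finset MeasureTheory ProbabilityTheory Filter

open scoped BigOperators ENNReal Topology

/-- Borel-Cantelli. -/
theorem bc {d : ℕ} (hd : 2 ≤ d) {Ω : Type} [MeasurableSpace Ω] {P : Measure Ω}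
    [IsProbabilityMeasure P] {Bad : ℕ → Set Ω} {C : ℝ} {n0 : ℕ}
    (h : ∀ n ≥ n0, P.real (Bad n) ≤ C / (n : ℝ) ^ d) : ∀ᵐ X ∂P, ∀ᶠ n in atTop, X ∉ Bad n := by
  classical
  let s : ℕ → Set Ω := fun n => if n0 ≤ n then Bad n else ∅
  have hs : ∀ n : ℕ, P (s n) ≤ ENNReal.ofReal (C * (1 / (n : ℝ) ^ d)) := by
    intro n
    by_cases hn : n0 ≤ n
    · simp only [s, if_pos hn]
      have h1 := h n hn
      rw [mul_one_div]
      rw [← ENNReal.ofReal_toReal (measure_ne_top P (Bad n))]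
      exact ENNReal.ofReal_le_ofReal h1
    · simp only [s, if_neg hn, measure_empty]
      exact zero_le
  have hsum : Summable fun n : ℕ => C * (1 / (n : ℝ) ^ d) :=
    (Real.summable_one_div_nat_pow.2 (by omega)).mul_left C
  have hfin : ∑' n, P (s n) ≠ ⊤ :=
    ne_top_of_le_ne_top hsum.tsum_ofReal_ne_top (ENNReal.tsum_le_tsum hs)
  filter_upwards [ae_eventually_notMem hfin] with X hX
  filter_upwards [hX, eventually_ge_atTop n0] with n hn hn0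
  simpa only [s, if_pos hn0] using hn

/-- If the probabilities of the failures tend to zero then almost surely there are infinitely
many successes. -/
theorem freq_of_tendsto {Ω : Type} [MeasurableSpace Ω] {P : Measure Ω} {E : ℕ → Set Ω}
    (h : Tendsto (fun n => P (E n)) atTop (𝓝 0)) : ∀ᵐ X ∂P, ∃ᶠ n in atTop, X ∉ E n := by
  have h1 : ∀ n0 : ℕ, ∀ᵐ X ∂P, ∃ n ≥ n0, X ∉ E n := by
    intro n0
    rw [ae_iff]
    refine le_antisymm (ge_of_tendsto h ?_) zero_le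
    filter_upwards [eventually_ge_atTop n0] with n hn
    refine measure_mono fun X hX => ?_
    simp only [Set.mem_ofPred_eq, not_exists, not_and, not_not] at hX
    exact hX n hn
  rw [← ae_all_iff] at h1
  filter_upwards [h1] with X hX
  rw [frequently_atTop]
  exact hX

variable {d k : ℕ} {S : Type}

/-- Nearly optimal configurations in a cube. -/
def NearOpt (ψ : S → ℝ) (δ : ℝ) (X : Bond d → S) (c : Site d) (n : ℕ) (σ : Cfg d k) : Prop :=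
  IsConf σ ∧ ∀ τ : Cfg d k, IsConf τ →
    En (F0 ψ) X (cube c n) τ ≤ En (F0 ψ) X (cube c n) σ + δ * (n : ℝ) ^ d

theorem maxE_eq {ψ : S → ℝ} {R : ℕ} {F : (Bond d → S) → Cfg d k → ℝ}
    (hloc : ∀ t : ℝ, IsLocal (R + 2) (FT ψ F t)) (t : ℝ) (X : Bond d → S) (c : Site d) (n : ℕ) :
    maxE ψ F t X c n = Mx (R + 2) (FT ψ F t) X c n := by
  unfold maxE
  apply IsGreatest.csSup_eq
  constructor
  · obtain ⟨A, hA⟩ := exists_Mx (R + 2) (FT ψ F t) X c n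
    exact ⟨spk A, conf_sp A, by rw [hA, En_FT]⟩
  · rintro E ⟨σ, hσ, rfl⟩
    rw [← En_FT]
    exact En_le_Mx (hloc t) X c n hσ

variable [MeasurableSpace S] {μ : Measure S} [IsProbabilityMeasure μ]
  {ψ : S → ℝ} {R : ℕ} {F : (Bond d → S) → Cfg d k → ℝ}

theorem as_lim (hd : 2 ≤ d) {G : (Bond d → S) → Cfg d k → ℝ} (hG : Good μ R G)
    (c : ℕ → Site d) : ∀ᵐ X ∂(PX d μ),
      Tendsto (fun n : ℕ => Mx R G X (c n) n / (n : ℝ) ^ d) atTop (𝓝 (gl μ R G)) := by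
  have h1 : ∀ j : ℕ, ∀ᵐ X ∂(PX d μ), ∀ᶠ n : ℕ in atTop,
      |Mx R G X (c n) n / (n : ℝ) ^ d - gl μ R G| < 1 / ((j : ℝ) + 1) := by
    intro j
    have hj : (0 : ℝ) < 1 / ((j : ℝ) + 1) := by positivity
    obtain ⟨C, hC, n0, h⟩ := tail hG hj
    have h2 := bc hd (P := PX d μ) (Bad := fun n => {X | 1 / ((j : ℝ) + 1) * (n : ℝ) ^ d ≤
      |Mx R G X (c n) n - (n : ℝ) ^ d * gl μ R G|}) (fun n hn => h n hn (c n))
    filter_upwards [h2] with X hX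
    filter_upwards [hX, eventually_gt_atTop 0] with n hn hn0
    simp only [Set.mem_ofPred_eq, not_le] at hn
    have hn' : (0 : ℝ) < (n : ℝ) ^ d := by positivity
    have e1 : Mx R G X (c n) n / (n : ℝ) ^ d - gl μ R G =
        (Mx R G X (c n) n - (n : ℝ) ^ d * gl μ R G) / (n : ℝ) ^ d := by
      field_simp
    rw [e1, abs_div, abs_of_pos hn', div_lt_iff₀ hn']
    exact hn
  rw [← ae_all_iff] at h1
  filter_upwards [h1] with X hX
  rw [Metric.tendsto_nhds]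
  intro ε hε
  obtain ⟨j, hj⟩ := exists_nat_one_div_lt hε
  filter_upwards [hX j] with n hn
  rw [Real.dist_eq]
  exact hn.trans hj

theorem as_near (hd : 2 ≤ d) (hψ : Measurable ψ) (hψ2 : MemLp ψ 2 μ) (hF : Good μ R F) {l r : ℝ}
    (hlr : ∀ ε : ℝ, 0 < ε → ∃ t0 : ℝ, 0 < t0 ∧ ∀ t : ℝ, 0 < t → t ≤ t0 →
      gg μ ψ R F (0 + t) - gg μ ψ R F 0 ≤ (r + ε) * t ∧
        (l - ε) * t ≤ gg μ ψ R F 0 - gg μ ψ R F (0 - t)) {η : ℝ} (hη : 0 < η) :
    ∃ δ : ℝ, 0 < δ ∧ ∀ c : ℕ → Site d, ∀ᵐ X ∂(PX d μ), ∀ᶠ n : ℕ in atTop, ∀ σ : Cfg d k,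
      (BoxGS (fun e => ψ (X e)) (c n) n σ → NearOpt ψ δ X (c n) n σ) ∧
      (NearOpt ψ δ X (c n) n σ → (l - η) * (n : ℝ) ^ d ≤ En F X (cube (c n) n) σ ∧
        En F X (cube (c n) n) σ ≤ (r + η) * (n : ℝ) ^ d) := by
  obtain ⟨t0, ht0, h⟩ := hlr (η / 2) (by linarith)
  obtain ⟨δ, hδ, C, hC, n0, h1⟩ := near_tail (l := l) (r := r) hψ hψ2 hF hη ht0
    (fun t h1 h2 => by simpa using (h t h1 h2).1) (fun t h1 h2 => by simpa using (h t h1 h2).2)
  refine ⟨δ, hδ, fun c => ?_⟩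
  choose! Bad hB1 hB2 using h1
  have h2 := bc hd (P := PX d μ) (Bad := fun n => Bad n (c n)) (n0 := n0)
    (fun n hn => hB1 n hn (c n))
  filter_upwards [h2] with X hX
  filter_upwards [hX, eventually_ge_atTop n0] with n hn hn0 σ
  obtain ⟨h3, h4⟩ := hB2 n hn0 (c n) X hn
  exact ⟨fun hσ => ⟨hσ.1, h4 σ hσ⟩, fun hσ => h3 σ hσ.1 hσ.2⟩

theorem good_neg (hF : Good μ R F) : Good μ R (fun X σ => -F X σ) where
  loc := fun X X' σ σ' h1 h2 => by
    show -F X σ = -F X' σ'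
    rw [hF.loc X X' σ σ' h1 h2]
  meas := fun σ hσ => (hF.meas σ hσ).neg
  mem := fun σ hσ => (hF.mem σ hσ).neg

theorem gg_neg (t : ℝ) : gg μ ψ R (fun X σ => -F X σ) t = gg μ ψ R F (-t) := by
  unfold gg
  congr 1
  funext X σ
  unfold FT
  ring

theorem En_neg (X : Bond d → S) (D : Finset (Site d)) (σ : Cfg d k) :
    En (fun X σ => -F X σ) X D σ = -En F X D σ := by
  unfold En
  rw [sum_neg_distrib]

theorem WGS_box {J : Bond d → ℝ} {σ : Cfg d k} (h : WGS J σ) (c : Site d) (n : ℕ) :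
    BoxGS J c n σ := ⟨h.1, fun a A _ => h.2 a A⟩

/-- `k`-tuples of ground states. -/
def GSs (J : Bond d → ℝ) (σ : Cfg d k) : Prop := ∀ a, IsGroundState J (σ a)

theorem GSs_WGS {J : Bond d → ℝ} {σ : Cfg d k} (h : GSs J σ) : WGS J σ := by
  refine ⟨fun a => (h a).1, fun a A => ?_⟩
  rcases A.eq_empty_or_nonempty with rfl | hA
  · have : bdry (∅ : Finset (Site d)) = ∅ := by
      ext e
      rw [mem_bdry]
      simp
    unfold bs
    rw [this, sum_empty]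
  · exact ((h a).2 A hA).le

/-- With probability tending to one the extreme averages are nearly attained. -/
theorem prob_att (hd : 2 ≤ d) (hψ : Measurable ψ) (hψ2 : MemLp ψ 2 μ)
    (hat : ∀ t : ℝ, μ {s | ψ s = t} = 0) (hF : Good μ R F) {l r : ℝ}
    (hr1 : ∀ t : ℝ, 0 < t → r * t ≤ gg μ ψ R F (0 + t) - gg μ ψ R F 0)
    (hl1 : ∀ t : ℝ, 0 < t → gg μ ψ R F 0 - gg μ ψ R F (0 - t) ≤ l * t)
    (hlr : ∀ ε : ℝ, 0 < ε → ∃ t0 : ℝ, 0 < t0 ∧ ∀ t : ℝ, 0 < t → t ≤ t0 →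
      gg μ ψ R F (0 + t) - gg μ ψ R F 0 ≤ (r + ε) * t ∧
        (l - ε) * t ≤ gg μ ψ R F 0 - gg μ ψ R F (0 - t))
    (c : ℕ → Site d) {ε : ℝ} (hε : 0 < ε) :
    Tendsto (fun n : ℕ => (PX d μ) {X | ¬ ∃ σ τ : Cfg d k, GSs (fun e => ψ (X e)) σ ∧
      GSs (fun e => ψ (X e)) τ ∧ (r - ε) * (n : ℝ) ^ d ≤ En F X (cube (c n) n) σ ∧
        En F X (cube (c n) n) τ ≤ (l + ε) * (n : ℝ) ^ d}) atTop (𝓝 0) := by
  have hup : ∀ η : ℝ, 0 < η → ∃ C : ℝ, 0 ≤ C ∧ ∃ n0 : ℕ, ∀ n ≥ n0, ∃ Bad : Set (Bond d → S),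
      (PX d μ).real Bad ≤ C / (n : ℝ) ^ d ∧ ∀ X ∉ Bad, ∀ σ : Cfg d k,
        WGS (fun e => ψ (X e)) σ → (l - η) * (n : ℝ) ^ d ≤ En F X (cube 0 n) σ ∧
          En F X (cube 0 n) σ ≤ (r + η) * (n : ℝ) ^ d := by
    intro η hη
    obtain ⟨t0, ht0, h⟩ := hlr (η / 2) (by linarith)
    obtain ⟨δ, hδ, C, hC, n0, h1⟩ := near_tail (l := l) (r := r) hψ hψ2 hF hη ht0
      (fun t h1 h2 => by simpa using (h t h1 h2).1) (fun t h1 h2 => by simpa using (h t h1 h2).2)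
    refine ⟨C, hC, n0, fun n hn => ?_⟩
    obtain ⟨Bad, h2, h3⟩ := h1 n hn 0
    exact ⟨Bad, h2, fun X hX σ hσ =>
      (h3 X hX).1 σ hσ.1 ((h3 X hX).2 σ (WGS_box hσ 0 n))⟩
  have hd0 : d ≠ 0 := by omega
  have hnull : (PX d μ) {X | ¬ ∀ τ : Site d → ℝ, (∀ x, τ x = 1 ∨ τ x = -1) →
      (∀ A : Finset (Site d), 0 ≤ bs (fun e => ψ (X e)) τ A) → 0 < d →
        IsGroundState (fun e => ψ (X e)) τ} = 0 := tie d S μ ψ hψ hat
  rw [ENNReal.tendsto_nhds_zero]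
  intro η hη
  -- a real bound
  obtain ⟨η', hη'0, hη'⟩ : ∃ η' : ℝ, 0 < η' ∧ ENNReal.ofReal η' + ENNReal.ofReal η' ≤ η := by
    rcases eq_or_ne η ⊤ with rfl | hη2
    · exact ⟨1, one_pos, le_top⟩
    · refine ⟨η.toReal / 2, by have := ENNReal.toReal_pos hη.ne' hη2; positivity, ?_⟩
      rw [← ENNReal.ofReal_add (by positivity) (by positivity), add_halves,
        ENNReal.ofReal_toReal hη2]
  obtain ⟨n1, h1⟩ := att hd0 hψ hψ2 hF (r := r) (fun t ht => by simpa using hr1 t ht)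
    (fun η hη => by
      obtain ⟨C, hC, n0, h⟩ := hup η hη
      exact ⟨C, hC, n0, fun n hn => by
        obtain ⟨Bad, h2, h3⟩ := h n hn
        exact ⟨Bad, h2, fun X hX σ hσ => (h3 X hX σ hσ).2⟩⟩) hε hη'0
  obtain ⟨n2, h2⟩ := att hd0 hψ hψ2 (good_neg hF) (r := -l)
    (fun t ht => by
      rw [gg_neg, gg_neg]
      have := hl1 t ht
      simp only [neg_zero, zero_sub] at this ⊢
      linarith)
    (fun η hη => by
      obtain ⟨C, hC, n0, h⟩ := hup η hη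
      exact ⟨C, hC, n0, fun n hn => by
        obtain ⟨Bad, h2, h3⟩ := h n hn
        refine ⟨Bad, h2, fun X hX σ hσ => ?_⟩
        have h4 := (h3 X hX σ hσ).1
        rw [En_neg]
        linarith⟩) hε hη'0
  filter_upwards [eventually_ge_atTop (max n1 n2)] with n hn
  have hsub : {X | ¬ ∃ σ τ : Cfg d k, GSs (fun e => ψ (X e)) σ ∧
      GSs (fun e => ψ (X e)) τ ∧ (r - ε) * (n : ℝ) ^ d ≤ En F X (cube (c n) n) σ ∧
        En F X (cube (c n) n) τ ≤ (l + ε) * (n : ℝ) ^ d} ⊆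
      ({X | ¬ ∃ σ : Cfg d k, WGS (fun e => ψ (X e)) σ ∧
        (r - ε) * (n : ℝ) ^ d ≤ En F X (cube (c n) n) σ} ∪
      {X | ¬ ∃ σ : Cfg d k, WGS (fun e => ψ (X e)) σ ∧
        (-l - ε) * (n : ℝ) ^ d ≤ En (fun X σ => -F X σ) X (cube (c n) n) σ}) ∪
      {X | ¬ ∀ τ : Site d → ℝ, (∀ x, τ x = 1 ∨ τ x = -1) →
      (∀ A : Finset (Site d), 0 ≤ bs (fun e => ψ (X e)) τ A) → 0 < d →
        IsGroundState (fun e => ψ (X e)) τ} := by
    intro X hX
    by_contra hcon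
    simp only [Set.mem_union, Set.mem_ofPred_eq, not_or, not_not] at hcon
    obtain ⟨⟨⟨σ, hσ, hσ2⟩, ⟨τ, hτ, hτ2⟩⟩, hG⟩ := hcon
    apply hX
    refine ⟨σ, τ, fun a => hG (σ a) (hσ.1 a) (hσ.2 a) (by omega),
      fun a => hG (τ a) (hτ.1 a) (hτ.2 a) (by omega), hσ2, ?_⟩
    rw [En_neg] at hτ2
    linarith
  refine (measure_mono hsub).trans ((measure_union_le _ _).trans ?_)
  rw [hnull, add_zero]
  refine (measure_union_le _ _).trans (le_trans (add_le_add (h1 n ?_ (c n)) (h2 n ?_ (c n))) hη')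
  · exact le_trans (le_max_left _ _) hn
  · exact le_trans (le_max_right _ _) hn

end Pool.Agent.Zk58.EK
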