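import Pool.Agent.Zk58.EK.Scale

set_option autoImplicit false
set_option linter.unusedSectionVars false

/-!
Ground states which are extreme at all scales of a sequence.
-/

namespace Pool.Agent.Zk58.EK

open Finset MeasureTheory ProbabilityTheory Filter

open scoped BigOperators ENNReal Topology

variable {d k : ℕ} {S : Type}

/-- The maximum of `H` over the approximate ground states with respect to `G`. -/
noncomputable def Zh (ψ : S → ℝ) (RG : ℕ) (G : (Bond d → S) → Cfg d k → ℝ) (m RH : ℕ)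
    (H : (Bond d → S) → Cfg d k → ℝ) (X : Bond d → S) : ℝ := by
  classical
  exact ((Finset.univ : Finset (Fin k)) ×ˢ Bx d (m + RH + 1)).powerset.sup' ⟨∅, by simp⟩
    fun A => if AGS ψ RG G m X (spk A) then H X (spk A) else -Ab RH H X

section

variable {ψ : S → ℝ} {RG RH : ℕ} {G H : (Bond d → S) → Cfg d k → ℝ}

theorem Zh_ge (hH : IsLocal RH H) {m : ℕ} {X : Bond d → S} {σ : Cfg d k} (hσ : IsConf σ)
    (h : AGS ψ RG G m X σ) : H X σ ≤ Zh ψ RG G m RH H X := by
  classical
  obtain ⟨A, hA, hAσ⟩ := sp_minus hσ (Bx d (m + RH + 1))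
  have h1 : AGS ψ RG G m X (spk A) := by
    refine AGS_congr (fun a x hx => hAσ a x ?_) h
    rw [mem_Bx] at hx ⊢
    intro i
    have := hx i
    push_cast at this ⊢
    constructor <;> linarith [this.1, this.2]
  have h2 : H X σ = H X (spk A) := by
    refine hH X X σ (spk A) (fun _ _ => rfl) fun a x hx => hAσ a x ?_
    rw [mem_Bx]
    rw [mem_cube] at hx
    intro i
    have := hx i
    simp only [Pi.zero_apply, zero_add] at this
    push_cast at this ⊢
    constructor <;> linarith [this.1, this.2]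
  rw [h2]
  unfold Zh
  have h3 := le_sup' (f := fun A => if AGS ψ RG G m X (spk A) then H X (spk A)
      else -Ab RH H X) (mem_powerset.2 hA)
  rw [if_pos h1] at h3
  exact h3

theorem Zh_att (hG : IsLocal RG G) (hH : IsLocal RH H) (m : ℕ) (X : Bond d → S) :
    ∃ σ : Cfg d k, IsConf σ ∧ AGS ψ RG G m X σ ∧ Zh ψ RG G m RH H X ≤ H X σ := by
  classical
  obtain ⟨A, hA, h⟩ := exists_mem_eq_sup'
    (s := ((Finset.univ : Finset (Fin k)) ×ˢ Bx d (m + RH + 1)).powerset) ⟨∅, by simp⟩
    (fun A => if AGS ψ RG G m X (spk A) then H X (spk A) else -Ab RH H X)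
  have h1 : Zh ψ RG G m RH H X = if AGS ψ RG G m X (spk A) then H X (spk A)
      else -Ab RH H X := h
  by_cases hA2 : AGS ψ RG G m X (spk A)
  · rw [if_pos hA2] at h1
    exact ⟨spk A, conf_sp A, hA2, h1.le⟩
  · rw [if_neg hA2] at h1
    obtain ⟨σ, hσ, hσ2⟩ := exists_AGS ψ hG m X
    refine ⟨σ, hσ, hσ2, ?_⟩
    rw [h1]
    exact (abs_le.1 (abs_F_le hH X hσ)).1

theorem Zh_anti (hG : IsLocal RG G) (hH : IsLocal RH H) (X : Bond d → S) :
    Antitone fun m => Zh ψ RG G m RH H X := by
  intro m m' h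
  obtain ⟨σ, h1, h2, h3⟩ := Zh_att (ψ := ψ) hG hH m' X
  exact h3.trans (Zh_ge hH h1 (AGS_mono h h2))

theorem abs_Zh_le (hG : IsLocal RG G) (hH : IsLocal RH H) (m : ℕ) (X : Bond d → S) :
    |Zh ψ RG G m RH H X| ≤ Ab RH H X := by
  obtain ⟨σ, h1, h2, h3⟩ := Zh_att (ψ := ψ) hG hH m X
  have h4 := abs_le.1 (abs_F_le hH X h1)
  have h5 := Zh_ge (ψ := ψ) (RG := RG) (G := G) (m := m) hH h1 h2
  rw [abs_le]
  constructor <;> linarith [h4.1, h4.2]

end

variable [MeasurableSpace S] {μ : Measure S} [IsProbabilityMeasure μ]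
  {ψ : S → ℝ} {R RG RH : ℕ} {F G H : (Bond d → S) → Cfg d k → ℝ}

theorem Zh_meas (hψ : Measurable ψ) (hG : Good μ RG G) (hH : Good μ RH H) (m : ℕ) :
    Measurable (Zh ψ RG G m RH H) := by
  classical
  have : Zh ψ RG G m RH H =
      ((Finset.univ : Finset (Fin k)) ×ˢ Bx d (m + RH + 1)).powerset.sup' ⟨∅, by simp⟩
      (fun A X => if AGS ψ RG G m X (spk A) then H X (spk A) else -Ab RH H X) := by
    funext X
    exact (Finset.sup'_apply (⟨∅, by simp⟩ :
      ((Finset.univ : Finset (Fin k)) ×ˢ Bx d (m + RH + 1)).powerset.Nonempty)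
      (fun A X => if AGS ψ RG G m X (spk A) then H X (spk A) else -Ab RH H X) X).symm
  rw [this]
  refine Finset.measurable_sup' _ fun A _ => ?_
  exact Measurable.ite (AGS_meas hψ hG m (spk A)) (hH.meas _ (conf_sp A)) (Ab_meas hH).neg

theorem Zh_int (hψ : Measurable ψ) (hG : Good μ RG G) (hH : Good μ RH H) (m : ℕ) :
    Integrable (Zh ψ RG G m RH H) (PX d μ) := by
  refine Integrable.mono ((Ab_mem hH).integrable (by norm_num))
    (Zh_meas hψ hG hH m).aestronglyMeasurable (Eventually.of_forall fun X => ?_)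
  rw [Real.norm_eq_abs, Real.norm_of_nonneg (Ab_nonneg _ _ _)]
  exact abs_Zh_le hG.loc hH.loc m X

/-- The upper deviations of the maximum of a block average. -/
theorem Zh_upper (hψ : Measurable ψ) (hG : Good μ RG G) (hF : Good μ R F) (m : ℕ) {N : ℕ}
    (hN : 0 < N) {r δ L : ℝ} (hδ : 0 < δ) (hL : 0 < L) :
    ∫ X, max (Zh ψ RG G m (N + R) (Av F N) X - r) 0 ∂(PX d μ) ≤
      δ + (2 * vm μ R F + 2 * r ^ 2) / L +
        L * (PX d μ).real {X | r + δ < Zh ψ RG G m (N + R) (Av F N) X} := by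
  classical
  have hN' : (0 : ℝ) < (N : ℝ) ^ d := by positivity
  have hH := Av_good hF N
  have hZ := Zh_meas (ψ := ψ) hψ hG hH m
  have mB : MeasurableSet {X | r + δ < Zh ψ RG G m (N + R) (Av F N) X} :=
    measurableSet_lt measurable_const hZ
  set B := {X | r + δ < Zh ψ RG G m (N + R) (Av F N) X} with hB
  have iZ := Zh_int (ψ := ψ) hψ hG hH m
  have iM : Integrable (fun X => max (Zh ψ RG G m (N + R) (Av F N) X - r) 0) (PX d μ) :=
    (iZ.sub (integrable_const r)).pos_part
  have iB : Integrable (B.indicator fun _ => L) (PX d μ) :=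
    (integrable_const L).indicator mB
  have iW : Integrable (fun X => δ + Wf R F r N X / L) (PX d μ) :=
    (integrable_const δ).add ((Wf_int hF r N).div_const L)
  have key : ∀ X, max (Zh ψ RG G m (N + R) (Av F N) X - r) 0 ≤
      δ + Wf R F r N X / L + B.indicator (fun _ => L) X := by
    intro X
    have hW := Wf_ge (R := R) (F := F) r hN X
    have hW0 : 0 ≤ Wf R F r N X := (sq_nonneg _).trans hW
    have hWL : 0 ≤ Wf R F r N X / L := by positivity
    have hB0 : 0 ≤ B.indicator (fun _ => L) X := Set.indicator_nonneg (fun _ _ => hL.le) _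
    refine max_le ?_ (by linarith)
    by_cases h2 : X ∈ B
    · rw [Set.indicator_of_mem h2]
      set b := (∑ x ∈ cube (0 : Site d) N, Ab R F (th x X)) / (N : ℝ) ^ d + |r| with hb
      have h3 : Zh ψ RG G m (N + R) (Av F N) X - r ≤ b := by
        obtain ⟨σ, q1, q2, q3⟩ := Zh_att (ψ := ψ) hG.loc hH.loc m X
        have h4 := (le_abs_self _).trans (abs_En_le hF.loc X (cube 0 N) q1)
        have h5 := div_le_div_of_nonneg_right h4 hN'.le
        have h6 := neg_abs_le r
        have h7 : Av F N X σ = En F X (cube 0 N) σ / (N : ℝ) ^ d := rfl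
        rw [h7] at q3
        linarith
      have h4 : b ≤ Wf R F r N X / L + L := by
        have h5 : b ^ 2 / L ≤ Wf R F r N X / L := div_le_div_of_nonneg_right hW hL.le
        have h6 : b ≤ b ^ 2 / L + L := by
          rw [← sub_nonneg]
          have : b ^ 2 / L + L - b = ((b - L / 2) ^ 2 + 3 / 4 * L ^ 2) / L := by
            field_simp
            ring
          rw [this]
          positivity
        linarith
      linarith
    · rw [Set.indicator_of_notMem h2]
      have h3 : Zh ψ RG G m (N + R) (Av F N) X ≤ r + δ := not_lt.1 h2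
      linarith
  have h1 := integral_mono iM (iW.add iB) key
  have e2 : ∫ X, (δ + Wf R F r N X / L + B.indicator (fun _ => L) X) ∂(PX d μ) =
      δ + (2 * vm μ R F + 2 * r ^ 2) / L + L * (PX d μ).real B := by
    rw [integral_add iW iB,
      integral_add (integrable_const δ) ((Wf_int hF r N).div_const L), integral_indicator mB,
      setIntegral_const, integral_div, integral_const, Wf_mean hF r hN]
    simp only [probReal_univ, smul_eq_mul, one_mul]
    ring
  exact h1.trans (le_of_eq e2)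

/-- The deficits of a configuration at the first `J` scales. -/
noncomputable def Dfc (F : (Bond d → S) → Cfg d k → ℝ) (N : ℕ → ℕ) (r : ℝ) (J : ℕ)
    (X : Bond d → S) (σ : Cfg d k) : ℝ := ∑ j ∈ range J, max (r - Av F (N j) X σ) 0

theorem Dfc_congr (hF : IsLocal R F) (N : ℕ → ℕ) (r : ℝ) (J : ℕ) (X : Bond d → S)
    {σ τ : Cfg d k} (h : ∀ a, ∀ x ∈ cube (0 : Site d) (RJ R N J), σ a x = τ a x) :
    Dfc F N r J X σ = Dfc F N r J X τ := by
  unfold Dfc
  refine sum_congr rfl fun j hj => ?_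
  have h1 : Av F (N j) X σ = Av F (N j) X τ := by
    refine isLocal_mono (Av_local hF (N j)) (?_ : N j + R ≤ RJ R N J) X X σ τ
      (fun _ _ => rfl) h
    unfold RJ
    have := single_le_sum (f := N) (fun _ _ => Nat.zero_le _) hj
    omega
  rw [h1]

/-- The measurable bound of the deficits. -/
noncomputable def Uf (ψ : S → ℝ) (R : ℕ) (F : (Bond d → S) → Cfg d k → ℝ) (N : ℕ → ℕ) (r : ℝ)
    (J m : ℕ) (X : Bond d → S) : ℝ :=
  ∑ j ∈ range J, max (Zh ψ (RJ R N J) (GJ F N J) m (N j + R) (Av F (N j)) X - r) 0 -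
    (Zm ψ (RJ R N J) (GJ F N J) m 1 X - J * r)

theorem Uf_spec (hF : IsLocal R F) (N : ℕ → ℕ) (r : ℝ) (J m : ℕ) (X : Bond d → S) :
    ∃ σ : Cfg d k, IsConf σ ∧ AGS ψ (RJ R N J) (GJ F N J) m X σ ∧
      Dfc F N r J X σ ≤ Uf ψ R F N r J m X := by
  have hG := GJ_local hF N J
  obtain ⟨σ, h1, h2, h3⟩ := Zm_att (ψ := ψ) hG m 1 X
  refine ⟨σ, h1, h2, ?_⟩
  have h4 : En (GJ F N J) X (cube 0 1) σ = ∑ j ∈ range J, Av F (N j) X σ := by
    have h5 : cube (0 : Site d) 1 = {0} := by
      ext x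
      rw [mem_cube, mem_singleton]
      constructor
      · intro h
        funext i
        have := h i
        simp only [Pi.zero_apply, zero_add, Nat.cast_one] at this ⊢
        omega
      · rintro rfl i
        simp
    unfold En
    rw [h5, sum_singleton]
    have h6 : th (0 : Site d) X = X := by
      funext e
      unfold th
      simp
    have h7 : sh (0 : Site d) σ = σ := by
      funext a x
      unfold sh
      simp
    rw [h6, h7]
    rfl
  rw [h4] at h3
  have h5 : ∀ j ∈ range J, max (r - Av F (N j) X σ) 0 ≤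
      max (Zh ψ (RJ R N J) (GJ F N J) m (N j + R) (Av F (N j)) X - r) 0 -
        (Av F (N j) X σ - r) := by
    intro j _
    have h6 := Zh_ge (ψ := ψ) (RG := RJ R N J) (G := GJ F N J) (m := m)
      (Av_local hF (N j)) h1 h2
    have h7 := le_max_left (Zh ψ (RJ R N J) (GJ F N J) m (N j + R) (Av F (N j)) X - r) 0
    have h8 := le_max_right (Zh ψ (RJ R N J) (GJ F N J) m (N j + R) (Av F (N j)) X - r) 0
    exact max_le (by linarith) (by linarith)
  unfold Dfc Uf
  refine (sum_le_sum h5).trans ?_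
  rw [sum_sub_distrib, sum_sub_distrib, sum_const, card_range, nsmul_eq_mul]
  linarith

theorem Dfc_nonneg (N : ℕ → ℕ) (r : ℝ) (J : ℕ) (X : Bond d → S) (σ : Cfg d k) :
    0 ≤ Dfc F N r J X σ := sum_nonneg fun _ _ => le_max_right _ _

theorem Uf_int (hψ : Measurable ψ) (hF : Good μ R F) (N : ℕ → ℕ) (r : ℝ) (J m : ℕ) :
    Integrable (Uf ψ R F N r J m) (PX d μ) := by
  have hG := GJ_good hF N J
  unfold Uf
  exact (integrable_finsetSum _ fun j _ =>
    ((Zh_int hψ hG (Av_good hF (N j)) m).sub (integrable_const r)).pos_part).sub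
    (((Zm_mem hψ hG m 1).integrable (by norm_num)).sub (integrable_const _))

theorem Uf_mean (hψ : Measurable ψ) (hψ2 : MemLp ψ 2 μ) (hF : Good μ R F) {N : ℕ → ℕ}
    (hN : ∀ j, 0 < N j) {r : ℝ}
    (hr1 : ∀ t : ℝ, 0 < t → r * t ≤ gg μ ψ R F t - gg μ ψ R F 0) (J m : ℕ) :
    ∫ X, Uf ψ R F N r J m X ∂(PX d μ) ≤ ∑ j ∈ range J,
      ∫ X, max (Zh ψ (RJ R N J) (GJ F N J) m (N j + R) (Av F (N j)) X - r) 0 ∂(PX d μ) := by
  have hG := GJ_good hF N J
  have i1 : ∀ j, Integrable (fun X =>
      max (Zh ψ (RJ R N J) (GJ F N J) m (N j + R) (Av F (N j)) X - r) 0) (PX d μ) := fun j =>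
    ((Zh_int hψ hG (Av_good hF (N j)) m).sub (integrable_const r)).pos_part
  have i2 : Integrable (Zm ψ (RJ R N J) (GJ F N J) m 1) (PX d μ) :=
    (Zm_mem hψ hG m 1).integrable (by norm_num)
  have i3 : Integrable (fun X => Zm ψ (RJ R N J) (GJ F N J) m 1 X - J * r) (PX d μ) :=
    i2.sub (integrable_const _)
  unfold Uf
  rw [integral_sub (integrable_finsetSum _ fun j _ => i1 j) i3,
    integral_finsetSum _ fun j _ => i1 j, integral_sub i2 (integrable_const _), integral_const]
  simp only [probReal_univ, smul_eq_mul, one_mul]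
  have h1 := zm_ge (r := J * r) hψ hψ2 hG (fun t ht => by
    rw [gg_GJ hψ hψ2 hF hN J ht.le, gg_GJ hψ hψ2 hF hN J le_rfl, mul_zero]
    rcases Nat.eq_zero_or_pos J with rfl | hJ
    · simp
    · have hJ' : (0 : ℝ) < J := by exact_mod_cast hJ
      have := hr1 (J * t) (mul_pos hJ' ht)
      linarith) m (N := 1) one_pos
  unfold zm at h1
  simp only [Nat.cast_one, one_pow, div_one] at h1
  linarith

end Pool.Agent.Zk58.EK
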