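import Pool.Agent.Zk58.EK.Multi

set_option autoImplicit false
set_option linter.unusedSectionVars false

/-!
Ground states which are extreme at all scales of a sequence: the limit.
-/

namespace Pool.Agent.Zk58.EK

open Finset MeasureTheory ProbabilityTheory Filter

open scoped BigOperators ENNReal Topology

variable {d k : ℕ} {S : Type} [MeasurableSpace S] {μ : Measure S} [IsProbabilityMeasure μ]
  {ψ : S → ℝ} {R : ℕ} {F : (Bond d → S) → Cfg d k → ℝ}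

/-- The scales grow fast enough for the upper bounds. -/
def Fast (μ : Measure S) (ψ : S → ℝ) (F : (Bond d → S) → Cfg d k → ℝ) (r : ℝ) (N : ℕ → ℕ) :
    Prop :=
  ∀ j, 0 < N j ∧ ∃ Bad : Set (Bond d → S), (PX d μ).real Bad ≤ (1 / 4 : ℝ) ^ j ∧ ∀ X ∉ Bad,
    ∀ σ : Cfg d k, WGS (fun e => ψ (X e)) σ →
      En F X (cube 0 (N j)) σ ≤ (r + (1 / 2 : ℝ) ^ j) * (N j : ℝ) ^ d

/-- The upper deviations are rare. -/
theorem upper_small (hψ : Measurable ψ) (hF : Good μ R F) {r : ℝ} {N : ℕ → ℕ}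
    (hN : Fast μ ψ F r N) (J j : ℕ) : ∃ m0 : ℕ, ∀ m ≥ m0,
      (PX d μ).real {X | r + (1 / 2 : ℝ) ^ j <
        Zh ψ (RJ R N J) (GJ F N J) m (N j + R) (Av F (N j)) X} ≤ 2 * (1 / 4 : ℝ) ^ j := by
  have hG := GJ_good hF N J
  have hH := Av_good hF (N j)
  obtain ⟨hN0, Bad, hBad, h4⟩ := hN j
  have hN' : (0 : ℝ) < (N j : ℝ) ^ d := by positivity
  let E : ℕ → Set (Bond d → S) := fun m => {X | r + (1 / 2 : ℝ) ^ j <
        Zh ψ (RJ R N J) (GJ F N J) m (N j + R) (Av F (N j)) X}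
  have hEm : ∀ m, MeasurableSet (E m) := fun m =>
    measurableSet_lt measurable_const (Zh_meas hψ hG hH m)
  have hEanti : Antitone E := by
    intro m m' hmm X hX
    exact lt_of_lt_of_le hX (Zh_anti hG.loc hH.loc X hmm)
  have hEsub : (⋂ m, E m) ⊆ Bad := by
    intro X hX
    by_contra hcon
    rw [Set.mem_iInter] at hX
    choose σ q1 q2 q3 using fun m => Zh_att (ψ := ψ) hG.loc hH.loc m X
    obtain ⟨τ, hτ, hag⟩ := cpt d k S ψ _ _ X σ q1 q2
    obtain ⟨m, hm⟩ := (hag (cube 0 (N j + R))).exists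
    have q4 : En F X (cube 0 (N j)) τ = En F X (cube 0 (N j)) (σ m) :=
      En_congr hF.loc (fun _ _ => rfl) fun a x hx => (hm a x hx).symm
    have q5 := h4 X hcon τ hτ
    rw [q4] at q5
    have q6 : r + (1 / 2 : ℝ) ^ j <
      Zh ψ (RJ R N J) (GJ F N J) m (N j + R) (Av F (N j)) X := hX m
    have q7 := q3 m
    have q8 : Av F (N j) X (σ m) = En F X (cube 0 (N j)) (σ m) / (N j : ℝ) ^ d := rfl
    rw [q8, le_div_iff₀ hN'] at q7
    have q9 := mul_lt_mul_of_pos_right q6 hN'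
    linarith
  have hElim : Tendsto (fun m => (PX d μ) (E m)) atTop (𝓝 ((PX d μ) (⋂ m, E m))) :=
    tendsto_measure_iInter_atTop (fun m => (hEm m).nullMeasurableSet) hEanti
      ⟨0, measure_ne_top _ _⟩
  have hp : (0 : ℝ) < (1 / 4 : ℝ) ^ j := by positivity
  have hlt : (PX d μ) (⋂ m, E m) < ENNReal.ofReal (2 * (1 / 4 : ℝ) ^ j) := by
    refine lt_of_le_of_lt (measure_mono hEsub) ?_
    rw [ENNReal.lt_ofReal_iff_toReal_lt (measure_ne_top _ _)]
    change (PX d μ).real Bad < _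
    linarith
  obtain ⟨m0, hm0⟩ := eventually_atTop.1 (hElim.eventually (gt_mem_nhds hlt))
  exact ⟨m0, fun m hm => ENNReal.toReal_le_of_le_ofReal (by positivity) (hm0 m hm).le⟩

/-- The bound of the total deficit. -/
noncomputable def Th (μ : Measure S) (R : ℕ) (F : (Bond d → S) → Cfg d k → ℝ) (r : ℝ) : ℝ :=
  2 * (3 + (2 * vm μ R F + 2 * r ^ 2))

theorem Uf_small (hψ : Measurable ψ) (hψ2 : MemLp ψ 2 μ) (hF : Good μ R F) {r : ℝ}
    (hr1 : ∀ t : ℝ, 0 < t → r * t ≤ gg μ ψ R F t - gg μ ψ R F 0) {N : ℕ → ℕ}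
    (hN : Fast μ ψ F r N) (J : ℕ) : ∃ m0 : ℕ, ∀ m ≥ m0,
      ∫ X, Uf ψ R F N r J m X ∂(PX d μ) ≤ Th μ R F r := by
  have hG := GJ_good hF N J
  have hv := vm_nonneg (μ := μ) R F
  choose m0 hm0 using upper_small hψ hF hN J
  refine ⟨∑ j ∈ range J, m0 j, fun m hm => ?_⟩
  refine (Uf_mean hψ hψ2 hF (fun j => (hN j).1) hr1 J m).trans ?_
  have h1 : ∀ j ∈ range J,
      ∫ X, max (Zh ψ (RJ R N J) (GJ F N J) m (N j + R) (Av F (N j)) X - r) 0 ∂(PX d μ) ≤
        (3 + (2 * vm μ R F + 2 * r ^ 2)) * (1 / 2 : ℝ) ^ j := by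
    intro j hj
    have h2 := Zh_upper (ψ := ψ) (r := r) hψ hG hF m (hN j).1
      (show (0 : ℝ) < (1 / 2 : ℝ) ^ j by positivity) (show (0 : ℝ) < (2 : ℝ) ^ j by positivity)
    have h3 : m0 j ≤ m := (single_le_sum (f := m0) (fun _ _ => Nat.zero_le _) hj).trans hm
    have h4 := hm0 j m h3
    have h5 : (2 : ℝ) ^ j * (2 * (1 / 4 : ℝ) ^ j) = 2 * (1 / 2 : ℝ) ^ j := by
      have : (1 / 4 : ℝ) = 1 / 2 * (1 / 2) := by norm_num
      rw [this, mul_pow]
      have h6 : (2 : ℝ) ^ j * (1 / 2 : ℝ) ^ j = 1 := by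
        rw [← mul_pow]
        norm_num
      calc (2 : ℝ) ^ j * (2 * ((1 / 2 : ℝ) ^ j * (1 / 2 : ℝ) ^ j)) =
          2 * ((2 : ℝ) ^ j * (1 / 2 : ℝ) ^ j) * (1 / 2 : ℝ) ^ j := by ring
        _ = _ := by rw [h6]; ring
    have h7 := mul_le_mul_of_nonneg_left h4 (show (0 : ℝ) ≤ (2 : ℝ) ^ j by positivity)
    have h8 : (2 * vm μ R F + 2 * r ^ 2) / (2 : ℝ) ^ j =
        (2 * vm μ R F + 2 * r ^ 2) * (1 / 2 : ℝ) ^ j := by
      rw [one_div, inv_pow]
      rfl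
    rw [h8] at h2
    linarith
  refine (sum_le_sum h1).trans ?_
  rw [← mul_sum]
  have h2 : ∑ j ∈ range J, (1 / 2 : ℝ) ^ j ≤ 2 := by
    have := geom_sum_eq (show (1 / 2 : ℝ) ≠ 1 by norm_num) J
    rw [this]
    have h3 : (0 : ℝ) ≤ (1 / 2 : ℝ) ^ J := by positivity
    rw [div_le_iff_of_neg (by norm_num)]
    linarith
  have h3 : (0 : ℝ) ≤ 3 + (2 * vm μ R F + 2 * r ^ 2) := by positivity
  unfold Th
  nlinarith

/-- For finitely many scales. -/
theorem finite_scales (hψ : Measurable ψ) (hψ2 : MemLp ψ 2 μ) (hF : Good μ R F) {r : ℝ}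
    (hr1 : ∀ t : ℝ, 0 < t → r * t ≤ gg μ ψ R F t - gg μ ψ R F 0) {N : ℕ → ℕ}
    (hN : Fast μ ψ F r N) (J : ℕ) {K : ℝ} (hK : 0 < K) :
    (PX d μ) {X | ¬ ∃ τ : Cfg d k, WGS (fun e => ψ (X e)) τ ∧ Dfc F N r J X τ ≤ K} ≤
      ENNReal.ofReal (Th μ R F r / K) := by
  have hG := GJ_good hF N J
  have hTh : 0 ≤ Th μ R F r := by
    have hv := vm_nonneg (μ := μ) R F
    unfold Th
    positivity
  obtain ⟨m1, hm1⟩ := Uf_small hψ hψ2 hF hr1 hN J
  let V : ℕ → Set (Bond d → S) := fun m0 => {X | ∀ m ≥ m0, K ≤ Uf ψ R F N r J m X}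
  have hV : Monotone V := fun m0 m0' h X hX m hm => hX m (h.trans hm)
  have hU0 : ∀ m X, 0 ≤ Uf ψ R F N r J m X := by
    intro m X
    obtain ⟨σ, -, -, h⟩ := Uf_spec (ψ := ψ) hF.loc N r J m X
    exact (Dfc_nonneg N r J X σ).trans h
  have hV1 : ∀ m0, (PX d μ) (V m0) ≤ ENNReal.ofReal (Th μ R F r / K) := by
    intro m0
    have h1 := mul_meas_ge_le_integral_of_nonneg (μ := PX d μ)
      (f := Uf ψ R F N r J (max m0 m1)) (Eventually.of_forall (hU0 _))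
      (Uf_int hψ hF N r J _) K
    have h2 := hm1 (max m0 m1) (le_max_right _ _)
    have h3 : (PX d μ).real {X | K ≤ Uf ψ R F N r J (max m0 m1) X} ≤ Th μ R F r / K := by
      rw [le_div_iff₀ hK]
      linarith
    have h4 : V m0 ⊆ {X | K ≤ Uf ψ R F N r J (max m0 m1) X} := fun X hX =>
      hX _ (le_max_left _ _)
    refine (measure_mono h4).trans ?_
    rw [← ENNReal.ofReal_toReal (measure_ne_top (PX d μ) _)]
    exact ENNReal.ofReal_le_ofReal h3
  have hsub : {X | ¬ ∃ τ : Cfg d k, WGS (fun e => ψ (X e)) τ ∧ Dfc F N r J X τ ≤ K} ⊆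
      ⋃ m0, V m0 := by
    intro X hX
    by_contra hcon
    apply hX
    rw [Set.mem_iUnion, not_exists] at hcon
    have h1 : ∀ m0 : ℕ, ∃ σ : Cfg d k, IsConf σ ∧ AGS ψ (RJ R N J) (GJ F N J) m0 X σ ∧
        Dfc F N r J X σ ≤ K := by
      intro m0
      have h2 : ¬ ∀ m ≥ m0, K ≤ Uf ψ R F N r J m X := hcon m0
      simp only [not_forall, not_le] at h2
      obtain ⟨m, hm, h3⟩ := h2
      obtain ⟨σ, q1, q2, q3⟩ := Uf_spec (ψ := ψ) hF.loc N r J m X
      exact ⟨σ, q1, AGS_mono hm q2, q3.trans h3.le⟩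
    choose σ q1 q2 q3 using h1
    obtain ⟨τ, hτ, hag⟩ := cpt d k S ψ _ _ X σ q1 q2
    obtain ⟨m, hm⟩ := (hag (cube 0 (RJ R N J))).exists
    refine ⟨τ, hτ, ?_⟩
    rw [← Dfc_congr hF.loc N r J X hm]
    exact q3 m
  refine (measure_mono hsub).trans ?_
  rw [hV.measure_iUnion]
  exact iSup_le hV1

/-- For all scales. -/
theorem all_scales (hψ : Measurable ψ) (hψ2 : MemLp ψ 2 μ) (hF : Good μ R F) {r : ℝ}
    (hr1 : ∀ t : ℝ, 0 < t → r * t ≤ gg μ ψ R F t - gg μ ψ R F 0) {N : ℕ → ℕ}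
    (hN : Fast μ ψ F r N) :
    ∀ᵐ X ∂(PX d μ), ∃ τ : Cfg d k, WGS (fun e => ψ (X e)) τ ∧
      ∃ K : ℝ, ∀ J, Dfc F N r J X τ ≤ K := by
  have hTh : 0 ≤ Th μ R F r := by
    have hv := vm_nonneg (μ := μ) R F
    unfold Th
    positivity
  have key : ∀ K : ℝ, 0 < K → (PX d μ) {X | ¬ ∃ τ : Cfg d k, WGS (fun e => ψ (X e)) τ ∧
      ∃ K : ℝ, ∀ J, Dfc F N r J X τ ≤ K} ≤ ENNReal.ofReal (Th μ R F r / K) := by
    intro K hK
    let D : ℕ → Set (Bond d → S) := fun J =>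
      {X | ¬ ∃ τ : Cfg d k, WGS (fun e => ψ (X e)) τ ∧ Dfc F N r J X τ ≤ K}
    have hmono : ∀ (X : Bond d → S) (σ : Cfg d k), Monotone fun J => Dfc F N r J X σ := by
      intro X σ J J' h
      exact sum_le_sum_of_subset_of_nonneg (range_subset_range.2 h) fun _ _ _ => le_max_right _ _
    have hD : Monotone D := by
      intro J J' h X hX hcon
      apply hX
      obtain ⟨τ, h1, h2⟩ := hcon
      exact ⟨τ, h1, (hmono X τ h).trans h2⟩
    have hsub : {X | ¬ ∃ τ : Cfg d k, WGS (fun e => ψ (X e)) τ ∧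
      ∃ K : ℝ, ∀ J, Dfc F N r J X τ ≤ K} ⊆ ⋃ J, D J := by
      intro X hX
      by_contra hcon
      apply hX
      rw [Set.mem_iUnion, not_exists] at hcon
      have h1 : ∀ J, ∃ τ : Cfg d k, WGS (fun e => ψ (X e)) τ ∧ Dfc F N r J X τ ≤ K :=
        fun J => not_not.1 (hcon J)
      choose σ q1 q2 using h1
      have q3 : ∀ m, AGS ψ R F m X (σ m) := by
        intro m a A _
        refine le_trans ?_ ((q1 m).2 a A)
        have hQ : 0 ≤ QA R F X A := sum_nonneg fun y _ => Ab_nonneg _ _ _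
        have : (0 : ℝ) ≤ 1 / ((m : ℝ) + 1) := by positivity
        nlinarith
      obtain ⟨τ, hτ, hag⟩ := cpt d k S ψ R F X σ (fun m => (q1 m).1) q3
      refine ⟨τ, hτ, K, fun J => ?_⟩
      obtain ⟨m, hm, hmJ⟩ := ((hag (cube 0 (RJ R N J))).and_eventually
        (eventually_ge_atTop J)).exists
      rw [← Dfc_congr hF.loc N r J X hm]
      exact (hmono X (σ m) hmJ).trans (q2 m)
    refine (measure_mono hsub).trans ?_
    rw [hD.measure_iUnion]
    exact iSup_le fun J => finite_scales hψ hψ2 hF hr1 hN J hK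
  rw [ae_iff]
  have hlim : Tendsto (fun n : ℕ => ENNReal.ofReal (Th μ R F r / ((n : ℝ) + 1))) atTop
      (𝓝 0) := by
    have h1 : Tendsto (fun n : ℕ => Th μ R F r / ((n : ℝ) + 1)) atTop (𝓝 0) :=
      Tendsto.div_atTop tendsto_const_nhds
        (tendsto_atTop_add_const_right _ _ tendsto_natCast_atTop_atTop)
    have h2 := ENNReal.tendsto_ofReal h1
    rwa [ENNReal.ofReal_zero] at h2
  exact le_antisymm (ge_of_tendsto hlim (Eventually.of_forall fun n =>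
    key _ (by positivity))) zero_le

/-- The deficits tend to zero. -/
theorem dfc_lim {r : ℝ} {N : ℕ → ℕ} {X : Bond d → S} {τ : Cfg d k} {K : ℝ}
    (h : ∀ J, Dfc F N r J X τ ≤ K) :
    Tendsto (fun j => max (r - Av F (N j) X τ) 0) atTop (𝓝 0) := by
  have : Summable fun j => max (r - Av F (N j) X τ) 0 :=
    summable_of_sum_range_le (fun _ => le_max_right _ _) h
  exact this.tendsto_atTop_zero

end Pool.Agent.Zk58.EK
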