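import Pool.Agent.Zk58.EK.Main

set_option autoImplicit false
set_option linter.unusedSectionVars false

/-!
Pairs of ground states; one-bond averages.
-/

namespace Pool.Agent.Zk58.EK

open Finset MeasureTheory ProbabilityTheory Filter

open scoped BigOperators ENNReal Topology

variable {d k : ℕ} {S : Type}

theorem Fov_local : IsLocal 2 (Fov d S) := by
  intro X X' σ σ' _ h2
  unfold Fov
  refine sum_congr rfl fun i _ => ?_
  rw [h2 0 0 zero_mem_two, h2 0 _ (tip_mem_two i), h2 1 0 zero_mem_two, h2 1 _ (tip_mem_two i)]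

theorem Fov_good [MeasurableSpace S] {μ : Measure S} [IsProbabilityMeasure μ] :
    Good μ 2 (Fov d S) where
  loc := Fov_local
  meas := fun σ _ => by
    unfold Fov
    exact measurable_const
  mem := fun σ _ => by
    unfold Fov
    exact memLp_const _

theorem prod_cases {a b c e : ℝ} (ha : a = 1 ∨ a = -1) (hb : b = 1 ∨ b = -1) (hc : c = 1 ∨ c = -1)
    (he : e = 1 ∨ e = -1) : a * b * (c * e) = 1 - 2 * (if a * b ≠ c * e then (1 : ℝ) else 0) := by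
  rcases ha with h1 | h1 <;> rcases hb with h2 | h2 <;> rcases hc with h3 | h3 <;>
    rcases he with h4 | h4 <;> rw [h1, h2, h3, h4] <;> norm_num

theorem En_Fov (X : Bond d → S) (c : Site d) (n : ℕ) {σ : Cfg d 2} (hσ : IsConf σ) :
    En (Fov d S) X (cube c n) σ = d * (n : ℝ) ^ d - 2 * (dif c n (σ 0) (σ 1) : ℝ) := by
  classical
  have h1 : En (Fov d S) X (cube c n) σ =
      ∑ e ∈ cube c n ×ˢ (Finset.univ : Finset (Fin d)),
        (σ 0 e.1 * σ 0 (tip e)) * (σ 1 e.1 * σ 1 (tip e)) := by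
    unfold En Fov sh
    rw [sum_product]
    refine sum_congr rfl fun x _ => sum_congr rfl fun i _ => ?_
    have h := tip_shift ((0 : Site d), i) x
    simp only [zero_add] at h ⊢
    rw [h]
  rw [h1, sum_congr rfl fun e _ => prod_cases (hσ 0 e.1) (hσ 0 (tip e)) (hσ 1 e.1)
    (hσ 1 (tip e)), sum_sub_distrib, ← mul_sum, sum_boole, sum_const, card_product, card_cube,
    card_univ, Fintype.card_fin, nsmul_eq_mul]
  unfold dif
  push_cast
  ring

theorem dif_self (c : Site d) (n : ℕ) (ρ : Site d → ℝ) : dif c n ρ ρ = 0 := by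
  classical
  unfold dif
  simp

theorem dif_neg (c : Site d) (n : ℕ) (ρ : Site d → ℝ) : dif c n ρ (-ρ) = 0 := by
  classical
  unfold dif
  simp

/-- Nearly optimal pairs. -/
theorem near_pair {ψ : S → ℝ} {δ : ℝ} {X : Bond d → S} {c : Site d} {n : ℕ}
    {ρ τ : Site d → ℝ} (hρ : NearOpt ψ (δ / 2) X c n fun _ : Fin 1 => ρ)
    (hτ : NearOpt ψ (δ / 2) X c n fun _ : Fin 1 => τ) : NearOpt ψ δ X c n ![ρ, τ] := by
  have hconf : IsConf ![ρ, τ] := by
    intro a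
    fin_cases a
    · exact hρ.1 0
    · exact hτ.1 0
  refine ⟨hconf, fun σ hσ => ?_⟩
  have h1 := hρ.2 (fun _ : Fin 1 => σ 0) (fun _ x => hσ 0 x)
  have h2 := hτ.2 (fun _ : Fin 1 => σ 1) (fun _ x => hσ 1 x)
  rw [En_F0, En_F0] at h1 h2 ⊢
  simp only [Fin.sum_univ_two, Finset.univ_unique, sum_singleton, Matrix.cons_val_zero,
    Matrix.cons_val_one] at h1 h2 ⊢
  linarith

variable [MeasurableSpace S] {μ : Measure S} [IsProbabilityMeasure μ] {ψ : S → ℝ}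

theorem as_box (hd : 2 ≤ d) (hψ : Measurable ψ) (hψ2 : MemLp ψ 2 μ) {δ : ℝ} (hδ : 0 < δ)
    (c : ℕ → Site d) : ∀ᵐ X ∂(PX d μ), ∀ᶠ n : ℕ in atTop, ∀ σ : Cfg d k,
      BoxGS (fun e => ψ (X e)) (c n) n σ → NearOpt ψ δ X (c n) n σ := by
  obtain ⟨C, hC, n0, h⟩ := Tn_tail (d := d) hψ hψ2 (show 0 < δ / (4 * ((k : ℝ) + 1)) by positivity)
  have h2 := bc hd (P := PX d μ) (Bad := fun n =>
    {X | δ / (4 * ((k : ℝ) + 1)) * (n : ℝ) ^ d ≤ Tn ψ X (c n) n}) (fun n hn => h n hn (c n))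
  filter_upwards [h2] with X hX
  filter_upwards [hX] with n hn σ hσ
  refine ⟨hσ.1, fun τ hτ => (En_near ψ X (c n) n hσ hτ).trans ?_⟩
  simp only [Set.mem_ofPred_eq, not_le] at hn
  have hk : (0 : ℝ) ≤ k := by positivity
  have b1 : (k : ℝ) * (4 * Tn ψ X (c n) n) ≤ δ * (n : ℝ) ^ d := by
    have b2 : (k : ℝ) * (4 * Tn ψ X (c n) n) ≤
        k * (4 * (δ / (4 * (k + 1)) * (n : ℝ) ^ d)) :=
      mul_le_mul_of_nonneg_left (by linarith) hk
    refine b2.trans ?_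
    have b3 : (k : ℝ) * (4 * (δ / (4 * (k + 1)) * (n : ℝ) ^ d)) =
        (k / (k + 1)) * (δ * (n : ℝ) ^ d) := by
      field_simp
    rw [b3]
    have b4 : (k : ℝ) / (k + 1) ≤ 1 := by
      rw [div_le_one (by positivity)]
      linarith
    have b5 : 0 ≤ δ * (n : ℝ) ^ d := by positivity
    nlinarith
  unfold Tn at b1
  linarith

/-- Macroscopic uniqueness of the ground states implies the asymptotic essential uniqueness of
nearly optimal configurations. -/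
theorem aeu (hd : 2 ≤ d) (hψ : Measurable ψ) (hψ2 : MemLp ψ 2 μ)
    (hat : ∀ t : ℝ, μ {s | ψ s = t} = 0) (c : ℕ → Site d)
    (hMU : ∀ᵐ X ∂(PX d μ), ∀ ε : ℝ, 0 < ε → ∀ᶠ n : ℕ in atTop, ∀ ρ τ : Site d → ℝ,
      IsGroundState (fun e => ψ (X e)) ρ → IsGroundState (fun e => ψ (X e)) τ →
        (dif (c n) n ρ τ : ℝ) ≤ ε * (n : ℝ) ^ d) (c' : ℕ → Site d) {ε : ℝ} (hε : 0 < ε) :
    ∃ δ : ℝ, 0 < δ ∧ ∀ᵐ X ∂(PX d μ), ∀ᶠ n : ℕ in atTop, ∀ ρ τ : Site d → ℝ,
      NearOpt ψ δ X (c' n) n (fun _ : Fin 1 => ρ) → NearOpt ψ δ X (c' n) n (fun _ : Fin 1 => τ) →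
        (dif (c' n) n ρ τ : ℝ) ≤ ε * (n : ℝ) ^ d := by
  have hG : Good μ 2 (Fov d S) := Fov_good
  obtain ⟨-, h0⟩ := cvx (gg μ ψ 2 (Fov d S)) (gg_convex hψ hψ2 hG)
  obtain ⟨l, r, hle, hR, hL, hD, hr1, hl1, hlr⟩ := h0 0
  have hl : (d : ℝ) ≤ l := by
    by_contra hcon
    rw [not_le] at hcon
    have hη : (0 : ℝ) < (d - l) / 4 := by linarith
    have h1 := freq_of_tendsto (prob_att hd hψ hψ2 hat hG hr1 hl1 hlr c hη)
    obtain ⟨X, hX1, hX2⟩ := (h1.and hMU).exists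
    obtain ⟨n, ⟨hn1, hn2⟩, hn3⟩ := ((hX1.and_eventually (hX2 _ hη)).and_eventually
      (eventually_gt_atTop 0)).exists
    simp only [Set.mem_ofPred_eq, not_not] at hn1
    obtain ⟨σ, τ, -, hτ, -, h2⟩ := hn1
    have h3 := hn2 (τ 0) (τ 1) (hτ 0) (hτ 1)
    rw [En_Fov X (c n) n (GSs_WGS hτ).1] at h2
    have h4 : (0 : ℝ) < (n : ℝ) ^ d := by positivity
    nlinarith
  obtain ⟨δ, hδ, h⟩ := as_near hd hψ hψ2 hG hlr hε
  refine ⟨δ / 2, by positivity, ?_⟩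
  filter_upwards [h c'] with X hX
  filter_upwards [hX, eventually_gt_atTop 0] with n hn hn0 ρ τ hρ hτ
  have h1 := (hn ![ρ, τ]).2 (near_pair hρ hτ)
  rw [En_Fov X (c' n) n (near_pair hρ hτ).1] at h1
  simp only [Matrix.cons_val_zero, Matrix.cons_val_one] at h1
  have h4 : (0 : ℝ) < (n : ℝ) ^ d := by positivity
  nlinarith [h1.1]

/-- The weighted one-bond average. -/
noncomputable def Fb (d : ℕ) (φ : S → ℝ) (X : Bond d → S) (σ : Cfg d 1) : ℝ :=
  ∑ i, φ (X (0, i)) * (σ 0 0 * σ 0 (tip ((0, i) : Bond d)))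

theorem Fb_good {φ : S → ℝ} (hφ : Measurable φ) (hφ2 : MemLp φ 2 μ) : Good μ 2 (Fb d φ) where
  loc := by
    intro X X' σ σ' h1 h2
    unfold Fb
    refine sum_congr rfl fun i _ => ?_
    rw [h1 (0, i) (mem_bonds.2 ⟨zero_mem_two, tip_mem_two i⟩), h2 0 0 zero_mem_two,
      h2 0 _ (tip_mem_two i)]
  meas := by
    intro σ _
    unfold Fb
    exact Finset.measurable_fun_sum _ fun i _ =>
      (hφ.comp (measurable_pi_apply _)).mul_const _
  mem := by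
    intro σ _
    unfold Fb
    exact memLp_finsetSum _ fun i _ => (ev_mem hφ2 _).mul_const _

theorem gg_move (φ : S → ℝ) (s t : ℝ) :
    gg μ (fun x => ψ x + t * φ x) 2 (Fb d φ) s = gg μ ψ 2 (Fb d φ) (t + s) := by
  unfold gg
  congr 1
  funext X σ
  unfold FT F0 Fb
  simp only [Finset.univ_unique, sum_singleton, Fin.default_eq_zero]
  rw [mul_sum, mul_sum, ← sum_add_distrib, ← sum_add_distrib]
  refine sum_congr rfl fun i _ => ?_
  ring

/-- For all but countably many parameters all ground states have the same one-bond averages. -/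
theorem generic (hd : 2 ≤ d) (hψ : Measurable ψ) (hψ2 : MemLp ψ 2 μ) {φ : S → ℝ}
    (hφ : Measurable φ) (hφ2 : MemLp φ 2 μ) :
    ∃ T : Set ℝ, T.Countable ∧ ∀ t ∉ T, ∃ q : ℝ, ∀ c : ℕ → Site d, ∀ ε : ℝ, 0 < ε →
      ∀ᵐ X ∂(PX d μ), ∀ᶠ n : ℕ in atTop, ∀ σ : Cfg d 1,
        BoxGS (fun e => ψ (X e) + t * φ (X e)) (c n) n σ →
          |En (Fb d φ) X (cube (c n) n) σ - q * (n : ℝ) ^ d| ≤ ε * (n : ℝ) ^ d := by
  have hG : Good (d := d) μ 2 (Fb d φ) := Fb_good hφ hφ2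
  obtain ⟨hT, h0⟩ := cvx (gg μ ψ 2 (Fb d φ)) (gg_convex hψ hψ2 hG)
  refine ⟨_, hT, fun t ht => ?_⟩
  simp only [Set.mem_ofPred_eq, not_not] at ht
  obtain ⟨l, r, hle, hR, hL, hD, hr1, hl1, hlr⟩ := h0 t
  have hlr2 : l = r := hD.1 ht
  refine ⟨r, fun c ε hε => ?_⟩
  have hψt : Measurable fun x => ψ x + t * φ x := hψ.add (hφ.const_mul t)
  have hψt2 : MemLp (fun x => ψ x + t * φ x) 2 μ := hψ2.add (hφ2.const_mul t)
  obtain ⟨δ, hδ, h⟩ := as_near (ψ := fun x => ψ x + t * φ x) (l := l) (r := r) hd hψt hψt2 hG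
    (fun ε hε => by
      obtain ⟨t0, ht0, h⟩ := hlr ε hε
      refine ⟨t0, ht0, fun s hs hs2 => ?_⟩
      have h1 := h s hs hs2
      rw [gg_move, gg_move, gg_move]
      simpa [sub_eq_add_neg] using h1) hε
  filter_upwards [h c] with X hX
  filter_upwards [hX] with n hn σ hσ
  have h1 := (hn σ).2 ((hn σ).1 hσ)
  rw [hlr2] at h1
  rw [abs_le]
  constructor <;> linarith [h1.1, h1.2]

end Pool.Agent.Zk58.EK
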