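import Pool.Agent.Zk58.EK.Final

set_option autoImplicit false
set_option linter.unusedSectionVars false

/-!
Ground states of perturbed couplings are nearly optimal.
-/

namespace Pool.Agent.Zk58.EK

open Finset MeasureTheory ProbabilityTheory Filter

open scoped BigOperators ENNReal Topology

variable {d k : ℕ} {S : Type}

theorem w_diff (J J' : Bond d → ℝ) (D : Finset (Site d)) {ρ : Site d → ℝ}
    (hρ : ∀ x, ρ x = 1 ∨ ρ x = -1) :
    |w J D ρ - w J' D ρ| ≤ ∑ e ∈ D ×ˢ (Finset.univ : Finset (Fin d)), |J' e - J e| := by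
  unfold w
  rw [← sum_sub_distrib]
  refine (abs_sum_le_sum_abs _ _).trans (sum_le_sum fun e _ => ?_)
  rw [← sub_mul, abs_mul, abs_one (hρ _) (hρ _), mul_one, abs_sub_comm]

theorem outer_cube {c : Site d} {n : ℕ} :
    cube c n ×ˢ (Finset.univ : Finset (Fin d)) ⊆
      cube (fun i => c i - 1) (n + 1) ×ˢ (Finset.univ : Finset (Fin d)) := by
  intro e he
  rw [mem_product, mem_cube] at he ⊢
  refine ⟨fun i => ?_, he.2⟩
  have := he.1 i
  push_cast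
  constructor <;> linarith [this.1, this.2]

theorem outer_Ex {c : Site d} {n : ℕ} :
    Ex c n ×ˢ (Finset.univ : Finset (Fin d)) ⊆
      cube (fun i => c i - 1) (n + 1) ×ˢ (Finset.univ : Finset (Fin d)) := by
  intro e he
  rw [mem_product] at he ⊢
  refine ⟨?_, he.2⟩
  have h1 := he.1
  unfold Ex at h1
  exact Finset.sdiff_subset h1

/-- One replica. -/
theorem w_pert {J J' : Bond d → ℝ} {c : Site d} {n : ℕ} {ρ τ : Site d → ℝ}
    (hρ : CubeGS J' c n ρ) (hτ : ∀ x, τ x = 1 ∨ τ x = -1) {δ : ℝ}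
    (h : ∑ e ∈ cube (fun i => c i - 1) (n + 1) ×ˢ (Finset.univ : Finset (Fin d)),
      |J' e - J e| ≤ δ) :
    w J (cube c n) τ ≤ w J (cube c n) ρ + (6 * δ +
      4 * ∑ e ∈ Ex c n ×ˢ (Finset.univ : Finset (Fin d)), |J e|) := by
  have h1 := w_near J' c n hρ.1 hτ hρ.2
  have h2 := abs_le.1 (w_diff J J' (cube c n) hρ.1)
  have h3 := abs_le.1 (w_diff J J' (cube c n) hτ)
  have h4 : ∑ e ∈ cube c n ×ˢ (Finset.univ : Finset (Fin d)), |J' e - J e| ≤ δ :=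
    (sum_le_sum_of_subset_of_nonneg outer_cube fun _ _ _ => abs_nonneg _).trans h
  have h5 : ∑ e ∈ Ex c n ×ˢ (Finset.univ : Finset (Fin d)), |J' e - J e| ≤ δ :=
    (sum_le_sum_of_subset_of_nonneg outer_Ex fun _ _ _ => abs_nonneg _).trans h
  have h6 : ∑ e ∈ Ex c n ×ˢ (Finset.univ : Finset (Fin d)), |J' e| ≤
      ∑ e ∈ Ex c n ×ˢ (Finset.univ : Finset (Fin d)), |J' e - J e| +
        ∑ e ∈ Ex c n ×ˢ (Finset.univ : Finset (Fin d)), |J e| := by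
    rw [← sum_add_distrib]
    refine sum_le_sum fun e _ => ?_
    have := abs_add_le (J' e - J e) (J e)
    rwa [sub_add_cancel] at this
  linarith [h2.1, h2.2, h3.1, h3.2]

/-- `k` replicas. -/
theorem En_pert {ψ : S → ℝ} {X : Bond d → S} {J' : Fin k → Bond d → ℝ} {c : Site d} {n : ℕ}
    {σ τ : Cfg d k} (hσ : ∀ a, CubeGS (J' a) c n (σ a)) (hτ : IsConf τ) {δ : ℝ}
    (h : ∀ a, ∑ e ∈ cube (fun i => c i - 1) (n + 1) ×ˢ (Finset.univ : Finset (Fin d)),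
      |J' a e - ψ (X e)| ≤ δ) :
    En (F0 ψ) X (cube c n) τ ≤ En (F0 ψ) X (cube c n) σ + k * (6 * δ +
      4 * ∑ e ∈ Ex c n ×ˢ (Finset.univ : Finset (Fin d)), |ψ (X e)|) := by
  rw [En_F0, En_F0]
  calc ∑ a, w (fun e => ψ (X e)) (cube c n) (τ a)
      ≤ ∑ a, (w (fun e => ψ (X e)) (cube c n) (σ a) + (6 * δ +
        4 * ∑ e ∈ Ex c n ×ˢ (Finset.univ : Finset (Fin d)), |ψ (X e)|)) :=
        sum_le_sum fun a _ => w_pert (J := fun e => ψ (X e)) (hσ a) (hτ a) (h a)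
    _ = _ := by
        rw [sum_add_distrib, sum_const, card_univ, Fintype.card_fin, nsmul_eq_mul]

variable [MeasurableSpace S] {μ : Measure S} [IsProbabilityMeasure μ]
  {ψ : S → ℝ} {R : ℕ} {F : (Bond d → S) → Cfg d k → ℝ}

/-- The bounds for the ground states of perturbed couplings. -/
theorem as_pert (hd : 2 ≤ d) (hψ : Measurable ψ) (hψ2 : MemLp ψ 2 μ) (hF : Good μ R F)
    {l r : ℝ}
    (hlr : ∀ ε : ℝ, 0 < ε → ∃ t0 : ℝ, 0 < t0 ∧ ∀ s : ℝ, 0 < s → s ≤ t0 →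
      gg μ ψ R F (0 + s) - gg μ ψ R F 0 ≤ (r + ε) * s ∧
        (l - ε) * s ≤ gg μ ψ R F 0 - gg μ ψ R F (0 - s)) {η : ℝ} (hη : 0 < η) :
    ∃ δ : ℝ, 0 < δ ∧ ∀ c : ℕ → Site d, ∀ᵐ X ∂(PX d μ), ∀ᶠ n : ℕ in atTop,
      ∀ (J' : Fin k → Bond d → ℝ) (σ : Cfg d k), (∀ a, CubeGS (J' a) (c n) n (σ a)) →
        (∀ a, ∑ e ∈ cube (fun i => c n i - 1) (n + 1) ×ˢ (Finset.univ : Finset (Fin d)),
          |J' a e - ψ (X e)| ≤ δ * (n : ℝ) ^ d) →
        (l - η) * (n : ℝ) ^ d ≤ En F X (cube (c n) n) σ ∧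
          En F X (cube (c n) n) σ ≤ (r + η) * (n : ℝ) ^ d := by
  obtain ⟨δ, hδ, h⟩ := as_near_at (t := 0) hd hψ hψ2 hF hlr hη
  have hk : (0 : ℝ) ≤ k := by positivity
  refine ⟨δ / (12 * ((k : ℝ) + 1)), by positivity, fun c => ?_⟩
  obtain ⟨C, hC, n0, h1⟩ := Tn_tail (d := d) hψ hψ2 (show 0 < δ / (8 * ((k : ℝ) + 1)) by positivity)
  have h2 := bc hd (P := PX d μ) (Bad := fun n =>
    {X | δ / (8 * ((k : ℝ) + 1)) * (n : ℝ) ^ d ≤ Tn ψ X (c n) n}) (fun n hn => h1 n hn (c n))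
  filter_upwards [h c, h2] with X hX hX2
  filter_upwards [hX, hX2] with n hn hn2 J' σ hσ hJ
  apply hn σ
  refine ⟨fun a => (hσ a).1, fun τ hτ => ?_⟩
  rw [zero_mul, zero_mul, add_zero, add_zero]
  refine (En_pert (ψ := ψ) hσ hτ hJ).trans ?_
  simp only [not_le] at hn2
  unfold Tn at hn2
  have b1 : (k : ℝ) * (6 * (δ / (12 * ((k : ℝ) + 1)) * (n : ℝ) ^ d) +
      4 * ∑ e ∈ Ex (c n) n ×ˢ (Finset.univ : Finset (Fin d)), |ψ (X e)|) ≤
      k * (6 * (δ / (12 * ((k : ℝ) + 1)) * (n : ℝ) ^ d) +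
        4 * (δ / (8 * ((k : ℝ) + 1)) * (n : ℝ) ^ d)) :=
    mul_le_mul_of_nonneg_left (by linarith) hk
  have b3 : (k : ℝ) * (6 * (δ / (12 * ((k : ℝ) + 1)) * (n : ℝ) ^ d) +
        4 * (δ / (8 * ((k : ℝ) + 1)) * (n : ℝ) ^ d)) =
      (k / (k + 1)) * (δ * (n : ℝ) ^ d) := by
    field_simp
    ring
  have b4 : (k : ℝ) / (k + 1) ≤ 1 := by
    rw [div_le_one (by positivity)]
    linarith
  have b5 : 0 ≤ δ * (n : ℝ) ^ d := by positivity
  nlinarith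

end Pool.Agent.Zk58.EK
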