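import Pool.Agent.Zk58.EK.Loc

set_option autoImplicit false
set_option linter.unusedSectionVars false

/-!
Local functions of couplings and spins: expectation, variance.
-/

namespace Pool.Agent.Zk58.EK

open Finset MeasureTheory ProbabilityTheory Filter

open scoped BigOperators ENNReal Topology

variable {d k : ℕ} {S : Type} [MeasurableSpace S]

instance (μ : Measure S) [IsProbabilityMeasure μ] : IsProbabilityMeasure (PX d μ) := by
  unfold PX
  infer_instance

theorem th_meas (x : Site d) : Measurable (th (S := S) x) :=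
  measurable_pi_lambda _ fun e => measurable_pi_apply (e.1 + x, e.2)

theorem th_map (μ : Measure S) [IsProbabilityMeasure μ] (x : Site d) :
    (PX d μ).map (th x) = PX d μ := by
  unfold PX
  have hinj : Function.Injective fun e : Bond d => ((e.1 + x, e.2) : Bond d) := by
    intro e e' h
    simp only [Prod.mk.injEq, add_left_inj] at h
    exact Prod.ext h.1 h.2
  exact Measure.map_infinitePi_infinitePi_of_inj (P := fun _ : Bond d => μ) hinj

theorem th_mp (μ : Measure S) [IsProbabilityMeasure μ] (x : Site d) :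
    MeasurePreserving (th x) (PX d μ) (PX d μ) := ⟨th_meas x, th_map μ x⟩

section

variable {μ : Measure S} [IsProbabilityMeasure μ] {R : ℕ} {F : (Bond d → S) → Cfg d k → ℝ}

theorem Ab_meas (hF : Good μ R F) : Measurable (Ab R F) := by
  have : Ab R F = ((Finset.univ : Finset (Fin k)) ×ˢ cube (0 : Site d) R).powerset.sup' ⟨∅, by simp⟩
      (fun A X => |F X (spk A)|) := by
    funext X
    exact (Finset.sup'_apply (⟨∅, by simp⟩ : ((Finset.univ : Finset (Fin k)) ×ˢ cube (0 : Site d) R).powerset.Nonempty)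
      (fun A X => |F X (spk A)|) X).symm
  rw [this]
  exact Finset.measurable_sup' _ fun A _ => (hF.meas _ (conf_sp A)).abs

theorem Ab_mem (hF : Good μ R F) : MemLp (Ab R F) 2 (PX d μ) := by
  have h1 : MemLp (fun X => ∑ A ∈ ((Finset.univ : Finset (Fin k)) ×ˢ cube (0 : Site d) R).powerset, |F X (spk A)|) 2 (PX d μ) :=
    memLp_finsetSum _ fun A _ => (hF.mem _ (conf_sp A)).abs
  refine h1.mono (Ab_meas hF).aestronglyMeasurable (Eventually.of_forall fun X => ?_)
  rw [Real.norm_of_nonneg (Ab_nonneg R F X), Real.norm_of_nonneg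
    (sum_nonneg fun A _ => abs_nonneg _)]
  unfold Ab
  refine sup'_le _ _ fun A hA => ?_
  exact single_le_sum (f := fun A => |F X (spk A)|) (fun A _ => abs_nonneg _) hA

theorem Mx_meas (hF : Good μ R F) (c : Site d) (n : ℕ) : Measurable fun X => Mx R F X c n := by
  have : (fun X => Mx R F X c n) = ((Finset.univ : Finset (Fin k)) ×ˢ cube c (n + R)).powerset.sup' ⟨∅, by simp⟩
      (fun A X => En F X (cube c n) (spk A)) := by
    funext X
    exact (Finset.sup'_apply (⟨∅, by simp⟩ : ((Finset.univ : Finset (Fin k)) ×ˢ cube c (n + R)).powerset.Nonempty)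
      (fun A X => En F X (cube c n) (spk A)) X).symm
  rw [this]
  refine Finset.measurable_sup' _ fun A _ => ?_
  unfold En
  exact Finset.measurable_fun_sum _ fun x _ =>
    (hF.meas _ (conf_sh (conf_sp A) x)).comp (th_meas x)

theorem Abx_mem (hF : Good μ R F) (x : Site d) : MemLp (fun X => Ab R F (th x X)) 2 (PX d μ) :=
  (Ab_mem hF).comp_measurePreserving (th_mp μ x)

theorem Mx_mem (hF : Good μ R F) (c : Site d) (n : ℕ) :
    MemLp (fun X => Mx R F X c n) 2 (PX d μ) := by
  have h1 : MemLp (fun X => ∑ x ∈ cube c n, Ab R F (th x X)) 2 (PX d μ) :=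
    memLp_finsetSum _ fun x _ => Abx_mem hF x
  refine h1.mono (Mx_meas hF c n).aestronglyMeasurable (Eventually.of_forall fun X => ?_)
  rw [Real.norm_eq_abs, Real.norm_of_nonneg (sum_nonneg fun x _ => Ab_nonneg _ _ _)]
  exact abs_Mx_le hF.loc X c n

/-- The mean of the maximum. -/
noncomputable def am (μ : Measure S) (R : ℕ) (F : (Bond d → S) → Cfg d k → ℝ) (n : ℕ) : ℝ :=
  ∫ X, Mx R F X 0 n ∂(PX d μ)

/-- The mean of `Ab`. -/
noncomputable def bm (μ : Measure S) (R : ℕ) (F : (Bond d → S) → Cfg d k → ℝ) : ℝ :=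
  ∫ X, Ab R F X ∂(PX d μ)

theorem Mx_mean (hF : Good μ R F) (c : Site d) (n : ℕ) :
    ∫ X, Mx R F X c n ∂(PX d μ) = am μ R F n := by
  have h1 : (fun X => Mx R F X c n) = fun X => (fun Y => Mx R F Y 0 n) (th c X) := by
    funext X
    exact Mx_shift hF.loc X c n
  rw [h1]
  unfold am
  have h2 := integral_map (μ := PX d μ) (th_meas (S := S) c).aemeasurable
    (f := fun Y => Mx R F Y 0 n) (by rw [th_map]; exact (Mx_meas hF 0 n).aestronglyMeasurable)
  rw [← h2, th_map]

theorem Abx_mean (hF : Good μ R F) (x : Site d) :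
    ∫ X, Ab R F (th x X) ∂(PX d μ) = bm μ R F := by
  unfold bm
  have h2 := integral_map (μ := PX d μ) (th_meas (S := S) x).aemeasurable
    (f := fun Y => Ab R F Y) (by rw [th_map]; exact (Ab_meas hF).aestronglyMeasurable)
  rw [← h2, th_map]

theorem bm_nonneg (R : ℕ) (F : (Bond d → S) → Cfg d k → ℝ) : 0 ≤ bm μ R F :=
  integral_nonneg fun X => Ab_nonneg R F X

theorem Mx_var (hF : Good μ R F) (c : Site d) (n : ℕ) :
    variance (fun X => Mx R F X c n) (PX d μ) = variance (fun X => Mx R F X 0 n) (PX d μ) := by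
  have h1 : (fun X => Mx R F X c n) = fun X => (fun Y => Mx R F Y 0 n) (th c X) := by
    funext X
    exact Mx_shift hF.loc X c n
  rw [h1]
  exact (th_mp μ c).variance_fun_comp (f := fun Y => Mx R F Y 0 n) (Mx_meas hF 0 n).aemeasurable

/-- Extension of a partial environment. -/
noncomputable def ext (E : Finset (Bond d)) (s : S) (x : E → S) : Bond d → S := by
  classical exact fun e => if h : e ∈ E then x ⟨e, h⟩ else s

theorem ext_meas (E : Finset (Bond d)) (s : S) : Measurable (ext E s) := by
  classical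
  refine measurable_pi_lambda _ fun e => ?_
  unfold ext
  by_cases h : e ∈ E
  · simp only [h, dif_pos]
    exact measurable_pi_apply _
  · simp only [h, dif_neg, not_false_iff]
    exact measurable_const

theorem ext_eq (E : Finset (Bond d)) (s : S) (X : Bond d → S) {e : Bond d} (h : e ∈ E) :
    ext E s (fun i : E => X i) e = X e := by
  unfold ext
  simp only [h, dif_pos]

/-- Functions of disjoint sets of bonds are independent. -/
theorem indep_of_disj {E E' : Finset (Bond d)} (hd : Disjoint E E') {f g : (Bond d → S) → ℝ}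
    (hf : Measurable f) (hg : Measurable g)
    (hfE : ∀ X X', (∀ e ∈ E, X e = X' e) → f X = f X')
    (hgE : ∀ X X', (∀ e ∈ E', X e = X' e) → g X = g X') : IndepFun f g (PX d μ) := by
  have hne : Nonempty S := by
    by_contra hcon
    rw [not_nonempty_iff] at hcon
    have h1 : μ Set.univ = 1 := measure_univ
    rw [Set.univ_eq_empty_iff.2 hcon, measure_empty] at h1
    exact zero_ne_one h1
  obtain ⟨s⟩ := hne
  have h0 : iIndepFun (fun (i : Bond d) (ω : Bond d → S) => ω i) (PX d μ) :=
    iIndepFun_infinitePi (P := fun _ : Bond d => μ) (X := fun _ x => x) (fun _ => measurable_id)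
  have h := h0.indepFun_finset E E' hd (fun i => measurable_pi_apply i)
  have h2 := h.comp (φ := fun x => f (ext E s x)) (ψ := fun x => g (ext E' s x))
    (hf.comp (ext_meas _ _)) (hg.comp (ext_meas _ _))
  have e1 : (fun x => f (ext E s x)) ∘ (fun (a : Bond d → S) (i : E) => a i) = f := by
    funext X
    exact hfE _ _ fun e he => ext_eq E s X he
  have e2 : (fun x => g (ext E' s x)) ∘ (fun (a : Bond d → S) (i : E') => a i) = g := by
    funext X
    exact hgE _ _ fun e he => ext_eq E' s X he
  rw [e1, e2] at h2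
  exact h2

theorem bonds_dis {B B' : Finset (Site d)} (h : Disjoint B B') : Disjoint (bonds B) (bonds B') := by
  rw [disjoint_left]
  intro e he he'
  rw [mem_bonds] at he he'
  exact disjoint_left.1 h he.1 he'.1

/-- The variance of the sum over the blocks. -/
theorem blocks_var (hF : Good μ R F) (c : Site d) (m K : ℕ) :
    variance (fun X => ∑ b ∈ cube (0 : Site d) K, Mx R F X (corner c (m + R) b) m) (PX d μ) =
      (K : ℝ) ^ d * variance (fun X => Mx R F X 0 m) (PX d μ) := by
  have h := IndepFun.variance_sum (μ := PX d μ) (s := cube (0 : Site d) K)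
    (X := fun b X => Mx R F X (corner c (m + R) b) m) (fun b _ => Mx_mem hF _ _)
    (fun b _ b' _ hne => indep_of_disj (bonds_dis (block_dis hne)) (Mx_meas hF _ _)
      (Mx_meas hF _ _) (fun X X' h => Mx_congr hF.loc h) (fun X X' h => Mx_congr hF.loc h))
  have e1 : (fun X => ∑ b ∈ cube (0 : Site d) K, Mx R F X (corner c (m + R) b) m) =
      ∑ b ∈ cube (0 : Site d) K, fun X => Mx R F X (corner c (m + R) b) m := by
    funext X
    rw [Finset.sum_apply]
  rw [e1, h, sum_congr rfl fun b _ => Mx_var hF _ _, sum_const, card_cube, nsmul_eq_mul]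
  push_cast
  ring

theorem blocks_mean (hF : Good μ R F) (c : Site d) (m K : ℕ) :
    ∫ X, ∑ b ∈ cube (0 : Site d) K, Mx R F X (corner c (m + R) b) m ∂(PX d μ) =
      (K : ℝ) ^ d * am μ R F m := by
  rw [integral_finsetSum _ fun b _ => (Mx_mem hF _ _).integrable (by norm_num),
    sum_congr rfl fun b _ => Mx_mean hF _ _, sum_const, card_cube, nsmul_eq_mul]
  push_cast
  ring

/-- The second moment of `Ab`. -/
noncomputable def vm (μ : Measure S) (R : ℕ) (F : (Bond d → S) → Cfg d k → ℝ) : ℝ :=
  ∫ X, Ab R F X ^ 2 ∂(PX d μ)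

theorem vm_nonneg (R : ℕ) (F : (Bond d → S) → Cfg d k → ℝ) : 0 ≤ vm μ R F :=
  integral_nonneg fun _ => sq_nonneg _

theorem cov_le (hF : Good μ R F) (x y : Site d) :
    cov[fun X => Ab R F (th x X), fun X => Ab R F (th y X); PX d μ] ≤ vm μ R F := by
  rw [covariance_eq_sub (Abx_mem hF x) (Abx_mem hF y), Abx_mean hF, Abx_mean hF]
  have hsq : ∀ z : Site d, ∫ X, Ab R F (th z X) ^ 2 ∂(PX d μ) = vm μ R F := by
    intro z
    unfold vm
    have h2 := integral_map (μ := PX d μ) (th_meas (S := S) z).aemeasurable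
      (f := fun Y => Ab R F Y ^ 2)
      (by rw [th_map]; exact ((Ab_meas hF).pow_const 2).aestronglyMeasurable)
    rw [← h2, th_map]
  have h1 : ∫ X, ((fun X => Ab R F (th x X)) * (fun X => Ab R F (th y X))) X ∂(PX d μ) ≤
      ∫ X, (Ab R F (th x X) ^ 2 + Ab R F (th y X) ^ 2) / 2 ∂(PX d μ) := by
    refine integral_mono_of_nonneg (Eventually.of_forall fun X => ?_) ?_
      (Eventually.of_forall fun X => ?_)
    · exact mul_nonneg (Ab_nonneg _ _ _) (Ab_nonneg _ _ _)
    · exact ((Abx_mem hF x).integrable_sq.add (Abx_mem hF y).integrable_sq).div_const 2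
    · simp only [Pi.mul_apply]
      nlinarith [sq_nonneg (Ab R F (th x X) - Ab R F (th y X))]
  rw [integral_div, integral_add (Abx_mem hF x).integrable_sq (Abx_mem hF y).integrable_sq,
    hsq, hsq] at h1
  have h3 := mul_nonneg (bm_nonneg (μ := μ) R F) (bm_nonneg (μ := μ) R F)
  linarith

theorem near_card (E : Finset (Site d)) (x : Site d) (R : ℕ) :
    ({y ∈ E | ¬ Disjoint (cube x R) (cube y R)} : Finset (Site d)).card ≤ (2 * R) ^ d := by
  classical
  have : ({y ∈ E | ¬ Disjoint (cube x R) (cube y R)} : Finset (Site d)) ⊆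
      cube (fun i => x i - R) (2 * R) := by
    intro y hy
    rw [mem_filter, not_disjoint_iff] at hy
    obtain ⟨-, z, h1, h2⟩ := hy
    rw [mem_cube] at h1 h2 ⊢
    intro i
    have h3 := h1 i
    have h4 := h2 i
    push_cast
    constructor <;> linarith [h3.1, h3.2, h4.1, h4.2]
  refine (card_le_card this).trans (le_of_eq (card_cube _ _))

theorem sum_var (hF : Good μ R F) (E : Finset (Site d)) :
    variance (fun X => ∑ x ∈ E, Ab R F (th x X)) (PX d μ) ≤
      (E.card : ℝ) * ((2 * (R : ℝ)) ^ d * vm μ R F) := by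
  classical
  rw [variance_fun_sum' fun x _ => Abx_mem hF x]
  have h1 : ∀ x y : Site d, cov[fun X => Ab R F (th x X), fun X => Ab R F (th y X); PX d μ] ≤
      if ¬ Disjoint (cube x R) (cube y R) then vm μ R F else 0 := by
    intro x y
    by_cases h : Disjoint (cube x R) (cube y R)
    · rw [if_neg (not_not.2 h)]
      have hi : IndepFun (fun X => Ab R F (th x X)) (fun X => Ab R F (th y X)) (PX d μ) := by
        refine indep_of_disj (bonds_dis h) ((Ab_meas hF).comp (th_meas x))
          ((Ab_meas hF).comp (th_meas y)) ?_ ?_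
        · intro X X' hXX
          unfold Ab
          refine sup'_congr _ rfl fun A _ => ?_
          rw [hF.loc (th x X) (th x X') (spk A) (spk A) (fun e he => hXX _ (bonds_shift he))
            (fun _ _ _ => rfl)]
        · intro X X' hXX
          unfold Ab
          refine sup'_congr _ rfl fun A _ => ?_
          rw [hF.loc (th y X) (th y X') (spk A) (spk A) (fun e he => hXX _ (bonds_shift he))
            (fun _ _ _ => rfl)]
      rw [hi.covariance_eq_zero (Abx_mem hF x) (Abx_mem hF y)]
    · rw [if_pos h]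
      exact cov_le hF x y
  calc ∑ x ∈ E, ∑ y ∈ E, cov[fun X => Ab R F (th x X), fun X => Ab R F (th y X); PX d μ]
      ≤ ∑ x ∈ E, ∑ y ∈ E, (if ¬ Disjoint (cube x R) (cube y R) then vm μ R F else 0) :=
        sum_le_sum fun x _ => sum_le_sum fun y _ => h1 x y
    _ ≤ ∑ x ∈ E, (2 * (R : ℝ)) ^ d * vm μ R F := by
        refine sum_le_sum fun x _ => ?_
        rw [← sum_filter, sum_const, nsmul_eq_mul]
        refine mul_le_mul_of_nonneg_right ?_ (vm_nonneg R F)
        exact_mod_cast near_card E x R
    _ = _ := by rw [sum_const, nsmul_eq_mul]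

theorem sum_mean (hF : Good μ R F) (E : Finset (Site d)) :
    ∫ X, ∑ x ∈ E, Ab R F (th x X) ∂(PX d μ) = (E.card : ℝ) * bm μ R F := by
  rw [integral_finsetSum _ fun x _ => (Abx_mem hF x).integrable (by norm_num),
    sum_congr rfl fun x _ => Abx_mean hF x, sum_const, nsmul_eq_mul]

end

end Pool.Agent.Zk58.EK
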