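import Pool.Agent.Zk58.EK.Gen

set_option autoImplicit false
set_option linter.unusedSectionVars false

/-!
Sums of block averages of several scales as perturbations.
-/

namespace Pool.Agent.Zk58.EK

open Finset MeasureTheory ProbabilityTheory Filter

open scoped BigOperators ENNReal Topology

variable {d k : ℕ} {S : Type}

/-- The average over the cube with corner `0` and side `N`. -/
noncomputable def Av (F : (Bond d → S) → Cfg d k → ℝ) (N : ℕ) (X : Bond d → S) (σ : Cfg d k) : ℝ :=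
  En F X (cube 0 N) σ / (N : ℝ) ^ d

/-- The boundary layer. -/
noncomputable def lay (d N n : ℕ) : Finset (Site d) := by
  classical
  exact cube 0 (n + N) \ cube (fun _ => (N : ℤ)) (n - N)

theorem core_sub {N n : ℕ} {y : Site d} (hy : y ∈ cube (0 : Site d) N) :
    cube (fun _ => (N : ℤ)) (n - N) ⊆ cube y n := by
  intro x hx
  rw [mem_cube] at hx hy ⊢
  intro i
  have h1 := hx i
  have h2 := hy i
  simp only [Pi.zero_apply, zero_add] at h2
  omega

theorem outer_sub {N n : ℕ} {y : Site d} (hy : y ∈ cube (0 : Site d) N) :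
    cube y n ⊆ cube 0 (n + N) := by
  intro x hx
  rw [mem_cube] at hx hy ⊢
  intro i
  have h1 := hx i
  have h2 := hy i
  simp only [Pi.zero_apply, zero_add] at h2 ⊢
  push_cast
  constructor <;> linarith [h1.1, h1.2, h2.1, h2.2]

theorem core_sum {R : ℕ} {F : (Bond d → S) → Cfg d k → ℝ} (hF : IsLocal R F) (X : Bond d → S)
    {N n : ℕ} {y : Site d} (hy : y ∈ cube (0 : Site d) N) {σ : Cfg d k} (hσ : IsConf σ) :
    |En F X (cube y n) σ - En F X (cube (fun _ => (N : ℤ)) (n - N)) σ| ≤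
      ∑ z ∈ lay d N n, Ab R F (th z X) := by
  classical
  have h1 : En F X (cube y n) σ - En F X (cube (fun _ => (N : ℤ)) (n - N)) σ =
      En F X (cube y n \ cube (fun _ => (N : ℤ)) (n - N)) σ := by
    unfold En
    rw [← sum_sdiff (core_sub hy)]
    ring
  rw [h1]
  refine (abs_En_le hF X _ hσ).trans (sum_le_sum_of_subset_of_nonneg ?_ fun z _ _ =>
    Ab_nonneg _ _ _)
  unfold lay
  exact sdiff_subset_sdiff (outer_sub hy) (Subset.refl _)

theorem zero_mem_cube {N : ℕ} (hN : 0 < N) : (0 : Site d) ∈ cube (0 : Site d) N := by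
  rw [mem_cube]
  intro i
  simp only [Pi.zero_apply, zero_add]
  omega

theorem En_Av (F : (Bond d → S) → Cfg d k → ℝ) (X : Bond d → S) (N n : ℕ) (σ : Cfg d k) :
    En (Av F N) X (cube 0 n) σ = (∑ y ∈ cube (0 : Site d) N, En F X (cube y n) σ) /
      (N : ℝ) ^ d := by
  have h1 : ∀ y : Site d, En F X (cube y n) σ =
      ∑ x ∈ cube (0 : Site d) n, F (th y (th x X)) (sh y (sh x σ)) := by
    intro y
    unfold En
    refine sum_bij' (fun z _ => z - y) (fun x _ => x + y) ?_ ?_ ?_ ?_ ?_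
    · intro x hx
      rw [mem_cube] at hx ⊢
      intro i
      have := hx i
      simp only [Pi.zero_apply, Pi.sub_apply, zero_add]
      constructor <;> linarith [this.1, this.2]
    · intro x hx
      exact cube_shift hx
    · intro x _
      simp
    · intro x _
      simp
    · intro x _
      rw [th_th, sh_sh, add_sub_cancel]
  rw [sum_congr rfl fun y _ => h1 y, sum_comm]
  unfold En Av
  rw [← sum_div]
  rfl

theorem Av_close {R : ℕ} {F : (Bond d → S) → Cfg d k → ℝ} (hF : IsLocal R F) (X : Bond d → S)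
    {N n : ℕ} (hN : 0 < N) {σ : Cfg d k} (hσ : IsConf σ) :
    |En (Av F N) X (cube 0 n) σ - En F X (cube 0 n) σ| ≤
      2 * ∑ z ∈ lay d N n, Ab R F (th z X) := by
  have hN' : (0 : ℝ) < (N : ℝ) ^ d := by positivity
  have h1 : En F X (cube 0 n) σ =
      (∑ y ∈ cube (0 : Site d) N, En F X (cube 0 n) σ) / (N : ℝ) ^ d := by
    rw [sum_const, card_cube, nsmul_eq_mul]
    push_cast
    field_simp
  rw [En_Av, h1, ← sub_div, ← sum_sub_distrib, abs_div, abs_of_pos hN', div_le_iff₀ hN']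
  refine (abs_sum_le_sum_abs _ _).trans ?_
  calc ∑ y ∈ cube (0 : Site d) N, |En F X (cube y n) σ - En F X (cube 0 n) σ|
      ≤ ∑ y ∈ cube (0 : Site d) N, 2 * ∑ z ∈ lay d N n, Ab R F (th z X) := by
        refine sum_le_sum fun y hy => ?_
        have h2 := core_sum hF X (n := n) hy hσ
        have h3 := core_sum hF X (n := n) (zero_mem_cube hN) hσ
        rw [abs_le] at h2 h3 ⊢
        constructor <;> linarith [h2.1, h2.2, h3.1, h3.2]
    _ = _ := by
        rw [sum_const, card_cube, nsmul_eq_mul]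
        push_cast
        ring

theorem lay_card (d N n : ℕ) :
    ((lay d N n).card : ℝ) ≤ ((n : ℝ) + N) ^ d - ((n - N : ℕ) : ℝ) ^ d := by
  classical
  have hsub : cube (fun _ : Fin d => (N : ℤ)) (n - N) ⊆ cube (0 : Site d) (n + N) := by
    intro x hx
    rw [mem_cube] at hx ⊢
    intro i
    have := hx i
    simp only [Pi.zero_apply, zero_add]
    omega
  have h1 : (lay d N n).card + (cube (fun _ : Fin d => (N : ℤ)) (n - N)).card =
      (cube (0 : Site d) (n + N)).card := by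
    unfold lay
    rw [card_sdiff_add_card_eq_card hsub]
  rw [card_cube, card_cube] at h1
  have h2 : ((lay d N n).card : ℝ) + ((n - N : ℕ) : ℝ) ^ d = ((n : ℝ) + N) ^ d := by
    exact_mod_cast h1
  linarith

theorem lay_lim (d N : ℕ) : Tendsto (fun n : ℕ => ((lay d N n).card : ℝ) / (n : ℝ) ^ d) atTop
    (𝓝 0) := by
  have h1 : Tendsto (fun n : ℕ => (N : ℝ) / (n : ℝ)) atTop (𝓝 0) :=
    Tendsto.div_atTop tendsto_const_nhds tendsto_natCast_atTop_atTop
  have h2 : Tendsto (fun n : ℕ => (1 + (N : ℝ) / (n : ℝ)) ^ d - (1 - (N : ℝ) / (n : ℝ)) ^ d) atTop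
      (𝓝 ((1 + 0) ^ d - (1 - 0) ^ d)) :=
    ((h1.const_add 1).pow d).sub ((h1.const_sub 1).pow d)
  simp only [add_zero, sub_zero, sub_self] at h2
  refine squeeze_zero' (Eventually.of_forall fun n => by positivity) ?_ h2
  filter_upwards [eventually_ge_atTop N, eventually_gt_atTop 0] with n hn hn0
  have hn' : (0 : ℝ) < n := by exact_mod_cast hn0
  have hn'' : (0 : ℝ) < (n : ℝ) ^ d := by positivity
  rw [div_le_iff₀ hn'']
  refine (lay_card d N n).trans (le_of_eq ?_)
  rw [Nat.cast_sub hn, sub_mul, ← mul_pow, ← mul_pow]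
  congr 2
  · field_simp
  · field_simp

/-- The sum of the averages of several scales. -/
noncomputable def GJ (F : (Bond d → S) → Cfg d k → ℝ) (N : ℕ → ℕ) (J : ℕ) (X : Bond d → S)
    (σ : Cfg d k) : ℝ := ∑ j ∈ range J, Av F (N j) X σ

/-- The range. -/
def RJ (R : ℕ) (N : ℕ → ℕ) (J : ℕ) : ℕ := ∑ j ∈ range J, N j + R

theorem Av_local {R : ℕ} {F : (Bond d → S) → Cfg d k → ℝ} (hF : IsLocal R F) (N : ℕ) :
    IsLocal (N + R) (Av F N) := by
  intro X X' σ σ' h1 h2
  unfold Av
  rw [En_congr hF h1 h2]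

theorem GJ_local {R : ℕ} {F : (Bond d → S) → Cfg d k → ℝ} (hF : IsLocal R F) (N : ℕ → ℕ)
    (J : ℕ) : IsLocal (RJ R N J) (GJ F N J) := by
  intro X X' σ σ' h1 h2
  unfold GJ
  refine sum_congr rfl fun j hj => ?_
  refine isLocal_mono (Av_local hF (N j)) ?_ X X' σ σ' h1 h2
  unfold RJ
  have := single_le_sum (f := N) (fun _ _ => Nat.zero_le _) hj
  omega

variable [MeasurableSpace S] {μ : Measure S} [IsProbabilityMeasure μ]
  {ψ : S → ℝ} {R : ℕ} {F : (Bond d → S) → Cfg d k → ℝ}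

theorem Av_good (hF : Good μ R F) (N : ℕ) : Good μ (N + R) (Av F N) where
  loc := Av_local hF.loc N
  meas := by
    intro σ hσ
    unfold Av En
    exact (Finset.measurable_fun_sum _ fun x _ =>
      (hF.meas _ (conf_sh hσ x)).comp (th_meas x)).div_const _
  mem := by
    intro σ hσ
    unfold Av En
    have : MemLp (fun X : Bond d → S => ∑ x ∈ cube (0 : Site d) N, F (th x X) (sh x σ)) 2
        (PX d μ) := memLp_finsetSum _ fun x _ =>
      (hF.mem _ (conf_sh hσ x)).comp_measurePreserving (th_mp μ x)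
    simpa only [div_eq_mul_inv] using this.mul_const _

theorem GJ_good (hF : Good μ R F) (N : ℕ → ℕ) (J : ℕ) : Good μ (RJ R N J) (GJ F N J) where
  loc := GJ_local hF.loc N J
  meas := by
    intro σ hσ
    unfold GJ
    exact Finset.measurable_fun_sum _ fun j _ => (Av_good hF (N j)).meas σ hσ
  mem := by
    intro σ hσ
    unfold GJ
    exact memLp_finsetSum _ fun j _ => (Av_good hF (N j)).mem σ hσ

theorem En_GJ (X : Bond d → S) (N : ℕ → ℕ) (J n : ℕ) (σ : Cfg d k) :
    En (GJ F N J) X (cube 0 n) σ = ∑ j ∈ range J, En (Av F (N j)) X (cube 0 n) σ := by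
  unfold En GJ
  rw [sum_comm]

theorem GJ_close (hF : IsLocal R F) (X : Bond d → S) {N : ℕ → ℕ} (hN : ∀ j, 0 < N j) (J n : ℕ)
    {σ : Cfg d k} (hσ : IsConf σ) :
    |En (GJ F N J) X (cube 0 n) σ - J * En F X (cube 0 n) σ| ≤
      ∑ j ∈ range J, 2 * ∑ z ∈ lay d (N j) n, Ab R F (th z X) := by
  have h1 : (J : ℝ) * En F X (cube 0 n) σ = ∑ j ∈ range J, En F X (cube 0 n) σ := by
    rw [sum_const, card_range, nsmul_eq_mul]
  rw [En_GJ, h1, ← sum_sub_distrib]
  exact (abs_sum_le_sum_abs _ _).trans (sum_le_sum fun j _ => Av_close hF X (hN j) hσ)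

theorem Mx_GJ (hψ : Measurable ψ) (hψ2 : MemLp ψ 2 μ) (hF : Good μ R F) (X : Bond d → S)
    {N : ℕ → ℕ} (hN : ∀ j, 0 < N j) (J n : ℕ) {t : ℝ} (ht : 0 ≤ t) :
    |Mx (RJ R N J + 2) (FT ψ (GJ F N J) t) X 0 n - Mx (R + 2) (FT ψ F (J * t)) X 0 n| ≤
      t * ∑ j ∈ range J, 2 * ∑ z ∈ lay d (N j) n, Ab R F (th z X) := by
  have hG := GJ_good hF N J
  have key : ∀ σ : Cfg d k, IsConf σ → |En (FT ψ (GJ F N J) t) X (cube 0 n) σ -
      En (FT ψ F (J * t)) X (cube 0 n) σ| ≤
        t * ∑ j ∈ range J, 2 * ∑ z ∈ lay d (N j) n, Ab R F (th z X) := by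
    intro σ hσ
    rw [En_FT, En_FT]
    have h1 := GJ_close hF.loc X hN J n hσ
    have h2 : En (F0 ψ) X (cube 0 n) σ + t * En (GJ F N J) X (cube 0 n) σ -
        (En (F0 ψ) X (cube 0 n) σ + J * t * En F X (cube 0 n) σ) =
        t * (En (GJ F N J) X (cube 0 n) σ - J * En F X (cube 0 n) σ) := by ring
    rw [h2, abs_mul, abs_of_nonneg ht]
    exact mul_le_mul_of_nonneg_left h1 ht
  rw [abs_le]
  constructor
  · obtain ⟨A, hA⟩ := exists_Mx (R + 2) (FT ψ F (J * t)) X 0 n
    have h1 := (abs_le.1 (key _ (conf_sp A))).1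
    have h2 := En_le_Mx (FT_good hψ hψ2 hG t).loc X 0 n (conf_sp A)
    rw [hA]
    linarith
  · obtain ⟨A, hA⟩ := exists_Mx (RJ R N J + 2) (FT ψ (GJ F N J) t) X 0 n
    have h1 := (abs_le.1 (key _ (conf_sp A))).2
    have h2 := En_le_Mx (FT_good hψ hψ2 hF (J * t)).loc X 0 n (conf_sp A)
    rw [hA]
    linarith

theorem gg_GJ (hψ : Measurable ψ) (hψ2 : MemLp ψ 2 μ) (hF : Good μ R F)
    {N : ℕ → ℕ} (hN : ∀ j, 0 < N j) (J : ℕ) {t : ℝ} (ht : 0 ≤ t) :
    gg μ ψ (RJ R N J) (GJ F N J) t = gg μ ψ R F (J * t) := by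
  have hG := GJ_good hF N J
  have l1 := (gg_lim hψ hψ2 hG t).sub (gg_lim hψ hψ2 hF (J * t))
  have l2 : Tendsto (fun n : ℕ => t * ∑ j ∈ range J, 2 * (((lay d (N j) n).card : ℝ) /
      (n : ℝ) ^ d * bm μ R F)) atTop (𝓝 (t * ∑ j ∈ range J, 2 * (0 * bm μ R F))) :=
    (tendsto_finsetSum _ fun j _ => ((lay_lim d (N j)).mul_const _).const_mul 2).const_mul t
  have l3 := le_of_tendsto_of_tendsto l1.abs l2 ?_
  · simp only [zero_mul, mul_zero, sum_const_zero] at l3
    have := abs_nonpos_iff.1 l3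
    linarith
  · filter_upwards [eventually_gt_atTop 0] with n hn
    have hn' : (0 : ℝ) < (n : ℝ) ^ d := by positivity
    have i1 : Integrable (fun X => Mx (RJ R N J + 2) (FT ψ (GJ F N J) t) X 0 n) (PX d μ) :=
      (Mx_mem (FT_good hψ hψ2 hG t) 0 n).integrable (by norm_num)
    have i2 : Integrable (fun X => Mx (R + 2) (FT ψ F (J * t)) X 0 n) (PX d μ) :=
      (Mx_mem (FT_good hψ hψ2 hF _) 0 n).integrable (by norm_num)
    have i3 : ∀ j, Integrable (fun X => ∑ z ∈ lay d (N j) n, Ab R F (th z X)) (PX d μ) :=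
      fun j => integrable_finsetSum _ fun z _ => (Abx_mem hF z).integrable (by norm_num)
    have h1 : |am μ (RJ R N J + 2) (FT ψ (GJ F N J) t) n - am μ (R + 2) (FT ψ F (J * t)) n| ≤
        t * ∑ j ∈ range J, 2 * (((lay d (N j) n).card : ℝ) * bm μ R F) := by
      unfold am
      rw [← integral_sub i1 i2]
      refine (abs_integral_le_integral_abs).trans ?_
      have h2 : ∫ X, t * ∑ j ∈ range J, 2 * ∑ z ∈ lay d (N j) n, Ab R F (th z X) ∂(PX d μ) =
          t * ∑ j ∈ range J, 2 * (((lay d (N j) n).card : ℝ) * bm μ R F) := by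
        rw [integral_const_mul, integral_finsetSum _ fun j _ => (i3 j).const_mul 2]
        congr 1
        refine sum_congr rfl fun j _ => ?_
        rw [integral_const_mul, sum_mean hF]
      rw [← h2]
      exact integral_mono (i1.sub i2).abs
        ((integrable_finsetSum _ fun j _ => (i3 j).const_mul 2).const_mul t)
        fun X => Mx_GJ hψ hψ2 hF X hN J n ht
    rw [← sub_div, abs_div, abs_of_pos hn', div_le_iff₀ hn']
    refine h1.trans (le_of_eq ?_)
    rw [mul_assoc, sum_mul]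
    congr 1
    refine sum_congr rfl fun j _ => ?_
    field_simp

end Pool.Agent.Zk58.EK
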