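import Pool.Agent.Zk58.EK.Aw

set_option autoImplicit false
set_option linter.unusedSectionVars false

/-!
Modules for the two-dimensional theorem.
-/

namespace Pool.Agent.Zk58.EK

open Finset MeasureTheory ProbabilityTheory Filter

open scoped BigOperators ENNReal Topology NNReal

/-- The environment after the fusion of the two Gaussian components. -/
def pp {d : ℕ} {S : Type} (X : Bond d → ℝ × (ℝ × S)) : Bond d → ℝ × S :=
  fun e => ((X e).1 + (X e).2.1, (X e).2.2)

/-- Module LLN: the frequency of an event in a large cube is at most its probability plus `ε`, with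
probability tending to one. The event need not be local. Proof: (1) local sets `V` (measurable, and
there is a finite set `E` of bonds such that `X ∈ V` depends only on `X e`, `e ∈ E`) approximate
every measurable set `U`: the measurable sets `U` such that for all `δ > 0` there is a local `V` with
`P (U ∆ V) ≤ δ` are a sigma-algebra which contains `{X | X e ∈ C}`. (2) For local `V` use `tail`
(Lim.lean) with `k = 0`, or Chebyshev. (3) For `U ∆ V` use Markov. -/
def S_LLN : Prop := ∀ (d : ℕ) (S : Type) [MeasurableSpace S] (μ : Measure S)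
  [IsProbabilityMeasure μ] (U : Set (Bond d → S)), d ≠ 0 → MeasurableSet U → ∀ ε : ℝ, 0 < ε →
    Tendsto (fun n : ℕ => (PX d μ) {X | ((PX d μ).real U + ε) * (n : ℝ) ^ d ≤
      ∑ x ∈ cube (0 : Site d) n, U.indicator (1 : (Bond d → S) → ℝ) (th x X)}) atTop (𝓝 0)

/-- Module LOC: local approximation (step (1) of LLN). -/
def S_LOC : Prop := ∀ (d : ℕ) (S : Type) [MeasurableSpace S] (μ : Measure S)
  [IsProbabilityMeasure μ] (U : Set (Bond d → S)), MeasurableSet U → ∀ δ : ℝ, 0 < δ →
    ∃ U' : Set (Bond d → S), MeasurableSet U' ∧ (∃ E : Finset (Bond d),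
      ∀ X X' : Bond d → S, (∀ e ∈ E, X e = X' e) → (X ∈ U' ↔ X' ∈ U')) ∧
        (PX d μ).real {X | ¬ (X ∈ U ↔ X ∈ U')} ≤ δ

/-- Module SPL: split `N(0, v)` into `N(0, w)` and `N(0, v')`, `w` small. Then every event of the
environment `pp X` is close to an event of the second components `yy X`. Proof: with
`w_j = v / (j + 2)`, `v'_j = v (j + 1) / (j + 2)` and `P_j = PX d (gm w_j (gm v'_j ν))`, the measurable
sets `U` such that for all `δ > 0`, for all large `j`, there is a measurable `V` with
`P_j {pp X ∈ U xor yy X ∈ V} ≤ δ`, are a sigma-algebra (for countable unions use that `pp` maps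
`P_j` to `PX d (gm v ν)` (infinitePi_map, gaussianReal_conv_gaussianReal) for all `j`). It contains
`{X | (X e).2 ∈ C}` and `{X | (X e).1 ≤ a}`: here `V` is the same set, because
`P (|A₂| ≥ θ) ≤ w_j / θ ^ 2` and `P (|A₁ - a| ≤ θ) ≤ 2 θ / sqrt (2 π v'_j)`, `v'_j ≥ v / 2`. -/
def S_SPL : Prop := ∀ (d : ℕ) (S : Type) [MeasurableSpace S] (ν : Measure S)
  [IsProbabilityMeasure ν] (v : ℝ≥0), v ≠ 0 → ∀ U : Fin 2 → Set (Bond d → ℝ × S),
    (∀ i, MeasurableSet (U i)) → ∀ δ : ℝ, 0 < δ → ∃ w v' : ℝ≥0, w ≠ 0 ∧ w + v' = v ∧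
      ∃ V : Fin 2 → Set (Bond d → ℝ × S), ∀ i, MeasurableSet (V i) ∧
        (PX d (gm w (gm v' ν))).real {X | ¬ (pp X ∈ U i ↔ yy X ∈ V i)} ≤ δ

/-- Module FUS: `pp` preserves the measures. -/
def S_FUS : Prop := ∀ (d : ℕ) (S : Type) [MeasurableSpace S] (ν : Measure S)
  [IsProbabilityMeasure ν] (w v' : ℝ≥0),
    MeasurePreserving (pp (d := d) (S := S)) (PX d (gm w (gm v' ν))) (PX d (gm (w + v') ν))

end Pool.Agent.Zk58.EK
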