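import Pool.Agent.Zk58.EK.Sel
import Pool.Agent.Zk58.EK.Chaos

set_option autoImplicit false
set_option linter.unusedSectionVars false

/-!
Two dimensions: the main comparison argument.
-/

namespace Pool.Agent.Zk58.EK

open Finset MeasureTheory ProbabilityTheory Filter

open scoped BigOperators ENNReal Topology NNReal

variable {S : Type} [MeasurableSpace S]

/-- The number of the bonds with `m ≠ φ`. -/
noncomputable def cnt (m : Fin 2 → (Bond 2 → ℝ × S) → ℝ) (φ : Fin 2 → (Bond 2 → S) → ℝ) (n : ℕ)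
    (X : Bond 2 → ℝ × S) : ℝ := by
  classical
  exact ∑ e ∈ cube (0 : Site 2) n ×ˢ (Finset.univ : Finset (Fin 2)),
    if m e.2 (th e.1 X) = φ e.2 (yy (th e.1 X)) then 0 else 1

/-- The sum of `m` times the bond variables. -/
noncomputable def ms (m : Fin 2 → (Bond 2 → ℝ × S) → ℝ) (n : ℕ) (X : Bond 2 → ℝ × S)
    (ρ : Site 2 → ℝ) : ℝ :=
  ∑ e ∈ cube (0 : Site 2) n ×ˢ (Finset.univ : Finset (Fin 2)),
    m e.2 (th e.1 X) * (ρ e.1 * ρ (tip e))

theorem ms_cnt {m : Fin 2 → (Bond 2 → ℝ × S) → ℝ} (hm : ∀ i X, m i X = 1 ∨ m i X = -1)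
    {φ : Fin 2 → (Bond 2 → S) → ℝ} (hφ : ∀ i Y, φ i Y = 1 ∨ φ i Y = -1) (n : ℕ)
    (X : Bond 2 → ℝ × S) {ρ : Site 2 → ℝ} (hρ : ∀ x, ρ x = 1 ∨ ρ x = -1) :
    |En (Fy φ) X (cube 0 n) (fun _ => ρ) - ms m n X ρ| ≤ 2 * cnt m φ n X := by
  classical
  rw [En_Fy]
  unfold ms cnt
  rw [← sum_sub_distrib, mul_sum]
  refine (abs_sum_le_sum_abs _ _).trans (sum_le_sum fun e _ => ?_)
  have hyy : (fun b : Bond 2 => yy X (b.1 + e.1, b.2)) = yy (th e.1 X) := rfl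
  rw [hyy, ← sub_mul, abs_mul, abs_one (hρ _) (hρ _), mul_one]
  split_ifs with h
  · rw [h, sub_self, abs_zero, mul_zero]
  · rcases hm e.2 (th e.1 X) with h1 | h1 <;> rcases hφ e.2 (yy (th e.1 X)) with h2 | h2 <;>
      rw [h1, h2] <;> norm_num

theorem sel_main {w : ℝ≥0} (hw : w ≠ 0) {ν : Measure S} [IsProbabilityMeasure ν] {χ : S → ℝ}
    (hχ : Measurable χ) (hχ2 : MemLp χ 2 ν)
    {m : Fin 2 → (Bond 2 → ℝ × S) → ℝ} (hm : ∀ i X, m i X = 1 ∨ m i X = -1)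
    {φ : Fin 2 → (Bond 2 → S) → ℝ} (hφm : ∀ i, Measurable (φ i))
    (hφ : ∀ i Y, φ i Y = 1 ∨ φ i Y = -1) {δ : ℝ} (hδ : 0 < δ)
    (H1 : Tendsto (fun n : ℕ => (PX 2 (gm w ν)) {X | δ * (n : ℝ) ^ 2 < cnt m φ n X}) atTop (𝓝 0))
    (H2 : Tendsto (fun n : ℕ => (PX 2 (gm w ν)) {X | ¬ ∃ τ : Site 2 → ℝ,
      IsGroundState (fun e => pw χ (X e)) τ ∧ 2 * (n : ℝ) ^ 2 ≤ ms m n X τ}) atTop (𝓝 0))
    (H3 : Tendsto (fun n : ℕ => (PX 2 (gm w ν)) {X | ¬ ∃ ρ : Site 2 → ℝ,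
      IsGroundState (fun e => pw χ (X e)) ρ ∧ ms m n X ρ ≤ (2 - 8 * δ) * (n : ℝ) ^ 2})
        atTop (𝓝 0)) : False := by
  classical
  set P := PX 2 (gm w ν) with hP
  have hψ := pw_meas hχ
  have hψ2 : MemLp (pw χ) 2 (gm w ν) := pw_mem hχ2
  have hM : ∀ i Y, |φ i Y| ≤ 1 := by
    intro i Y
    rcases hφ i Y with h | h <;> rw [h] <;> norm_num
  set m1 := ∫ x, |pw χ x| ∂(gm w ν) with hm1
  have hm10 : 0 ≤ m1 := integral_nonneg fun x => abs_nonneg _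
  set C := 32 * (m1 + 1) with hC
  have hC0 : 0 < C := by rw [hC]; linarith
  set a := 4 * C / δ with ha
  have ha0 : 0 < a := div_pos (by linarith) hδ
  have hw' : (0 : ℝ) < w := NNReal.coe_pos.2 (pos_iff_ne_zero.2 hw)
  set Q := Real.exp (2 * (a * 1) ^ 2 / w) with hQ
  have hQ0 : 0 < Q := Real.exp_pos _
  set B : ℕ → Set (Bond 2 → ℝ × S) := fun n => {X | δ * (n : ℝ) ^ 2 < cnt m φ n X} ∪
    {X | ¬ ∃ ρ : Site 2 → ℝ, IsGroundState (fun e => pw χ (X e)) ρ ∧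
      ms m n X ρ ≤ (2 - 8 * δ) * (n : ℝ) ^ 2} with hB
  set B' : ℕ → Set (Bond 2 → ℝ × S) := fun n => {X | δ * (n : ℝ) ^ 2 < cnt m φ n X} ∪
    {X | ¬ ∃ τ : Site 2 → ℝ, IsGroundState (fun e => pw χ (X e)) τ ∧
      2 * (n : ℝ) ^ 2 ≤ ms m n X τ} with hB'
  have hBlim : Tendsto (fun n => P (B n)) atTop (𝓝 0) := by
    have h0 := H1.add H3
    rw [add_zero] at h0
    exact tendsto_of_tendsto_of_tendsto_of_le_of_le tendsto_const_nhds h0 (fun _ => zero_le)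
      fun n => measure_union_le _ _
  have hBlim' : Tendsto (fun n => P (B' n)) atTop (𝓝 0) := by
    have h0 := H1.add H2
    rw [add_zero] at h0
    exact tendsto_of_tendsto_of_tendsto_of_le_of_le tendsto_const_nhds h0 (fun _ => zero_le)
      fun n => measure_union_le _ _
  set K : ℝ≥0∞ := ENNReal.ofReal (8 * Q) with hK
  have hK0 : K ≠ 0 := by rw [hK]; simp [hQ0]
  have hKt : K ≠ ⊤ := ENNReal.ofReal_ne_top
  have hBlim2 : Tendsto (fun n => P (B' n) + (K * P (B n) + ENNReal.ofReal (1 / 8))) atTop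
      (𝓝 (0 + (K * 0 + ENNReal.ofReal (1 / 8)))) :=
    hBlim'.add ((ENNReal.Tendsto.const_mul hBlim (Or.inr hKt)).add tendsto_const_nhds)
  rw [mul_zero, zero_add, zero_add] at hBlim2
  have hev := hBlim2.eventually (gt_mem_nhds
    (show ENNReal.ofReal (1 / 8) < ENNReal.ofReal (1 / 4) from
      (ENNReal.ofReal_lt_ofReal_iff (by norm_num)).2 (by norm_num)))
  obtain ⟨n, hn, hnn⟩ := (hev.and (eventually_gt_atTop (max 1 ⌈4 * a / C⌉₊))).exists
  have hn0 : 0 < n := by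
    have := (le_max_left 1 ⌈4 * a / C⌉₊).trans_lt hnn
    omega
  have hn' : (0 : ℝ) < n := by exact_mod_cast hn0
  have hnbig : 4 * a / C < n := by
    have h1 := (le_max_right 1 ⌈4 * a / C⌉₊).trans_lt hnn
    exact (Nat.le_ceil _).trans_lt (by exact_mod_cast h1)
  set s := a / n with hs
  have hs0 : 0 < s := div_pos ha0 hn'
  set L := cube (0 : Site 2) n ×ˢ (Finset.univ : Finset (Fin 2)) with hL
  have hum : ∀ e : Bond 2, Measurable (uu φ s e) := by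
    intro e
    unfold uu
    refine Measurable.const_mul ((hφm e.2).comp ?_) s
    exact measurable_pi_lambda _ fun b => measurable_pi_apply _
  have hub : ∀ (e : Bond 2) Y, (uu φ s e Y) ^ 2 ≤ (s * 1) ^ 2 := by
    intro e Y
    rw [sq_le_sq]
    unfold uu
    rw [abs_mul, abs_of_pos hs0, abs_of_nonneg (mul_nonneg hs0.le zero_le_one)]
    exact mul_le_mul_of_nonneg_left (hM _ _) hs0.le
  have hcon := contig hw ν L hum hub (B n) hK0 hKt
  have hLc : (L.card : ℝ) = 2 * (n : ℝ) ^ 2 := by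
    rw [hL, card_product, card_cube, card_univ, Fintype.card_fin]
    push_cast
    ring
  have hexp : (s * 1) ^ 2 * (L.card : ℝ) / w = 2 * (a * 1) ^ 2 / w := by
    rw [hLc, hs]
    field_simp
  rw [hexp, ← hQ] at hcon
  have hKi : K⁻¹ * ENNReal.ofReal Q = ENNReal.ofReal (1 / 8) := by
    rw [hK, ← ENNReal.ofReal_inv_of_pos (by positivity), ← ENNReal.ofReal_mul (by positivity)]
    congr 1
    field_simp
  rw [hKi] at hcon
  have hT : P {X | C * n ≤ Tn (pw χ) X 0 n} ≤ ENNReal.ofReal (1 / 4) := by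
    have h1 := Tn_markov (ψ := pw χ) (μ := gm w ν) hψ hψ2 0 hn0 hC0
    have h2 : 8 * m1 / C ≤ 1 / 4 := by
      rw [div_le_iff₀ hC0, hC]
      linarith
    rw [← ENNReal.ofReal_toReal (measure_ne_top P _)]
    exact ENNReal.ofReal_le_ofReal (h1.trans h2)
  have htot : P (B' n ∪ TT L (uu φ s) ⁻¹' (B n) ∪ {X | C * n ≤ Tn (pw χ) X 0 n}) < 1 := by
    refine ((measure_union_le _ _).trans (add_le_add (measure_union_le _ _) hT)).trans_lt ?_
    have h1 : P (B' n) + P (TT L (uu φ s) ⁻¹' (B n)) < ENNReal.ofReal (1 / 4) :=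
      (add_le_add le_rfl hcon).trans_lt hn
    calc P (B' n) + P (TT L (uu φ s) ⁻¹' (B n)) + ENNReal.ofReal (1 / 4)
        ≤ ENNReal.ofReal (1 / 4) + ENNReal.ofReal (1 / 4) := add_le_add h1.le le_rfl
      _ = ENNReal.ofReal (1 / 2) := by
        rw [← ENNReal.ofReal_add (by norm_num) (by norm_num)]
        norm_num
      _ < 1 := by
        rw [← ENNReal.ofReal_one]
        exact (ENNReal.ofReal_lt_ofReal_iff one_pos).2 (by norm_num)
  obtain ⟨X, hX⟩ : ∃ X, X ∉ B' n ∪ TT L (uu φ s) ⁻¹' (B n) ∪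
      {X | C * n ≤ Tn (pw χ) X 0 n} := by
    by_contra hcon2
    simp only [not_exists, not_not] at hcon2
    rw [Set.eq_univ_of_forall hcon2, measure_univ] at htot
    exact lt_irrefl _ htot
  simp only [Set.mem_union, Set.mem_preimage, hB, hB', Set.mem_ofPred_eq, not_or, not_not, not_le,
    not_lt] at hX
  obtain ⟨⟨⟨hc1, τ, hτ, hτ2⟩, ⟨hc2, ρ, hρ, hρ2⟩⟩, hTX⟩ := hX
  have hdet := aw_det (d := 2) (φ := φ) (M := 1) hs0.le hM (X := X) (c := 0) (n := n)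
    (σ := fun _ => τ) (τ := fun _ => ρ) (fun _ => hτ) (fun _ => hρ)
  have k1 := abs_le.1 (ms_cnt hm hφ n X hτ.1)
  have k2 := abs_le.1 (ms_cnt hm hφ n (TT L (uu φ s) X) hρ.1)
  rw [En_Fy_TT] at k2
  have hcard : ((Ex (0 : Site 2) n).card : ℝ) ≤ 4 * n := by
    have h1 := Ex_card (0 : Site 2) (n := n)
    have h2 : ((n - 1 : ℕ) : ℝ) = (n : ℝ) - 1 := by
      rw [Nat.cast_sub hn0, Nat.cast_one]
    rw [h2] at h1
    nlinarith
  have h1 : s * (4 * δ * (n : ℝ) ^ 2) ≤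
      s * (En (Fy φ) X (cube 0 n) (fun _ => τ) - En (Fy φ) X (cube 0 n) (fun _ => ρ)) := by
    refine mul_le_mul_of_nonneg_left ?_ hs0.le
    nlinarith [k1.1, k2.2]
  have h2 : s * (4 * δ * (n : ℝ) ^ 2) = 16 * C * n := by
    rw [hs, ha]
    field_simp
    ring
  have h3 : ((Ex (0 : Site 2) n).card : ℝ) * (2 : ℕ) * (s * 1) ≤ 8 * a := by
    have h5 : 0 ≤ s * 1 := mul_nonneg hs0.le zero_le_one
    have h4 : ((Ex (0 : Site 2) n).card : ℝ) * (2 : ℕ) * (s * 1) ≤ (4 * n) * 2 * (s * 1) := by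
      push_cast
      exact mul_le_mul_of_nonneg_right (by linarith) h5
    refine h4.trans (le_of_eq ?_)
    rw [hs]
    field_simp
    ring
  rw [div_lt_iff₀ hC0] at hnbig
  rw [h2] at h1
  have h6 : 0 < C * n := mul_pos hC0 hn'
  linarith

end Pool.Agent.Zk58.EK
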