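import Pool.Agent.Zk58.EK.Sel2

set_option autoImplicit false
set_option linter.unusedSectionVars false

/-!
Two dimensions: a covariant choice of a pair of ground states implies macroscopic uniqueness.
-/

namespace Pool.Agent.Zk58.EK

open Finset MeasureTheory ProbabilityTheory Filter

open scoped BigOperators ENNReal Topology NNReal

variable {d k : ℕ} {S : Type} [MeasurableSpace S]

theorem exists_notMem_of_lt {Ω : Type} [MeasurableSpace Ω] {P : Measure Ω}
    [IsProbabilityMeasure P] {A : Set Ω} (h : P A < 1) : ∃ x, x ∉ A := by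
  by_contra hcon
  simp only [not_exists, not_not] at hcon
  rw [Set.eq_univ_of_forall hcon, measure_univ] at h
  exact lt_irrefl _ h

theorem F0_pp (χ : S → ℝ) (X : Bond d → ℝ × (ℝ × S)) (σ : Cfg d k) :
    F0 (pw χ) (pp X) σ = F0 (pw (pw χ)) X σ := by
  unfold F0 pw pp
  refine sum_congr rfl fun a _ => sum_congr rfl fun i _ => ?_
  simp only [add_assoc]

theorem Mx_pp (χ : S → ℝ) (t : ℝ) (R : ℕ) (X : Bond d → ℝ × (ℝ × S)) (n : ℕ) :
    Mx R (FT (pw χ) (Fov d (ℝ × S)) t) (pp X) 0 n =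
      Mx R (FT (pw (pw χ)) (Fov d (ℝ × (ℝ × S))) t) X 0 n := by
  unfold Mx
  refine sup'_congr _ rfl fun A _ => ?_
  unfold En
  refine sum_congr rfl fun x _ => ?_
  have h1 : th x (pp X) = pp (th x X) := rfl
  rw [h1]
  unfold FT
  rw [F0_pp]
  rfl

theorem gg_pp (hfus : S_FUS) {ν : Measure S} [IsProbabilityMeasure ν] {w v' v : ℝ≥0}
    (h : w + v' = v) {χ : S → ℝ} (hχ : Measurable χ) (hχ2 : MemLp χ 2 ν) (t : ℝ) :
    gg (gm v ν) (pw χ) 2 (Fov d (ℝ × S)) t =
      gg (gm w (gm v' ν)) (pw (pw χ)) 2 (Fov d (ℝ × (ℝ × S))) t := by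
  subst h
  have hmp := hfus d S ν w v'
  unfold gg gl
  congr 1
  funext n
  congr 1
  unfold am
  have hG : Good (gm (w + v') ν) 2 (Fov d (ℝ × S)) := Fov_good
  have hm := Mx_meas (FT_good (pw_meas hχ) (pw_mem hχ2) hG t) 0 n
  have h2 := integral_map (μ := PX d (gm w (gm v' ν))) hmp.measurable.aemeasurable
    (f := fun Y => Mx (2 + 2) (FT (pw χ) (Fov d (ℝ × S)) t) Y 0 n)
    (by rw [hmp.map_eq]; exact hm.aestronglyMeasurable)
  rw [hmp.map_eq] at h2
  rw [h2]
  refine integral_congr_ae (ae_of_all _ fun X => ?_)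
  exact Mx_pp χ t (2 + 2) X n

/-- Differentiability of the limit. -/
theorem overlap_of_diff {μ : Measure S} [IsProbabilityMeasure μ] {ψ : S → ℝ} (hd : 2 ≤ d)
    (hψ : Measurable ψ) (hψ2 : MemLp ψ 2 μ)
    (h : DifferentiableAt ℝ (gg μ ψ 2 (Fov d S)) 0) : OverlapDiff μ ψ d := by
  have hG : Good μ 2 (Fov d S) := Fov_good
  refine ⟨_, fun t => ?_, h⟩
  filter_upwards [as_lim (μ := μ) hd (FT_good hψ hψ2 hG t) (fun _ => 0)] with X hX
  refine hX.congr fun n => ?_
  rw [maxE_eq fun t => (FT_good hψ hψ2 hG t).loc]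

/-- A measurable choice of a pair of ground states, in terms of the signs of the bonds, which
commutes with the translations: the sign of the bond `(x, x + e_i)` is plus if the environment seen
from `x` is in `U i`. -/
def CovariantChoice (μ : Measure S) (ψ : S → ℝ) (d : ℕ) : Prop :=
  ∃ U : Fin d → Set (Bond d → S), (∀ i, MeasurableSet (U i)) ∧
    ∀ᵐ X ∂(PX d μ), ∃ τ : Site d → ℝ, IsGroundState (fun e => ψ (X e)) τ ∧
      ∀ e : Bond d, τ e.1 * τ (tip e) = 1 ↔ th e.1 X ∈ U e.2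

theorem choice_macro (hlln : S_LLN) (hspl : S_SPL) (hfus : S_FUS) {v : ℝ≥0} (hv : v ≠ 0)
    {ν : Measure S} [IsProbabilityMeasure ν] {χ : S → ℝ} (hχ : Measurable χ) (hχ2 : MemLp χ 2 ν)
    (hc : CovariantChoice (gm v ν) (pw χ) 2) : MacroUnique (gm v ν) (pw χ) 2 := by
  classical
  have hψ := pw_meas hχ
  have hψ2 : MemLp (pw χ) 2 (gm v ν) := pw_mem hχ2
  have hat := pw_atom hv (ν := ν) hχ
  have hG : Good (gm v ν) 2 (Fov 2 (ℝ × S)) := Fov_good
  rw [macro_iff_diff le_rfl hψ hψ2 hat]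
  apply overlap_of_diff le_rfl hψ hψ2
  obtain ⟨-, h0⟩ := cvx (gg (gm v ν) (pw χ) 2 (Fov 2 (ℝ × S))) (gg_convex hψ hψ2 hG)
  obtain ⟨l, r, hle, hR, hL, hD, hr1, hl1, hlr⟩ := h0 0
  rw [hD]
  by_contra hne
  have hlt : l < r := lt_of_le_of_ne hle hne
  have hr2 : r ≤ 2 := by
    by_contra hcon
    rw [not_le] at hcon
    have h1 := prob_att (c := fun _ => 0) le_rfl hψ hψ2 hat hG hr1 hl1 hlr
      (show 0 < (r - 2) / 2 by linarith)
    obtain ⟨n, hn, hn0⟩ := ((h1.eventually (gt_mem_nhds one_pos)).and (eventually_gt_atTop 0)).exists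
    obtain ⟨X, hX⟩ := exists_notMem_of_lt hn
    simp only [Set.mem_ofPred_eq, not_not] at hX
    obtain ⟨σ, τ, hσ, -, h2, -⟩ := hX
    rw [En_Fov X 0 n (GSs_WGS hσ).1] at h2
    have hn' : (0 : ℝ) < (n : ℝ) ^ 2 := by positivity
    have h3 : (0 : ℝ) ≤ (dif 0 n (σ 0) (σ 1) : ℝ) := by positivity
    push_cast at h2
    nlinarith
  set δ := (2 - l) / 32 with hδ
  have hδ0 : 0 < δ := by rw [hδ]; linarith
  obtain ⟨U, hU, hUc⟩ := hc
  obtain ⟨w, v', hw, hwv, V, hV⟩ := hspl 2 S ν v hv U hU (δ / 4) (by linarith)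
  have hψ' : Measurable (pw χ) := hψ
  have hχ2' : MemLp (pw χ) 2 (gm v' ν) := pw_mem hχ2
  have hmp := hfus 2 S ν w v'
  rw [hwv] at hmp
  have hG2 : Good (gm w (gm v' ν)) 2 (Fov 2 (ℝ × (ℝ × S))) := Fov_good
  have hgg : gg (gm v ν) (pw χ) 2 (Fov 2 (ℝ × S)) =
      gg (gm w (gm v' ν)) (pw (pw χ)) 2 (Fov 2 (ℝ × (ℝ × S))) := by
    funext t
    exact gg_pp hfus hwv hχ hχ2 t
  rw [hgg] at hr1 hl1 hlr
  have hatt := prob_att (c := fun _ => 0) le_rfl (pw_meas hψ') (pw_mem hχ2')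
    (pw_atom hw hψ') hG2 hr1 hl1 hlr (show 0 < (2 - l) / 2 by linarith)
  set m : Fin 2 → (Bond 2 → ℝ × (ℝ × S)) → ℝ := fun i X => if pp X ∈ U i then 1 else -1 with hm
  set φ : Fin 2 → (Bond 2 → ℝ × S) → ℝ := fun i Y => if Y ∈ V i then 1 else -1 with hφ
  have hm1 : ∀ i X, m i X = 1 ∨ m i X = -1 := by
    intro i X
    simp only [hm]
    split_ifs
    · left; rfl
    · right; rfl
  have hφ1 : ∀ i Y, φ i Y = 1 ∨ φ i Y = -1 := by
    intro i Y
    simp only [hφ]
    split_ifs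
    · left; rfl
    · right; rfl
  have hφm : ∀ i, Measurable (φ i) := fun i =>
    Measurable.ite (hV i).1 measurable_const measurable_const
  set Bad : Fin 2 → Set (Bond 2 → ℝ × (ℝ × S)) := fun i => {X | ¬ (pp X ∈ U i ↔ yy X ∈ V i)}
    with hBad
  have hBm : ∀ i, MeasurableSet (Bad i) := by
    intro i
    have h1 : MeasurableSet (pp ⁻¹' (U i)) := hmp.measurable (hU i)
    have h2 : MeasurableSet ((yy : (Bond 2 → ℝ × (ℝ × S)) → _) ⁻¹' (V i)) := yy_meas (hV i).1
    have h3 : Bad i = (pp ⁻¹' (U i) \ yy ⁻¹' (V i)) ∪ (yy ⁻¹' (V i) \ pp ⁻¹' (U i)) := by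
      ext X
      simp only [hBad, Set.mem_ofPred_eq, Set.mem_union, Set.mem_sdiff, Set.mem_preimage]
      tauto
    rw [h3]
    exact (h1.diff h2).union (h2.diff h1)
  -- the three limits
  have H1 : Tendsto (fun n : ℕ => (PX 2 (gm w (gm v' ν))) {X | δ * (n : ℝ) ^ 2 < cnt m φ n X})
      atTop (𝓝 0) := by
    have a0 := hlln 2 (ℝ × (ℝ × S)) (gm w (gm v' ν)) (Bad 0) (by norm_num) (hBm 0) (δ / 4)
      (by linarith)
    have a1 := hlln 2 (ℝ × (ℝ × S)) (gm w (gm v' ν)) (Bad 1) (by norm_num) (hBm 1) (δ / 4)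
      (by linarith)
    have a2 := a0.add a1
    rw [add_zero] at a2
    refine tendsto_of_tendsto_of_tendsto_of_le_of_le tendsto_const_nhds a2 (fun _ => zero_le)
      fun n => le_trans (measure_mono ?_) (measure_union_le _ _)
    intro X hX
    by_contra hcon
    simp only [Set.mem_union, Set.mem_ofPred_eq, not_or, not_le] at hcon hX
    have hcnt : cnt m φ n X = ∑ x ∈ cube (0 : Site 2) n, (Bad 0).indicator 1 (th x X) +
        ∑ x ∈ cube (0 : Site 2) n, (Bad 1).indicator 1 (th x X) := by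
      unfold cnt
      rw [sum_product, ← sum_add_distrib]
      refine sum_congr rfl fun x _ => ?_
      rw [Fin.sum_univ_two]
      have key : ∀ i : Fin 2, (if m i (th x X) = φ i (yy (th x X)) then (0 : ℝ) else 1) =
          (Bad i).indicator 1 (th x X) := by
        intro i
        by_cases h1 : pp (th x X) ∈ U i <;> by_cases h2 : yy (th x X) ∈ V i
        · have : th x X ∉ Bad i := by simp [hBad, h1, h2]
          rw [Set.indicator_of_notMem this]
          simp [hm, hφ, h1, h2]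
        · have : th x X ∈ Bad i := by simp [hBad, h1, h2]
          rw [Set.indicator_of_mem this]
          simp only [hm, hφ, h1, h2, if_true, if_false, Pi.one_apply]
          norm_num
        · have : th x X ∈ Bad i := by simp [hBad, h1, h2]
          rw [Set.indicator_of_mem this]
          simp only [hm, hφ, h1, h2, if_true, if_false, Pi.one_apply]
          norm_num
        · have : th x X ∉ Bad i := by simp [hBad, h1, h2]
          rw [Set.indicator_of_notMem this]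
          simp [hm, hφ, h1, h2]
      simp only [key]
    have h3 := (hV 0).2
    have h4 := (hV 1).2
    have hn' : (0 : ℝ) ≤ (n : ℝ) ^ 2 := by positivity
    rw [hcnt] at hX
    have h5 := mul_le_mul_of_nonneg_right h3 hn'
    have h6 := mul_le_mul_of_nonneg_right h4 hn'
    simp only [hBad] at hcon
    nlinarith [hcon.1, hcon.2]
  have H2 : Tendsto (fun n : ℕ => (PX 2 (gm w (gm v' ν))) {X | ¬ ∃ τ : Site 2 → ℝ,
      IsGroundState (fun e => pw (pw χ) (X e)) τ ∧ 2 * (n : ℝ) ^ 2 ≤ ms m n X τ}) atTop (𝓝 0) := by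
    have h1 : ∀ n : ℕ, (PX 2 (gm w (gm v' ν))) {X | ¬ ∃ τ : Site 2 → ℝ,
      IsGroundState (fun e => pw (pw χ) (X e)) τ ∧ 2 * (n : ℝ) ^ 2 ≤ ms m n X τ} = 0 := by
      intro n
      rw [← ae_iff]
      filter_upwards [hmp.quasiMeasurePreserving.ae hUc] with X hX
      obtain ⟨τ, hτ, hτ2⟩ := hX
      have e1 : (fun e => pw χ (pp X e)) = fun e => pw (pw χ) (X e) := by
        funext e
        unfold pw pp
        simp only [add_assoc]
      rw [e1] at hτ
      refine ⟨τ, hτ, le_of_eq ?_⟩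
      unfold ms
      have h2 : ∀ e ∈ cube (0 : Site 2) n ×ˢ (Finset.univ : Finset (Fin 2)),
          m e.2 (th e.1 X) * (τ e.1 * τ (tip e)) = 1 := by
        intro e _
        have h3 := hτ2 e
        have h4 : th e.1 (pp X) = pp (th e.1 X) := rfl
        rw [h4] at h3
        by_cases h5 : pp (th e.1 X) ∈ U e.2
        · rw [h3.2 h5]
          simp [hm, h5]
        · have h6 : τ e.1 * τ (tip e) = -1 := by
            have h7 : τ e.1 * τ (tip e) ≠ 1 := fun h => h5 (h3.1 h)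
            have h8 : τ e.1 * τ (tip e) = 1 ∨ τ e.1 * τ (tip e) = -1 := by
              rcases hτ.1 e.1 with h | h <;> rcases hτ.1 (tip e) with h' | h' <;>
                rw [h, h'] <;> norm_num
            exact h8.resolve_left h7
          rw [h6]
          simp [hm, h5]
      rw [sum_congr rfl h2, sum_const, card_product, card_cube, card_univ, Fintype.card_fin,
        nsmul_eq_mul]
      push_cast
      ring
    simp only [h1]
    exact tendsto_const_nhds
  have H3 : Tendsto (fun n : ℕ => (PX 2 (gm w (gm v' ν))) {X | ¬ ∃ ρ : Site 2 → ℝ,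
      IsGroundState (fun e => pw (pw χ) (X e)) ρ ∧ ms m n X ρ ≤ (2 - 8 * δ) * (n : ℝ) ^ 2})
        atTop (𝓝 0) := by
    refine tendsto_of_tendsto_of_tendsto_of_le_of_le tendsto_const_nhds hatt (fun _ => zero_le)
      fun n => measure_mono ?_
    intro X hX hcon
    apply hX
    obtain ⟨-, τ, -, hτ, -, h2⟩ := hcon
    have hsum : ms m n X (τ 0) + ms m n X (τ 1) ≤
        En (Fov 2 (ℝ × (ℝ × S))) X (cube 0 n) τ + 2 * (n : ℝ) ^ 2 := by
      have e1 : En (Fov 2 (ℝ × (ℝ × S))) X (cube 0 n) τ =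
          ∑ e ∈ cube 0 n ×ˢ (Finset.univ : Finset (Fin 2)),
            (τ 0 e.1 * τ 0 (tip e)) * (τ 1 e.1 * τ 1 (tip e)) := by
        unfold En Fov sh
        rw [sum_product]
        refine sum_congr rfl fun x _ => sum_congr rfl fun i _ => ?_
        have h := tip_shift ((0 : Site 2), i) x
        simp only [zero_add] at h ⊢
        rw [h]
      have e2 : 2 * (n : ℝ) ^ 2 = ∑ _e ∈ cube (0 : Site 2) n ×ˢ (Finset.univ : Finset (Fin 2)),
          (1 : ℝ) := by
        rw [sum_const, card_product, card_cube, card_univ, Fintype.card_fin, nsmul_eq_mul]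
        push_cast
        ring
      rw [e1, e2]
      unfold ms
      rw [← sum_add_distrib, ← sum_add_distrib]
      refine sum_le_sum fun e _ => ?_
      rcases hm1 e.2 (th e.1 X) with h | h <;> rcases (hτ 0).1 e.1 with h1 | h1 <;>
        rcases (hτ 0).1 (tip e) with h2 | h2 <;> rcases (hτ 1).1 e.1 with h3 | h3 <;>
        rcases (hτ 1).1 (tip e) with h4 | h4 <;> rw [h, h1, h2, h3, h4] <;> norm_num
    by_cases hs : ms m n X (τ 0) ≤ (2 - 8 * δ) * (n : ℝ) ^ 2
    · exact ⟨τ 0, hτ 0, hs⟩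
    · refine ⟨τ 1, hτ 1, ?_⟩
      rw [not_le, hδ] at hs
      rw [hδ]
      nlinarith
  exact sel_main hw hψ' hχ2' hm1 hφm hφ1 hδ0 H1 H2 H3

end Pool.Agent.Zk58.EK
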