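import Pool.Agent.Zk58.EK.Sel4
import Pool.Agent.Zk86.EKm.SPL
import Pool.Agent.Zk39.EKm.LLN

set_option autoImplicit false
set_option linter.unusedSectionVars false

/-!
Two dimensions: all ground states have the same averages of the bond variables over the sites with
a given environment.
-/

namespace Pool.Agent.Zk58.EK

open Finset MeasureTheory ProbabilityTheory Filter

open scoped BigOperators ENNReal Topology NNReal

variable {d k : ℕ} {S : Type} [MeasurableSpace S]

/-- The bond `(z, i)` if the environment seen from `z` is in `U`. -/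
noncomputable def Fu (z : Site d) (i : Fin d) (U : Set (Bond d → S)) (X : Bond d → S)
    (σ : Cfg d 1) : ℝ :=
  U.indicator (1 : (Bond d → S) → ℝ) (th z X) * (σ 0 z * σ 0 (tip ((z, i) : Bond d)))

/-- The sum of the bond variables in the direction `i` over the sites with environments in `U`. -/
noncomputable def su (i : Fin d) (U : Set (Bond d → S)) (n : ℕ) (X : Bond d → S)
    (ρ : Site d → ℝ) : ℝ :=
  ∑ x ∈ cube (0 : Site d) n,
    U.indicator (1 : (Bond d → S) → ℝ) (th x X) * (ρ x * ρ (tip ((x, i) : Bond d)))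

theorem En_Fu (z : Site d) (i : Fin d) (U : Set (Bond d → S)) (X : Bond d → S) (n : ℕ)
    (σ : Cfg d 1) : En (Fu z i U) X (cube (-z) n) σ = su i U n X (σ 0) := by
  rw [En_shift]
  unfold En su Fu
  refine sum_congr rfl fun x _ => ?_
  rw [th_th, th_th, sh_sh]
  have e0 : z + x + -z = x := by abel
  have e1 : z + (x + -z) = x := by abel
  have e2 : tip ((z, i) : Bond d) + (x + -z) = tip ((x, i) : Bond d) := by
    unfold tip
    simp only
    abel
  rw [e0]
  unfold sh
  rw [e1, e2]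

theorem exists_box (E : Finset (Bond d)) : ∃ N : ℕ, ∀ e ∈ E, ∀ j, |e.1 j| ≤ N := by
  refine ⟨E.sup fun e => (Finset.univ : Finset (Fin d)).sup fun j => (e.1 j).natAbs,
    fun e he j => ?_⟩
  have h1 : (e.1 j).natAbs ≤ E.sup fun e => (Finset.univ : Finset (Fin d)).sup fun j =>
      (e.1 j).natAbs :=
    (Finset.le_sup (f := fun j => (e.1 j).natAbs) (mem_univ j)).trans
      (Finset.le_sup (f := fun e : Bond d => (Finset.univ : Finset (Fin d)).sup fun j =>
        (e.1 j).natAbs) he)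
  rw [Int.abs_eq_natAbs]
  exact_mod_cast h1

theorem Fu_good {μ : Measure S} [IsProbabilityMeasure μ] {U : Set (Bond d → S)}
    (hU : MeasurableSet U) {E : Finset (Bond d)}
    (hE : ∀ X X' : Bond d → S, (∀ e ∈ E, X e = X' e) → (X ∈ U ↔ X' ∈ U)) (i : Fin d) {N : ℕ}
    (hN : ∀ e ∈ E, ∀ j, |e.1 j| ≤ N) : Good μ (2 * N + 2) (Fu (fun _ => (N : ℤ)) i U) where
  loc := by
    classical
    intro X X' σ σ' h1 h2
    have hz : (fun _ => (N : ℤ) : Site d) ∈ cube (0 : Site d) (2 * N + 2) := by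
      rw [mem_cube]
      intro j
      simp only [Pi.zero_apply, zero_add]
      push_cast
      constructor <;> linarith
    have hz2 : tip (((fun _ => (N : ℤ) : Site d), i) : Bond d) ∈
        cube (0 : Site d) (2 * N + 2) := by
      rw [mem_cube]
      intro j
      rw [tip_apply]
      simp only [Pi.zero_apply, zero_add]
      push_cast
      split_ifs <;> constructor <;> linarith
    unfold Fu
    rw [h2 0 _ hz, h2 0 _ hz2]
    congr 1
    have h3 : th (fun _ => (N : ℤ)) X ∈ U ↔ th (fun _ => (N : ℤ)) X' ∈ U := by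
      refine hE _ _ fun e he => ?_
      unfold th
      refine h1 _ ?_
      rw [mem_bonds, mem_cube, mem_cube]
      constructor
      · intro j
        have := abs_le.1 (hN e he j)
        simp only [Pi.zero_apply, zero_add, Pi.add_apply]
        push_cast
        constructor <;> linarith [this.1, this.2]
      · intro j
        have := abs_le.1 (hN e he j)
        rw [tip_apply]
        simp only [Pi.zero_apply, zero_add, Pi.add_apply]
        push_cast
        split_ifs <;> constructor <;> linarith [this.1, this.2]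
    by_cases h4 : th (fun _ => (N : ℤ)) X ∈ U
    · rw [Set.indicator_of_mem h4, Set.indicator_of_mem (h3.1 h4)]
      rfl
    · rw [Set.indicator_of_notMem h4, Set.indicator_of_notMem fun h => h4 (h3.2 h)]
  meas := by
    intro σ _
    unfold Fu
    exact ((measurable_one.indicator hU).comp (th_meas _)).mul_const _
  mem := by
    intro σ _
    unfold Fu
    refine MemLp.mul_const ?_ _
    refine MemLp.of_bound ((measurable_one.indicator hU).comp (th_meas _)).aestronglyMeasurable 1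
      (ae_of_all _ fun X => ?_)
    rw [Real.norm_eq_abs]
    by_cases h4 : th (fun _ => (N : ℤ)) X ∈ U
    · rw [Set.indicator_of_mem h4, Pi.one_apply]
      norm_num
    · rw [Set.indicator_of_notMem h4, abs_zero]
      exact zero_le_one

theorem good_pp {ν : Measure S} [IsProbabilityMeasure ν] {w v' v : ℝ≥0} (h : w + v' = v) {R : ℕ}
    {F : (Bond d → ℝ × S) → Cfg d k → ℝ} (hF : Good (gm v ν) R F) :
    Good (gm w (gm v' ν)) R (fun X σ => F (pp X) σ) where
  loc := by
    intro X X' σ σ' h1 h2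
    refine hF.loc _ _ σ σ' (fun e he => ?_) h2
    unfold pp
    rw [h1 e he]
  meas := by
    intro σ hσ
    exact (hF.meas σ hσ).comp (Zk86.EKm.t_FUS d S ν w v').measurable
  mem := by
    intro σ hσ
    subst h
    exact (hF.mem σ hσ).comp_measurePreserving (Zk86.EKm.t_FUS d S ν w v')

theorem Mx_pp' (χ : S → ℝ) (F : (Bond d → ℝ × S) → Cfg d k → ℝ) (t : ℝ) (R : ℕ)
    (X : Bond d → ℝ × (ℝ × S)) (n : ℕ) :
    Mx R (FT (pw χ) F t) (pp X) 0 n =
      Mx R (FT (pw (pw χ)) (fun X σ => F (pp X) σ) t) X 0 n := by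
  unfold Mx
  refine sup'_congr _ rfl fun A _ => ?_
  unfold En
  refine sum_congr rfl fun x _ => ?_
  have h1 : th x (pp X) = pp (th x X) := rfl
  rw [h1]
  unfold FT
  rw [F0_pp]

theorem gg_pp' {ν : Measure S} [IsProbabilityMeasure ν] {w v' v : ℝ≥0}
    (h : w + v' = v) {χ : S → ℝ} (hχ : Measurable χ) (hχ2 : MemLp χ 2 ν) {R : ℕ}
    {F : (Bond d → ℝ × S) → Cfg d k → ℝ} (hF : Good (gm v ν) R F) (t : ℝ) :
    gg (gm v ν) (pw χ) R F t =
      gg (gm w (gm v' ν)) (pw (pw χ)) R (fun X σ => F (pp X) σ) t := by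
  subst h
  have hmp := Zk86.EKm.t_FUS d S ν w v'
  unfold gg gl
  congr 1
  funext n
  congr 1
  unfold am
  have hm := Mx_meas (FT_good (pw_meas hχ) (pw_mem hχ2) hF t) 0 n
  have h2 := integral_map (μ := PX d (gm w (gm v' ν))) hmp.measurable.aemeasurable
    (f := fun Y => Mx (R + 2) (FT (pw χ) F t) Y 0 n)
    (by rw [hmp.map_eq]; exact hm.aestronglyMeasurable)
  rw [hmp.map_eq] at h2
  rw [h2]
  refine integral_congr_ae (ae_of_all _ fun X => ?_)
  exact Mx_pp' χ F t (R + 2) X n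

/-- No kink for the local events. -/
theorem Fu_diff {v : ℝ≥0} (hv : v ≠ 0)
    {ν : Measure S} [IsProbabilityMeasure ν] {χ : S → ℝ} (hχ : Measurable χ) (hχ2 : MemLp χ 2 ν)
    {U : Set (Bond 2 → ℝ × S)} (hU : MeasurableSet U) {E : Finset (Bond 2)}
    (hE : ∀ X X' : Bond 2 → ℝ × S, (∀ e ∈ E, X e = X' e) → (X ∈ U ↔ X' ∈ U)) (i : Fin 2) {N : ℕ}
    (hN : ∀ e ∈ E, ∀ j, |e.1 j| ≤ N) {l r : ℝ} (hle : l ≤ r)
    (hr1 : ∀ t : ℝ, 0 < t → r * t ≤ gg (gm v ν) (pw χ) (2 * N + 2) (Fu (fun _ => (N : ℤ)) i U)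
      (0 + t) - gg (gm v ν) (pw χ) (2 * N + 2) (Fu (fun _ => (N : ℤ)) i U) 0)
    (hl1 : ∀ t : ℝ, 0 < t → gg (gm v ν) (pw χ) (2 * N + 2) (Fu (fun _ => (N : ℤ)) i U) 0 -
      gg (gm v ν) (pw χ) (2 * N + 2) (Fu (fun _ => (N : ℤ)) i U) (0 - t) ≤ l * t)
    (hlr : ∀ ε : ℝ, 0 < ε → ∃ t0 : ℝ, 0 < t0 ∧ ∀ t : ℝ, 0 < t → t ≤ t0 →
      gg (gm v ν) (pw χ) (2 * N + 2) (Fu (fun _ => (N : ℤ)) i U) (0 + t) -
        gg (gm v ν) (pw χ) (2 * N + 2) (Fu (fun _ => (N : ℤ)) i U) 0 ≤ (r + ε) * t ∧
      (l - ε) * t ≤ gg (gm v ν) (pw χ) (2 * N + 2) (Fu (fun _ => (N : ℤ)) i U) 0 -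
        gg (gm v ν) (pw χ) (2 * N + 2) (Fu (fun _ => (N : ℤ)) i U) (0 - t)) : l = r := by
  classical
  by_contra hne
  have hlt : l < r := lt_of_le_of_ne hle hne
  have hG := Fu_good (μ := gm v ν) hU hE i hN
  have hψ := pw_meas hχ
  set z : Site 2 := fun _ => (N : ℤ) with hz
  set δ := (r - l) / 16 with hδ
  have hδ0 : 0 < δ := by rw [hδ]; linarith
  obtain ⟨w, v', hw, hwv, V, hV⟩ := Zk86.EKm.t_SPL 2 S ν v hv (fun _ => U) (fun _ => hU) (δ / 2)
    (by linarith)
  have hχ2' : MemLp (pw χ) 2 (gm v' ν) := pw_mem hχ2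
  have hmp := Zk86.EKm.t_FUS 2 S ν w v'
  rw [hwv] at hmp
  have hG2 := good_pp hwv hG
  have hgg : gg (gm v ν) (pw χ) (2 * N + 2) (Fu z i U) =
      gg (gm w (gm v' ν)) (pw (pw χ)) (2 * N + 2) (fun X σ => Fu z i U (pp X) σ) := by
    funext t
    exact gg_pp' hwv hχ hχ2 hG t
  rw [hgg] at hr1 hl1 hlr
  have hatt := prob_att (c := fun _ => -z) le_rfl (pw_meas hψ) (pw_mem hχ2')
    (pw_atom hw hψ) hG2 hr1 hl1 hlr (show 0 < (r - l) / 4 by linarith)
  have hEn : ∀ (X : Bond 2 → ℝ × (ℝ × S)) (n : ℕ) (σ : Cfg 2 1),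
      En (fun X σ => Fu z i U (pp X) σ) X (cube (-z) n) σ = su i U n (pp X) (σ 0) := by
    intro X n σ
    rw [← En_Fu z i U (pp X) n σ]
    rfl
  set m : Fin 2 → (Bond 2 → ℝ × (ℝ × S)) → ℝ := fun j X =>
    if j = i then U.indicator (1 : (Bond 2 → ℝ × S) → ℝ) (pp X) else 0 with hm
  set φ : Fin 2 → (Bond 2 → ℝ × S) → ℝ := fun j Y =>
    if j = i then (V i).indicator (1 : (Bond 2 → ℝ × S) → ℝ) Y else 0 with hφ
  have hms : ∀ (X : Bond 2 → ℝ × (ℝ × S)) (n : ℕ) (ρ : Site 2 → ℝ),
      ms m n X ρ = su i U n (pp X) ρ := by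
    intro X n ρ
    unfold ms su
    rw [sum_product]
    refine sum_congr rfl fun x _ => ?_
    simp only [hm]
    rw [sum_eq_single i]
    · rw [if_pos rfl]
      rfl
    · intro j _ hj
      rw [if_neg hj, zero_mul]
    · intro h
      exact absurd (mem_univ _) h
  have hφm : ∀ j, Measurable (φ j) := by
    intro j
    simp only [hφ]
    by_cases hj : j = i
    · simp only [hj, if_true]
      exact measurable_one.indicator (hV i).1
    · simp only [hj, if_false]
      exact measurable_const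
  have hM : ∀ j Y, |φ j Y| ≤ 1 := by
    intro j Y
    simp only [hφ]
    by_cases hj : j = i
    · simp only [hj, if_true]
      by_cases h4 : Y ∈ V i
      · rw [Set.indicator_of_mem h4, Pi.one_apply]
        norm_num
      · rw [Set.indicator_of_notMem h4, abs_zero]
        exact zero_le_one
    · simp only [hj, if_false, abs_zero]
      exact zero_le_one
  set Bad : Set (Bond 2 → ℝ × (ℝ × S)) := {X | ¬ (pp X ∈ U ↔ yy X ∈ V i)} with hBad
  have hBm : MeasurableSet Bad := by
    have h1 : MeasurableSet (pp ⁻¹' U) := hmp.measurable hU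
    have h2 : MeasurableSet ((yy : (Bond 2 → ℝ × (ℝ × S)) → _) ⁻¹' (V i)) := yy_meas (hV i).1
    have h3 : Bad = (pp ⁻¹' U \ yy ⁻¹' (V i)) ∪ (yy ⁻¹' (V i) \ pp ⁻¹' U) := by
      ext X
      simp only [hBad, Set.mem_ofPred_eq, Set.mem_union, Set.mem_sdiff, Set.mem_preimage]
      tauto
    rw [h3]
    exact (h1.diff h2).union (h2.diff h1)
  have hcn : ∀ (X : Bond 2 → ℝ × (ℝ × S)) (n : ℕ), cn m φ n X =
      ∑ x ∈ cube (0 : Site 2) n, Bad.indicator 1 (th x X) := by
    intro X n
    unfold cn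
    rw [sum_product]
    refine sum_congr rfl fun x _ => ?_
    simp only [hm, hφ]
    rw [sum_eq_single i]
    · rw [if_pos rfl, if_pos rfl]
      by_cases h1 : pp (th x X) ∈ U <;> by_cases h2 : yy (th x X) ∈ V i
      · have : th x X ∉ Bad := by simp [hBad, h1, h2]
        rw [Set.indicator_of_notMem this, Set.indicator_of_mem h1, Set.indicator_of_mem h2]
        simp
      · have : th x X ∈ Bad := by simp [hBad, h1, h2]
        rw [Set.indicator_of_mem this, Set.indicator_of_mem h1, Set.indicator_of_notMem h2]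
        simp
      · have : th x X ∈ Bad := by simp [hBad, h1, h2]
        rw [Set.indicator_of_mem this, Set.indicator_of_notMem h1, Set.indicator_of_mem h2]
        simp
      · have : th x X ∉ Bad := by simp [hBad, h1, h2]
        rw [Set.indicator_of_notMem this, Set.indicator_of_notMem h1, Set.indicator_of_notMem h2]
        simp
    · intro j _ hj
      rw [if_neg hj, if_neg hj]
      simp
    · intro h
      exact absurd (mem_univ _) h
  have H1 : Tendsto (fun n : ℕ => (PX 2 (gm w (gm v' ν))) {X | δ * (n : ℝ) ^ 2 < cn m φ n X})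
      atTop (𝓝 0) := by
    have a0 := Zk39.EKm.t_LLN 2 (ℝ × (ℝ × S)) (gm w (gm v' ν)) Bad (by norm_num) hBm (δ / 2)
      (by linarith)
    refine tendsto_of_tendsto_of_tendsto_of_le_of_le tendsto_const_nhds a0 (fun _ => zero_le)
      fun n => measure_mono ?_
    intro X hX
    simp only [Set.mem_ofPred_eq] at hX ⊢
    rw [hcn] at hX
    have h3 := (hV i).2
    have hn' : (0 : ℝ) ≤ (n : ℝ) ^ 2 := by positivity
    have h5 := mul_le_mul_of_nonneg_right h3 hn'
    simp only [hBad] at hX ⊢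
    nlinarith
  refine sel_gen (p := r - (r - l) / 4) (q := l + (r - l) / 4) hw hψ hχ2' hφm hM hδ0
    (by rw [hδ]; linarith) H1 ?_ ?_
  · refine tendsto_of_tendsto_of_tendsto_of_le_of_le tendsto_const_nhds hatt (fun _ => zero_le)
      fun n => measure_mono ?_
    intro X hX hcon
    apply hX
    obtain ⟨σ, -, hσ, -, h1, -⟩ := hcon
    refine ⟨σ 0, hσ 0, ?_⟩
    rw [hms, ← hEn X n σ]
    exact h1
  · refine tendsto_of_tendsto_of_tendsto_of_le_of_le tendsto_const_nhds hatt (fun _ => zero_le)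
      fun n => measure_mono ?_
    intro X hX hcon
    apply hX
    obtain ⟨-, τ, -, hτ, -, h2⟩ := hcon
    refine ⟨τ 0, hτ 0, ?_⟩
    rw [hms, ← hEn X n τ]
    exact h2

end Pool.Agent.Zk58.EK
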