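import Pool.Agent.Zk58.EK.Final

set_option autoImplicit false
set_option linter.unusedSectionVars false

/-!
Shifts of Gaussian coordinates by amounts which depend on the other coordinates: the law of the
shifted environment is contiguous to the law of the environment.
-/

namespace Pool.Agent.Zk58.EK

open Finset MeasureTheory ProbabilityTheory Filter

open scoped BigOperators ENNReal Topology NNReal

/-- Resampling of one coordinate. -/
theorem resample {d : ℕ} {S : Type} [MeasurableSpace S] (μ : Measure S) [IsProbabilityMeasure μ]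
    (e : Bond d) :
    MeasurePreserving (fun p : (Bond d → S) × S => Function.update p.1 e p.2)
      ((PX d μ).prod μ) (PX d μ) := by
  classical
  have hm : Measurable (fun p : (Bond d → S) × S => Function.update p.1 e p.2) := by
    refine measurable_pi_lambda _ fun b => ?_
    by_cases hb : b = e
    · subst hb
      simpa using measurable_snd
    · simp only [Function.update_of_ne hb]
      exact (measurable_pi_apply b).comp measurable_fst
  refine ⟨hm, ?_⟩
  unfold PX
  refine Measure.eq_infinitePi (fun _ : Bond d => μ) fun s t ht => ?_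
  have hms : MeasurableSet (Set.pi (s : Set (Bond d)) t) :=
    MeasurableSet.pi s.countable_toSet fun i _ => ht i
  rw [Measure.map_apply hm hms]
  have hset : (fun p : (Bond d → S) × S => Function.update p.1 e p.2) ⁻¹' (Set.pi s t) =
      (Set.pi ((s.erase e : Finset (Bond d)) : Set (Bond d)) t) ×ˢ
        (if e ∈ s then t e else Set.univ) := by
    ext p
    simp only [Set.mem_preimage, Set.mem_pi, Set.mem_prod, mem_coe, mem_erase]
    constructor
    · intro h
      refine ⟨fun i hi => ?_, ?_⟩
      · have := h i hi.2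
        rwa [Function.update_of_ne hi.1] at this
      · split_ifs with he
        · have := h e he
          rwa [Function.update_self] at this
        · exact Set.mem_univ _
    · rintro ⟨h1, h2⟩ i hi
      by_cases hie : i = e
      · subst hie
        rw [Function.update_self]
        rwa [if_pos hi] at h2
      · rw [Function.update_of_ne hie]
        exact h1 i ⟨hie, hi⟩
  rw [hset, Measure.prod_prod, Measure.infinitePi_pi _ fun i _ => ht i]
  by_cases he : e ∈ s
  · rw [if_pos he, prod_erase_mul _ _ he]
  · rw [if_neg he, measure_univ, mul_one, erase_eq_of_notMem he]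

/-- The Gaussian density of a translate. -/
theorem gauss_shift {v : ℝ≥0} (hv : v ≠ 0) (c : ℝ) {f : ℝ → ℝ≥0∞} (hf : Measurable f) :
    ∫⁻ a, f (a + c) ∂(gaussianReal 0 v) =
      ∫⁻ a, f a * ENNReal.ofReal (Real.exp (c * a / v - c ^ 2 / (2 * v))) ∂(gaussianReal 0 v) := by
  have h1 : ∫⁻ a, f (a + c) ∂(gaussianReal 0 v) = ∫⁻ a, f a ∂(gaussianReal c v) := by
    have h2 := gaussianReal_map_add_const (μ := 0) (v := v) c
    rw [zero_add] at h2
    rw [← h2, lintegral_map hf (measurable_add_const c)]
  have hv' : (v : ℝ) ≠ 0 := by exact_mod_cast hv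
  rw [h1, gaussianReal_of_var_ne_zero _ hv, gaussianReal_of_var_ne_zero _ hv,
    lintegral_withDensity_eq_lintegral_mul _ (measurable_gaussianPDF _ _) hf,
    lintegral_withDensity_eq_lintegral_mul _ (measurable_gaussianPDF _ _) (by fun_prop)]
  refine lintegral_congr fun a => ?_
  simp only [Pi.mul_apply]
  have h3 : gaussianPDF c v a = gaussianPDF 0 v a *
      ENNReal.ofReal (Real.exp (c * a / v - c ^ 2 / (2 * v))) := by
    unfold gaussianPDF
    rw [← ENNReal.ofReal_mul (gaussianPDFReal_nonneg _ _ _)]
    congr 1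
    unfold gaussianPDFReal
    rw [mul_assoc (√(2 * Real.pi * v))⁻¹, ← Real.exp_add]
    congr 2
    field_simp
    ring
  rw [h3]
  ring

variable {d : ℕ} {S : Type} [MeasurableSpace S]

/-- The law of one coordinate. -/
noncomputable def gm (v : ℝ≥0) (ν : Measure S) : Measure (ℝ × S) := (gaussianReal 0 v).prod ν

instance (v : ℝ≥0) (ν : Measure S) [IsProbabilityMeasure ν] : IsProbabilityMeasure (gm v ν) := by
  unfold gm
  infer_instance

/-- The second components. -/
def yy (X : Bond d → ℝ × S) : Bond d → S := fun e => (X e).2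

theorem yy_meas : Measurable (yy (d := d) (S := S)) :=
  measurable_pi_lambda _ fun e => (measurable_pi_apply e).snd

/-- The shift. -/
noncomputable def TT (L : Finset (Bond d)) (u : Bond d → (Bond d → S) → ℝ) (X : Bond d → ℝ × S) :
    Bond d → ℝ × S := by
  classical
  exact fun e => if e ∈ L then ((X e).1 + u e (yy X), (X e).2) else X e

/-- The density. -/
noncomputable def hh (v : ℝ≥0) (L : Finset (Bond d)) (u : Bond d → (Bond d → S) → ℝ)
    (X : Bond d → ℝ × S) : ℝ≥0∞ :=
  ∏ e ∈ L, ENNReal.ofReal (Real.exp (u e (yy X) * (X e).1 / v - (u e (yy X)) ^ 2 / (2 * v)))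

theorem TT_in {L : Finset (Bond d)} (u : Bond d → (Bond d → S) → ℝ) (X : Bond d → ℝ × S)
    {e : Bond d} (h : e ∈ L) : TT L u X e = ((X e).1 + u e (yy X), (X e).2) := by
  unfold TT
  rw [if_pos h]

theorem TT_out {L : Finset (Bond d)} (u : Bond d → (Bond d → S) → ℝ) (X : Bond d → ℝ × S)
    {e : Bond d} (h : e ∉ L) : TT L u X e = X e := by
  unfold TT
  rw [if_neg h]

theorem yy_TT (L : Finset (Bond d)) (u : Bond d → (Bond d → S) → ℝ) (X : Bond d → ℝ × S) :
    yy (TT L u X) = yy X := by
  classical
  funext e
  unfold yy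
  by_cases h : e ∈ L
  · rw [TT_in u X h]
  · rw [TT_out u X h]

theorem TT_meas (L : Finset (Bond d)) {u : Bond d → (Bond d → S) → ℝ} (hu : ∀ e, Measurable (u e)) :
    Measurable (TT L u) := by
  classical
  refine measurable_pi_lambda _ fun e => ?_
  unfold TT
  by_cases he : e ∈ L
  · simp only [he, if_true]
    exact ((measurable_pi_apply e).fst.add ((hu e).comp yy_meas)).prodMk (measurable_pi_apply e).snd
  · simp only [he, if_false]
    exact measurable_pi_apply e

theorem hh_meas (v : ℝ≥0) (L : Finset (Bond d)) {u : Bond d → (Bond d → S) → ℝ}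
    (hu : ∀ e, Measurable (u e)) : Measurable (hh v L u) := by
  unfold hh
  refine Finset.measurable_fun_prod _ fun e _ => ?_
  have h1 : Measurable fun X : Bond d → ℝ × S => u e (yy X) := (hu e).comp yy_meas
  have h2 : Measurable fun X : Bond d → ℝ × S => (X e).1 := (measurable_pi_apply e).fst
  exact ENNReal.measurable_ofReal.comp (Real.measurable_exp.comp
    (((h1.mul h2).div_const _).sub ((h1.pow_const 2).div_const _)))

/-- One bond. -/
theorem shift_one {v : ℝ≥0} (hv : v ≠ 0) (ν : Measure S) [IsProbabilityMeasure ν] (e : Bond d)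
    {u : Bond d → (Bond d → S) → ℝ} (hu : ∀ e, Measurable (u e))
    {f : (Bond d → ℝ × S) → ℝ≥0∞} (hf : Measurable f) :
    ∫⁻ X, f (TT {e} u X) ∂(PX d (gm v ν)) = ∫⁻ X, f X * hh v {e} u X ∂(PX d (gm v ν)) := by
  classical
  have hr := resample (gm v ν) e
  have hfT : Measurable fun X => f (TT {e} u X) := hf.comp (TT_meas _ hu)
  have hfh : Measurable fun X => f X * hh v {e} u X := hf.mul (hh_meas v _ hu)
  rw [← hr.lintegral_comp hfT, ← hr.lintegral_comp hfh]
  have k1 : Measurable fun p : (Bond d → ℝ × S) × (ℝ × S) =>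
    f (TT {e} u (Function.update p.1 e p.2)) := hfT.comp hr.measurable
  have k2 : Measurable fun p : (Bond d → ℝ × S) × (ℝ × S) =>
    f (Function.update p.1 e p.2) * hh v {e} u (Function.update p.1 e p.2) :=
    hfh.comp hr.measurable
  rw [lintegral_prod _ k1.aemeasurable, lintegral_prod _ k2.aemeasurable]
  refine lintegral_congr fun X => ?_
  unfold gm
  have m1 : Measurable fun q : ℝ × S => f (TT {e} u (Function.update X e q)) :=
    hfT.comp (hr.measurable.comp (measurable_prodMk_left (x := X)))
  have m2 : Measurable fun q : ℝ × S => f (Function.update X e q) *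
      hh v {e} u (Function.update X e q) :=
    hfh.comp (hr.measurable.comp (measurable_prodMk_left (x := X)))
  have m3 : Measurable fun q : ℝ × S => f (Function.update X e q) :=
    hf.comp (hr.measurable.comp (measurable_prodMk_left (x := X)))
  rw [lintegral_prod_symm _ m1.aemeasurable, lintegral_prod_symm _ m2.aemeasurable]
  refine lintegral_congr fun y => ?_
  set c : ℝ := u e (Function.update (yy X) e y) with hc
  have hyy : ∀ a : ℝ, yy (Function.update X e (a, y)) = Function.update (yy X) e y := by
    intro a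
    funext b
    unfold yy
    by_cases hb : b = e
    · subst hb; simp
    · simp [Function.update_of_ne hb]
  have e1 : ∀ a : ℝ, f (TT {e} u (Function.update X e (a, y))) =
      (fun a => f (Function.update X e (a, y))) (a + c) := by
    intro a
    congr 1
    funext b
    unfold TT
    rw [hyy]
    by_cases hb : b = e
    · subst hb; simp [hc]
    · simp [Function.update_of_ne hb, hb]
  have e2 : ∀ a : ℝ, f (Function.update X e (a, y)) * hh v {e} u (Function.update X e (a, y)) =
      (fun a => f (Function.update X e (a, y))) a *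
        ENNReal.ofReal (Real.exp (c * a / v - c ^ 2 / (2 * v))) := by
    intro a
    unfold hh
    rw [prod_singleton, hyy, ← hc, Function.update_self]
  simp only [e1, e2]
  exact gauss_shift hv c (m3.comp (measurable_id.prodMk measurable_const))

theorem TT_insert {L : Finset (Bond d)} {e : Bond d} (he : e ∉ L) (u : Bond d → (Bond d → S) → ℝ)
    (X : Bond d → ℝ × S) [DecidableEq (Bond d)] :
    TT (insert e L) u X = TT {e} u (TT L u X) := by
  funext b
  have h1 : yy (TT L u X) = yy X := yy_TT L u X
  by_cases hb : b = e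
  · subst hb
    rw [TT_in u X (mem_insert_self _ _), TT_in u (TT L u X) (mem_singleton_self _), h1,
      TT_out u X he]
  · rw [TT_out u (TT L u X) (by rwa [mem_singleton])]
    by_cases hL : b ∈ L
    · rw [TT_in u X (mem_insert_of_mem hL), TT_in u X hL]
    · rw [TT_out u X (by rw [mem_insert]; tauto), TT_out u X hL]

/-- The shift formula. -/
theorem shift_all {v : ℝ≥0} (hv : v ≠ 0) (ν : Measure S) [IsProbabilityMeasure ν]
    (L : Finset (Bond d)) {u : Bond d → (Bond d → S) → ℝ} (hu : ∀ e, Measurable (u e)) :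
    ∀ {f : (Bond d → ℝ × S) → ℝ≥0∞}, Measurable f →
    ∫⁻ X, f (TT L u X) ∂(PX d (gm v ν)) = ∫⁻ X, f X * hh v L u X ∂(PX d (gm v ν)) := by
  classical
  induction L using Finset.induction_on with
  | empty =>
    intro f hf
    refine lintegral_congr fun X => ?_
    have : TT ∅ u X = X := by
      funext b
      unfold TT
      simp
    rw [this]
    unfold hh
    rw [prod_empty, mul_one]
  | insert e L he ih =>
    intro f hf
    have h1 : ∀ X, f (TT (insert e L) u X) = (fun X => f (TT {e} u X)) (TT L u X) := by
      intro X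
      rw [TT_insert he]
    simp only [h1]
    rw [ih (f := fun X => f (TT {e} u X)) (hf.comp (TT_meas _ hu))]
    have h2 : ∀ X, f (TT {e} u X) * hh v L u X =
        (fun X => f X * hh v L u X) (TT {e} u X) := by
      intro X
      simp only
      congr 1
      unfold hh
      refine prod_congr rfl fun b hb => ?_
      rw [yy_TT]
      have : TT {e} u X b = X b := by
        have hbe : b ≠ e := fun h => he (h ▸ hb)
        unfold TT
        simp [hbe]
      rw [this]
    simp only [h2]
    rw [shift_one hv ν e hu (f := fun X => f X * hh v L u X) (hf.mul (hh_meas v L hu))]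
    refine lintegral_congr fun X => ?_
    unfold hh
    rw [prod_insert he, prod_singleton]
    ring

/-- The second moment of the density. -/
theorem hh_sq {v : ℝ≥0} (hv : v ≠ 0) (ν : Measure S) [IsProbabilityMeasure ν]
    (L : Finset (Bond d)) {u : Bond d → (Bond d → S) → ℝ} (hu : ∀ e, Measurable (u e))
    {κ : ℝ} (hκ : ∀ e Y, (u e Y) ^ 2 ≤ κ) :
    ∫⁻ X, hh v L u X ^ 2 ∂(PX d (gm v ν)) ≤ ENNReal.ofReal (Real.exp (κ * L.card / v)) := by
  classical
  have hv' : (0 : ℝ) < v := by
    have := NNReal.coe_pos.2 (pos_iff_ne_zero.2 hv)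
    exact this
  have h1 : ∀ X : Bond d → ℝ × S, hh v L u X ^ 2 ≤
      hh v L (fun e Y => 2 * u e Y) X * ENNReal.ofReal (Real.exp (κ * L.card / v)) := by
    intro X
    have e0 : Real.exp (κ * L.card / v) = ∏ e ∈ L, Real.exp (κ / v) := by
      rw [← Real.exp_sum, sum_const, nsmul_eq_mul]
      congr 1
      ring
    rw [e0, ENNReal.ofReal_prod_of_nonneg fun _ _ => (Real.exp_pos _).le]
    unfold hh
    rw [← prod_pow, ← prod_mul_distrib]
    refine prod_le_prod' fun e _ => ?_
    rw [← ENNReal.ofReal_pow (Real.exp_pos _).le, ← ENNReal.ofReal_mul (Real.exp_pos _).le]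
    refine ENNReal.ofReal_le_ofReal ?_
    rw [← Real.exp_add, ← Real.exp_nat_mul]
    refine Real.exp_le_exp.2 ?_
    have h2 := hκ e (yy X)
    have h3 : (u e (yy X)) ^ 2 / v ≤ κ / v := div_le_div_of_nonneg_right h2 hv'.le
    have h4 : ((2 : ℕ) : ℝ) * (u e (yy X) * (X e).1 / v - (u e (yy X)) ^ 2 / (2 * v)) =
      2 * u e (yy X) * (X e).1 / v - (2 * u e (yy X)) ^ 2 / (2 * v) + (u e (yy X)) ^ 2 / v := by
      field_simp
      push_cast
      ring
    rw [h4]
    linarith
  refine (lintegral_mono h1).trans ?_
  have hu2 : ∀ e, Measurable (fun Y => 2 * u e Y) := fun e => (hu e).const_mul 2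
  rw [lintegral_mul_const _ (hh_meas v L hu2)]
  have h5 := shift_all hv ν L (u := fun e Y => 2 * u e Y) hu2 (f := fun _ => 1) measurable_const
  simp only [one_mul] at h5
  rw [← h5, lintegral_const, measure_univ, mul_one, one_mul]

/-- Contiguity. -/
theorem contig {v : ℝ≥0} (hv : v ≠ 0) (ν : Measure S) [IsProbabilityMeasure ν]
    (L : Finset (Bond d)) {u : Bond d → (Bond d → S) → ℝ} (hu : ∀ e, Measurable (u e))
    {κ : ℝ} (hκ : ∀ e Y, (u e Y) ^ 2 ≤ κ) (A : Set (Bond d → ℝ × S)) {K : ℝ≥0∞} (hK : K ≠ 0)
    (hK' : K ≠ ⊤) :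
    (PX d (gm v ν)) (TT L u ⁻¹' A) ≤ K * (PX d (gm v ν)) A +
      K⁻¹ * ENNReal.ofReal (Real.exp (κ * L.card / v)) := by
  classical
  set P := PX d (gm v ν)
  set A' := toMeasurable P A
  have hA' : MeasurableSet A' := measurableSet_toMeasurable _ _
  have h1 : P (TT L u ⁻¹' A) ≤ P (TT L u ⁻¹' A') :=
    measure_mono (Set.preimage_mono (subset_toMeasurable _ _))
  have h2 : P (TT L u ⁻¹' A') = ∫⁻ X, A'.indicator 1 X * hh v L u X ∂P := by
    rw [← shift_all hv ν L hu (f := A'.indicator 1) (measurable_one.indicator hA')]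
    have : ∀ X, A'.indicator (1 : (Bond d → ℝ × S) → ℝ≥0∞) (TT L u X) =
        (TT L u ⁻¹' A').indicator 1 X := fun X => rfl
    simp only [this]
    rw [lintegral_indicator_one (TT_meas L hu hA')]
  have h3 : ∀ X, A'.indicator (1 : (Bond d → ℝ × S) → ℝ≥0∞) X * hh v L u X ≤
      K * A'.indicator (1 : (Bond d → ℝ × S) → ℝ≥0∞) X + K⁻¹ * hh v L u X ^ 2 := by
    intro X
    by_cases hX : X ∈ A'
    · rw [Set.indicator_of_mem hX, Pi.one_apply, one_mul, mul_one]
      rcases le_total (hh v L u X) K with h | h
      · exact h.trans le_self_add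
      · refine le_trans ?_ le_add_self
        rw [sq, ← mul_assoc]
        have : 1 ≤ K⁻¹ * hh v L u X := by
          rw [← ENNReal.inv_mul_cancel hK hK']
          exact mul_le_mul_right h _
        calc hh v L u X = 1 * hh v L u X := (one_mul _).symm
          _ ≤ _ := mul_le_mul_left this _
    · rw [Set.indicator_of_notMem hX, zero_mul]
      exact zero_le
  calc P (TT L u ⁻¹' A) ≤ ∫⁻ X, A'.indicator 1 X * hh v L u X ∂P := h1.trans h2.le
    _ ≤ ∫⁻ X, (K * A'.indicator (1 : (Bond d → ℝ × S) → ℝ≥0∞) X + K⁻¹ * hh v L u X ^ 2) ∂P :=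
      lintegral_mono h3
    _ = K * P A + K⁻¹ * ∫⁻ X, hh v L u X ^ 2 ∂P := by
      rw [lintegral_add_left ((measurable_one.indicator hA').const_mul K),
        lintegral_const_mul _ (measurable_one.indicator hA'),
        lintegral_const_mul _ ((hh_meas v L hu).pow_const 2), lintegral_indicator_one hA',
        measure_toMeasurable]
    _ ≤ _ := by
      gcongr
      exact hh_sq hv ν L hu hκ

end Pool.Agent.Zk58.EK
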