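import Pool.Agent.Zk58.EK.Exp

set_option autoImplicit false
set_option linter.unusedSectionVars false

/-!
Tail estimates for the averages over nearly optimal configurations and over ground states.
-/

namespace Pool.Agent.Zk58.EK

open Finset MeasureTheory ProbabilityTheory Filter

open scoped BigOperators ENNReal Topology

variable {d k : ℕ} {S : Type} [MeasurableSpace S] {μ : Measure S} [IsProbabilityMeasure μ]
  {ψ : S → ℝ} {R : ℕ} {F : (Bond d → S) → Cfg d k → ℝ}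

/-- The sum of the absolute values of the couplings at a site. -/
noncomputable def Fa (d k : ℕ) (ψ : S → ℝ) (X : Bond d → S) (_ : Cfg d k) : ℝ :=
  ∑ i, |ψ (X (0, i))|

theorem Fa_good (hψ : Measurable ψ) (hψ2 : MemLp ψ 2 μ) : Good μ 2 (Fa d k ψ) where
  loc := by
    intro X X' σ σ' h1 h2
    unfold Fa
    refine sum_congr rfl fun i _ => ?_
    rw [h1 (0, i) (mem_bonds.2 ⟨zero_mem_two, tip_mem_two i⟩)]
  meas := by
    intro σ _
    unfold Fa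
    exact Finset.measurable_fun_sum _ fun i _ => (hψ.comp (measurable_pi_apply _)).abs
  mem := by
    intro σ _
    unfold Fa
    exact memLp_finsetSum _ fun i _ => (ev_mem hψ2 _).abs

/-- The sum of the couplings near the boundary of a cube. -/
noncomputable def Tn (ψ : S → ℝ) (X : Bond d → S) (c : Site d) (n : ℕ) : ℝ :=
  ∑ e ∈ Ex c n ×ˢ (Finset.univ : Finset (Fin d)), |ψ (X e)|

theorem Tn_le (hψ : Measurable ψ) (hψ2 : MemLp ψ 2 μ) (X : Bond d → S) (c : Site d) (n : ℕ) :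
    Tn ψ X c n ≤ ∑ x ∈ Ex c n, Ab 2 (Fa d 0 ψ) (th x X) := by
  unfold Tn
  rw [sum_product]
  refine sum_le_sum fun x _ => ?_
  have h := abs_F_le (Fa_good (d := d) (k := 0) hψ hψ2).loc (th x X) (conf_sp ∅)
  refine le_trans (le_of_eq ?_) ((le_abs_self _).trans h)
  unfold Fa th
  simp only [zero_add]

theorem Ex_card (c : Site d) {n : ℕ} :
    ((Ex c n).card : ℝ) ≤ ((n : ℝ) + 1) ^ d - ((n - 1 : ℕ) : ℝ) ^ d := by
  classical
  have hsub : cube c (n - 1) ⊆ cube (fun i => c i - 1) (n + 1) := by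
    intro x hx
    rw [mem_cube] at hx ⊢
    intro i
    have := hx i
    push_cast
    constructor
    · linarith [this.1]
    · have := this.2
      omega
  have h1 : (Ex c n).card + (cube c (n - 1)).card = (cube (fun i => c i - 1) (n + 1)).card := by
    unfold Ex
    rw [card_sdiff_add_card_eq_card hsub]
  rw [card_cube, card_cube] at h1
  have h2 : ((Ex c n).card : ℝ) + ((n - 1 : ℕ) : ℝ) ^ d = ((n : ℝ) + 1) ^ d := by
    exact_mod_cast h1
  linarith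

theorem ratio_lim (d : ℕ) : Tendsto (fun n : ℕ => (((n : ℝ) + 1) ^ d - ((n - 1 : ℕ) : ℝ) ^ d) /
    (n : ℝ) ^ d) atTop (𝓝 0) := by
  have h1 : Tendsto (fun n : ℕ => (1 : ℝ) / (n : ℝ)) atTop (𝓝 0) :=
    tendsto_one_div_atTop_nhds_zero_nat
  have h2 : Tendsto (fun n : ℕ => (1 + (1 : ℝ) / (n : ℝ)) ^ d - (1 - (1 : ℝ) / (n : ℝ)) ^ d) atTop
      (𝓝 ((1 + 0) ^ d - (1 - 0) ^ d)) :=
    ((h1.const_add 1).pow d).sub ((h1.const_sub 1).pow d)
  simp only [add_zero, sub_zero, sub_self] at h2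
  refine h2.congr' ?_
  filter_upwards [eventually_ge_atTop 1] with n hn
  have hn' : (0 : ℝ) < n := by exact_mod_cast hn
  rw [Nat.cast_sub hn, Nat.cast_one, sub_div, ← div_pow, ← div_pow]
  congr 2
  · field_simp
  · field_simp

/-- The tail of the boundary sum. -/
theorem Tn_tail (hψ : Measurable ψ) (hψ2 : MemLp ψ 2 μ) {δ : ℝ} (hδ : 0 < δ) :
    ∃ C : ℝ, 0 ≤ C ∧ ∃ n0 : ℕ, ∀ n ≥ n0, ∀ c : Site d,
      (PX d μ).real {X | δ * (n : ℝ) ^ d ≤ Tn ψ X c n} ≤ C / (n : ℝ) ^ d := by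
  have hG := Fa_good (d := d) (k := 0) (μ := μ) hψ hψ2
  have hb := bm_nonneg (μ := μ) 2 (Fa d 0 ψ)
  have hv := vm_nonneg (μ := μ) 2 (Fa d 0 ψ)
  have l1 : Tendsto (fun n : ℕ => (((n : ℝ) + 1) ^ d - ((n - 1 : ℕ) : ℝ) ^ d) /
      (n : ℝ) ^ d * bm μ 2 (Fa d 0 ψ)) atTop (𝓝 0) := by
    simpa using (ratio_lim d).mul_const (bm μ 2 (Fa d 0 ψ))
  obtain ⟨N, hN⟩ := eventually_atTop.1 (((l1.eventually
    (gt_mem_nhds (show 0 < δ / 2 by linarith))).and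
    ((ratio_lim d).eventually (gt_mem_nhds (show (0 : ℝ) < 1 by norm_num)))).and
      (eventually_gt_atTop 0))
  refine ⟨4 * ((2 * ((2 : ℕ) : ℝ)) ^ d * vm μ 2 (Fa d 0 ψ)) / δ ^ 2, by positivity, N,
    fun n hn c => ?_⟩
  obtain ⟨⟨h1, h2⟩, h3⟩ := hN n hn
  have hn' : (0 : ℝ) < (n : ℝ) ^ d := by positivity
  let T : (Bond d → S) → ℝ := fun X => ∑ x ∈ Ex c n, Ab 2 (Fa d 0 ψ) (th x X)
  have hT : MemLp T 2 (PX d μ) := memLp_finsetSum _ fun x _ => Abx_mem hG x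
  have hTm : ∫ X, T X ∂(PX d μ) = ((Ex c n).card : ℝ) * bm μ 2 (Fa d 0 ψ) := sum_mean hG _
  have hcard := Ex_card c (n := n)
  rw [div_mul_eq_mul_div, div_lt_iff₀ hn'] at h1
  rw [div_lt_iff₀ hn', one_mul] at h2
  have hTv : variance T (PX d μ) ≤
      (n : ℝ) ^ d * ((2 * ((2 : ℕ) : ℝ)) ^ d * vm μ 2 (Fa d 0 ψ)) := by
    refine (sum_var hG _).trans (mul_le_mul_of_nonneg_right ?_ (by positivity))
    linarith
  have hc : 0 < δ / 2 * (n : ℝ) ^ d := by positivity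
  have p1 := meas_real_le hT hc hTv
  have hsub : {X | δ * (n : ℝ) ^ d ≤ Tn ψ X c n} ⊆
      {X | δ / 2 * (n : ℝ) ^ d ≤ |T X - ∫ a, T a ∂(PX d μ)|} := by
    intro X hX
    simp only [Set.mem_ofPred_eq] at hX ⊢
    have q1 : Tn ψ X c n ≤ T X := Tn_le hψ hψ2 X c n
    rw [hTm]
    have q2 : ((Ex c n).card : ℝ) * bm μ 2 (Fa d 0 ψ) ≤ δ / 2 * (n : ℝ) ^ d :=
      (mul_le_mul_of_nonneg_right hcard hb).trans h1.le
    refine le_trans ?_ (le_abs_self _)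
    linarith
  refine (measureReal_mono hsub).trans (p1.trans (le_of_eq ?_))
  field_simp
  ring

/-- The main tail estimate. -/
theorem near_tail (hψ : Measurable ψ) (hψ2 : MemLp ψ 2 μ) (hF : Good μ R F) {l r η t0 : ℝ}
    (hη : 0 < η) (ht0 : 0 < t0)
    (hr : ∀ t : ℝ, 0 < t → t ≤ t0 → gg μ ψ R F t - gg μ ψ R F 0 ≤ (r + η / 2) * t)
    (hl : ∀ t : ℝ, 0 < t → t ≤ t0 → (l - η / 2) * t ≤ gg μ ψ R F 0 - gg μ ψ R F (-t)) :
    ∃ δ : ℝ, 0 < δ ∧ ∃ C : ℝ, 0 ≤ C ∧ ∃ n0 : ℕ, ∀ n ≥ n0, ∀ c : Site d,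
      ∃ Bad : Set (Bond d → S), (PX d μ).real Bad ≤ C / (n : ℝ) ^ d ∧ ∀ X ∉ Bad,
        (∀ σ : Cfg d k, IsConf σ → (∀ τ : Cfg d k, IsConf τ →
          En (F0 ψ) X (cube c n) τ ≤ En (F0 ψ) X (cube c n) σ + δ * (n : ℝ) ^ d) →
          (l - η) * (n : ℝ) ^ d ≤ En F X (cube c n) σ ∧
            En F X (cube c n) σ ≤ (r + η) * (n : ℝ) ^ d) ∧
        (∀ σ : Cfg d k, BoxGS (fun e => ψ (X e)) c n σ → ∀ τ : Cfg d k, IsConf τ →
          En (F0 ψ) X (cube c n) τ ≤ En (F0 ψ) X (cube c n) σ + δ * (n : ℝ) ^ d) := by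
  set ε : ℝ := η * t0 / 8 with hε
  have hε0 : 0 < ε := by positivity
  obtain ⟨C1, hC1, n1, h1⟩ := tail (FT_good hψ hψ2 hF t0) hε0
  obtain ⟨C2, hC2, n2, h2⟩ := tail (FT_good hψ hψ2 hF (-t0)) hε0
  obtain ⟨C3, hC3, n3, h3⟩ := tail (FT_good hψ hψ2 hF 0) hε0
  obtain ⟨C4, hC4, n4, h4⟩ := Tn_tail (d := d) hψ hψ2 (show 0 < ε / (4 * (k + 1)) by positivity)
  refine ⟨ε, hε0, C1 + C2 + C3 + C4, by positivity, max (max n1 n2) (max n3 n4) + 1,
    fun n hn c => ?_⟩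
  have hn1 : n ≥ n1 := by omega
  have hn2 : n ≥ n2 := by omega
  have hn3 : n ≥ n3 := by omega
  have hn4 : n ≥ n4 := by omega
  have hn0 : 0 < n := by omega
  have hn' : (0 : ℝ) < (n : ℝ) ^ d := by positivity
  refine ⟨{X | ε * (n : ℝ) ^ d ≤ |Mx (R + 2) (FT ψ F t0) X c n - (n : ℝ) ^ d *
      gl μ (R + 2) (FT ψ F t0)|} ∪ ({X | ε * (n : ℝ) ^ d ≤ |Mx (R + 2) (FT ψ F (-t0)) X c n -
        (n : ℝ) ^ d * gl μ (R + 2) (FT ψ F (-t0))|} ∪
      ({X | ε * (n : ℝ) ^ d ≤ |Mx (R + 2) (FT ψ F 0) X c n - (n : ℝ) ^ d *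
        gl μ (R + 2) (FT ψ F 0)|} ∪
        {X | ε / (4 * (k + 1)) * (n : ℝ) ^ d ≤ Tn ψ X c n})), ?_, ?_⟩
  · refine (measureReal_union_le _ _).trans ?_
    refine (add_le_add (h1 n hn1 c) ((measureReal_union_le _ _).trans
      (add_le_add (h2 n hn2 c) ((measureReal_union_le _ _).trans
        (add_le_add (h3 n hn3 c) (h4 n hn4 c)))))).trans (le_of_eq ?_)
    ring
  · intro X hX
    simp only [Set.mem_union, Set.mem_ofPred_eq, not_or, not_le] at hX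
    obtain ⟨x1, x2, x3, x4⟩ := hX
    change |Mx (R + 2) (FT ψ F t0) X c n - (n : ℝ) ^ d * gg μ ψ R F t0| < _ at x1
    change |Mx (R + 2) (FT ψ F (-t0)) X c n - (n : ℝ) ^ d * gg μ ψ R F (-t0)| < _ at x2
    change |Mx (R + 2) (FT ψ F 0) X c n - (n : ℝ) ^ d * gg μ ψ R F 0| < _ at x3
    have e1 := hr t0 ht0 le_rfl
    have e2 := hl t0 ht0 le_rfl
    constructor
    · intro σ hσ hmax
      have a1 := En_le_Mx (FT_good hψ hψ2 hF t0).loc X c n hσ
      have a2 := En_le_Mx (FT_good hψ hψ2 hF (-t0)).loc X c n hσ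
      rw [En_FT] at a1 a2
      have a3 : Mx (R + 2) (FT ψ F 0) X c n ≤ En (F0 ψ) X (cube c n) σ + ε * (n : ℝ) ^ d := by
        obtain ⟨A, hA⟩ := exists_Mx (R + 2) (FT ψ F 0) X c n
        rw [hA, En_FT, zero_mul, add_zero]
        exact hmax _ (conf_sp A)
      rw [abs_lt] at x1 x2 x3
      have f1 := mul_le_mul_of_nonneg_right e1 hn'.le
      have f2 := mul_le_mul_of_nonneg_right e2 hn'.le
      have g1 : t0 * En F X (cube c n) σ ≤ t0 * ((r + η) * (n : ℝ) ^ d) := by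
        have : ε * (n : ℝ) ^ d = η * t0 / 8 * (n : ℝ) ^ d := by rw [hε]
        nlinarith [x1.1, x1.2, x3.1, x3.2, f1, mul_pos (mul_pos hη ht0) hn']
      have g2 : t0 * ((l - η) * (n : ℝ) ^ d) ≤ t0 * En F X (cube c n) σ := by
        have : ε * (n : ℝ) ^ d = η * t0 / 8 * (n : ℝ) ^ d := by rw [hε]
        nlinarith [x2.1, x2.2, x3.1, x3.2, f2, mul_pos (mul_pos hη ht0) hn']
      exact ⟨le_of_mul_le_mul_left g2 ht0, le_of_mul_le_mul_left g1 ht0⟩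
    · intro σ hσ τ hτ
      refine (En_near ψ X c n hσ hτ).trans ?_
      have b1 : (k : ℝ) * (4 * Tn ψ X c n) ≤ ε * (n : ℝ) ^ d := by
        have hk : (0 : ℝ) ≤ k := by positivity
        have b2 : (k : ℝ) * (4 * Tn ψ X c n) ≤
            k * (4 * (ε / (4 * (k + 1)) * (n : ℝ) ^ d)) :=
          mul_le_mul_of_nonneg_left (by linarith) hk
        refine b2.trans ?_
        have b3 : (k : ℝ) * (4 * (ε / (4 * (k + 1)) * (n : ℝ) ^ d)) =
            (k / (k + 1)) * (ε * (n : ℝ) ^ d) := by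
          field_simp
        rw [b3]
        have b4 : (k : ℝ) / (k + 1) ≤ 1 := by
          rw [div_le_one (by positivity)]
          linarith
        have b5 : 0 ≤ ε * (n : ℝ) ^ d := by positivity
        nlinarith
      unfold Tn at b1
      linarith

end Pool.Agent.Zk58.EK
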